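import Pool.Agent.Lib.H70X.Defs

/-! # Chunk QA3: the component of `{f < ρ}` containing a point (medium, pure Mathlib)

Proof. Let `l` be the infimum of the `t ∈ [a,x]` such that `f < ρ` on `[t,x]`, and `r` the supremum
of the `t ∈ [x,b]` such that `f < ρ` on `[x,t]`. Then `f < ρ` on `(l, r)`, so `f ≤ ρ` on `[l,r]` by
continuity if `l < r` (and `l < r` because `f < ρ` near `x` and `a < b`). If `a < l` then
`f l = ρ` (otherwise `f < ρ` near `l`); the same for `r < b`. If `l = a` and `r = b` then `f ≤ ρ` on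
`[a,b]`, and the given point with `ρ ≤ f` works; if `l = a` and `r < b` (or `a < l`) an end works.
`[l,r]` is a neighbourhood of `x` in `[a,b]`: `f < ρ` on `(x - δ, x + δ) ∩ [a,b]` for some `δ`.
The last claim is immediate from the definition of infimum and supremum. -/

open Polynomial MeasureTheory Set Filter Topology

namespace Pool.Agent.Lib.H70X

theorem comp_interval (f : ℝ → ℝ) (hf : Continuous f) (a b x ρ : ℝ) (hab : a < b)
    (hx : x ∈ Icc a b) (hfx : f x < ρ) (hy : ∃ y ∈ Icc a b, ρ ≤ f y) :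
    ∃ l r : ℝ, a ≤ l ∧ l ≤ x ∧ x ≤ r ∧ r ≤ b ∧ l < r ∧ (∀ y ∈ Icc l r, f y ≤ ρ) ∧
      (∃ y ∈ Icc l r, ρ ≤ f y) ∧ Icc l r ∈ 𝓝[Icc a b] x ∧
      ∀ l' r', a ≤ l' → l' ≤ x → x ≤ r' → r' ≤ b → (∀ y ∈ Icc l' r', f y < ρ) →
        l ≤ l' ∧ r' ≤ r := by
  have hnear : ∀ z, f z < ρ → ∃ δ > 0, ∀ y, |y - z| < δ → f y < ρ := by
    intro z hz
    have h1 : ∀ᶠ y in 𝓝 z, f y < ρ := hf.continuousAt.eventually_lt_const hz
    obtain ⟨δ, hδ, h2⟩ := Metric.eventually_nhds_iff.1 h1
    exact ⟨δ, hδ, fun y hy => h2 (by rw [Real.dist_eq]; exact hy)⟩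
  set A : Set ℝ := {t | a ≤ t ∧ t ≤ x ∧ ∀ y ∈ Icc t x, f y < ρ} with hA
  set B : Set ℝ := {t | x ≤ t ∧ t ≤ b ∧ ∀ y ∈ Icc x t, f y < ρ} with hB
  have hxA : x ∈ A := ⟨hx.1, le_rfl, fun y hy => by
    have : y = x := le_antisymm hy.2 hy.1
    rw [this]; exact hfx⟩
  have hxB : x ∈ B := ⟨le_rfl, hx.2, fun y hy => by
    have : y = x := le_antisymm hy.2 hy.1
    rw [this]; exact hfx⟩
  have hAb : BddBelow A := ⟨a, fun t ht => ht.1⟩
  have hBb : BddAbove B := ⟨b, fun t ht => ht.2.1⟩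
  set l := sInf A with hl
  set r := sSup B with hr
  have hal : a ≤ l := le_csInf ⟨x, hxA⟩ (fun t ht => ht.1)
  have hlx : l ≤ x := csInf_le hAb hxA
  have hxr : x ≤ r := le_csSup hBb hxB
  have hrb : r ≤ b := csSup_le ⟨x, hxB⟩ (fun t ht => ht.2.1)
  have hL : ∀ y, l < y → y ≤ x → f y < ρ := by
    intro y h1 h2
    obtain ⟨t, ht, hty⟩ := exists_lt_of_csInf_lt ⟨x, hxA⟩ h1
    exact ht.2.2 y ⟨hty.le, h2⟩
  have hR : ∀ y, x ≤ y → y < r → f y < ρ := by
    intro y h1 h2
    obtain ⟨t, ht, hty⟩ := exists_lt_of_lt_csSup ⟨x, hxB⟩ h2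
    exact ht.2.2 y ⟨h1, hty.le⟩
  obtain ⟨δ, hδ, hδf⟩ := hnear x hfx
  have hnA : ∀ y, a ≤ y → y ≤ x → x - δ < y → y ∈ A := by
    intro y h1 h2 h3
    refine ⟨h1, h2, fun z hz => hδf z ?_⟩
    rw [abs_lt]
    constructor <;> linarith [hz.1, hz.2]
  have hnB : ∀ y, x ≤ y → y ≤ b → y < x + δ → y ∈ B := by
    intro y h1 h2 h3
    refine ⟨h1, h2, fun z hz => hδf z ?_⟩
    rw [abs_lt]
    constructor <;> linarith [hz.1, hz.2]
  have hlr : l < r := by
    rcases hx.1.lt_or_eq with h | h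
    · have h1 : max a (x - δ / 2) ∈ A :=
        hnA _ (le_max_left _ _) (max_le h.le (by linarith)) (lt_of_lt_of_le (by linarith) (le_max_right _ _))
      have h2 : max a (x - δ / 2) < x := max_lt h (by linarith)
      exact ((csInf_le hAb h1).trans_lt h2).trans_le hxr
    · have hxb : x < b := h ▸ hab
      have h1 : min b (x + δ / 2) ∈ B :=
        hnB _ (le_min hxb.le (by linarith)) (min_le_left _ _) (lt_of_le_of_lt (min_le_right _ _) (by linarith))
      have h2 : x < min b (x + δ / 2) := lt_min hxb (by linarith)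
      exact hlx.trans_lt (h2.trans_le (le_csSup hBb h1))
  have hle : ∀ y ∈ Icc l r, f y ≤ ρ := by
    have h1 : IsClosed {y | f y ≤ ρ} := isClosed_le hf continuous_const
    have h2 : Ioo l r ⊆ {y | f y ≤ ρ} := by
      intro y hy
      rcases le_total y x with h | h
      · exact (hL y hy.1 h).le
      · exact (hR y h hy.2).le
    have h3 := closure_minimal h2 h1
    rw [closure_Ioo hlr.ne] at h3
    exact h3
  have hfl : a < l → ρ ≤ f l := by
    intro h
    by_contra hc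
    push Not at hc
    obtain ⟨δ', hδ', h1⟩ := hnear l hc
    have h2 : max a (l - δ' / 2) ∈ A := by
      refine ⟨le_max_left _ _, (max_le h.le (by linarith)).trans hlx, ?_⟩
      intro y hy
      rcases le_or_gt y l with h3 | h3
      · apply h1
        rw [abs_lt]
        have := (le_max_right a (l - δ' / 2)).trans hy.1
        constructor <;> linarith
      · exact hL y h3 hy.2
    have h3 := csInf_le hAb h2
    have h4 : max a (l - δ' / 2) < l := max_lt h (by linarith)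
    exact absurd h3 (not_le.2 h4)
  have hfr : r < b → ρ ≤ f r := by
    intro h
    by_contra hc
    push Not at hc
    obtain ⟨δ', hδ', h1⟩ := hnear r hc
    have h2 : min b (r + δ' / 2) ∈ B := by
      refine ⟨hxr.trans (le_min h.le (by linarith)), min_le_left _ _, ?_⟩
      intro y hy
      rcases lt_or_ge y r with h3 | h3
      · exact hR y hy.1 h3
      · apply h1
        rw [abs_lt]
        have := hy.2.trans (min_le_right b (r + δ' / 2))
        constructor <;> linarith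
    have h3 := le_csSup hBb h2
    have h4 : r < min b (r + δ' / 2) := lt_min h (by linarith)
    exact absurd h3 (not_le.2 h4)
  refine ⟨l, r, hal, hlx, hxr, hrb, hlr, hle, ?_, ?_, ?_⟩
  · rcases hal.lt_or_eq with h | h
    · exact ⟨l, ⟨le_rfl, hlr.le⟩, hfl h⟩
    · rcases hrb.lt_or_eq with h' | h'
      · exact ⟨r, ⟨hlr.le, le_rfl⟩, hfr h'⟩
      · rw [← h, h']
        exact hy
  · rw [mem_nhdsWithin]
    refine ⟨Ioo (x - δ) (x + δ), isOpen_Ioo, ⟨by linarith, by linarith⟩, ?_⟩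
    rintro y ⟨hy1, hy2⟩
    rcases le_total y x with h | h
    · exact ⟨csInf_le hAb (hnA y hy2.1 h hy1.1), h.trans hxr⟩
    · exact ⟨hlx.trans h, le_csSup hBb (hnB y h hy2.2 hy1.2)⟩
  · intro l' r' h1 h2 h3 h4 h5
    exact ⟨csInf_le hAb ⟨h1, h2, fun y hy => h5 y ⟨hy.1, hy.2.trans h3⟩⟩,
      le_csSup hBb ⟨h3, h4, fun y hy => h5 y ⟨h2.trans hy.1, hy.2⟩⟩⟩

end Pool.Agent.Lib.H70X
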