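import Pool.Agent.Lib.H70X.QA2
import Pool.Agent.Lib.H70X.QA3

/-! # Chunk QA4: quantitative nondivergence for posets (large; QA2, QA3 may be used)

This is the heart of the argument of Kleinbock and Margulis, in dimension one.

Proof by induction on `m`, for all `F, a, b`. Write `s ∼ F` for: `s ∉ F` and `s` is comparable with
every element of `F`.
`m = 0`: there is no `s ∼ F`: otherwise `F ∪ {s}` is a chain of more than `k` elements, `rk` is injective on it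
(`rk_lt`) with values in `{1..k}`. So every `x` is marked with `F' = F` and the set is empty.
`m + 1`: let `E` be the set of `x ∈ [a,b]` such that `ψ s x < ρ` for some `s ∼ F`. A point `x ∉ E` is
marked with `F' = F`. Let `x ∈ E`. The set of the `s ∼ F` with `ψ s x < ρ` is finite (`h.fin`) and nonempty;
for each of them `comp_interval` (with `f = ψ s`) gives `[l_s, r_s]`; choose `s = s(x)` with `r_s - l_s`
maximal, `I(x) = [l_s, r_s]`.
CLAIM: if `s' ∼ F ∪ {s}` then `ρ ≤ ψ s' y` for some `y ∈ I(x)`. Otherwise `ψ s' < ρ` on `I(x)`, in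
particular `ψ s' x < ρ`, so `[l_{s'}, r_{s'}]` contains `I(x)` (last property of `comp_interval`), and it is
different from `I(x)` because it contains a point where `ρ ≤ ψ s'`: it is longer. Contradiction.
So the induction hypothesis applies to `F ∪ {s}` (a finite chain with one more element) and `I(x)`:
`volume {y ∈ I(x) | ¬ Mk (F ∪ {s}) y} ≤ (2^m' - 2) C (ε/ρ)^α |I(x)|`, `m' = m + 1`. By `h.good` at a point of `I(x)`
with `ρ ≤ ψ s`, `volume {y ∈ I(x) | ψ s y < ε} ≤ C (ε/ρ)^α |I(x)|`. If `y ∈ I(x)`, `ε ≤ ψ s y` (and `ψ s y ≤ ρ`)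
and `Mk (F ∪ {s}) y`, then `Mk F y` (the same `F'`). Hence
`volume {y ∈ I(x) | ¬ Mk F y} ≤ (2^m' - 1) C (ε/ρ)^α |I(x)|`.
COVERING: `I(x)` is a neighbourhood of `x` in `[a,b]`, so countably many `x_0, x_1, ... ∈ E` have
`E ⊆ ⋃ I(x_i)` (`TopologicalSpace.countable_cover_nhdsWithin`, or the version with `𝓝[E]`). For every `N`,
`cover2` gives a subfamily of `I(x_0), ..., I(x_N)` with the same union and total length `≤ 2 (b-a)`, so
the part of the bad set in this union has measure `≤ 2 (2^m' - 1) C (ε/ρ)^α (b-a)`, and this is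
`(2^(m'+1) - 2) C (ε/ρ)^α (b - a)`. Let `N → ∞` (outer measures of increasing unions converge:
`Monotone.measure_iUnion`, no measurability is needed). -/

open Polynomial MeasureTheory Set Filter Topology

namespace Pool.Agent.Lib.H70X

/-- one interval -/
theorem qa4_local {P : Type*} [PartialOrder P] {k : ℕ} {rk : P → ℕ} {ψ : P → ℝ → ℝ}
    {ρ C α : ℝ} (h : Sys P k rk ψ ρ C α) (hC : 0 < C) (hα : 0 < α) (hρ : 0 < ρ) (ε : ℝ)
    (hε : 0 < ε) (m : ℕ)
    (ih : ∀ (F : Set P) (a b : ℝ), IsChain (· ≤ ·) F → F.Finite → k ≤ F.ncard + m → a < b →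
      (∀ s ∉ F, (∀ t ∈ F, s ≤ t ∨ t ≤ s) → ∃ x ∈ Icc a b, ρ ≤ ψ s x) →
      volume {x ∈ Icc a b | ¬ Mk ψ ε ρ F x} ≤
        ENNReal.ofReal ((2 ^ (m + 1) - 2) * C * (ε / ρ) ^ α * (b - a)))
    (F : Set P) (a b : ℝ) (hch : IsChain (· ≤ ·) F) (hfin : F.Finite)
    (hk : k ≤ F.ncard + (m + 1)) (hab : a < b)
    (hs : ∀ s ∉ F, (∀ t ∈ F, s ≤ t ∨ t ≤ s) → ∃ x ∈ Icc a b, ρ ≤ ψ s x)
    (x : ℝ) (hx : x ∈ Icc a b) (hE : ∃ s ∉ F, (∀ t ∈ F, s ≤ t ∨ t ≤ s) ∧ ψ s x < ρ) :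
    ∃ l r : ℝ, a ≤ l ∧ l < r ∧ r ≤ b ∧ Icc l r ∈ 𝓝[Icc a b] x ∧
      volume {y ∈ Icc l r | ¬ Mk ψ ε ρ F y} ≤
        ENNReal.ofReal ((2 ^ (m + 1) - 1) * (C * (ε / ρ) ^ α) * (r - l)) := by
  classical
  set A : Set P := {s | s ∉ F ∧ (∀ t ∈ F, s ≤ t ∨ t ≤ s) ∧ ψ s x < ρ} with hA
  have hAfin : A.Finite := (h.fin x).subset fun s hs => hs.2.2
  have hAne : A.Nonempty := by
    obtain ⟨s, h1, h2, h3⟩ := hE
    exact ⟨s, h1, h2, h3⟩
  have hci : ∀ s ∈ A, ∃ l r : ℝ, a ≤ l ∧ l ≤ x ∧ x ≤ r ∧ r ≤ b ∧ l < r ∧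
      (∀ y ∈ Icc l r, ψ s y ≤ ρ) ∧ (∃ y ∈ Icc l r, ρ ≤ ψ s y) ∧ Icc l r ∈ 𝓝[Icc a b] x ∧
      ∀ l' r', a ≤ l' → l' ≤ x → x ≤ r' → r' ≤ b → (∀ y ∈ Icc l' r', ψ s y < ρ) →
        l ≤ l' ∧ r' ≤ r := fun s hsA =>
    comp_interval (ψ s) (h.cont s) a b x ρ hab hx hsA.2.2 (hs s hsA.1 hsA.2.1)
  choose! l r hlr using hci
  obtain ⟨s, hsA, hmax⟩ := Set.exists_max_image A (fun s => r s - l s) hAfin hAne
  obtain ⟨h1, h2, h3, h4, h5, h6, h7, h8, h9⟩ := hlr s hsA
  refine ⟨l s, r s, h1, h5, h4, h8, ?_⟩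
  -- the chain with one more element
  have hch' : IsChain (· ≤ ·) (insert s F) := hch.insert fun t ht _ => hsA.2.1 t ht
  have hcard : (insert s F).ncard = F.ncard + 1 := Set.ncard_insert_of_notMem hsA.1 hfin
  have hclaim : ∀ s' ∉ insert s F, (∀ t ∈ insert s F, s' ≤ t ∨ t ≤ s') →
      ∃ y ∈ Icc (l s) (r s), ρ ≤ ψ s' y := by
    intro s' hs' hcomp
    by_contra hcon
    push Not at hcon
    have hs'A : s' ∈ A := ⟨fun hh => hs' (Set.mem_insert_of_mem _ hh),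
      fun t ht => hcomp t (Set.mem_insert_of_mem _ ht), hcon x ⟨h2, h3⟩⟩
    obtain ⟨g1, g2, g3, g4, g5, g6, ⟨y, hy, hy'⟩, g8, g9⟩ := hlr s' hs'A
    obtain ⟨e1, e2⟩ := g9 (l s) (r s) h1 h2 h3 h4 hcon
    have e3 := hmax s' hs'A
    have e4 : l s' = l s := by linarith
    have e5 : r s' = r s := by linarith
    rw [e4, e5] at hy
    exact absurd hy' (not_le.mpr (hcon y hy))
  have hI := ih (insert s F) (l s) (r s) hch' (hfin.insert s) (by rw [hcard]; omega) h5 hclaim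
  obtain ⟨x0, hx0, hx0'⟩ := h7
  have hψ0 : 0 < ψ s x0 := lt_of_lt_of_le hρ hx0'
  have hG := h.good s ε (l s) (r s) x0 hε h5 hx0 hψ0
  have hlen : 0 < r s - l s := by linarith
  have hG' : volume {y ∈ Icc (l s) (r s) | ψ s y < ε} ≤
      ENNReal.ofReal (C * (ε / ρ) ^ α * (r s - l s)) := by
    refine hG.trans (ENNReal.ofReal_le_ofReal ?_)
    have : (ε / ψ s x0) ^ α ≤ (ε / ρ) ^ α := by
      refine Real.rpow_le_rpow (by positivity) ?_ hα.le
      exact div_le_div_of_nonneg_left hε.le hρ hx0'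
    have hCC : C * (ε / ψ s x0) ^ α ≤ C * (ε / ρ) ^ α := mul_le_mul_of_nonneg_left this hC.le
    exact mul_le_mul_of_nonneg_right hCC hlen.le
  have hsub : {y ∈ Icc (l s) (r s) | ¬ Mk ψ ε ρ F y} ⊆
      {y ∈ Icc (l s) (r s) | ¬ Mk ψ ε ρ (insert s F) y} ∪ {y ∈ Icc (l s) (r s) | ψ s y < ε} := by
    rintro y ⟨hy, hy'⟩
    by_cases hc : ψ s y < ε
    · exact Or.inr ⟨hy, hc⟩
    · refine Or.inl ⟨hy, fun hM => hy' ?_⟩
      obtain ⟨F', hF1, hF2, hF3, hF4⟩ := hM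
      refine ⟨F', (Set.subset_insert _ _).trans hF1, hF2, fun u hu => ?_, hF4⟩
      by_cases hus : u = s
      · rw [hus]
        exact ⟨not_lt.mp hc, h6 y hy⟩
      · refine hF3 u ⟨hu.1, fun hh => ?_⟩
        rcases Set.mem_insert_iff.mp hh with h' | h'
        · exact hus h'
        · exact hu.2 h'
  have hK : 0 ≤ C * (ε / ρ) ^ α := by positivity
  have hpow : (2 : ℝ) ≤ 2 ^ (m + 1) := by
    calc (2 : ℝ) = 2 ^ 1 := by norm_num
      _ ≤ 2 ^ (m + 1) := pow_le_pow_right₀ (by norm_num) (by omega)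
  calc volume {y ∈ Icc (l s) (r s) | ¬ Mk ψ ε ρ F y}
      ≤ volume ({y ∈ Icc (l s) (r s) | ¬ Mk ψ ε ρ (insert s F) y} ∪
          {y ∈ Icc (l s) (r s) | ψ s y < ε}) := measure_mono hsub
    _ ≤ volume {y ∈ Icc (l s) (r s) | ¬ Mk ψ ε ρ (insert s F) y} +
          volume {y ∈ Icc (l s) (r s) | ψ s y < ε} := measure_union_le _ _
    _ ≤ ENNReal.ofReal ((2 ^ (m + 1) - 2) * C * (ε / ρ) ^ α * (r s - l s)) +
          ENNReal.ofReal (C * (ε / ρ) ^ α * (r s - l s)) := add_le_add hI hG'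
    _ = ENNReal.ofReal ((2 ^ (m + 1) - 1) * (C * (ε / ρ) ^ α) * (r s - l s)) := by
        rw [← ENNReal.ofReal_add ?_ (mul_nonneg hK hlen.le)]
        · congr 1
          ring
        · have : 0 ≤ (2 ^ (m + 1) - 2) * (C * (ε / ρ) ^ α) * (r s - l s) :=
            mul_nonneg (mul_nonneg (by linarith) hK) hlen.le
          linarith [this, mul_assoc ((2 : ℝ) ^ (m + 1) - 2) C ((ε / ρ) ^ α),
            congrArg (fun z => z * (r s - l s)) (mul_assoc ((2 : ℝ) ^ (m + 1) - 2) C ((ε / ρ) ^ α))]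

theorem poset_ind {P : Type*} [PartialOrder P] {k : ℕ} {rk : P → ℕ} {ψ : P → ℝ → ℝ}
    {ρ C α : ℝ} (h : Sys P k rk ψ ρ C α) (hC : 0 < C) (hα : 0 < α) (hρ : 0 < ρ) (ε : ℝ)
    (hε : 0 < ε) (hερ : ε ≤ ρ) (m : ℕ) :
    ∀ (F : Set P) (a b : ℝ), IsChain (· ≤ ·) F → F.Finite → k ≤ F.ncard + m → a < b →
      (∀ s ∉ F, (∀ t ∈ F, s ≤ t ∨ t ≤ s) → ∃ x ∈ Icc a b, ρ ≤ ψ s x) →
      volume {x ∈ Icc a b | ¬ Mk ψ ε ρ F x} ≤
        ENNReal.ofReal ((2 ^ (m + 1) - 2) * C * (ε / ρ) ^ α * (b - a)) := by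
  induction m with
  | zero =>
    intro F a b hch hfin hk hab hs
    have hno : ∀ s ∉ F, ¬ (∀ t ∈ F, s ≤ t ∨ t ≤ s) := by
      intro s hsF hcomp
      have hch' : IsChain (· ≤ ·) (insert s F) := hch.insert fun t ht _ => hcomp t ht
      have hinj : InjOn rk (insert s F) := by
        intro u hu v hv huv
        by_contra hne
        rcases hch'.total hu hv with h1 | h1
        · exact absurd huv (ne_of_lt (h.rk_lt u v (lt_of_le_of_ne h1 hne)))
        · exact absurd huv (ne_of_gt (h.rk_lt v u (lt_of_le_of_ne h1 (Ne.symm hne))))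
      have hle : (insert s F).ncard ≤ (Icc 1 k).ncard :=
        Set.ncard_le_ncard_of_injOn rk (fun u _ => ⟨h.rk_pos u, h.rk_le u⟩) hinj
          (Set.finite_Icc 1 k)
      rw [Set.ncard_insert_of_notMem hsF hfin] at hle
      have hIcc : (Icc 1 k).ncard = k := by
        rw [← Finset.coe_Icc, Set.ncard_coe_finset, Nat.card_Icc]
        omega
      rw [hIcc] at hle
      omega
    have hempty : {x ∈ Icc a b | ¬ Mk ψ ε ρ F x} = ∅ := by
      refine Set.eq_empty_of_forall_notMem fun x hx => hx.2 ?_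
      exact ⟨F, Set.Subset.rfl, hch, fun s hs' => absurd hs'.1 hs'.2,
        fun s hsF hc => absurd hc (hno s hsF)⟩
    rw [hempty, measure_empty]
    exact zero_le
  | succ m ih =>
    intro F a b hch hfin hk hab hs
    classical
    have key := qa4_local h hC hα hρ ε hε m ih F a b hch hfin hk hab hs
    set E : Set ℝ := {x | x ∈ Icc a b ∧ ∃ s ∉ F, (∀ t ∈ F, s ≤ t ∨ t ≤ s) ∧ ψ s x < ρ} with hEdef
    have key' : ∀ x ∈ E, ∃ l r : ℝ, a ≤ l ∧ l < r ∧ r ≤ b ∧ Icc l r ∈ 𝓝[Icc a b] x ∧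
        volume {y ∈ Icc l r | ¬ Mk ψ ε ρ F y} ≤
          ENNReal.ofReal ((2 ^ (m + 1) - 1) * (C * (ε / ρ) ^ α) * (r - l)) :=
      fun x hx => key x hx.1 hx.2
    choose! l r hlr using key'
    have hEsub : E ⊆ Icc a b := fun x hx => hx.1
    obtain ⟨T, hTE, hTc, hcov⟩ := TopologicalSpace.countable_cover_nhdsWithin
      (f := fun x => Icc (l x) (r x)) (s := E)
      fun x hx => nhdsWithin_mono x hEsub (hlr x hx).2.2.2.1
    have hbad : {x ∈ Icc a b | ¬ Mk ψ ε ρ F x} ⊆ E := by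
      rintro x ⟨hx, hx'⟩
      refine ⟨hx, ?_⟩
      by_contra hcon
      refine hx' ⟨F, Set.Subset.rfl, hch, fun s hs' => absurd hs'.1 hs'.2, fun s hsF hc => ?_⟩
      by_contra hlt
      exact hcon ⟨s, hsF, hc, not_le.mp hlt⟩
    rcases T.eq_empty_or_nonempty with hT | hT
    · have : {x ∈ Icc a b | ¬ Mk ψ ε ρ F x} = ∅ := by
        refine Set.subset_eq_empty (hbad.trans (hcov.trans ?_)) rfl
        rw [hT]
        simp
      rw [this, measure_empty]
      exact zero_le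
    · obtain ⟨f, hf⟩ := hTc.exists_eq_range hT
      have hfE : ∀ i, f i ∈ E := fun i => hTE (by rw [hf]; exact ⟨i, rfl⟩)
      set K : ℝ := C * (ε / ρ) ^ α with hKdef
      have hK : 0 ≤ K := by positivity
      have hpow : (2 : ℝ) ≤ 2 ^ (m + 1) := by
        calc (2 : ℝ) = 2 ^ 1 := by norm_num
          _ ≤ 2 ^ (m + 1) := pow_le_pow_right₀ (by norm_num) (by omega)
      set B : ℕ → Set ℝ := fun i => {y ∈ Icc (l (f i)) (r (f i)) | ¬ Mk ψ ε ρ F y} with hB
      set U : ℕ → Set ℝ := fun N => ⋃ i ∈ Finset.range N, B i with hU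
      have hUmono : Monotone U := by
        intro N M hNM
        refine Set.biUnion_subset_biUnion_left ?_
        intro i hi
        have := Finset.mem_range.mp hi
        exact Finset.mem_range.mpr (lt_of_lt_of_le this hNM)
      have hsubU : {x ∈ Icc a b | ¬ Mk ψ ε ρ F x} ⊆ ⋃ N, U N := by
        intro x hx
        have hxE := hbad hx
        obtain ⟨y, hy, hxy⟩ := Set.mem_iUnion₂.mp (hcov hxE)
        rw [hf] at hy
        obtain ⟨i, rfl⟩ := hy
        refine Set.mem_iUnion.mpr ⟨i + 1, Set.mem_iUnion₂.mpr ⟨i, ?_, hxy, hx.2⟩⟩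
        exact Finset.mem_range.mpr (Nat.lt_succ_self i)
      refine (measure_mono hsubU).trans ?_
      rw [hUmono.measure_iUnion]
      refine iSup_le fun N => ?_
      obtain ⟨t, ht, htU, htlen⟩ := cover2 a b hab (Finset.range N) (fun i => l (f i))
        (fun i => r (f i)) fun i _ => ⟨(hlr _ (hfE i)).1, (hlr _ (hfE i)).2.1.le,
          (hlr _ (hfE i)).2.2.1⟩
      have hUt : U N ⊆ ⋃ i ∈ t, B i := by
        intro y hy
        obtain ⟨i, hi, hyi⟩ := Set.mem_iUnion₂.mp hy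
        have : y ∈ ⋃ i ∈ Finset.range N, Icc (l (f i)) (r (f i)) :=
          Set.mem_iUnion₂.mpr ⟨i, hi, hyi.1⟩
        obtain ⟨j, hj, hyj⟩ := Set.mem_iUnion₂.mp (htU this)
        exact Set.mem_iUnion₂.mpr ⟨j, hj, hyj, hyi.2⟩
      calc volume (U N) ≤ volume (⋃ i ∈ t, B i) := measure_mono hUt
        _ ≤ ∑ i ∈ t, volume (B i) := measure_biUnion_finset_le t B
        _ ≤ ∑ i ∈ t, ENNReal.ofReal ((2 ^ (m + 1) - 1) * K * (r (f i) - l (f i))) :=
            Finset.sum_le_sum fun i _ => (hlr _ (hfE i)).2.2.2.2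
        _ = ENNReal.ofReal (∑ i ∈ t, (2 ^ (m + 1) - 1) * K * (r (f i) - l (f i))) := by
            rw [ENNReal.ofReal_sum_of_nonneg]
            intro i _
            have h1 := (hlr _ (hfE i)).2.1
            exact mul_nonneg (mul_nonneg (by linarith) hK) (by linarith)
        _ ≤ ENNReal.ofReal ((2 ^ (m + 1 + 1) - 2) * C * (ε / ρ) ^ α * (b - a)) := by
            refine ENNReal.ofReal_le_ofReal ?_
            rw [← Finset.mul_sum]
            have h1 : (2 ^ (m + 1) - 1) * K * ∑ i ∈ t, (r (f i) - l (f i)) ≤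
                (2 ^ (m + 1) - 1) * K * (2 * (b - a)) :=
              mul_le_mul_of_nonneg_left htlen (mul_nonneg (by linarith) hK)
            refine h1.trans (le_of_eq ?_)
            rw [hKdef]
            ring

end Pool.Agent.Lib.H70X
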