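import Pool.Agent.Lib.H70X.QL1

/-! # Chunk QL2: only finitely many subspaces are small at a point (medium/large)

Proof. Let `A = h(x)` (invertible), `B = A⁻¹`, `β ≥ 1` a bound for the absolute values of the entries of `B`. Let `V` be in the
set, `j = finrank V ≤ k`, `v` the tuple. As `v_s(i) = ∑_l B_{il} (h(x) v_s)(l)`, expanding the
determinant in the columns (multilinearity) gives
`det (v_s (S t)) = ∑_{T : Fin j → Fin k} (∏_t B_{S t, T t}) mn h x v T`, so
`|det (v_s (S t))| ≤ β^j mns h x v ≤ β^k ρ`: the integer vector `π_S = det (v_s (S t))`, `S : Fin j → Fin k`, takes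
finitely many values (for each `j ≤ k`). It determines `V`: a rational vector `y` is in `V` if and only if
`v_1, ..., v_j, y` are dependent (the `v_s` are a basis of `V`), i.e. all `(j+1)`-minors of
these vectors vanish, i.e. (Laplace expansion along the row `y`)
`∑_t (-1)^t y(S t) π_{S ∘ succAbove t} = 0` for all `S : Fin (j+1) → Fin k`. -/

open Polynomial MeasureTheory Set Filter

namespace Pool.Agent.Lib.H70X

/-- Minors of an integer tuple. -/
def ql2_pi {k j : ℕ} (v : Fin j → Fin k → ℤ) (S : Fin j → Fin k) : ℤ :=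
  Matrix.det (Matrix.of fun s t : Fin j => v s (S t))

theorem ql2_cast {R : Type*} [CommRing R] {k j : ℕ} (v : Fin j → Fin k → ℤ) (S : Fin j → Fin k) :
    ((ql2_pi v S : ℤ) : R) = (Matrix.of fun s t : Fin j => ((v s (S t) : ℤ) : R)).det :=
  (Int.castRingHom R).map_det (Matrix.of fun s t : Fin j => v s (S t))

/-- The determinant of a product of two rectangular matrices, expanded in the columns. -/
theorem ql2_expand {k j : ℕ} (E : Matrix (Fin j) (Fin k) ℝ) (C : Matrix (Fin k) (Fin j) ℝ) :
    (E * C).det = ∑ T : Fin j → Fin k, (∏ t, C (T t) t) *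
      (Matrix.of fun s t : Fin j => E s (T t)).det := by
  rw [← Matrix.det_transpose]
  have h1 : (E * C).transpose = fun t => ∑ l : Fin k, C l t • (fun s => E s l) := by
    ext t s
    rw [Matrix.transpose_apply, Matrix.mul_apply, Finset.sum_apply]
    exact Finset.sum_congr rfl fun l _ => by simp [mul_comm]
  have h2 : (E * C).transpose.det =
      (Matrix.detRowAlternating (R := ℝ) (n := Fin j)).toMultilinearMap
        (fun t => ∑ l : Fin k, C l t • (fun s => E s l)) := by
    rw [h1]
    rfl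
  rw [h2, MultilinearMap.map_sum]
  refine Finset.sum_congr rfl fun T _ => ?_
  rw [MultilinearMap.map_smul_univ, smul_eq_mul]
  congr 1
  rw [← Matrix.det_transpose]
  rfl

/-- The minors of `v` are bounded by those of `h(x) v`. -/
theorem ql2_bound {k : ℕ} (h : Matrix (Fin k) (Fin k) ℝ[X]) (x : ℝ)
    (hdet : (h.map (Polynomial.eval x)).det ≠ 0) (j : ℕ) :
    ∃ β : ℝ, 0 ≤ β ∧ ∀ (v : Fin j → Fin k → ℤ) (S : Fin j → Fin k),
      |(ql2_pi v S : ℝ)| ≤ β * mns h x v := by
  set A : Matrix (Fin k) (Fin k) ℝ := h.map (Polynomial.eval x) with hA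
  set B := A⁻¹ with hB
  have hunit : IsUnit A.det := isUnit_iff_ne_zero.2 hdet
  have hBA : B * A = 1 := Matrix.nonsing_inv_mul A hunit
  refine ⟨∑ S : Fin j → Fin k, ∑ T : Fin j → Fin k, ∏ t, |B (S t) (T t)|,
    Finset.sum_nonneg fun S _ => Finset.sum_nonneg fun T _ =>
      Finset.prod_nonneg fun t _ => abs_nonneg _, fun v S => ?_⟩
  have hev : ∀ s l, ev h x (v s) l = (A.mulVec (fun i => (v s i : ℝ))) l := by
    intro s l
    rfl
  have hv : ∀ s i, (v s i : ℝ) = ∑ l, ev h x (v s) l * B i l := by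
    intro s i
    have h1 : B.mulVec (A.mulVec (fun i => (v s i : ℝ))) = fun i => (v s i : ℝ) := by
      rw [Matrix.mulVec_mulVec, hBA, Matrix.one_mulVec]
    have h2 := congrFun h1 i
    rw [← h2]
    rw [Matrix.mulVec, dotProduct]
    refine Finset.sum_congr rfl fun l _ => ?_
    rw [hev, mul_comm]
  have h3 : (ql2_pi v S : ℝ) = ((Matrix.of fun s l => ev h x (v s) l) *
      (Matrix.of fun (l : Fin k) (t : Fin j) => B (S t) l)).det := by
    rw [ql2_cast]
    congr 1
    ext s t
    rw [Matrix.of_apply, Matrix.mul_apply, hv s (S t)]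
    rfl
  rw [h3, ql2_expand]
  have h4 : ∀ T : Fin j → Fin k,
      (Matrix.of fun s t : Fin j => (Matrix.of fun s l => ev h x (v s) l) s (T t)).det =
        mn h x v T := fun T => rfl
  simp only [h4]
  calc |∑ T : Fin j → Fin k, (∏ t, (Matrix.of fun (l : Fin k) (t : Fin j) => B (S t) l) (T t) t) *
        mn h x v T|
      ≤ ∑ T : Fin j → Fin k, |(∏ t, (Matrix.of fun (l : Fin k) (t : Fin j) => B (S t) l) (T t) t) *
        mn h x v T| := Finset.abs_sum_le_sum_abs _ _
    _ = ∑ T : Fin j → Fin k, (∏ t, |B (S t) (T t)|) * |mn h x v T| := by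
        refine Finset.sum_congr rfl fun T _ => ?_
        rw [abs_mul, Finset.abs_prod]
        rfl
    _ ≤ ∑ T : Fin j → Fin k, (∑ S : Fin j → Fin k, ∑ T : Fin j → Fin k,
          ∏ t, |B (S t) (T t)|) * |mn h x v T| := by
        refine Finset.sum_le_sum fun T _ => mul_le_mul_of_nonneg_right ?_ (abs_nonneg _)
        have hp : ∀ S T : Fin j → Fin k, 0 ≤ ∏ t, |B (S t) (T t)| := fun S T =>
          Finset.prod_nonneg fun t _ => abs_nonneg _
        calc (∏ t, |B (S t) (T t)|) ≤ ∑ T : Fin j → Fin k, ∏ t, |B (S t) (T t)| :=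
              Finset.single_le_sum (f := fun T : Fin j → Fin k => ∏ t, |B (S t) (T t)|)
                (fun T _ => hp S T) (Finset.mem_univ T)
          _ ≤ _ := Finset.single_le_sum
                (f := fun S : Fin j → Fin k => ∑ T : Fin j → Fin k, ∏ t, |B (S t) (T t)|)
                (fun S _ => Finset.sum_nonneg fun T _ => hp S T) (Finset.mem_univ S)
    _ = _ := by
        rw [mns, Finset.mul_sum]

/-- Independent integer vectors have a nonzero minor. -/
theorem ql2_exists {k j : ℕ} (v : Fin j → Fin k → ℤ) (hv : LinearIndependent ℤ v) :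
    ∃ S : Fin j → Fin k, ql2_pi v S ≠ 0 := by
  classical
  set A : Matrix (Fin j) (Fin k) ℚ := Matrix.of fun s i => ((v s i : ℤ) : ℚ) with hA
  have hvQ : LinearIndependent ℚ A.row := by
    have h1 : LinearIndependent ℤ (fun s => (fun i => ((v s i : ℤ) : ℚ))) := by
      have h2 : LinearIndependent ℤ (⇑((Algebra.linearMap ℤ ℚ).compLeft (Fin k)) ∘ v) := by
        refine hv.map' _ ?_
        rw [LinearMap.ker_eq_bot]
        intro a b hab
        funext i
        have := congrFun hab i
        simpa using this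
      exact h2
    exact (LinearIndependent.iff_fractionRing ℤ ℚ).1 h1
  have hrank : Submodule.span ℚ (Set.range A.col) = ⊤ := by
    apply Submodule.eq_top_of_finrank_eq
    rw [← Matrix.rank_eq_finrank_span_cols, hvQ.rank_matrix]
    simp
  obtain ⟨b, hbs, hbspan, hbli⟩ := exists_linearIndependent ℚ (Set.range A.col)
  rw [hrank] at hbspan
  have hbasis : Module.Basis b ℚ (Fin j → ℚ) := Module.Basis.mk hbli (by
    rw [Subtype.range_coe, hbspan])
  have hfin : Finite b := Module.Finite.finite_basis hbasis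
  have hcard : Nat.card b = j := by
    rw [← Module.finrank_eq_nat_card_basis hbasis]
    simp
  obtain ⟨e⟩ : Nonempty (Fin j ≃ b) := ⟨(Finite.equivFinOfCardEq hcard).symm⟩
  have hcol : ∀ t : Fin j, ∃ i : Fin k, A.col i = (e t : Fin j → ℚ) := fun t => hbs (e t).2
  choose S hS using hcol
  refine ⟨S, ?_⟩
  have h1 : LinearIndependent ℚ (Matrix.of fun s t : Fin j => A s (S t)).col := by
    have h2 : (Matrix.of fun s t : Fin j => A s (S t)).col =
        (fun t => (e t : Fin j → ℚ)) := by
      funext t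
      rw [← hS t]
      rfl
    rw [h2]
    exact hbli.comp e e.injective
  have h3 : (Matrix.of fun s t : Fin j => A s (S t)).det ≠ 0 := by
    have h4 := Matrix.linearIndependent_cols_iff_isUnit.1 h1
    exact ((Matrix.isUnit_iff_isUnit_det _).1 h4).ne_zero
  intro h0
  apply h3
  have h4 : (Matrix.of fun s t : Fin j => A s (S t)).det = ((ql2_pi v S : ℤ) : ℚ) := by
    rw [ql2_cast]
    rfl
  rw [h4, h0]
  simp

/-- The subspace spanned by the vectors given by Cramer's rule. -/
noncomputable def ql2_sp {k j : ℕ} (p : ((Fin j → Fin k) → ℤ) × (Fin j → Fin k)) :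
    Submodule ℚ (Fin k → ℚ) :=
  Submodule.span ℚ (Set.range fun t : Fin j => fun i : Fin k =>
    (p.1 (Function.update p.2 t i) : ℚ) / (p.1 p.2 : ℚ))

/-- The minors determine the subspace. -/
theorem ql2_span {k j : ℕ} (V : Submodule ℚ (Fin k → ℚ)) (hj : Module.finrank ℚ V = j)
    (v : Fin j → Fin k → ℤ) (hv : LinearIndependent ℤ v)
    (hV : ∀ s, (fun i => ((v s i : ℤ) : ℚ)) ∈ V) :
    ∃ S : Fin j → Fin k, V = ql2_sp (ql2_pi v, S) := by
  classical
  obtain ⟨S, hS⟩ := ql2_exists v hv
  refine ⟨S, ?_⟩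
  have hSQ : ((ql2_pi v S : ℤ) : ℚ) ≠ 0 := by exact_mod_cast hS
  have hvQ : LinearIndependent ℚ (fun s => (fun i => ((v s i : ℤ) : ℚ))) := by
    have h1 : LinearIndependent ℤ (fun s => (fun i => ((v s i : ℤ) : ℚ))) := by
      have h2 : LinearIndependent ℤ (⇑((Algebra.linearMap ℤ ℚ).compLeft (Fin k)) ∘ v) := by
        refine hv.map' _ ?_
        rw [LinearMap.ker_eq_bot]
        intro a b hab
        funext i
        have := congrFun hab i
        simpa using this
      exact h2
    exact (LinearIndependent.iff_fractionRing ℤ ℚ).1 h1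
  set W := Submodule.span ℚ (Set.range (fun s => (fun i => ((v s i : ℤ) : ℚ)))) with hW
  have hWfin : Module.finrank ℚ W = j := by
    rw [hW, finrank_span_eq_card hvQ]
    simp
  have hWV : W ≤ V := by
    rw [hW, Submodule.span_le]
    rintro _ ⟨s, rfl⟩
    exact hV s
  have hWV' : W = V := Submodule.eq_of_le_of_finrank_eq hWV (by rw [hWfin, hj])
  set w : Fin j → Fin k → ℚ := fun t i =>
    (ql2_pi v (Function.update S t i) : ℚ) / (ql2_pi v S : ℚ) with hw
  have hWw : W ≤ ql2_sp (ql2_pi v, S) := by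
    rw [hW, Submodule.span_le]
    rintro _ ⟨s, rfl⟩
    -- Cramer's rule
    set M : Matrix (Fin j) (Fin j) ℚ := Matrix.of fun s t => ((v s (S t) : ℤ) : ℚ) with hM
    have hMdet : M.det = ((ql2_pi v S : ℤ) : ℚ) := by
      rw [ql2_cast]
    have hcr : ∀ i, (fun s => ((v s i : ℤ) : ℚ)) = M.mulVec (fun t => w t i) := by
      intro i
      have h1 := Matrix.mulVec_cramer M (fun s => ((v s i : ℤ) : ℚ))
      have h2 : M.cramer (fun s => ((v s i : ℤ) : ℚ)) =
          fun t => ((ql2_pi v (Function.update S t i) : ℤ) : ℚ) := by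
        funext t
        rw [Matrix.cramer_apply, ql2_cast]
        congr 1
        ext s' t'
        rw [Matrix.of_apply, Matrix.updateCol_apply]
        by_cases ht : t' = t
        · rw [if_pos ht, ht, Function.update_self]
        · rw [if_neg ht, Function.update_of_ne ht]
          rfl
      rw [h2, hMdet] at h1
      have h3 : (fun t => w t i) = (ql2_pi v S : ℚ)⁻¹ •
          (fun t => ((ql2_pi v (Function.update S t i) : ℤ) : ℚ)) := by
        funext t
        rw [hw]
        simp only [Pi.smul_apply, smul_eq_mul]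
        rw [div_eq_inv_mul]
      rw [h3, Matrix.mulVec_smul, h1, smul_smul, inv_mul_cancel₀ hSQ, one_smul]
    have h5 : (fun i => ((v s i : ℤ) : ℚ)) = ∑ t, M s t • w t := by
      funext i
      have := congrFun (hcr i) s
      rw [this, Finset.sum_apply]
      rfl
    show (fun i => ((v s i : ℤ) : ℚ)) ∈ ql2_sp (ql2_pi v, S)
    rw [h5]
    refine Submodule.sum_mem _ fun t _ => Submodule.smul_mem _ _ ?_
    exact Submodule.subset_span ⟨t, rfl⟩
  rw [← hWV']
  apply Submodule.eq_of_le_of_finrank_le hWw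
  rw [hWfin]
  have := finrank_range_le_card (R := ℚ) (fun t : Fin j => fun i : Fin k =>
    ((ql2_pi v, S).1 (Function.update (ql2_pi v, S).2 t i) : ℚ) / ((ql2_pi v, S).1 (ql2_pi v, S).2 : ℚ))
  rw [Fintype.card_fin] at this
  exact this

theorem fin_tup {k : ℕ} (h : Matrix (Fin k) (Fin k) ℝ[X]) (x ρ : ℝ)
    (hdet : (h.map (Polynomial.eval x)).det ≠ 0) :
    {V : Submodule ℚ (Fin k → ℚ) | ∃ v : Fin (Module.finrank ℚ V) → Fin k → ℤ, IsTup V v ∧
      mns h x v < ρ}.Finite := by
  choose β hβ0 hβ using fun j => ql2_bound h x hdet j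
  have hsub : {V : Submodule ℚ (Fin k → ℚ) | ∃ v : Fin (Module.finrank ℚ V) → Fin k → ℤ,
      IsTup V v ∧ mns h x v < ρ} ⊆ ⋃ j ∈ Finset.range (k + 1),
        (ql2_sp (k := k) (j := j)) '' ((Set.Icc (fun _ => -⌈β j * ρ⌉) (fun _ => ⌈β j * ρ⌉)) ×ˢ
          Set.univ) := by
    rintro V ⟨v, ⟨hv1, hv2⟩, hρ⟩
    rw [Set.mem_iUnion₂]
    refine ⟨Module.finrank ℚ V, ?_, ?_⟩
    · rw [Finset.mem_range]
      have := Submodule.finrank_le V
      rw [Module.finrank_fin_fun] at this
      omega
    · obtain ⟨S, hS⟩ := ql2_span V rfl v hv1 hv2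
      refine ⟨(ql2_pi v, S), ⟨?_, Set.mem_univ _⟩, hS.symm⟩
      have hb : ∀ T, |ql2_pi v T| ≤ ⌈β (Module.finrank ℚ V) * ρ⌉ := by
        intro T
        have h1 := hβ (Module.finrank ℚ V) v T
        have h2 : |(ql2_pi v T : ℝ)| ≤ β (Module.finrank ℚ V) * ρ :=
          h1.trans (mul_le_mul_of_nonneg_left hρ.le (hβ0 _))
        have h3 : (|ql2_pi v T| : ℤ) ≤ (⌈β (Module.finrank ℚ V) * ρ⌉ : ℤ) := by
          have h4 : ((|ql2_pi v T| : ℤ) : ℝ) ≤ ((⌈β (Module.finrank ℚ V) * ρ⌉ : ℤ) : ℝ) := by
            rw [Int.cast_abs]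
            exact h2.trans (Int.le_ceil _)
          exact_mod_cast h4
        exact h3
      exact ⟨fun T => (abs_le.1 (hb T)).1, fun T => (abs_le.1 (hb T)).2⟩
  refine Set.Finite.subset ?_ hsub
  refine Set.Finite.biUnion (Finset.finite_toSet _) fun j _ => ?_
  exact ((Set.finite_Icc _ _).prod Set.finite_univ).image _

end Pool.Agent.Lib.H70X
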