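import Pool.Agent.Lib.H70X.Defs

/-! # Chunk QL3: the minors of a longer tuple (small/medium)

Proof. Laplace expansion along the first row (`Matrix.det_succ_row_zero`):
`mn h x (cons u v) S = ∑_t (-1)^t ev h x u (S t) * mn h x v (S ∘ succAbove t)`. Hence
`mns h x (cons u v) ≤ ∑_t ∑_S |ev h x u (S t)| |mn h x v (S ∘ succAbove t)|`, and for every `t` the map
`S ↦ (S t, S ∘ succAbove t)` is a bijection (`Fin.insertNthEquiv`), so the inner sum is
`(∑_i |ev h x u i|) * mns h x v`. -/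

open Polynomial MeasureTheory Set Filter

namespace Pool.Agent.Lib.H70X

private theorem ql3_det {k j : ℕ} (h : Matrix (Fin k) (Fin k) ℝ[X]) (x : ℝ) (u : Fin k → ℤ)
    (v : Fin j → Fin k → ℤ) (S : Fin (j + 1) → Fin k) :
    mn h x (Fin.cons u v : Fin (j + 1) → Fin k → ℤ) S =
      ∑ t : Fin (j + 1), (-1) ^ (t : ℕ) * ev h x u (S t) * mn h x v (fun i => S (t.succAbove i)) := by
  unfold mn
  rw [Matrix.det_succ_row_zero]
  refine Finset.sum_congr rfl fun t _ => ?_
  rfl

theorem mns_cons {k j : ℕ} (h : Matrix (Fin k) (Fin k) ℝ[X]) (x : ℝ) (u : Fin k → ℤ)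
    (v : Fin j → Fin k → ℤ) :
    mns h x (Fin.cons u v : Fin (j + 1) → Fin k → ℤ) ≤
      ((j : ℝ) + 1) * (∑ i, |ev h x u i|) * mns h x v := by
  have h1 : ∀ S : Fin (j + 1) → Fin k, |mn h x (Fin.cons u v : Fin (j + 1) → Fin k → ℤ) S| ≤
      ∑ t : Fin (j + 1), |ev h x u (S t)| * |mn h x v (fun i => S (t.succAbove i))| := by
    intro S
    rw [ql3_det]
    refine (Finset.abs_sum_le_sum_abs _ _).trans (le_of_eq ?_)
    refine Finset.sum_congr rfl fun t _ => ?_
    rw [abs_mul, abs_mul, abs_pow, abs_neg, abs_one, one_pow, one_mul]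
  have h2 : ∀ t : Fin (j + 1), ∑ S : Fin (j + 1) → Fin k,
      |ev h x u (S t)| * |mn h x v (fun i => S (t.succAbove i))| = (∑ i, |ev h x u i|) * mns h x v := by
    intro t
    rw [← (Fin.insertNthEquiv (fun _ => Fin k) t).sum_comp, Fintype.sum_prod_type]
    unfold mns
    rw [Finset.sum_mul_sum]
    refine Finset.sum_congr rfl fun a _ => Finset.sum_congr rfl fun S _ => ?_
    simp
  calc mns h x (Fin.cons u v : Fin (j + 1) → Fin k → ℤ)
      ≤ ∑ S : Fin (j + 1) → Fin k, ∑ t : Fin (j + 1),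
          |ev h x u (S t)| * |mn h x v (fun i => S (t.succAbove i))| := Finset.sum_le_sum fun S _ => h1 S
    _ = ∑ t : Fin (j + 1), ∑ S : Fin (j + 1) → Fin k,
          |ev h x u (S t)| * |mn h x v (fun i => S (t.succAbove i))| := Finset.sum_comm
    _ = ∑ _t : Fin (j + 1), (∑ i, |ev h x u i|) * mns h x v := Finset.sum_congr rfl fun t _ => h2 t
    _ = ((j : ℝ) + 1) * (∑ i, |ev h x u i|) * mns h x v := by
      rw [Finset.sum_const, Finset.card_univ, Fintype.card_fin, nsmul_eq_mul]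
      push_cast
      ring

end Pool.Agent.Lib.H70X
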