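import Pool.Agent.Lib.H70X.QL1
import Pool.Agent.Lib.H70X.QL3

/-! # Chunk QL4: at marked points there are no short vectors (medium)

`P` is the poset of the nonzero subspaces of `ℚ^k`, `ψ V x = mns h x (tup V)`.

Proof. Let `F'` be the chain of nonzero subspaces given by `Mk` (`F = ∅`): `ε ≤ ψ V x ≤ ρ` for
`V ∈ F'`, and `ρ ≤ ψ V x` for every nonzero `V ∉ F'` comparable with all of `F'`. Let `u ≠ 0` be an integer vector.
Let `V0` be the largest element of `F' ∪ {0}` not containing `u` (`F'` is a chain of subspaces of a finite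
dimensional space, so it is finite and has such an element), and `V' = V0 + ℚ u`, of
dimension `finrank V0 + 1`. Every element of `F'` either is contained in `V0`, or contains `u` and `V0`, so contains
`V'`: `V'` is comparable with all of `F'`. So `ψ V' x ≥ ε` (`V' ∈ F'`) or `ψ V' x ≥ ρ ≥ ε`. The tuple
`cons u (tup V0)` (transported along `finrank V' = finrank V0 + 1`; it is `IsTup V'`) and
`tup_min`, `mns_cons` give
`ε ≤ ψ V' x ≤ (finrank V0 + 1) (∑_i |ev h x u i|) mns h x (tup V0)`, and `mns h x (tup V0) ≤ ρ ≤ 1` if `V0 ≠ 0`,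
`= 1` if `V0 = 0` (there is one empty minor, equal to 1). As `finrank V0 + 1 ≤ k`, done. -/

open Polynomial MeasureTheory Set Filter

namespace Pool.Agent.Lib.H70X

/-- the poset of nonzero subspaces -/
abbrev Sub (k : ℕ) : Type := {V : Submodule ℚ (Fin k → ℚ) // V ≠ ⊥}

/-- the function of a subspace -/
noncomputable def psi {k : ℕ} (h : Matrix (Fin k) (Fin k) ℝ[X]) (V : Sub k) (x : ℝ) : ℝ :=
  mns h x (tup V.1)

/-- integer vectors as rational vectors -/
def QL4_c (k : ℕ) : (Fin k → ℤ) →ₗ[ℤ] (Fin k → ℚ) where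
  toFun v := fun i => (v i : ℚ)
  map_add' v w := by
    funext i
    simp
  map_smul' a v := by
    funext i
    simp

theorem QL4_inj (k : ℕ) : Function.Injective (QL4_c k) := by
  intro v w h
  funext i
  have h1 : ((v i : ℤ) : ℚ) = (w i : ℚ) := congrFun h i
  exact_mod_cast h1

theorem QL4_li {k j : ℕ} (v : Fin j → Fin k → ℤ) :
    LinearIndependent ℤ v ↔ LinearIndependent ℚ (fun s => QL4_c k (v s)) := by
  rw [← LinearIndependent.iff_fractionRing ℤ ℚ]
  have h1 : (fun s => QL4_c k (v s)) = (QL4_c k) ∘ v := rfl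
  rw [h1]
  exact (LinearMap.linearIndependent_iff (QL4_c k) (LinearMap.ker_eq_bot.2 (QL4_inj k))).symm

theorem QL4_min {k m : ℕ} (V : Submodule ℚ (Fin k → ℚ)) (hm : Module.finrank ℚ V = m)
    (v : Fin m → Fin k → ℤ) (h1 : LinearIndependent ℤ v) (h2 : ∀ s, QL4_c k (v s) ∈ V)
    (h : Matrix (Fin k) (Fin k) ℝ[X]) (x : ℝ) : mns h x (tup V) ≤ mns h x v := by
  subst hm
  exact tup_min V v ⟨h1, h2⟩ h x

theorem QL4_zero {k m : ℕ} (hm : m = 0) (v : Fin m → Fin k → ℤ)
    (h : Matrix (Fin k) (Fin k) ℝ[X]) (x : ℝ) : mns h x v = 1 := by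
  subst hm
  simp [mns, mn]

theorem marked_long {k : ℕ} (h : Matrix (Fin k) (Fin k) ℝ[X]) (x ε ρ : ℝ) (hε : 0 < ε)
    (hερ : ε ≤ ρ) (hρ : ρ ≤ 1) (hM : Mk (psi h) ε ρ (∅ : Set (Sub k)) x) (u : Fin k → ℤ)
    (hu : u ≠ 0) : ε ≤ (k : ℝ) * ∑ i, |ev h x u i| := by
  obtain ⟨F', -, hchain, hF1, hF2⟩ := hM
  have hF1' : ∀ s ∈ F', ε ≤ psi h s x ∧ psi h s x ≤ ρ := fun s hs =>
    hF1 s ⟨hs, Set.notMem_empty _⟩
  set uq : Fin k → ℚ := QL4_c k u with huq
  have huq0 : uq ≠ 0 := by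
    intro h0
    apply hu
    apply QL4_inj k
    rw [map_zero]
    exact h0
  set T : Set (Submodule ℚ (Fin k → ℚ)) :=
    {V | (V = ⊥ ∨ ∃ hV : V ≠ ⊥, (⟨V, hV⟩ : Sub k) ∈ F') ∧ uq ∉ V} with hT
  have hTne : T.Nonempty := ⟨⊥, Or.inl rfl, fun h0 => huq0 ((Submodule.mem_bot ℚ).1 h0)⟩
  obtain ⟨V0, hV0T, hV0max⟩ := (set_has_maximal_iff_noetherian (R := ℚ)
    (M := Fin k → ℚ)).2 inferInstance T hTne
  obtain ⟨hV0F, hV0u⟩ := hV0T
  have hle : ∀ t ∈ F', (t : Sub k).1 ≤ V0 ∨ (V0 ≤ t.1 ∧ uq ∈ t.1) := by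
    intro t ht
    by_cases hut : uq ∈ t.1
    · right
      refine ⟨?_, hut⟩
      rcases hV0F with h0 | ⟨hV, hV0F⟩
      · rw [h0]
        exact bot_le
      · rcases eq_or_ne (⟨V0, hV⟩ : Sub k) t with h1 | h1
        · exact (congrArg Subtype.val h1).le
        · rcases hchain hV0F ht h1 with h2 | h2
          · exact h2
          · exact absurd (h2 hut) hV0u
    · left
      have htT : t.1 ∈ T := ⟨Or.inr ⟨t.2, ht⟩, hut⟩
      have hnlt := hV0max _ htT
      rcases hV0F with h0 | ⟨hV, hV0F⟩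
      · exfalso
        apply hnlt
        rw [h0]
        exact bot_lt_iff_ne_bot.2 t.2
      · rcases eq_or_ne (⟨V0, hV⟩ : Sub k) t with h1 | h1
        · exact (congrArg Subtype.val h1).ge
        · rcases hchain hV0F ht h1 with h2 | h2
          · exfalso
            apply hnlt
            exact lt_of_le_of_ne h2 fun h3 => h1 (Subtype.ext h3)
          · exact h2
  set V' : Submodule ℚ (Fin k → ℚ) := V0 ⊔ Submodule.span ℚ {uq} with hV'
  have huV' : uq ∈ V' := Submodule.mem_sup_right (Submodule.mem_span_singleton_self uq)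
  have hV'0 : V' ≠ ⊥ := by
    intro h0
    rw [h0] at huV'
    exact huq0 ((Submodule.mem_bot ℚ).1 huV')
  have hcomp : ∀ t ∈ F', (⟨V', hV'0⟩ : Sub k) ≤ t ∨ t ≤ (⟨V', hV'0⟩ : Sub k) := by
    intro t ht
    rcases hle t ht with h1 | ⟨h1, h2⟩
    · right
      exact h1.trans le_sup_left
    · left
      exact sup_le h1 ((Submodule.span_singleton_le_iff_mem _ _).2 h2)
  have hψ : ε ≤ psi h ⟨V', hV'0⟩ x := by
    by_cases hmem : (⟨V', hV'0⟩ : Sub k) ∈ F'
    · exact (hF1' _ hmem).1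
    · exact hερ.trans (hF2 _ hmem hcomp)
  have hfr : Module.finrank ℚ V' = Module.finrank ℚ V0 + 1 := by
    have h1 := Submodule.finrank_sup_add_finrank_inf_eq V0 (Submodule.span ℚ {uq})
    have h2 : V0 ⊓ Submodule.span ℚ {uq} = ⊥ :=
      disjoint_iff.1 (Submodule.disjoint_span_singleton_of_notMem hV0u)
    rw [h2, finrank_bot, finrank_span_singleton huq0, add_zero] at h1
    exact h1
  have htup := tup_isTup V0
  have hspan : Submodule.span ℚ (Set.range fun s => QL4_c k (tup V0 s)) ≤ V0 := by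
    rw [Submodule.span_le]
    rintro _ ⟨s, rfl⟩
    exact htup.2 s
  have hli : LinearIndependent ℤ
      (Fin.cons u (tup V0) : Fin (Module.finrank ℚ V0 + 1) → Fin k → ℤ) := by
    rw [QL4_li]
    have h1 : (fun s => QL4_c k
        ((Fin.cons u (tup V0) : Fin (Module.finrank ℚ V0 + 1) → Fin k → ℤ) s)) =
        (Fin.cons uq fun s => QL4_c k (tup V0 s)) := by
      funext s
      refine Fin.cases ?_ (fun s' => ?_) s
      · rfl
      · rfl
    rw [h1, linearIndependent_finCons]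
    exact ⟨(QL4_li _).1 htup.1, fun h0 => hV0u (hspan h0)⟩
  have hmem : ∀ s, QL4_c k
      ((Fin.cons u (tup V0) : Fin (Module.finrank ℚ V0 + 1) → Fin k → ℤ) s) ∈ V' := by
    intro s
    refine Fin.cases ?_ (fun s' => ?_) s
    · exact huV'
    · exact Submodule.mem_sup_left (htup.2 s')
  have h1 := QL4_min V' hfr _ hli hmem h x
  have h2 := mns_cons h x u (tup V0)
  have h3 : mns h x (tup V0) ≤ 1 := by
    rcases hV0F with h0 | ⟨hV, hV0F⟩
    · refine (QL4_zero ?_ (tup V0) h x).le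
      rw [h0, finrank_bot]
    · exact (hF1' _ hV0F).2.trans hρ
  have hS : 0 ≤ ∑ i, |ev h x u i| := Finset.sum_nonneg fun i _ => abs_nonneg _
  have hk : Module.finrank ℚ V0 + 1 ≤ k := by
    rw [← hfr]
    have h4 := Submodule.finrank_le V'
    rwa [Module.finrank_fin_fun] at h4
  have hk' : ((Module.finrank ℚ V0 : ℕ) : ℝ) + 1 ≤ k := by exact_mod_cast hk
  have h5 : 0 ≤ ((Module.finrank ℚ V0 : ℕ) : ℝ) + 1 := by positivity
  calc ε ≤ psi h ⟨V', hV'0⟩ x := hψ
    _ = mns h x (tup V') := rfl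
    _ ≤ (((Module.finrank ℚ V0 : ℕ) : ℝ) + 1) * (∑ i, |ev h x u i|) * mns h x (tup V0) :=
        h1.trans h2
    _ ≤ (((Module.finrank ℚ V0 : ℕ) : ℝ) + 1) * (∑ i, |ev h x u i|) * 1 :=
        mul_le_mul_of_nonneg_left h3 (mul_nonneg h5 hS)
    _ ≤ (k : ℝ) * ∑ i, |ev h x u i| := by
        rw [mul_one]
        exact mul_le_mul_of_nonneg_right hk' hS

end Pool.Agent.Lib.H70X
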