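import Pool.Agent.Lib.H70X.QA1
import Pool.Agent.Lib.H70X.QA4
import Pool.Agent.Lib.H70X.QL2
import Pool.Agent.Lib.H70X.QL4

/-! # Chunk QL5: quantitative nondivergence (medium; assembly)

Proof. Apply `poset_ind` with `P = Sub k`, `rk V = finrank V`, `ψ = psi h`, `F = ∅`, `m = k`. `Sys`:
`rk_lt`: `Submodule.finrank_lt_finrank_of_lt`; continuity: finite sums of products of polynomials; `fin`: `fin_tup` (with `v = tup V`);
`good`: for fixed `V` (`j = finrank V ≤ k`) every minor `mn h x (tup V) S` is the value at `x` of a polynomial of degree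
`≤ j d ≤ k d` (the determinant of a matrix of polynomials). Let `x0` be given, `ψ(x0) > 0`, and choose `S` with
`|mn h x0 v S| ≥ ψ(x0) / (number of S) ≥ ψ(x0) / (k^k + 1)` (`#S = k^j ≤ k^k + 1`). Then `{ψ < ε} ⊆ {|mn S| < ε}` has
measure `≤ C0 (ε (k^k+1) / ψ(x0))^α (b-a)` by `poly_good (k*d)`, `α = 1/(kd+1)`. So
`C = C0 (k^k+1)^α` for `Sys`. The hypothesis on `sup ψ`: the given minor is at most `ψ V x`.
A point which is marked has no short vectors (`marked_long`), so the set in the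
statement is contained in `{¬ Mk}`. Final constant `(2^(k+1) - 2) C + 1`. (`k = 0`: there is no `u ≠ 0`.) -/

open Polynomial MeasureTheory Set Filter

namespace Pool.Agent.Lib.H70X

/-- the minor as a polynomial -/
noncomputable def ql5_mnP {k j : ℕ} (h : Matrix (Fin k) (Fin k) ℝ[X]) (v : Fin j → Fin k → ℤ)
    (S : Fin j → Fin k) : ℝ[X] :=
  Matrix.det (Matrix.of fun s t : Fin j => ∑ l, h (S t) l * C ((v s l : ℤ) : ℝ))

theorem ql5_eval {k j : ℕ} (h : Matrix (Fin k) (Fin k) ℝ[X]) (x : ℝ) (v : Fin j → Fin k → ℤ)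
    (S : Fin j → Fin k) : (ql5_mnP h v S).eval x = mn h x v S := by
  unfold ql5_mnP mn
  rw [← Polynomial.coe_evalRingHom, RingHom.map_det]
  congr 1
  ext s t
  simp [ev, Polynomial.eval_finset_sum]

theorem ql5_deg {k j d : ℕ} (h : Matrix (Fin k) (Fin k) ℝ[X]) (hd : ∀ i j, (h i j).natDegree ≤ d)
    (v : Fin j → Fin k → ℤ) (S : Fin j → Fin k) (hj : j ≤ k) :
    (ql5_mnP h v S).natDegree ≤ k * d := by
  unfold ql5_mnP
  rw [Matrix.det_apply]
  refine Polynomial.natDegree_sum_le_of_forall_le _ _ fun σ _ => ?_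
  refine (Polynomial.natDegree_smul_le _ _).trans ?_
  refine (Polynomial.natDegree_prod_le _ _).trans ?_
  have h1 : ∀ i ∈ (Finset.univ : Finset (Fin j)),
      (Matrix.of (fun s t : Fin j => ∑ l, h (S t) l * C ((v s l : ℤ) : ℝ)) (σ i) i).natDegree
        ≤ d := by
    intro i _
    rw [Matrix.of_apply]
    refine Polynomial.natDegree_sum_le_of_forall_le _ _ fun l _ => ?_
    exact (Polynomial.natDegree_mul_C_le _ _).trans (hd _ _)
  refine (Finset.sum_le_sum h1).trans ?_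
  simp only [Finset.sum_const, Finset.card_univ, Fintype.card_fin, smul_eq_mul]
  exact Nat.mul_le_mul_right d hj

theorem ql5_card {k j : ℕ} (hj : j ≤ k) : ((k ^ j : ℕ) : ℝ) ≤ (k : ℝ) ^ k + 1 := by
  rcases Nat.eq_zero_or_pos k with hk | hk
  · subst hk
    have : j = 0 := by omega
    subst this
    norm_num
  · have : k ^ j ≤ k ^ k := Nat.pow_le_pow_right hk hj
    have h2 : ((k ^ j : ℕ) : ℝ) ≤ ((k ^ k : ℕ) : ℝ) := by exact_mod_cast this
    push_cast at h2 ⊢
    linarith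

theorem ql5_mn_le {k j : ℕ} (h : Matrix (Fin k) (Fin k) ℝ[X]) (x : ℝ) (v : Fin j → Fin k → ℤ)
    (S : Fin j → Fin k) : |mn h x v S| ≤ mns h x v := by
  unfold mns
  exact Finset.single_le_sum (f := fun S : Fin j → Fin k => |mn h x v S|)
    (fun _ _ => abs_nonneg _) (Finset.mem_univ S)

theorem ql5_big {k j : ℕ} (h : Matrix (Fin k) (Fin k) ℝ[X]) (x : ℝ) (v : Fin j → Fin k → ℤ)
    (hj : j ≤ k) (hpos : 0 < mns h x v) :
    ∃ S : Fin j → Fin k, mns h x v / ((k : ℝ) ^ k + 1) ≤ |mn h x v S| := by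
  have hne : (Finset.univ : Finset (Fin j → Fin k)).Nonempty := by
    by_contra hne
    rw [Finset.not_nonempty_iff_eq_empty] at hne
    unfold mns at hpos
    rw [hne] at hpos
    simp at hpos
  have hN : (0 : ℝ) < (k : ℝ) ^ k + 1 := by positivity
  have hsum : ∑ _S : Fin j → Fin k, mns h x v / ((k : ℝ) ^ k + 1) ≤
      ∑ S : Fin j → Fin k, |mn h x v S| := by
    rw [Finset.sum_const, Finset.card_univ, Fintype.card_fun, Fintype.card_fin, Fintype.card_fin,
      nsmul_eq_mul]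
    change _ ≤ mns h x v
    rw [mul_div_assoc', div_le_iff₀ hN, mul_comm]
    exact mul_le_mul_of_nonneg_left (ql5_card hj) hpos.le
  obtain ⟨S, _, hS⟩ := Finset.exists_le_of_sum_le hne hsum
  exact ⟨S, hS⟩

theorem ql5_cont {k j : ℕ} (h : Matrix (Fin k) (Fin k) ℝ[X]) (v : Fin j → Fin k → ℤ) :
    Continuous fun x => mns h x v := by
  unfold mns
  refine continuous_finset_sum _ fun S _ => ?_
  have h1 : (fun x => |mn h x v S|) = fun x => |(ql5_mnP h v S).eval x| := by
    funext x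
    rw [ql5_eval]
  rw [h1]
  exact (ql5_mnP h v S).continuous.abs

theorem qnd (k d : ℕ) : ∃ C α : ℝ, 0 < C ∧ 0 < α ∧
    ∀ (h : Matrix (Fin k) (Fin k) ℝ[X]) (a b ρ ε : ℝ),
    (∀ i j, (h i j).natDegree ≤ d) → (∀ x : ℝ, (h.map (Polynomial.eval x)).det ≠ 0) →
    a < b → 0 < ε → ε ≤ ρ → ρ ≤ 1 →
    (∀ j : ℕ, 1 ≤ j → ∀ v : Fin j → Fin k → ℤ, LinearIndependent ℤ v →
      ∃ x ∈ Icc a b, ∃ S : Fin j → Fin k, ρ ≤ |mn h x v S|) →
    volume {x ∈ Icc a b | ∃ u : Fin k → ℤ, u ≠ 0 ∧ (k : ℝ) * ∑ i, |ev h x u i| < ε} ≤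
      ENNReal.ofReal (C * (ε / ρ) ^ α * (b - a)) := by
  obtain ⟨C0, hC0, hgood⟩ := poly_good (k * d)
  set α : ℝ := 1 / (((k * d : ℕ) : ℝ) + 1) with hαdef
  have hα : 0 < α := by positivity
  set N : ℝ := (k : ℝ) ^ k + 1 with hNdef
  have hN : 0 < N := by positivity
  set C1 : ℝ := C0 * N ^ α with hC1
  have hC1pos : 0 < C1 := by positivity
  have h2k : (0 : ℝ) ≤ 2 ^ (k + 1) - 2 := by
    have : (1 : ℝ) ≤ 2 ^ k := one_le_pow₀ (by norm_num)
    rw [pow_succ]
    linarith
  refine ⟨(2 ^ (k + 1) - 2) * C1 + 1, α, by positivity, hα, ?_⟩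
  intro h a b ρ ε hdeg hdet hab hε hερ hρ1 hsup
  have hρ : 0 < ρ := lt_of_lt_of_le hε hερ
  have hfr : ∀ V : Submodule ℚ (Fin k → ℚ), Module.finrank ℚ V ≤ k := by
    intro V
    have := Submodule.finrank_le V
    rwa [Module.finrank_fin_fun] at this
  have hsys : Sys (Sub k) k (fun V => Module.finrank ℚ V.1) (psi h) ρ C1 α := by
    refine ⟨?_, ?_, ?_, ?_, ?_, ?_⟩
    · intro s t hst
      exact Submodule.finrank_lt_finrank_of_lt hst
    · intro s
      exact Submodule.one_le_finrank_iff.2 s.2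
    · intro s
      exact hfr s.1
    · intro s
      exact ql5_cont h (tup s.1)
    · intro s ε' a' b' x0 hε' hab' hx0 hpos
      obtain ⟨S, hS⟩ := ql5_big h x0 (tup s.1) (hfr s.1) hpos
      have hmn : 0 < |mn h x0 (tup s.1) S| := lt_of_lt_of_le (div_pos hpos hN) hS
      have hsub : {x ∈ Icc a' b' | psi h s x < ε'} ⊆
          {x ∈ Icc a' b' | |(ql5_mnP h (tup s.1) S).eval x| < ε'} := by
        rintro x ⟨hx, hlt⟩
        refine ⟨hx, ?_⟩
        rw [ql5_eval]
        exact lt_of_le_of_lt (ql5_mn_le h x (tup s.1) S) hlt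
      refine (measure_mono hsub).trans ?_
      have hne : (ql5_mnP h (tup s.1) S).eval x0 ≠ 0 := by
        rw [ql5_eval]
        exact abs_pos.1 hmn
      refine (hgood (ql5_mnP h (tup s.1) S) ε' a' b' x0
        (ql5_deg h hdeg (tup s.1) S (hfr s.1)) hε' hab' hx0 hne).trans ?_
      apply ENNReal.ofReal_le_ofReal
      refine mul_le_mul_of_nonneg_right ?_ (by linarith)
      rw [ql5_eval, hC1, mul_assoc]
      refine mul_le_mul_of_nonneg_left ?_ hC0.le
      have hpsi : 0 < psi h s x0 := hpos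
      rw [← Real.mul_rpow hN.le (div_nonneg hε'.le hpsi.le)]
      refine Real.rpow_le_rpow (div_nonneg hε'.le hmn.le) ?_ hα.le
      rw [mul_div_assoc', div_le_div_iff₀ hmn hpsi]
      have h3 : psi h s x0 ≤ |mn h x0 (tup s.1) S| * N := by
        rw [div_le_iff₀ hN] at hS
        exact hS
      calc ε' * psi h s x0 ≤ ε' * (|mn h x0 (tup s.1) S| * N) :=
            mul_le_mul_of_nonneg_left h3 hε'.le
        _ = N * ε' * |mn h x0 (tup s.1) S| := by ring
    · intro x
      refine ((fin_tup h x ρ (hdet x)).preimage Subtype.val_injective.injOn).subset ?_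
      intro s hs
      exact ⟨tup s.1, tup_isTup s.1, hs⟩
  have hmain := poset_ind hsys hC1pos hα hρ ε hε hερ k (∅ : Set (Sub k)) a b
    IsChain.empty Set.finite_empty (by omega) hab (by
      intro s _ _
      obtain ⟨x, hx, S, hS⟩ := hsup (Module.finrank ℚ s.1)
        (Submodule.one_le_finrank_iff.2 s.2) (tup s.1) (tup_isTup s.1).1
      exact ⟨x, hx, hS.trans (ql5_mn_le h x (tup s.1) S)⟩)
  refine (measure_mono ?_).trans (hmain.trans ?_)
  · rintro x ⟨hx, u, hu, hlt⟩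
    refine ⟨hx, fun hM => ?_⟩
    exact absurd (marked_long h x ε ρ hε hερ hρ1 hM u hu) (not_le.2 hlt)
  · apply ENNReal.ofReal_le_ofReal
    refine mul_le_mul_of_nonneg_right ?_ (by linarith)
    refine mul_le_mul_of_nonneg_right (by linarith) ?_
    positivity

end Pool.Agent.Lib.H70X
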