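import Pool.Agent.Lib.H70X.MK2

/-! # Chunk MK3: a sublattice without short vectors has a large minor (medium)

Proof. `i = 0`: the minor is 1, take `c = 1`. Let `i ≥ 1`, `C` the constant of `mk i`, and `c = 1 / (C i^i)`. Let `S0` be such
that `|det (y_s (S0 t))|` is maximal, `μ` its value; `μ > 0` because the `y_s` are linearly independent (some
`i x i` minor of a matrix of rank `i` is nonzero). Suppose `μ < c η^i`. The matrix `M = (y_s (S0 t))_{t,s}` has
`|det M| = μ`; `mk` gives a unimodular `G` with `∏ ‖M g_j‖ ≤ C μ`, so some column `z = g_j ≠ 0` has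
`‖M z‖^i ≤ C μ < (η/i)^i`, `‖M z‖ < η / i`. By Cramer's rule, for every coordinate `m`:
`y_s(m) = ∑_t λ_t y_s(S0 t)` for all `s`, with `λ_t = det(y_s(S t)) / det (y_s(S0 t))`, `S` = `S0` with the value at `t` replaced by
`m`, so `|λ_t| ≤ 1` by maximality. Hence `|∑_s z_s y_s(m)| ≤ ∑_t |(M z)_t| ≤ i ‖M z‖ < η` for all `m`:
contradiction. -/

open Polynomial MeasureTheory Set Filter

namespace Pool.Agent.Lib.H70X

/-- a nonzero minor -/
theorem MK3_minor {i k : ℕ} (y : Fin i → Fin k → ℝ) (hy : LinearIndependent ℝ y) :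
    ∃ S : Fin i → Fin k, Matrix.det (Matrix.of fun s t : Fin i => y s (S t)) ≠ 0 := by
  set Y : Matrix (Fin i) (Fin k) ℝ := Matrix.of y with hY
  have h1 : Y.rank = i := by
    have h2 : LinearIndependent ℝ Y.row := hy
    simpa using h2.rank_matrix
  obtain ⟨κ, a, ha, hspan, hli⟩ := exists_linearIndependent' ℝ Y.col
  have : Finite κ := Finite.of_injective a ha
  have : Fintype κ := Fintype.ofFinite κ
  have h2 : Fintype.card κ = i := by
    have h3 := linearIndependent_iff_card_eq_finrank_span.mp hli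
    rw [h3, Set.finrank, hspan, ← Matrix.rank_eq_finrank_span_cols, h1]
  let e : Fin i ≃ κ := (Fintype.equivFinOfCardEq h2).symm
  refine ⟨a ∘ e, ?_⟩
  have h3 : LinearIndependent ℝ (Matrix.of fun s t : Fin i => y s ((a ∘ e) t)).col := by
    have h4 := hli.comp e e.injective
    exact h4
  have h4 := Matrix.linearIndependent_cols_iff_isUnit.mp h3
  rw [Matrix.isUnit_iff_isUnit_det] at h4
  exact h4.ne_zero

/-- Cramer's rule with a maximal minor -/
theorem MK3_cramer {i k : ℕ} (y : Fin i → Fin k → ℝ) (S0 : Fin i → Fin k)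
    (h0 : Matrix.det (Matrix.of fun s t : Fin i => y s (S0 t)) ≠ 0)
    (hmax : ∀ S : Fin i → Fin k, |Matrix.det (Matrix.of fun s t : Fin i => y s (S t))| ≤
      |Matrix.det (Matrix.of fun s t : Fin i => y s (S0 t))|) (m : Fin k) :
    ∃ c : Fin i → ℝ, (∀ t, |c t| ≤ 1) ∧ ∀ s, y s m = ∑ t, y s (S0 t) * c t := by
  set A : Matrix (Fin i) (Fin i) ℝ := Matrix.of fun s t : Fin i => y s (S0 t) with hA
  have h1 := Matrix.mulVec_cramer A (fun s => y s m)
  refine ⟨fun t => A.cramer (fun s => y s m) t / A.det, ?_, ?_⟩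
  · intro t
    have h2 : A.updateCol t (fun s => y s m) =
        Matrix.of fun s t' : Fin i => y s (Function.update S0 t m t') := by
      ext s t'
      rw [Matrix.updateCol_apply, Matrix.of_apply, Function.update_apply]
      split_ifs <;> rfl
    beta_reduce
    rw [Matrix.cramer_apply, h2, abs_div, div_le_one (abs_pos.mpr h0)]
    exact hmax _
  · intro s
    have h2 := congrFun h1 s
    rw [Pi.smul_apply, smul_eq_mul] at h2
    have h3 : ∑ t, y s (S0 t) * (A.cramer (fun s => y s m) t / A.det) =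
        (∑ t, A s t * A.cramer (fun s => y s m) t) / A.det := by
      rw [Finset.sum_div]
      refine Finset.sum_congr rfl fun t _ => ?_
      rw [hA, Matrix.of_apply]
      ring
    rw [h3, eq_div_iff h0, mul_comm]
    exact h2.symm

theorem submink (i k : ℕ) : ∃ c : ℝ, 0 < c ∧ ∀ y : Fin i → Fin k → ℝ, LinearIndependent ℝ y →
    ∀ η : ℝ, 0 < η → (∀ z : Fin i → ℤ, z ≠ 0 → ∃ m, η < |∑ s, (z s : ℝ) * y s m|) →
      ∃ S : Fin i → Fin k, c * η ^ i ≤ |Matrix.det (Matrix.of fun s t : Fin i => y s (S t))| := by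
  obtain ⟨C, hC, hmk⟩ := mk i
  rcases Nat.eq_zero_or_pos i with rfl | hi
  · refine ⟨1, one_pos, fun y _ η _ _ => ⟨Fin.elim0, ?_⟩⟩
    simp
  have hi' : (0 : ℝ) < i := by exact_mod_cast hi
  refine ⟨1 / (C * (i : ℝ) ^ i), by positivity, fun y hy η hη hz => ?_⟩
  obtain ⟨S1, hS1⟩ := MK3_minor y hy
  have : Nonempty (Fin i → Fin k) := ⟨S1⟩
  obtain ⟨S0, hmax⟩ := Finite.exists_max
    (fun S : Fin i → Fin k => |Matrix.det (Matrix.of fun s t : Fin i => y s (S t))|)
  have h0 : Matrix.det (Matrix.of fun s t : Fin i => y s (S0 t)) ≠ 0 := by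
    intro h
    have h1 := hmax S1
    simp only [h, abs_zero] at h1
    exact hS1 (abs_eq_zero.mp (le_antisymm h1 (abs_nonneg _)))
  refine ⟨S0, ?_⟩
  by_contra hcon
  push Not at hcon
  set A : Matrix (Fin i) (Fin i) ℝ := Matrix.of fun s t : Fin i => y s (S0 t) with hA
  obtain ⟨G, hG, hprod⟩ := hmk A.transpose (by rwa [Matrix.det_transpose])
  rw [Matrix.det_transpose] at hprod
  have h1 : ∏ j, ‖A.transpose.mulVec (fun l => (G l j : ℝ))‖ < (η / i) ^ i := by
    refine hprod.trans_lt ?_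
    have h2 : C * |A.det| < C * (1 / (C * (i : ℝ) ^ i) * η ^ i) :=
      mul_lt_mul_of_pos_left hcon hC
    refine h2.trans_eq ?_
    rw [div_pow]
    field_simp
  obtain ⟨j, hj⟩ : ∃ j, ‖A.transpose.mulVec (fun l => (G l j : ℝ))‖ < η / i := by
    by_contra hno
    push Not at hno
    have h2 : ∏ _j : Fin i, (η / i) ≤ ∏ j, ‖A.transpose.mulVec (fun l => (G l j : ℝ))‖ :=
      Finset.prod_le_prod (fun _ _ => by positivity) fun j _ => hno j
    rw [Finset.prod_const, Finset.card_univ, Fintype.card_fin] at h2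
    linarith
  obtain ⟨m, hm⟩ := hz (fun l => G l j) (MK2_col_ne G hG j)
  obtain ⟨c, hc1, hc2⟩ := MK3_cramer y S0 h0 hmax m
  have h2 : ∑ s, ((G s j : ℤ) : ℝ) * y s m =
      ∑ t, c t * A.transpose.mulVec (fun l => (G l j : ℝ)) t := by
    have h3 : ∀ t, c t * A.transpose.mulVec (fun l => (G l j : ℝ)) t =
        ∑ s, ((G s j : ℤ) : ℝ) * (y s (S0 t) * c t) := by
      intro t
      rw [Matrix.mulVec, dotProduct, Finset.mul_sum]
      refine Finset.sum_congr rfl fun s _ => ?_
      rw [Matrix.transpose_apply, hA, Matrix.of_apply]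
      ring
    simp only [h3]
    rw [Finset.sum_comm]
    refine Finset.sum_congr rfl fun s _ => ?_
    rw [hc2 s, Finset.mul_sum]
  rw [h2] at hm
  have h3 : |∑ t, c t * A.transpose.mulVec (fun l => (G l j : ℝ)) t| ≤ ∑ _t : Fin i, (η / i) := by
    refine (Finset.abs_sum_le_sum_abs _ _).trans (Finset.sum_le_sum fun t _ => ?_)
    rw [abs_mul]
    have h4 : |A.transpose.mulVec (fun l => (G l j : ℝ)) t| ≤ η / i :=
      (norm_le_pi_norm (A.transpose.mulVec (fun l => (G l j : ℝ))) t).trans hj.le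
    have h5 := hc1 t
    have h6 := abs_nonneg (c t)
    have h7 := abs_nonneg (A.transpose.mulVec (fun l => (G l j : ℝ)) t)
    nlinarith
  rw [Finset.sum_const, Finset.card_univ, Fintype.card_fin, nsmul_eq_mul] at h3
  have h4 : (i : ℝ) * (η / i) = η := by field_simp
  rw [h4] at h3
  linarith

end Pool.Agent.Lib.H70X
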