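import Pool.Agent.Lib.H70X.B0

/-! # Chunk J3: stripping (large)

Let `r = p/q`. `bar` is the dual of multiplication by `q T - p`: `cd r (bar p q u) m = q cd r u (m+1)` for `m ≤ n` (B0-type identity:
`(bar u)((T-r)^m) = u((qT-p)(T-r)^m) = q u((T-r)^(m+1))`).

Proof. (1) If `bar y = 0` then `q^l y_l = p^l y_0`, so `q^(n+1) ∣ y_0` (coprime), and `y_0 = 0` implies `y = 0`.
(2) Let `w'` be a basis of the `ℤ`-span of the `bar (w_s)`; its rank is `i`: a nontrivial relation `ν` between the `bar (w_s)`,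
`ν_{s0} ≠ 0`, shows that the `bar (w_s)`, `s ≠ s0`, are independent, and multiplication by `ν_{s0}` maps the span into their span.
So `bar (w_s) = ∑_c A_{sc} w'_c` with integers `A_{sc}`, and `A` without the row `s0` has nonzero determinant.
(3) Let `μ_s = (-1)^s det (A without the row s)`: integers, not all zero, `∑_s μ_s A_{sc} = 0` for all `c`. So `bar (∑ μ_s w_s) = 0`,
`∑ μ_s w_s ≠ 0` and `D = ∑_s μ_s w_s(0)` is a nonzero multiple of `q^(n+1)`.
(4) Laplace expansion of `W r w (cons 0 (succ ∘ S))` along the column 0 gives `q^(-i) D W r w' S`. -/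

open Polynomial MeasureTheory Set Filter

namespace Pool.Agent.Lib.H70X

private theorem j3_cd {n : ℕ} (x : ℝ) (u : Fin (n + 1) → ℤ) (m : ℕ) :
    cd x u m = ∑ l : Fin (n + 1), ((X - C x : ℝ[X]) ^ m).coeff (l : ℕ) * (u l : ℝ) := by
  unfold cd
  refine Finset.sum_congr rfl fun l _ => ?_
  rw [sub_eq_add_neg, ← C_neg, coeff_X_add_C_pow]
  ring

private theorem j3_bar {n : ℕ} (p q : ℕ) (u : Fin (n + 2) → ℤ) (P : ℝ[X]) (hP : P.natDegree ≤ n) :
    ∑ l : Fin (n + 1), P.coeff (l : ℕ) * ((bar p q u l : ℤ) : ℝ) =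
      ∑ l : Fin (n + 2), ((C (q : ℝ) * X - C (p : ℝ)) * P).coeff (l : ℕ) * (u l : ℝ) := by
  have h1 : ∀ l : Fin (n + 2), ((C (q : ℝ) * X - C (p : ℝ)) * P).coeff (l : ℕ) * (u l : ℝ) =
      (q : ℝ) * ((X * P).coeff (l : ℕ) * (u l : ℝ)) - (p : ℝ) * (P.coeff (l : ℕ) * (u l : ℝ)) := by
    intro l
    rw [sub_mul, mul_assoc, coeff_sub, coeff_C_mul, coeff_C_mul]
    ring
  rw [Finset.sum_congr rfl fun l _ => h1 l, Finset.sum_sub_distrib]
  rw [← Finset.mul_sum, ← Finset.mul_sum]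
  rw [Fin.sum_univ_succ (fun l : Fin (n + 2) => (X * P : ℝ[X]).coeff (l : ℕ) * (u l : ℝ)),
    Fin.sum_univ_castSucc (fun l : Fin (n + 2) => P.coeff (l : ℕ) * (u l : ℝ))]
  have h2 : P.coeff (n + 1) = 0 := coeff_eq_zero_of_natDegree_lt (by omega)
  simp only [Fin.val_zero, coeff_X_mul_zero, zero_mul, zero_add, Fin.val_succ, coeff_X_mul,
    Fin.val_castSucc, Fin.val_last, h2, add_zero]
  rw [Finset.mul_sum, Finset.mul_sum, ← Finset.sum_sub_distrib]
  refine Finset.sum_congr rfl fun l _ => ?_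
  unfold bar
  push_cast
  ring

theorem cd_bar {n : ℕ} (p q : ℕ) (hq : 0 < q) (u : Fin (n + 2) → ℤ) (m : ℕ) (hm : m ≤ n) :
    cd ((p : ℝ) / q) (bar p q u) m = q * cd ((p : ℝ) / q) u (m + 1) := by
  have hq' : (q : ℝ) ≠ 0 := by exact_mod_cast hq.ne'
  rw [j3_cd, j3_bar, j3_cd, Finset.mul_sum]
  · refine Finset.sum_congr rfl fun l _ => ?_
    have h1 : (C (q : ℝ) * X - C (p : ℝ)) * (X - C ((p : ℝ) / q)) ^ m =
        C (q : ℝ) * (X - C ((p : ℝ) / q)) ^ (m + 1) := by
      have h2 : (C (q : ℝ) * X - C (p : ℝ)) = C (q : ℝ) * (X - C ((p : ℝ) / q)) := by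
        rw [mul_sub, ← C_mul, mul_div_cancel₀ _ hq']
      rw [h2, pow_succ]
      ring
    rw [h1, coeff_C_mul]
    ring
  · rw [natDegree_pow, natDegree_X_sub_C]
    omega

private theorem j3_bar_sum {n i : ℕ} (p q : ℕ) (μ : Fin i → ℤ) (w : Fin i → Fin (n + 2) → ℤ) :
    bar p q (∑ s, μ s • w s) = ∑ s, μ s • bar p q (w s) := by
  funext l
  simp only [bar, Finset.sum_apply, Pi.smul_apply, smul_eq_mul]
  rw [Finset.mul_sum, Finset.mul_sum, ← Finset.sum_sub_distrib]
  refine Finset.sum_congr rfl fun s _ => ?_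
  ring

private theorem j3_pow {n : ℕ} (p q : ℕ) (y : Fin (n + 2) → ℤ) (h : bar p q y = 0) :
    ∀ (l : ℕ) (hl : l < n + 2), (q : ℤ) ^ l * y ⟨l, hl⟩ = (p : ℤ) ^ l * y 0 := by
  intro l
  induction l with
  | zero => intro hl; simp
  | succ l ih =>
    intro hl
    have h1 := ih (by omega)
    have h2 := congrFun h ⟨l, by omega⟩
    simp only [bar, Pi.zero_apply, Fin.succ_mk, Fin.castSucc_mk] at h2
    have h3 : (q : ℤ) * y ⟨l + 1, hl⟩ = p * y ⟨l, by omega⟩ := by linarith
    rw [pow_succ, mul_assoc, h3, pow_succ]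
    calc (q : ℤ) ^ l * (p * y ⟨l, by omega⟩) = p * ((q : ℤ) ^ l * y ⟨l, by omega⟩) := by ring
      _ = _ := by rw [h1]; ring

private theorem j3_zero {n : ℕ} (p q : ℕ) (hq : 0 < q) (y : Fin (n + 2) → ℤ)
    (h : bar p q y = 0) (h0 : y 0 = 0) : y = 0 := by
  funext l
  have h1 := j3_pow p q y h l l.2
  rw [h0, mul_zero] at h1
  have hq' : (q : ℤ) ≠ 0 := by exact_mod_cast hq.ne'
  rcases mul_eq_zero.1 h1 with h2 | h2
  · exact absurd h2 (pow_ne_zero _ hq')
  · exact h2

private theorem j3_dvd {n : ℕ} (p q : ℕ) (hpq : p.Coprime q) (y : Fin (n + 2) → ℤ)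
    (h : bar p q y = 0) : (q : ℤ) ^ (n + 1) ∣ y 0 := by
  have h1 := j3_pow p q y h (n + 1) (by omega)
  have h2 : (q : ℤ) ^ (n + 1) ∣ (p : ℤ) ^ (n + 1) * y 0 := ⟨_, h1.symm⟩
  have h3 : IsCoprime ((q : ℤ) ^ (n + 1)) ((p : ℤ) ^ (n + 1)) := by
    apply IsCoprime.pow
    exact (Nat.isCoprime_iff_coprime.2 hpq).symm
  exact h3.dvd_of_dvd_mul_left h2

private theorem j3_dep {n i p q : ℕ} (hq : 0 < q) 
    (w : Fin (i + 1) → Fin (n + 2) → ℤ) (hw : LinearIndependent ℤ w)
    (ν : Fin (i + 1) → ℤ) (hν : ∑ s, ν s • bar p q (w s) = 0) (s0 : Fin (i + 1))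
    (hs0 : ν s0 ≠ 0) :
    LinearIndependent ℤ (fun a : Fin i => bar p q (w (s0.succAbove a))) := by
  rw [Fintype.linearIndependent_iff] at hw ⊢
  intro lam hlam
  set lam' : Fin (i + 1) → ℤ := s0.insertNth (α := fun _ => ℤ) 0 lam with hlam'
  have e0 : lam' s0 = 0 := by simp [hlam']
  have e1 : ∀ a, lam' (s0.succAbove a) = lam a := by intro a; simp [hlam']
  set x : Fin (n + 2) → ℤ := ∑ s, lam' s • w s with hx
  set y : Fin (n + 2) → ℤ := ∑ s, ν s • w s with hy
  have hbx : bar p q x = 0 := by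
    rw [hx, j3_bar_sum, Fin.sum_univ_succAbove _ s0, e0, zero_smul, zero_add]
    simpa only [e1] using hlam
  have hby : bar p q y = 0 := by rw [hy, j3_bar_sum, hν]
  have hlin : bar p q (∑ s, (y 0 * lam' s - x 0 * ν s) • w s) = 0 := by
    rw [j3_bar_sum]
    have h1 : ∑ s, (y 0 * lam' s - x 0 * ν s) • bar p q (w s) =
        y 0 • (∑ s, lam' s • bar p q (w s)) - x 0 • (∑ s, ν s • bar p q (w s)) := by
      rw [Finset.smul_sum, Finset.smul_sum, ← Finset.sum_sub_distrib]
      refine Finset.sum_congr rfl fun s _ => ?_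
      rw [smul_smul, smul_smul, sub_smul]
    rw [h1, ← j3_bar_sum, ← j3_bar_sum, ← hx, ← hy, hbx, hby]
    simp
  have hzero : (∑ s, (y 0 * lam' s - x 0 * ν s) • w s) 0 = 0 := by
    have h1 : (∑ s, (y 0 * lam' s - x 0 * ν s) • w s) =
        y 0 • (∑ s, lam' s • w s) - x 0 • (∑ s, ν s • w s) := by
      rw [Finset.smul_sum, Finset.smul_sum, ← Finset.sum_sub_distrib]
      refine Finset.sum_congr rfl fun s _ => ?_
      rw [smul_smul, smul_smul, sub_smul]
    rw [h1, ← hx, ← hy]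
    simp only [Pi.sub_apply, Pi.smul_apply, smul_eq_mul]
    ring
  have h2 := hw _ (j3_zero p q hq _ hlin hzero)
  have h3 := h2 s0
  rw [e0, mul_zero, zero_sub, neg_eq_zero] at h3
  have hx0 : x 0 = 0 := by
    rcases mul_eq_zero.1 h3 with h4 | h4
    · exact h4
    · exact absurd h4 hs0
  have h4 := hw lam' (j3_zero p q hq x hbx hx0)
  intro a
  rw [← e1]
  exact h4 _

theorem strip (n i p q : ℕ) (hq : 0 < q) (hpq : p.Coprime q) (hi : i ≤ n + 1)
    (w : Fin (i + 1) → Fin (n + 2) → ℤ) (hw : LinearIndependent ℤ w)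
    (hb : ¬ LinearIndependent ℤ (fun s => bar p q (w s))) :
    ∃ w' : Fin i → Fin (n + 1) → ℤ, LinearIndependent ℤ w' ∧ ∀ S : Fin i → Fin (n + 1),
      |W ((p : ℝ) / q) w' S| * (q : ℝ) ^ (n + 1 - i) ≤
        |W ((p : ℝ) / q) w (Fin.cons 0 (fun t => (S t).succ) : Fin (i + 1) → Fin (n + 2))| := by
  have hqZ : (q : ℤ) ≠ 0 := by exact_mod_cast hq.ne'
  have hqR : (0 : ℝ) < q := by exact_mod_cast hq
  obtain ⟨ν, hν, s0, hs0⟩ := Fintype.not_linearIndependent_iff.1 hb
  have hind := j3_dep hq w hw ν hν s0 hs0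
  set B : Fin (i + 1) → Fin (n + 1) → ℤ := fun s => bar p q (w s) with hB
  set M : Submodule ℤ (Fin (n + 1) → ℤ) := Submodule.span ℤ (Set.range B) with hM
  set N : Submodule ℤ (Fin (n + 1) → ℤ) :=
    Submodule.span ℤ (Set.range fun a : Fin i => B (s0.succAbove a)) with hN
  have hNM : N ≤ M := by
    apply Submodule.span_mono
    rintro _ ⟨a, rfl⟩
    exact ⟨_, rfl⟩
  have hNr : Module.finrank ℤ N = i := by
    rw [hN, finrank_span_eq_card hind, Fintype.card_fin]
  have hMN : ∀ x ∈ M, ν s0 • x ∈ N := by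
    intro x hx
    induction hx using Submodule.span_induction with
    | mem x hx =>
      obtain ⟨s, rfl⟩ := hx
      by_cases hs : s = s0
      · subst hs
        have h1 : ν s • B s = - ∑ a : Fin i, ν (s.succAbove a) • B (s.succAbove a) := by
          rw [Fin.sum_univ_succAbove _ s] at hν
          exact eq_neg_of_add_eq_zero_left hν
        rw [h1]
        apply N.neg_mem
        apply N.sum_mem
        intro a _
        exact N.smul_mem _ (Submodule.subset_span ⟨a, rfl⟩)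
      · obtain ⟨a, rfl⟩ := Fin.exists_succAbove_eq hs
        exact N.smul_mem _ (Submodule.subset_span ⟨a, rfl⟩)
    | zero => simp
    | add x y _ _ hx hy => rw [smul_add]; exact N.add_mem hx hy
    | smul c x _ hx => rw [smul_comm]; exact N.smul_mem _ hx
  have hMr : Module.finrank ℤ M = i := by
    apply le_antisymm
    · rw [← hNr]
      let f : M →ₗ[ℤ] N :=
        { toFun := fun x => ⟨ν s0 • (x : Fin (n + 1) → ℤ), hMN x x.2⟩
          map_add' := by intro x y; ext; simp [mul_add]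
          map_smul' := by intro c x; ext; simp; ring }
      apply LinearMap.finrank_le_finrank_of_injective (f := f)
      intro x y hxy
      have h1 : ν s0 • (x : Fin (n + 1) → ℤ) = ν s0 • (y : Fin (n + 1) → ℤ) :=
        congrArg Subtype.val hxy
      ext l
      have h2 := congrFun h1 l
      simp only [Pi.smul_apply, smul_eq_mul] at h2
      exact mul_left_cancel₀ hs0 h2
    · rw [← hNr]
      exact Submodule.finrank_mono hNM
  have hfree : Module.Free ℤ M := inferInstance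
  let b0 := Module.finBasis ℤ M
  let b : Module.Basis (Fin i) ℤ M := b0.reindex (finCongr hMr)
  set w' : Fin i → Fin (n + 1) → ℤ := fun c => (b c : Fin (n + 1) → ℤ) with hw'
  have hw'ind : LinearIndependent ℤ w' := by
    have h1 := b.linearIndependent
    exact h1.map' M.subtype (Submodule.ker_subtype M)
  have hBM : ∀ s, B s ∈ M := fun s => Submodule.subset_span ⟨s, rfl⟩
  set A : Matrix (Fin (i + 1)) (Fin i) ℤ := Matrix.of fun s c => b.repr ⟨B s, hBM s⟩ c with hA
  have hBA : ∀ s, B s = ∑ c, A s c • w' c := by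
    intro s
    have h1 := b.sum_repr ⟨B s, hBM s⟩
    have h2 := congrArg (Submodule.subtype M) h1
    rw [map_sum] at h2
    simp only [map_smul, Submodule.subtype_apply] at h2
    rw [← h2]
    rfl
  -- the minors
  set μ : Fin (i + 1) → ℤ := fun s => (-1) ^ (s : ℕ) * (A.submatrix s.succAbove id).det with hμ
  have hμA : ∀ c, ∑ s, μ s * A s c = 0 := by
    intro c
    have h1 : (Matrix.of fun (s : Fin (i + 1)) (t : Fin (i + 1)) =>
        (Fin.cons (A s c) (A s) : Fin (i + 1) → ℤ) t).det = 0 := by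
      apply Matrix.det_zero_of_column_eq (i := 0) (j := c.succ) (Fin.succ_ne_zero c).symm
      intro s
      simp
    rw [Matrix.det_succ_column_zero] at h1
    rw [← h1]
    refine Finset.sum_congr rfl fun s _ => ?_
    simp only [hμ, Matrix.of_apply, Fin.cons_zero]
    have h2 : (Matrix.of fun (s : Fin (i + 1)) (t : Fin (i + 1)) =>
        (Fin.cons (A s c) (A s) : Fin (i + 1) → ℤ) t).submatrix s.succAbove Fin.succ =
        A.submatrix s.succAbove id := by
      ext a t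
      simp
    rw [h2]
    ring
  have hμ0 : μ s0 ≠ 0 := by
    simp only [hμ]
    apply mul_ne_zero (pow_ne_zero _ (by norm_num))
    intro hdet
    obtain ⟨v, hv, hv2⟩ := Matrix.exists_vecMul_eq_zero_iff.2 hdet
    apply hv
    rw [Fintype.linearIndependent_iff] at hind
    funext a
    apply hind v
    have h1 : ∀ a, bar p q (w (s0.succAbove a)) = ∑ c, A (s0.succAbove a) c • w' c :=
      fun a => hBA _
    simp only [h1, Finset.smul_sum, smul_smul]
    rw [Finset.sum_comm]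
    apply Finset.sum_eq_zero
    intro c _
    rw [← Finset.sum_smul]
    have h3 := congrFun hv2 c
    simp only [Matrix.vecMul, dotProduct, Matrix.submatrix_apply, id, Pi.zero_apply] at h3
    rw [h3, zero_smul]
  set y : Fin (n + 2) → ℤ := ∑ s, μ s • w s with hy
  have hby : bar p q y = 0 := by
    rw [hy, j3_bar_sum]
    have h1 : ∀ s, bar p q (w s) = ∑ c, A s c • w' c := fun s => hBA s
    simp only [h1, Finset.smul_sum, smul_smul]
    rw [Finset.sum_comm]
    apply Finset.sum_eq_zero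
    intro c _
    rw [← Finset.sum_smul, hμA, zero_smul]
  have hy0 : y 0 ≠ 0 := by
    intro h
    have h1 := j3_zero p q hq y hby h
    exact hμ0 (Fintype.linearIndependent_iff.1 hw μ h1 s0)
  have hyabs : (q : ℝ) ^ (n + 1) ≤ |(y 0 : ℝ)| := by
    have h1 := Int.le_of_dvd (abs_pos.2 hy0) ((dvd_abs _ _).2 (j3_dvd p q hpq y hby))
    exact_mod_cast h1
  refine ⟨w', hw'ind, fun S => ?_⟩
  -- Laplace expansion
  have hexp : W ((p : ℝ) / q) w (Fin.cons 0 (fun t => (S t).succ) : Fin (i + 1) → Fin (n + 2)) =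
      (y 0 : ℝ) * ((q : ℝ)⁻¹ ^ i * W ((p : ℝ) / q) w' S) := by
    unfold W
    rw [Matrix.det_succ_column_zero]
    have h1 : (y 0 : ℝ) = ∑ s, (μ s : ℝ) * (w s 0 : ℝ) := by
      rw [hy]
      simp only [Finset.sum_apply, Pi.smul_apply, smul_eq_mul]
      push_cast
      rfl
    rw [h1, Finset.sum_mul]
    refine Finset.sum_congr rfl fun s _ => ?_
    have h2 : (Matrix.of fun (s t : Fin (i + 1)) => cd ((p : ℝ) / q) (w s)
        (((Fin.cons 0 (fun t => (S t).succ) : Fin (i + 1) → Fin (n + 2)) t : Fin (n + 2)) : ℕ)).submatrix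
          s.succAbove Fin.succ =
        (q : ℝ)⁻¹ • (((A.submatrix s.succAbove id).map (Int.cast : ℤ → ℝ)) *
          (Matrix.of fun (c t : Fin i) => cd ((p : ℝ) / q) (w' c) (S t : ℕ))) := by
      ext a t
      simp only [Matrix.submatrix_apply, Matrix.of_apply, Fin.cons_succ, Matrix.smul_apply,
        Matrix.mul_apply, Matrix.map_apply, id, smul_eq_mul, Fin.val_succ]
      rw [← cd_sum ((p : ℝ) / q) (fun c => A (s.succAbove a) c) w' (S t : ℕ), ← hBA]
      simp only [hB]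
      rw [cd_bar p q hq _ _ (by have := (S t).2; omega), ← mul_assoc, inv_mul_cancel₀ hqR.ne',
        one_mul]
    rw [h2, Matrix.det_smul, Matrix.det_mul, Fintype.card_fin]
    have h3 : ((A.submatrix s.succAbove id).map (Int.cast : ℤ → ℝ)).det =
        ((A.submatrix s.succAbove id).det : ℝ) := by
      have := Int.cast_det (R := ℝ) (A.submatrix s.succAbove id)
      rw [← this]
    rw [h3]
    simp only [Matrix.of_apply, Fin.cons_zero, Fin.val_zero, cd_zero, hμ]
    push_cast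
    ring
  rw [hexp, abs_mul, abs_mul]
  have hpow : (q : ℝ) ^ (n + 1) * ((q : ℝ)⁻¹ ^ i) = (q : ℝ) ^ (n + 1 - i) := by
    rw [inv_pow, pow_sub₀ _ hqR.ne' hi]
  rw [abs_of_nonneg (by positivity : (0 : ℝ) ≤ (q : ℝ)⁻¹ ^ i), ← hpow]
  calc |Matrix.det (Matrix.of fun s t : Fin i => cd ((p : ℝ) / q) (w' s) (S t : ℕ))| *
        ((q : ℝ) ^ (n + 1) * (q : ℝ)⁻¹ ^ i)
      = (q : ℝ) ^ (n + 1) * ((q : ℝ)⁻¹ ^ i * |W ((p : ℝ) / q) w' S|) := by
        unfold W; ring
    _ ≤ |(y 0 : ℝ)| * ((q : ℝ)⁻¹ ^ i * |W ((p : ℝ) / q) w' S|) := by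
        apply mul_le_mul_of_nonneg_right hyabs
        positivity

end Pool.Agent.Lib.H70X
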