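import Pool.Agent.Lib.H70X.MK3
import Pool.Agent.Lib.H70X.J3

/-! # Chunk J4: lower bounds for minors at a good rational number (medium)

Proof. Write `r = p/q`. (1) PJ0: for independent `w_1..w_i ∈ ℤ^(m+1)` (`m ≤ n`) some `S` has `|W r w S| ≥ c0` (`c0` depends on `n`): some integer minor
`det (w_s (T t))` is nonzero, so `≥ 1` in absolute value; by `cd_inv` and expansion in the columns it is `∑_S (∏_t choose (T t) (S t) r^(T t - S t)) W r w S`, a sum of at
most `(n+1)^(n+1)` terms with coefficients `≤ (2^n)^(n+1)`.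
(2) First claim: apply (1) to the tuple `bar (w_s)` (degree `n'`): `|W r (bar w) S| ≥ c0`; `cd_bar` gives `W r w (succ ∘ S) = q^(-i) W r (bar w) S`, and `succ ∘ S` has no value 0.
(3) Second claim: put `y_s = (w_s(0) / R^(n'+1), R cd r (w_s) m (m ≥ 1)) ∈ ℝ^(n'+2)`; they are linearly independent over `ℝ` (`cd r` is invertible over `ℝ`, integer vectors independent
over `ℤ` are independent over `ℝ`). For `z ≠ 0` integer, `u = ∑ z_s w_s ≠ 0`, so by `GoodRat` (degree `n'+1 ≤ n`) some coordinate of `∑ z_s y_s` is `> η` in absolute value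
(`cd_sum`). `submink i (n'+2)` gives `S` with `c1 η^i ≤ |det (y_s (S t))|`. `S` is injective. If no value of `S` is 0 the determinant is `R^i W r w S`, so `c1 η^i / R^i ≤ B`; if one value is
0 it is `R^(i-1) / R^(n'+1) W r w S`, so `c1 η^i R^(n'+2-i) ≤ K`. `c` = minimum of 1, `c0` and the `c1` for `i, n' ≤ n`. -/

open Polynomial MeasureTheory Set Filter

namespace Pool.Agent.Lib.H70X

theorem J4_minorK {K : Type*} [Field K] {i k : ℕ} (y : Fin i → Fin k → K)
    (hy : LinearIndependent K y) :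
    ∃ S : Fin i → Fin k, Matrix.det (Matrix.of fun s t : Fin i => y s (S t)) ≠ 0 := by
  set Y : Matrix (Fin i) (Fin k) K := Matrix.of y with hY
  have h1 : Y.rank = i := by
    have h2 : LinearIndependent K Y.row := hy
    simpa using h2.rank_matrix
  obtain ⟨κ, a, ha, hspan, hli⟩ := exists_linearIndependent' K Y.col
  have : Finite κ := Finite.of_injective a ha
  have : Fintype κ := Fintype.ofFinite κ
  have h2 : Fintype.card κ = i := by
    have h3 := linearIndependent_iff_card_eq_finrank_span.mp hli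
    rw [h3, Set.finrank, hspan, ← Matrix.rank_eq_finrank_span_cols, h1]
  let e : Fin i ≃ κ := (Fintype.equivFinOfCardEq h2).symm
  refine ⟨a ∘ e, ?_⟩
  have h3 : LinearIndependent K (Matrix.of fun s t : Fin i => y s ((a ∘ e) t)).col := by
    have h4 := hli.comp e e.injective
    exact h4
  have h4 := Matrix.linearIndependent_cols_iff_isUnit.mp h3
  rw [Matrix.isUnit_iff_isUnit_det] at h4
  exact h4.ne_zero

theorem J4_minorZ {i k : ℕ} (w : Fin i → Fin k → ℤ) (hw : LinearIndependent ℤ w) :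
    ∃ T : Fin i → Fin k, Matrix.det (Matrix.of fun s t : Fin i => w s (T t)) ≠ 0 := by
  have h1 : LinearIndependent ℤ (fun s => (fun l => ((w s l : ℤ) : ℚ))) := by
    let c : (Fin k → ℤ) →ₗ[ℤ] (Fin k → ℚ) :=
      { toFun := fun u l => ((u l : ℤ) : ℚ)
        map_add' := by intro u v; funext l; simp
        map_smul' := by intro a u; funext l; simp }
    have hc : Function.Injective c := by
      intro u v huv
      funext l
      have := congrFun huv l
      exact Int.cast_injective (α := ℚ) this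
    exact hw.map' c (LinearMap.ker_eq_bot.2 hc)
  have h2 : LinearIndependent ℚ (fun s => (fun l => ((w s l : ℤ) : ℚ))) :=
    (LinearIndependent.iff_fractionRing ℤ ℚ).1 h1
  obtain ⟨T, hT⟩ := J4_minorK _ h2
  refine ⟨T, fun h0 => hT ?_⟩
  have h3 : (Matrix.of fun s t : Fin i => ((w s (T t) : ℤ) : ℚ)) =
      (Int.castRingHom ℚ).mapMatrix (Matrix.of fun s t : Fin i => w s (T t)) := by
    ext s t
    simp
  rw [h3, ← RingHom.map_det, h0, map_zero]

theorem J4_real {i k : ℕ} (w : Fin i → Fin k → ℤ) (hw : LinearIndependent ℤ w) :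
    LinearIndependent ℝ (fun s => (fun l => ((w s l : ℤ) : ℝ))) := by
  obtain ⟨T, hT⟩ := J4_minorZ w hw
  have h3 : (Matrix.of fun s t : Fin i => ((w s (T t) : ℤ) : ℝ)) =
      (Int.castRingHom ℝ).mapMatrix (Matrix.of fun s t : Fin i => w s (T t)) := by
    ext s t
    simp
  have h4 : Matrix.det (Matrix.of fun s t : Fin i => ((w s (T t) : ℤ) : ℝ)) ≠ 0 := by
    rw [h3, ← RingHom.map_det]
    simpa using hT
  have h5 := Matrix.linearIndependent_rows_of_det_ne_zero h4
  rw [Fintype.linearIndependent_iff] at h5 ⊢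
  intro g hg
  refine h5 g ?_
  funext t
  have := congrFun hg (T t)
  simpa [Finset.sum_apply, Matrix.row] using this

theorem J4_expand {m i : ℕ} (r : ℝ) (w : Fin i → Fin (m + 1) → ℤ) (T : Fin i → Fin (m + 1)) :
    Matrix.det (Matrix.of fun s t : Fin i => ((w s (T t) : ℤ) : ℝ)) =
      ∑ S : Fin i → Fin (m + 1),
        (∏ t, (((T t : ℕ).choose (S t : ℕ) : ℝ) * r ^ ((T t : ℕ) - (S t : ℕ)))) * W r w S := by
  rw [← Matrix.det_transpose]
  have h1 : (Matrix.of fun s t : Fin i => ((w s (T t) : ℤ) : ℝ)).transpose =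
      Matrix.of fun t s : Fin i => ∑ l : Fin (m + 1),
        (((T t : ℕ).choose (l : ℕ) : ℝ) * r ^ ((T t : ℕ) - (l : ℕ))) * cd r (w s) l := by
    ext t s
    rw [Matrix.transpose_apply, Matrix.of_apply, Matrix.of_apply]
    exact cd_inv r (w s) (T t)
  rw [h1]
  have h2 : (Matrix.of fun t s : Fin i => ∑ l : Fin (m + 1),
        (((T t : ℕ).choose (l : ℕ) : ℝ) * r ^ ((T t : ℕ) - (l : ℕ))) * cd r (w s) l) =
      fun t : Fin i => ∑ l : Fin (m + 1),
        (((T t : ℕ).choose (l : ℕ) : ℝ) * r ^ ((T t : ℕ) - (l : ℕ))) • (fun s => cd r (w s) l) := by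
    funext t s
    simp [Finset.sum_apply]
  rw [h2]
  change Matrix.detRowAlternating.toMultilinearMap _ = _
  rw [MultilinearMap.map_sum]
  refine Finset.sum_congr rfl fun S _ => ?_
  rw [MultilinearMap.map_smul_univ, smul_eq_mul]
  congr 1
  change Matrix.det (fun t s : Fin i => cd r (w s) (S t : ℕ)) = _
  unfold W
  rw [← Matrix.det_transpose]
  rfl

theorem J4_low (n : ℕ) : ∃ c0 : ℝ, 0 < c0 ∧ c0 ≤ 1 ∧ ∀ (m i : ℕ) (r : ℝ)
    (w : Fin i → Fin (m + 1) → ℤ), m ≤ n → i ≤ m + 1 → 0 ≤ r → r ≤ 1 → LinearIndependent ℤ w →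
    ∃ S : Fin i → Fin (m + 1), c0 ≤ |W r w S| := by
  have hA : (1 : ℝ) ≤ (((n : ℝ) + 1) ^ (n + 1)) := one_le_pow₀ (by linarith [Nat.cast_nonneg (α := ℝ) n])
  have hB : (1 : ℝ) ≤ ((2 : ℝ) ^ n) ^ (n + 1) := one_le_pow₀ (one_le_pow₀ (by norm_num))
  refine ⟨1 / ((((n : ℝ) + 1) ^ (n + 1)) * ((2 : ℝ) ^ n) ^ (n + 1)), by positivity, ?_, ?_⟩
  · rw [div_le_one (by positivity)]
    nlinarith
  intro m i r w hm hi hr0 hr1 hw
  obtain ⟨T, hT⟩ := J4_minorZ w hw
  have h1 : (1 : ℝ) ≤ |Matrix.det (Matrix.of fun s t : Fin i => ((w s (T t) : ℤ) : ℝ))| := by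
    have h3 : (Matrix.of fun s t : Fin i => ((w s (T t) : ℤ) : ℝ)) =
        (Int.castRingHom ℝ).mapMatrix (Matrix.of fun s t : Fin i => w s (T t)) := by
      ext s t
      simp
    rw [h3, ← RingHom.map_det, Int.coe_castRingHom, ← Int.cast_abs]
    exact_mod_cast Int.one_le_abs hT
  rw [J4_expand r w T] at h1
  have h2 : (1 : ℝ) ≤ ∑ S : Fin i → Fin (m + 1), ((2 : ℝ) ^ n) ^ (n + 1) * |W r w S| := by
    refine h1.trans ((Finset.abs_sum_le_sum_abs _ _).trans (Finset.sum_le_sum fun S _ => ?_))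
    rw [abs_mul]
    refine mul_le_mul_of_nonneg_right ?_ (abs_nonneg _)
    rw [Finset.abs_prod]
    have h4 : ∀ t ∈ (Finset.univ : Finset (Fin i)),
        |(((T t : ℕ).choose (S t : ℕ) : ℝ) * r ^ ((T t : ℕ) - (S t : ℕ)))| ≤ (2 : ℝ) ^ n := by
      intro t _
      rw [abs_mul, Nat.abs_cast, abs_pow, abs_of_nonneg hr0]
      have h5 : (((T t : ℕ).choose (S t : ℕ) : ℕ) : ℝ) ≤ (2 : ℝ) ^ n := by
        have h6 : (T t : ℕ).choose (S t : ℕ) ≤ 2 ^ n :=
          (Nat.choose_le_two_pow _ _).trans (Nat.pow_le_pow_right (by norm_num) (by omega))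
        exact_mod_cast h6
      calc (((T t : ℕ).choose (S t : ℕ) : ℕ) : ℝ) * r ^ ((T t : ℕ) - (S t : ℕ)) ≤
            (((T t : ℕ).choose (S t : ℕ) : ℕ) : ℝ) * 1 :=
            mul_le_mul_of_nonneg_left (pow_le_one₀ hr0 hr1) (Nat.cast_nonneg _)
        _ ≤ 2 ^ n := by linarith
    refine (Finset.prod_le_prod (fun _ _ => abs_nonneg _) h4).trans ?_
    rw [Finset.prod_const, Finset.card_univ, Fintype.card_fin]
    exact pow_le_pow_right₀ (one_le_pow₀ (by norm_num)) (by omega)
  have h3 : ∑ _S : Fin i → Fin (m + 1), (1 / (((n : ℝ) + 1) ^ (n + 1))) ≤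
      ∑ S : Fin i → Fin (m + 1), ((2 : ℝ) ^ n) ^ (n + 1) * |W r w S| := by
    refine le_trans ?_ h2
    rw [Finset.sum_const, Finset.card_univ, Fintype.card_fun, Fintype.card_fin, Fintype.card_fin,
      nsmul_eq_mul, mul_one_div, div_le_one (by positivity)]
    have h4 : (m + 1) ^ i ≤ (n + 1) ^ (n + 1) :=
      (Nat.pow_le_pow_left (by omega) i).trans (Nat.pow_le_pow_right (by omega) (by omega))
    exact_mod_cast h4
  obtain ⟨S, _, hS⟩ := Finset.exists_le_of_sum_le Finset.univ_nonempty h3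
  refine ⟨S, ?_⟩
  rw [div_le_iff₀ (by positivity)]
  rw [div_le_iff₀ (by positivity)] at hS
  calc (1 : ℝ) ≤ _ := hS
    _ = _ := by ring

theorem J4_min {ι : Type*} (s : Finset ι) (f : ι → ℝ) (hf : ∀ x ∈ s, 0 < f x) :
    ∃ c : ℝ, 0 < c ∧ c ≤ 1 ∧ ∀ x ∈ s, c ≤ f x := by
  classical
  induction s using Finset.induction with
  | empty => exact ⟨1, one_pos, le_rfl, by simp⟩
  | insert a s ha ih =>
    obtain ⟨c, hc, hc1, hcs⟩ := ih fun x hx => hf x (Finset.mem_insert_of_mem hx)
    refine ⟨min c (f a), lt_min hc (hf a (Finset.mem_insert_self _ _)),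
      (min_le_left _ _).trans hc1, ?_⟩
    intro x hx
    rcases Finset.mem_insert.1 hx with rfl | hx
    · exact min_le_right _ _
    · exact (min_le_left _ _).trans (hcs x hx)

theorem J4_high (n : ℕ) : ∃ c1 : ℝ, 0 < c1 ∧ c1 ≤ 1 ∧ ∀ (n' i : ℕ) (r η R : ℝ)
    (w : Fin i → Fin (n' + 2) → ℤ), n' + 1 ≤ n → i ≤ n' + 1 → 0 < η → 1 ≤ R →
    LinearIndependent ℤ w →
    (∀ u : Fin (n' + 2) → ℤ, |(u 0 : ℝ)| ≤ η * R ^ (n' + 1) →
      (∀ m : Fin (n' + 2), m ≠ 0 → |cd r u m| ≤ η / R) → u = 0) →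
    ∃ S : Fin i → Fin (n' + 2), c1 * η ^ i ≤
      |(∏ t, (if S t = 0 then 1 / R ^ (n' + 1) else R)) * W r w S| := by
  choose f hf hf2 using submink
  obtain ⟨c1, hc1, hc11, hc1f⟩ := J4_min
    ((Finset.range (n + 2)) ×ˢ (Finset.range (n + 3))) (fun x => f x.1 x.2) (fun x _ => hf x.1 x.2)
  refine ⟨c1, hc1, hc11, ?_⟩
  intro n' i r η R w hn hi hη hR hw hgood
  have hR0 : 0 < R := by linarith
  set y : Fin i → Fin (n' + 2) → ℝ := fun s m =>
    (if m = 0 then 1 / R ^ (n' + 1) else R) * cd r (w s) (m : ℕ) with hy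
  have hv0 : ∀ m : Fin (n' + 2), (if m = 0 then 1 / R ^ (n' + 1) else R) ≠ 0 := by
    intro m
    split_ifs <;> positivity
  have hyi : LinearIndependent ℝ y := by
    have hwr := J4_real w hw
    rw [Fintype.linearIndependent_iff] at hwr ⊢
    intro g hg
    refine hwr g ?_
    have h1 : ∀ m : Fin (n' + 2), ∑ s, g s * cd r (w s) (m : ℕ) = 0 := by
      intro m
      have h2 := congrFun hg m
      simp only [Finset.sum_apply, Pi.smul_apply, smul_eq_mul, hy, Pi.zero_apply] at h2
      have h3 : (if m = 0 then 1 / R ^ (n' + 1) else R) * ∑ s, g s * cd r (w s) (m : ℕ) = 0 := by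
        rw [Finset.mul_sum, ← h2]
        refine Finset.sum_congr rfl fun s _ => ?_
        ring
      exact (mul_eq_zero.1 h3).resolve_left (hv0 m)
    funext m
    simp only [Finset.sum_apply, Pi.smul_apply, smul_eq_mul, Pi.zero_apply]
    have h4 : ∀ s, g s * ((w s m : ℤ) : ℝ) = ∑ l : Fin (n' + 2),
        (((m : ℕ).choose (l : ℕ) : ℝ) * r ^ ((m : ℕ) - (l : ℕ))) * (g s * cd r (w s) (l : ℕ)) := by
      intro s
      rw [cd_inv r (w s) m, Finset.mul_sum]
      refine Finset.sum_congr rfl fun l _ => ?_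
      ring
    rw [Finset.sum_congr rfl fun s _ => h4 s, Finset.sum_comm]
    refine Finset.sum_eq_zero fun l _ => ?_
    rw [← Finset.mul_sum, h1 l, mul_zero]
  have hshort : ∀ z : Fin i → ℤ, z ≠ 0 → ∃ m, η < |∑ s, (z s : ℝ) * y s m| := by
    intro z hz
    by_contra hcon
    push Not at hcon
    have hu : (∑ s, z s • w s) = 0 := by
      refine hgood _ ?_ ?_
      · have h0 := hcon 0
        have h1 : ∑ s, (z s : ℝ) * y s 0 =
            (1 / R ^ (n' + 1)) * (((∑ s, z s • w s) 0 : ℤ) : ℝ) := by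
          have h2 := cd_sum r z w 0
          rw [cd_zero] at h2
          rw [h2, Finset.mul_sum]
          refine Finset.sum_congr rfl fun s _ => ?_
          simp only [hy, if_pos, Fin.val_zero]
          ring
        rw [h1, abs_mul, abs_of_pos (by positivity : (0 : ℝ) < 1 / R ^ (n' + 1)),
          one_div_mul_eq_div, div_le_iff₀ (by positivity)] at h0
        exact h0
      · intro m hm
        have h0 := hcon m
        have h1 : ∑ s, (z s : ℝ) * y s m = R * cd r (∑ s, z s • w s) (m : ℕ) := by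
          rw [cd_sum, Finset.mul_sum]
          refine Finset.sum_congr rfl fun s _ => ?_
          simp only [hy, if_neg hm]
          ring
        rw [h1, abs_mul, abs_of_pos hR0] at h0
        rw [le_div_iff₀ hR0]
        linarith
    rw [Fintype.linearIndependent_iff] at hw
    exact hz (funext fun s => hw z hu s)
  obtain ⟨S, hS⟩ := hf2 i (n' + 2) y hyi η hη hshort
  refine ⟨S, ?_⟩
  have hdet : Matrix.det (Matrix.of fun s t : Fin i => y s (S t)) =
      (∏ t, (if S t = 0 then 1 / R ^ (n' + 1) else R)) * W r w S := by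
    unfold W
    exact Matrix.det_mul_row (fun t => if S t = 0 then 1 / R ^ (n' + 1) else R) _
  rw [← hdet]
  refine le_trans ?_ hS
  refine mul_le_mul_of_nonneg_right ?_ (by positivity)
  refine hc1f (i, n' + 2) ?_
  simp only [Finset.mem_product, Finset.mem_range]
  omega

theorem caseA (n : ℕ) : ∃ c : ℝ, 0 < c ∧ c ≤ 1 ∧ ∀ (n' i p q : ℕ) (η R K B : ℝ)
    (w : Fin i → Fin (n' + 2) → ℤ), n' + 1 ≤ n → 1 ≤ i → i ≤ n' + 1 → 0 < q → p ≤ q → 0 < η →
    η ≤ 1 → GoodRat n η p q → 1 ≤ R → R ≤ q → LinearIndependent ℤ w →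
    LinearIndependent ℤ (fun s => bar p q (w s)) →
    (∀ S : Fin i → Fin (n' + 2), |W ((p : ℝ) / q) w S| ≤ K) →
    (∀ S : Fin i → Fin (n' + 2), (∀ t, S t ≠ 0) → |W ((p : ℝ) / q) w S| ≤ B) →
    c / (q : ℝ) ^ i ≤ B ∧ (c * η ^ i * R ^ (n' + 2 - i) ≤ K ∨ c * η ^ i / R ^ i ≤ B) := by
  obtain ⟨c0, hc0, hc01, hlow⟩ := J4_low n
  obtain ⟨c1, hc1, hc11, hhigh⟩ := J4_high n
  refine ⟨min c0 c1, lt_min hc0 hc1, (min_le_left _ _).trans hc01, ?_⟩
  intro n' i p q η R K B w hn hi1 hi hq hpq hη hη1 hgood hR hRq hw hbar hK hB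
  have hq' : (0 : ℝ) < q := by exact_mod_cast hq
  have hr0 : 0 ≤ (p : ℝ) / q := by positivity
  have hr1 : (p : ℝ) / q ≤ 1 := by
    rw [div_le_one hq']
    exact_mod_cast hpq
  have hR0 : 0 < R := by linarith
  have hηi : 0 < η ^ i := by positivity
  constructor
  · obtain ⟨S, hS⟩ := hlow n' i ((p : ℝ) / q) (fun s => bar p q (w s)) (by omega) hi hr0 hr1 hbar
    have h1 : W ((p : ℝ) / q) (fun s => bar p q (w s)) S =
        (q : ℝ) ^ i * W ((p : ℝ) / q) w (fun t => (S t).succ) := by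
      unfold W
      have h2 : (Matrix.of fun s t : Fin i => cd ((p : ℝ) / q) (bar p q (w s)) (S t : ℕ)) =
          Matrix.of fun s t : Fin i => (q : ℝ) *
            (Matrix.of fun s t : Fin i => cd ((p : ℝ) / q) (w s) ((S t).succ : ℕ)) s t := by
        ext s t
        rw [Matrix.of_apply, Matrix.of_apply, Matrix.of_apply, cd_bar p q hq (w s) _ (by omega),
          Fin.val_succ]
      rw [h2]
      have h3 := Matrix.det_mul_row (fun _ : Fin i => (q : ℝ))
        (Matrix.of fun s t : Fin i => cd ((p : ℝ) / q) (w s) ((S t).succ : ℕ))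
      rw [h3, Finset.prod_const, Finset.card_univ, Fintype.card_fin]
    rw [h1, abs_mul, abs_of_pos (by positivity)] at hS
    have h2 := hB (fun t => (S t).succ) (fun t => Fin.succ_ne_zero _)
    rw [div_le_iff₀ (by positivity)]
    calc min c0 c1 ≤ c0 := min_le_left _ _
      _ ≤ (q : ℝ) ^ i * |W ((p : ℝ) / q) w (fun t => (S t).succ)| := hS
      _ ≤ (q : ℝ) ^ i * B := mul_le_mul_of_nonneg_left h2 (by positivity)
      _ = B * (q : ℝ) ^ i := mul_comm _ _
  · obtain ⟨S, hS⟩ := hhigh n' i ((p : ℝ) / q) η R w hn hi hη hR hw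
      (fun u h0 h1 => hgood (n' + 1) hn R hR hRq u h0 h1)
    have hcm : min c0 c1 * η ^ i ≤ c1 * η ^ i :=
      mul_le_mul_of_nonneg_right (min_le_right _ _) hηi.le
    have hpos : 0 < c1 * η ^ i := by positivity
    have hinj : Function.Injective S := by
      intro a b hab
      by_contra hne
      have h0 : W ((p : ℝ) / q) w S = 0 := by
        unfold W
        refine Matrix.det_zero_of_column_eq hne fun s => ?_
        simp only [Matrix.of_apply, hab]
      rw [h0, mul_zero, abs_zero] at hS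
      linarith
    by_cases hz : ∃ t0, S t0 = 0
    · left
      obtain ⟨t0, ht0⟩ := hz
      have hprod : (∏ t, (if S t = 0 then 1 / R ^ (n' + 1) else R)) =
          (1 / R ^ (n' + 1)) * R ^ (i - 1) := by
        rw [← Finset.mul_prod_erase Finset.univ _ (Finset.mem_univ t0), if_pos ht0]
        congr 1
        have h1 : ∀ t ∈ Finset.univ.erase t0, (if S t = 0 then 1 / R ^ (n' + 1) else R) = R := by
          intro t ht
          rw [if_neg]
          intro h2
          exact (Finset.ne_of_mem_erase ht) (hinj (h2.trans ht0.symm))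
        rw [Finset.prod_congr rfl h1, Finset.prod_const, Finset.card_erase_of_mem
          (Finset.mem_univ t0), Finset.card_univ, Fintype.card_fin]
      rw [hprod, abs_mul, abs_of_pos (by positivity)] at hS
      have h2 := hK S
      have h3 : R ^ (i - 1) * R ^ (n' + 2 - i) = R ^ (n' + 1) := by
        rw [← pow_add]
        congr 1
        omega
      have h4 : c1 * η ^ i * R ^ (n' + 2 - i) ≤ |W ((p : ℝ) / q) w S| := by
        have h5 := mul_le_mul_of_nonneg_right hS (by positivity : 0 ≤ R ^ (n' + 2 - i))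
        calc c1 * η ^ i * R ^ (n' + 2 - i) ≤ _ := h5
          _ = (R ^ (i - 1) * R ^ (n' + 2 - i)) / R ^ (n' + 1) * |W ((p : ℝ) / q) w S| := by
              ring
          _ = |W ((p : ℝ) / q) w S| := by
              rw [h3, div_self (by positivity), one_mul]
      calc min c0 c1 * η ^ i * R ^ (n' + 2 - i) ≤ c1 * η ^ i * R ^ (n' + 2 - i) :=
            mul_le_mul_of_nonneg_right hcm (by positivity)
        _ ≤ K := h4.trans h2
    · right
      push Not at hz
      have hprod : (∏ t, (if S t = 0 then 1 / R ^ (n' + 1) else R)) = R ^ i := by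
        rw [Finset.prod_congr rfl fun t _ => if_neg (hz t), Finset.prod_const, Finset.card_univ,
          Fintype.card_fin]
      rw [hprod, abs_mul, abs_of_pos (by positivity)] at hS
      have h2 := hB S hz
      rw [div_le_iff₀ (by positivity)]
      calc min c0 c1 * η ^ i ≤ c1 * η ^ i := hcm
        _ ≤ R ^ i * |W ((p : ℝ) / q) w S| := hS
        _ ≤ R ^ i * B := mul_le_mul_of_nonneg_left h2 (by positivity)
        _ = B * R ^ i := mul_comm _ _

end Pool.Agent.Lib.H70X
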