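import Pool.Agent.Lib.H70X.Defs

/-! # Chunk S1: many points are close to rational numbers with denominator in (N/4, N]
(medium, pure Mathlib)

Proof. Let `x ∈ [a,b]`. By Dirichlet (`Real.exists_rat_abs_sub_le_and_den_le`) there is a reduced fraction `p/q`, `q ≤ N`, `|x - p/q| ≤ 1/((N+1) q)`; as
`0 ≤ x ≤ 1`, `0 ≤ p ≤ q`. If `4 q > N` then `|x - p/q| ≤ 4/N^2`. The `x ∈ [a,b]` for which `4 q ≤ N` lie in the union over `q ≤ N/4` and over the integers `p` with
`a - 1/N ≤ p/q ≤ b + 1/N` (at most `q (b - a + 2/N) + 1` of them) of intervals of length `2/(N q)`: total length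
`≤ ∑_{q ≤ N/4} (2/N) (b - a + 2/N + 1/q) ≤ (b-a)/2 + 1/N + (2/N)(1 + log N) ≤ (7/10)(b - a)` for large `N`. -/

open Polynomial MeasureTheory Set Filter

namespace Pool.Agent.Lib.H70X

/-- The integers `p` which can occur with denominator `q`. -/
private noncomputable def S1_P (a b : ℝ) (N q : ℕ) : Finset ℤ :=
  Finset.Icc ⌈(q : ℝ) * a - 1 / ((N : ℝ) + 1)⌉ ⌊(q : ℝ) * b + 1 / ((N : ℝ) + 1)⌋

private lemma S1_card (a b : ℝ) (hab : a < b) (N q : ℕ) :
    ((S1_P a b N q).card : ℝ) ≤ q * (b - a) + 2 / ((N : ℝ) + 1) + 1 := by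
  have hN : (0 : ℝ) < (N : ℝ) + 1 := by positivity
  have h1 : (0 : ℝ) ≤ 1 / ((N : ℝ) + 1) := by positivity
  have hq : (0 : ℝ) ≤ q := by positivity
  have hqab : (q : ℝ) * a ≤ q * b := mul_le_mul_of_nonneg_left hab.le hq
  have e2 : (2 : ℝ) / ((N : ℝ) + 1) = 1 / ((N : ℝ) + 1) + 1 / ((N : ℝ) + 1) := by ring
  unfold S1_P
  rw [Int.card_Icc]
  rcases le_total 0 (⌊(q : ℝ) * b + 1 / ((N : ℝ) + 1)⌋ + 1 - ⌈(q : ℝ) * a - 1 / ((N : ℝ) + 1)⌉)
    with h | h
  · have e : (((⌊(q : ℝ) * b + 1 / ((N : ℝ) + 1)⌋ + 1 -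
        ⌈(q : ℝ) * a - 1 / ((N : ℝ) + 1)⌉).toNat : ℕ) : ℝ) =
        ((⌊(q : ℝ) * b + 1 / ((N : ℝ) + 1)⌋ + 1 - ⌈(q : ℝ) * a - 1 / ((N : ℝ) + 1)⌉ : ℤ) : ℝ) := by
      have := Int.toNat_of_nonneg h
      exact_mod_cast this
    rw [e]
    push_cast
    have f1 := Int.floor_le ((q : ℝ) * b + 1 / ((N : ℝ) + 1))
    have f2 := Int.le_ceil ((q : ℝ) * a - 1 / ((N : ℝ) + 1))
    rw [e2]
    linarith
  · rw [Int.toNat_of_nonpos h]
    rw [e2]
    push_cast
    nlinarith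

private lemma S1_vol (a b : ℝ) (hab : a < b) (N : ℕ) (hN : 1 ≤ N) :
    volume (⋃ q ∈ Finset.Icc 1 (N / 4), ⋃ p ∈ S1_P a b N q,
      Metric.closedBall ((p : ℝ) / q) (1 / (((N : ℝ) + 1) * q))) ≤
      ENNReal.ofReal ((b - a) / 2 + (3 * (2 / ((N : ℝ) + 1))) * (1 + Real.log N)) := by
  have hN1 : (0 : ℝ) < (N : ℝ) + 1 := by positivity
  have hN0 : (1 : ℝ) ≤ N := by exact_mod_cast hN
  have h2N : 2 / ((N : ℝ) + 1) ≤ 2 := by
    rw [div_le_iff₀ hN1]; linarith
  have step : volume (⋃ q ∈ Finset.Icc 1 (N / 4), ⋃ p ∈ S1_P a b N q,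
      Metric.closedBall ((p : ℝ) / q) (1 / (((N : ℝ) + 1) * q))) ≤
      ∑ q ∈ Finset.Icc 1 (N / 4), ENNReal.ofReal (2 / ((N : ℝ) + 1) * (b - a) +
        (3 * (2 / ((N : ℝ) + 1))) * (q : ℝ)⁻¹) := by
    refine (measure_biUnion_finset_le _ _).trans (Finset.sum_le_sum fun q hq => ?_)
    have hq1 : (1 : ℝ) ≤ q := by exact_mod_cast (Finset.mem_Icc.mp hq).1
    have hq0 : (0 : ℝ) < q := by linarith
    refine (measure_biUnion_finset_le _ _).trans ?_
    have : ∀ p ∈ S1_P a b N q, volume (Metric.closedBall ((p : ℝ) / q) (1 / (((N : ℝ) + 1) * q))) =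
        ENNReal.ofReal (2 * (1 / (((N : ℝ) + 1) * q))) := by
      intro p _
      exact Real.volume_closedBall _ _
    rw [Finset.sum_congr rfl this, Finset.sum_const, nsmul_eq_mul,
      ← ENNReal.ofReal_natCast, ← ENNReal.ofReal_mul (by positivity)]
    refine ENNReal.ofReal_le_ofReal ?_
    have hc := S1_card a b hab N q
    have hpos : (0 : ℝ) ≤ 2 * (1 / (((N : ℝ) + 1) * q)) := by positivity
    calc ((S1_P a b N q).card : ℝ) * (2 * (1 / (((N : ℝ) + 1) * q)))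
        ≤ (q * (b - a) + 2 / ((N : ℝ) + 1) + 1) * (2 * (1 / (((N : ℝ) + 1) * q))) :=
          mul_le_mul_of_nonneg_right hc hpos
      _ ≤ (q * (b - a) + 3) * (2 * (1 / (((N : ℝ) + 1) * q))) :=
          mul_le_mul_of_nonneg_right (by linarith) hpos
      _ = 2 / ((N : ℝ) + 1) * (b - a) + (3 * (2 / ((N : ℝ) + 1))) * (q : ℝ)⁻¹ := by
          field_simp
  refine step.trans ?_
  rw [← ENNReal.ofReal_sum_of_nonneg (fun q hq => by
    have : 0 ≤ b - a := by linarith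
    positivity)]
  refine ENNReal.ofReal_le_ofReal ?_
  rw [Finset.sum_add_distrib, Finset.sum_const, ← Finset.mul_sum, nsmul_eq_mul, Nat.card_Icc]
  have hM : ((N / 4 + 1 - 1 : ℕ) : ℝ) ≤ N / 4 := by
    rw [Nat.add_sub_cancel]
    exact Nat.cast_div_le.trans (by norm_num)
  have hh : ∑ q ∈ Finset.Icc 1 (N / 4), (q : ℝ)⁻¹ ≤ 1 + Real.log N := by
    have h1 : ∑ q ∈ Finset.Icc 1 (N / 4), (q : ℝ)⁻¹ ≤ ∑ q ∈ Finset.Icc 1 N, (q : ℝ)⁻¹ :=
      Finset.sum_le_sum_of_subset_of_nonneg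
        (Finset.Icc_subset_Icc le_rfl (Nat.div_le_self _ _)) fun _ _ _ => by positivity
    have h2 := harmonic_le_one_add_log N
    have h3 : ((harmonic N : ℚ) : ℝ) = ∑ q ∈ Finset.Icc 1 N, (q : ℝ)⁻¹ := by
      rw [harmonic_eq_sum_Icc]
      push_cast
      rfl
    linarith
  have hba : 0 ≤ 2 / ((N : ℝ) + 1) * (b - a) := by
    have : 0 ≤ b - a := by linarith
    positivity
  have t1 : ((N / 4 + 1 - 1 : ℕ) : ℝ) * (2 / ((N : ℝ) + 1) * (b - a)) ≤ (b - a) / 2 := by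
    refine (mul_le_mul_of_nonneg_right hM hba).trans ?_
    have e : (N : ℝ) / 4 * (2 / ((N : ℝ) + 1) * (b - a)) = (b - a) / 2 * (N / ((N : ℝ) + 1)) := by
      field_simp; ring
    rw [e]
    have h1 : (N : ℝ) / ((N : ℝ) + 1) ≤ 1 := by
      rw [div_le_one hN1]; linarith
    have h2 : 0 ≤ (b - a) / 2 := by linarith
    nlinarith
  have t2 : 3 * (2 / ((N : ℝ) + 1)) * ∑ q ∈ Finset.Icc 1 (N / 4), (q : ℝ)⁻¹ ≤
      3 * (2 / ((N : ℝ) + 1)) * (1 + Real.log N) :=
    mul_le_mul_of_nonneg_left hh (by positivity)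
  linarith

theorem many_rationals (a b : ℝ) (ha : 0 ≤ a) (hab : a < b) (hb : b ≤ 1) : ∃ N0 : ℕ, ∀ N : ℕ,
    N0 ≤ N → ENNReal.ofReal (3 / 10 * (b - a)) ≤ volume {x ∈ Icc a b | ∃ p q : ℕ, p ≤ q ∧
      N < 4 * q ∧ q ≤ N ∧ p.Coprime q ∧ |x - (p : ℝ) / q| ≤ 4 / (N : ℝ) ^ 2} := by
  have hba : 0 < b - a := by linarith
  -- the error term tends to zero
  have hlim : Tendsto (fun N : ℕ => (3 * (2 / ((N : ℝ) + 1))) * (1 + Real.log N)) atTop
      (nhds 0) := by
    have h1 : Tendsto (fun x : ℝ => Real.log x / x) atTop (nhds 0) := by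
      simpa using Real.tendsto_pow_log_div_mul_add_atTop 1 0 1 one_ne_zero
    have h2 : Tendsto (fun N : ℕ => Real.log (N : ℝ) / (N : ℝ)) atTop (nhds 0) :=
      h1.comp tendsto_natCast_atTop_atTop
    have h3 : Tendsto (fun N : ℕ => (1 : ℝ) / (N : ℝ)) atTop (nhds 0) :=
      tendsto_one_div_atTop_nhds_zero_nat
    have h4 : Tendsto (fun N : ℕ => 6 * ((1 : ℝ) / (N : ℝ) + Real.log (N : ℝ) / (N : ℝ))) atTop
        (nhds 0) := by
      have := (h3.add h2).const_mul 6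
      simpa using this
    refine squeeze_zero' ?_ ?_ h4
    · filter_upwards [eventually_ge_atTop 1] with N hN
      have hN0 : (1 : ℝ) ≤ N := by exact_mod_cast hN
      have := Real.log_nonneg hN0
      positivity
    · filter_upwards [eventually_ge_atTop 1] with N hN
      have hN0 : (1 : ℝ) ≤ N := by exact_mod_cast hN
      have hl := Real.log_nonneg hN0
      have e : (3 * (2 / ((N : ℝ) + 1))) * (1 + Real.log N) = 6 * (1 + Real.log N) / (N + 1) := by
        ring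
      have e' : 6 * ((1 : ℝ) / (N : ℝ) + Real.log (N : ℝ) / (N : ℝ)) =
          6 * (1 + Real.log N) / N := by ring
      rw [e, e']
      exact div_le_div_of_nonneg_left (by positivity) (by linarith) (by linarith)
  have hev : ∀ᶠ N : ℕ in atTop, (3 * (2 / ((N : ℝ) + 1))) * (1 + Real.log N) < (b - a) / 5 :=
    hlim.eventually (gt_mem_nhds (by linarith))
  obtain ⟨N0, hN0⟩ := eventually_atTop.mp hev
  refine ⟨max N0 1, fun N hN => ?_⟩
  have hN1 : 1 ≤ N := (le_max_right _ _).trans hN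
  have hNr : (1 : ℝ) ≤ N := by exact_mod_cast hN1
  have herr := hN0 N ((le_max_left _ _).trans hN)
  set A : Set ℝ := {x ∈ Icc a b | ∃ p q : ℕ, p ≤ q ∧
      N < 4 * q ∧ q ≤ N ∧ p.Coprime q ∧ |x - (p : ℝ) / q| ≤ 4 / (N : ℝ) ^ 2} with hA
  set B : Set ℝ := ⋃ q ∈ Finset.Icc 1 (N / 4), ⋃ p ∈ S1_P a b N q,
      Metric.closedBall ((p : ℝ) / q) (1 / (((N : ℝ) + 1) * q)) with hB
  have hvol : volume B ≤ ENNReal.ofReal (7 / 10 * (b - a)) :=
    (S1_vol a b hab N hN1).trans (ENNReal.ofReal_le_ofReal (by linarith))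
  have hsub : Icc a b ⊆ A ∪ B := by
    intro x hx
    obtain ⟨r, hr, hden⟩ := Real.exists_rat_abs_sub_le_and_den_le x (n := N) hN1
    have hq1 : (1 : ℝ) ≤ (r.den : ℝ) := by exact_mod_cast r.pos
    have hq0 : (0 : ℝ) < (r.den : ℝ) := by linarith
    have hNp : (0 : ℝ) < (N : ℝ) + 1 := by positivity
    have hrr : (r : ℝ) = (r.num : ℝ) / (r.den : ℝ) := by
      exact_mod_cast (Rat.num_div_den r).symm
    have hmul : |(r.den : ℝ) * x - r.num| ≤ 1 / ((N : ℝ) + 1) := by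
      have e : (r.den : ℝ) * x - r.num = r.den * (x - r) := by
        rw [hrr]; field_simp
      rw [e, abs_mul, abs_of_pos hq0]
      have := mul_le_mul_of_nonneg_left hr hq0.le
      refine this.trans (le_of_eq ?_)
      field_simp
    obtain ⟨hm1, hm2⟩ := abs_le.mp hmul
    have h1N : 1 / ((N : ℝ) + 1) < 1 := by
      rw [div_lt_one hNp]; linarith
    have hx0 : 0 ≤ x := ha.trans hx.1
    have hx1 : x ≤ 1 := hx.2.trans hb
    have hnum0 : 0 ≤ r.num := by
      have : (-1 : ℝ) < r.num := by nlinarith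
      have : (-1 : ℤ) < r.num := by exact_mod_cast this
      omega
    have hnum1 : r.num ≤ r.den := by
      have : (r.num : ℝ) < r.den + 1 := by nlinarith
      have : r.num < (r.den : ℤ) + 1 := by exact_mod_cast this
      omega
    rcases Nat.lt_or_ge N (4 * r.den) with h4 | h4
    · left
      refine ⟨hx, r.num.natAbs, r.den, by omega, h4, hden, r.reduced, ?_⟩
      have e : ((r.num.natAbs : ℕ) : ℝ) = (r.num : ℝ) := by
        rw [← Int.cast_natCast, Int.natAbs_of_nonneg hnum0]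
      rw [e, ← hrr]
      refine hr.trans ?_
      have h4' : (N : ℝ) < 4 * r.den := by exact_mod_cast h4
      rw [div_le_div_iff₀ (by positivity) (by positivity)]
      nlinarith
    · right
      rw [hB]
      simp only [mem_iUnion]
      refine ⟨r.den, Finset.mem_Icc.mpr ⟨r.pos, by omega⟩, r.num, ?_, ?_⟩
      · unfold S1_P
        rw [Finset.mem_Icc]
        constructor
        · rw [Int.ceil_le]
          have : (r.den : ℝ) * a ≤ r.den * x := mul_le_mul_of_nonneg_left hx.1 hq0.le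
          linarith
        · rw [Int.le_floor]
          have : (r.den : ℝ) * x ≤ r.den * b := mul_le_mul_of_nonneg_left hx.2 hq0.le
          linarith
      · rw [Metric.mem_closedBall, Real.dist_eq, ← hrr]
        exact hr
  by_contra hcon
  rw [not_le] at hcon
  have h1 : volume (Icc a b) ≤ volume A + volume B :=
    (measure_mono hsub).trans (measure_union_le _ _)
  rw [Real.volume_Icc] at h1
  have h2 : volume A + volume B < ENNReal.ofReal (3 / 10 * (b - a)) +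
      ENNReal.ofReal (7 / 10 * (b - a)) := by
    refine ENNReal.add_lt_add_of_lt_of_le ?_ hcon hvol
    exact ne_top_of_le_ne_top ENNReal.ofReal_ne_top hvol
  rw [← ENNReal.ofReal_add (by linarith) (by linarith)] at h2
  have e : 3 / 10 * (b - a) + 7 / 10 * (b - a) = b - a := by ring
  rw [e] at h2
  exact absurd h1 (not_le.mpr h2)

end Pool.Agent.Lib.H70X
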