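import Pool.Agent.Lib.H70X.Defs

/-! # Chunk J1: coefficients of a polynomial bounded on `[Y, 2Y]` (small/medium, pure Mathlib)

Proof. Scaling `y = Y x` reduces to `Y = 1`. There: the space of polynomials of degree `≤ n` is finite dimensional and
`g ↦ sup_{[1,2]} |g|`, `g ↦ max |coeff|` are norms on it; or, explicitly, Lagrange interpolation at the `n+1` points `1 + i/n`
(`g = ∑ g(x_i) ℓ_i`, so `|coeff m g| ≤ B ∑_i |coeff m ℓ_i|`); for a uniform statement take `C` the sum of all
`|coeff m ℓ_i|` (for `n = 0` one point). -/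

open Polynomial MeasureTheory Set Filter

namespace Pool.Agent.Lib.H70X

theorem coeff_bound (n : ℕ) : ∃ C : ℝ, 1 ≤ C ∧ ∀ (g : ℝ[X]) (B Y : ℝ), g.natDegree ≤ n → 0 < Y →
    (∀ y ∈ Icc Y (2 * Y), |g.eval y| ≤ B) → ∀ m : ℕ, |g.coeff m| * Y ^ m ≤ C * B := by
  classical
  let v : ℕ → ℝ := fun i => 1 + (i : ℝ) / (n + 1)
  let S := Finset.range (n + 1)
  have hn0 : (0 : ℝ) < n + 1 := by positivity
  have hinj : Set.InjOn v S := by
    intro i _ j _ h
    have h1 : (i : ℝ) / (n + 1) = (j : ℝ) / (n + 1) := by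
      have h2 : 1 + (i : ℝ) / (n + 1) = 1 + (j : ℝ) / (n + 1) := h
      linarith
    rw [div_left_inj' hn0.ne'] at h1
    exact_mod_cast h1
  have hv : ∀ i ∈ S, 1 ≤ v i ∧ v i ≤ 2 := by
    intro i hi
    have h1 : (i : ℝ) ≤ n + 1 := by
      have := Finset.mem_range.1 hi
      exact_mod_cast this.le
    have h2 : (i : ℝ) / (n + 1) ≤ 1 := by
      rw [div_le_one hn0]
      exact h1
    have h3 : 0 ≤ (i : ℝ) / (n + 1) := by positivity
    constructor
    · show 1 ≤ 1 + (i : ℝ) / (n + 1)
      linarith
    · show 1 + (i : ℝ) / (n + 1) ≤ 2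
      linarith
  refine ⟨1 + ∑ m ∈ Finset.range (n + 1), ∑ i ∈ S, |(Lagrange.basis S v i).coeff m|, ?_, ?_⟩
  · have : 0 ≤ ∑ m ∈ Finset.range (n + 1), ∑ i ∈ S, |(Lagrange.basis S v i).coeff m| :=
      Finset.sum_nonneg fun _ _ => Finset.sum_nonneg fun _ _ => abs_nonneg _
    linarith
  · intro g B Y hg hY hB m
    have hB0 : 0 ≤ B := (abs_nonneg _).trans (hB Y ⟨le_rfl, by linarith⟩)
    have hK : 0 ≤ ∑ m ∈ Finset.range (n + 1), ∑ i ∈ S, |(Lagrange.basis S v i).coeff m| :=
      Finset.sum_nonneg fun _ _ => Finset.sum_nonneg fun _ _ => abs_nonneg _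
    rcases Nat.lt_or_ge n m with hm | hm
    · rw [coeff_eq_zero_of_natDegree_lt (lt_of_le_of_lt hg hm)]
      simp only [abs_zero, zero_mul]
      positivity
    · let h : ℝ[X] := g.comp (C Y * X)
      have hcoeff : h.coeff m = g.coeff m * Y ^ m := comp_C_mul_X_coeff
      have hdeg : h.degree < (S.card : ℕ) := by
        have h1 : h.natDegree ≤ n := by
          refine natDegree_comp_le.trans ?_
          calc g.natDegree * (C Y * X : ℝ[X]).natDegree ≤ g.natDegree * 1 :=
                Nat.mul_le_mul_left _ ((natDegree_C_mul_le _ _).trans natDegree_X_le)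
            _ ≤ n := by rw [mul_one]; exact hg
        rw [Finset.card_range]
        refine lt_of_le_of_lt degree_le_natDegree ?_
        exact_mod_cast Nat.lt_succ_of_le h1
      have hint := Lagrange.eq_interpolate_of_eval_eq (fun i => h.eval (v i)) hinj hdeg
        (fun i _ => rfl)
      have h2 : h.coeff m = ∑ i ∈ S, h.eval (v i) * (Lagrange.basis S v i).coeff m := by
        conv_lhs => rw [hint]
        rw [Lagrange.interpolate_apply, finsetSum_coeff]
        refine Finset.sum_congr rfl fun i _ => ?_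
        rw [coeff_C_mul]
      have h3 : ∀ i ∈ S, |h.eval (v i)| ≤ B := by
        intro i hi
        have h4 : h.eval (v i) = g.eval (Y * v i) := by
          show (g.comp (C Y * X)).eval (v i) = _
          rw [eval_comp]
          simp
        rw [h4]
        obtain ⟨h5, h6⟩ := hv i hi
        exact hB _ ⟨by nlinarith, by nlinarith⟩
      have h4 : |g.coeff m| * Y ^ m = |h.coeff m| := by
        rw [hcoeff, abs_mul, abs_of_pos (pow_pos hY m)]
      rw [h4, h2]
      calc |∑ i ∈ S, h.eval (v i) * (Lagrange.basis S v i).coeff m|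
          ≤ ∑ i ∈ S, |h.eval (v i) * (Lagrange.basis S v i).coeff m| :=
            Finset.abs_sum_le_sum_abs _ _
        _ ≤ ∑ i ∈ S, B * |(Lagrange.basis S v i).coeff m| := by
            refine Finset.sum_le_sum fun i hi => ?_
            rw [abs_mul]
            exact mul_le_mul_of_nonneg_right (h3 i hi) (abs_nonneg _)
        _ = (∑ i ∈ S, |(Lagrange.basis S v i).coeff m|) * B := by
            rw [← Finset.mul_sum, mul_comm]
        _ ≤ (1 + ∑ m ∈ Finset.range (n + 1), ∑ i ∈ S, |(Lagrange.basis S v i).coeff m|) * B := by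
            apply mul_le_mul_of_nonneg_right _ hB0
            have h5 := Finset.single_le_sum
              (f := fun m => ∑ i ∈ S, |(Lagrange.basis S v i).coeff m|)
              (fun _ _ => Finset.sum_nonneg fun _ _ => abs_nonneg _)
              (Finset.mem_range.2 (Nat.lt_succ_of_le hm))
            linarith

end Pool.Agent.Lib.H70X
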