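import Pool.Agent.Lib.H70X.Defs

/-! # Chunk MK1: a shortest vector of a lattice exists (small/medium, pure Mathlib)

Proof. `z = M⁻¹ (M z)`, so `‖z‖ ≤ β ‖M z‖` with a constant `β`; hence for every `B` only finitely many integer
vectors `z` have `‖M z‖ ≤ B`. Take `B = ‖M e_0‖` and a vector with the least norm among the finitely many nonzero
ones with `‖M z‖ ≤ B`. -/

open Polynomial MeasureTheory Set Filter

namespace Pool.Agent.Lib.H70X

theorem MK1_finite (k : ℕ) (M : Matrix (Fin (k + 1)) (Fin (k + 1)) ℝ) (hM : M.det ≠ 0) (B : ℝ) :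
    {z : Fin (k + 1) → ℤ | z ≠ 0 ∧ ‖M.mulVec (fun i => (z i : ℝ))‖ ≤ B}.Finite := by
  set L := LinearMap.toContinuousLinearMap (Matrix.mulVecLin M⁻¹) with hL
  have hdet : IsUnit M.det := isUnit_iff_ne_zero.mpr hM
  have hb : ∀ z : Fin (k + 1) → ℤ, ‖(fun i => (z i : ℝ))‖ ≤
      ‖L‖ * ‖M.mulVec (fun i => (z i : ℝ))‖ := by
    intro z
    have h1 : L (M.mulVec (fun i => (z i : ℝ))) = (fun i => (z i : ℝ)) := by
      change (M⁻¹).mulVec (M.mulVec (fun i => (z i : ℝ))) = _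
      rw [Matrix.mulVec_mulVec, Matrix.nonsing_inv_mul M hdet, Matrix.one_mulVec]
    conv_lhs => rw [← h1]
    exact L.le_opNorm _
  obtain ⟨N, hN⟩ := exists_nat_ge (‖L‖ * B)
  refine Set.Finite.subset (Set.Finite.pi' (fun _ : Fin (k + 1) =>
    Set.finite_Icc (-(N : ℤ)) (N : ℤ))) ?_
  rintro z ⟨-, hz⟩ i
  have h1 : ‖(z i : ℝ)‖ ≤ N := by
    have h2 : ‖(z i : ℝ)‖ ≤ ‖(fun i => (z i : ℝ))‖ := norm_le_pi_norm (fun i => (z i : ℝ)) i
    have h3 := mul_le_mul_of_nonneg_left hz (norm_nonneg L)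
    exact h2.trans ((hb z).trans (h3.trans hN))
  rw [Real.norm_eq_abs] at h1
  have h2 : |z i| ≤ (N : ℤ) := by exact_mod_cast h1
  exact abs_le.mp h2

theorem exists_shortest (k : ℕ) (M : Matrix (Fin (k + 1)) (Fin (k + 1)) ℝ) (hM : M.det ≠ 0) :
    ∃ z : Fin (k + 1) → ℤ, z ≠ 0 ∧ ∀ z' : Fin (k + 1) → ℤ, z' ≠ 0 →
      ‖M.mulVec (fun i => (z i : ℝ))‖ ≤ ‖M.mulVec (fun i => (z' i : ℝ))‖ := by
  set e : Fin (k + 1) → ℤ := Pi.single 0 1 with he
  have he0 : e ≠ 0 := by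
    intro h
    have := congrFun h 0
    simp [he] at this
  set B : ℝ := ‖M.mulVec (fun i => (e i : ℝ))‖ with hB
  obtain ⟨z, hz, hmin⟩ := Set.exists_min_image _
    (fun z : Fin (k + 1) → ℤ => ‖M.mulVec (fun i => (z i : ℝ))‖) (MK1_finite k M hM B)
    ⟨e, he0, le_rfl⟩
  refine ⟨z, hz.1, fun z' hz' => ?_⟩
  rcases le_total ‖M.mulVec (fun i => (z' i : ℝ))‖ B with h | h
  · exact hmin z' ⟨hz', h⟩
  · exact hz.2.trans h

end Pool.Agent.Lib.H70X
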