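import Pool.Agent.Lib.H70X.MK0
import Pool.Agent.Lib.H70X.MK1

/-! # Chunk MK2: a weak form of Minkowski's second theorem (large; MK0, MK1 may be used)

Every lattice `M ℤ^k` in `ℝ^k` (sup norm) has a basis whose product of norms is at most
`2^(k(k-1)/2) |det M|`.

Proof by induction on `k` (`k = 0`: both sides are 1). Let `M` be of size `k+1`, `z` a shortest vector
(`exists_shortest`), `v = M z`; `z` is primitive (if `z = d z'` then `‖M z'‖ = ‖v‖ / |d|`, so `|d| = 1`).
Let `G0` be unimodular with first column `z` (`complete`), `M' = M G0` with columns `v, w_1, ..., w_k`. Let `l` be a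
coordinate with `|v l| = ‖v‖ ≠ 0`. Eliminate: `w'_j(m) = w_j(m) - (v m / v l) w_j(l)` for the coordinates `m ≠ l`; the `k x k` matrix `M''` of the `w'_j`
(rows `m ≠ l`, `Fin.succAbove l`) has `|det M'| = |v l| |det M''|`, so `|det M''| = |det M| / ‖v‖ ≠ 0`. By induction there is a
unimodular `G''` of size `k` with `∏ ‖M'' g_j‖ ≤ 2^(k(k-1)/2) |det M''|`, `g_j` the columns of `G''`. Put
`x_j = a_j v + ∑_i g_j(i) w_i` with the integer `a_j` such that `|x_j(l)| ≤ |v l| / 2`. The matrix with columns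
`v, x_1, ..., x_k` is `M G0 G1` with `G1 = (1 a; 0 G'')` unimodular. For `m ≠ l`
`x_j(m) = (M'' g_j)(m) + (v m / v l) x_j(l)` and `|v m / v l| ≤ 1`, so
`‖x_j‖ ≤ ‖M'' g_j‖ + ‖v‖/2 ≤ ‖M'' g_j‖ + ‖x_j‖/2` (`x_j` is a nonzero lattice vector, `v` is shortest), so
`‖x_j‖ ≤ 2 ‖M'' g_j‖`. The product is `≤ ‖v‖ 2^k 2^(k(k-1)/2) |det M''| = 2^((k+1)k/2) |det M|`. -/

open Polynomial MeasureTheory Set Filter

namespace Pool.Agent.Lib.H70X

theorem MK2_inj {k : ℕ} (M : Matrix (Fin k) (Fin k) ℝ) (hM : M.det ≠ 0)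
    (x : Fin k → ℝ) (h : M.mulVec x = 0) : x = 0 :=
  Matrix.eq_zero_of_mulVec_eq_zero hM h

theorem MK2_prim {k : ℕ} (M : Matrix (Fin (k + 1)) (Fin (k + 1)) ℝ) (hM : M.det ≠ 0)
    (z : Fin (k + 1) → ℤ) (hz : z ≠ 0) (hs : ∀ z' : Fin (k + 1) → ℤ, z' ≠ 0 →
      ‖M.mulVec (fun i => (z i : ℝ))‖ ≤ ‖M.mulVec (fun i => (z' i : ℝ))‖) (d : ℤ)
    (hd : ∀ i, d ∣ z i) : IsUnit d := by
  choose z' hz' using hd
  have hz0 : z' ≠ 0 := by
    rintro rfl
    apply hz
    ext i
    simp [hz' i]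
  have h1 : (fun i => (z i : ℝ)) = (d : ℝ) • (fun i => (z' i : ℝ)) := by
    ext i
    rw [hz' i]
    simp
  have h2 := hs z' hz0
  rw [h1, Matrix.mulVec_smul, norm_smul] at h2
  have h3 : 0 < ‖M.mulVec (fun i => (z' i : ℝ))‖ := by
    rw [norm_pos_iff]
    intro h
    apply hz0
    have h4 := MK2_inj M hM _ h
    ext i
    have h5 := congrFun h4 i
    simpa using h5
  have h4 : ‖(d : ℝ)‖ ≤ 1 := by
    by_contra h5
    push Not at h5
    nlinarith
  have h5 : |d| ≤ 1 := by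
    rw [Real.norm_eq_abs] at h4
    exact_mod_cast h4
  have h6 : d ≠ 0 := by
    rintro rfl
    apply hz
    ext i
    rw [hz' i]
    simp
  rw [Int.isUnit_iff]
  rcases abs_le.mp h5 with ⟨h7, h8⟩
  omega

/-- The block matrix `(1 a; 0 G)`. -/
def MK2_blk {k : ℕ} (a : Fin k → ℤ) (G : Matrix (Fin k) (Fin k) ℤ) :
    Matrix (Fin (k + 1)) (Fin (k + 1)) ℤ :=
  Matrix.of fun i j => Fin.cases (Fin.cases 1 (fun _ => 0) i)
    (fun j' => Fin.cases (a j') (fun i' => G i' j') i) j

theorem MK2_blk_det {k : ℕ} (a : Fin k → ℤ) (G : Matrix (Fin k) (Fin k) ℤ) :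
    (MK2_blk a G).det = G.det := by
  rw [Matrix.det_succ_column_zero, Fin.sum_univ_succ, Finset.sum_eq_zero]
  · have h1 : (MK2_blk a G).submatrix (Fin.succAbove 0) Fin.succ = G := by
      ext i j
      simp [MK2_blk]
    rw [h1]
    simp [MK2_blk]
  · intro i _
    simp [MK2_blk]

theorem MK2_col_ne {k : ℕ} (G : Matrix (Fin k) (Fin k) ℤ) (hG : IsUnit G.det) (j : Fin k) :
    (fun i => G i j) ≠ 0 := by
  intro h
  have h1 : G.det = 0 := Matrix.det_eq_zero_of_column_eq_zero j fun i => congrFun h i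
  rw [h1] at hG
  exact not_isUnit_zero hG

theorem MK2_elim {k : ℕ} (M : Matrix (Fin (k + 1)) (Fin (k + 1)) ℝ) (l : Fin (k + 1))
    (hl : M l 0 ≠ 0) :
    |M.det| = |M l 0| * |(Matrix.of fun (m j : Fin k) => M (l.succAbove m) j.succ -
      M (l.succAbove m) 0 / M l 0 * M l j.succ : Matrix (Fin k) (Fin k) ℝ).det| := by
  set N : Matrix (Fin (k + 1)) (Fin (k + 1)) ℝ := Matrix.of fun i j =>
    M i j + (if i = l then 0 else - (M i 0 / M l 0)) * M l j with hN
  have h1 : N.det = M.det := by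
    refine Matrix.det_eq_of_forall_row_eq_smul_add_const
      (fun i => if i = l then 0 else - (M i 0 / M l 0)) l (by simp) ?_
    intro i j
    rfl
  have h2 : N.det = (-1) ^ (l : ℕ) * N l 0 * (N.submatrix l.succAbove Fin.succ).det := by
    rw [Matrix.det_succ_column_zero]
    refine Finset.sum_eq_single_of_mem l (Finset.mem_univ _) ?_
    intro i _ hi
    have h3 : N i 0 = 0 := by
      rw [hN, Matrix.of_apply, if_neg hi]
      field_simp
      ring
    rw [h3]
    simp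
  have h3 : N.submatrix l.succAbove Fin.succ = (Matrix.of fun (m j : Fin k) =>
      M (l.succAbove m) j.succ - M (l.succAbove m) 0 / M l 0 * M l j.succ) := by
    ext m j
    rw [hN, Matrix.submatrix_apply, Matrix.of_apply, Matrix.of_apply,
      if_neg (Fin.succAbove_ne l m)]
    ring
  have h4 : N l 0 = M l 0 := by
    rw [hN, Matrix.of_apply, if_pos rfl]
    ring
  rw [← h1, h2, h3, h4, abs_mul, abs_mul, abs_pow, abs_neg, abs_one, one_pow, one_mul]

theorem MK2_mulVec {k : ℕ} (M : Matrix (Fin k) (Fin k) ℝ) (G0 G1 : Matrix (Fin k) (Fin k) ℤ)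
    (j : Fin k) : M.mulVec (fun i => (((G0 * G1) i j : ℤ) : ℝ)) =
      (M * G0.map (Int.castRingHom ℝ)).mulVec (fun i => (G1 i j : ℝ)) := by
  have h1 : (fun i => (((G0 * G1) i j : ℤ) : ℝ)) =
      (G0.map (Int.castRingHom ℝ)).mulVec (fun i => (G1 i j : ℝ)) := by
    ext i
    simp [Matrix.mul_apply, Matrix.mulVec, dotProduct]
  rw [h1, Matrix.mulVec_mulVec]

theorem MK2_step {k : ℕ} {C : ℝ} (hC : 0 < C) (ih : ∀ M : Matrix (Fin k) (Fin k) ℝ, M.det ≠ 0 →
    ∃ G : Matrix (Fin k) (Fin k) ℤ, IsUnit G.det ∧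
      ∏ j, ‖M.mulVec (fun i => (G i j : ℝ))‖ ≤ C * |M.det|)
    (M : Matrix (Fin (k + 1)) (Fin (k + 1)) ℝ) (hM : M.det ≠ 0) :
    ∃ G : Matrix (Fin (k + 1)) (Fin (k + 1)) ℤ, IsUnit G.det ∧
      ∏ j, ‖M.mulVec (fun i => (G i j : ℝ))‖ ≤ 2 ^ k * C * |M.det| := by
  obtain ⟨z, hz, hs⟩ := exists_shortest k M hM
  obtain ⟨G0, hG0, hGz⟩ := complete k z (MK2_prim M hM z hz hs)
  set v : Fin (k + 1) → ℝ := M.mulVec (fun i => (z i : ℝ)) with hv
  set M' : Matrix (Fin (k + 1)) (Fin (k + 1)) ℝ := M * G0.map (Int.castRingHom ℝ) with hM'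
  have hv0 : 0 < ‖v‖ := by
    rw [norm_pos_iff]
    intro h
    apply hz
    have h4 := MK2_inj M hM _ h
    ext i
    have h5 := congrFun h4 i
    simpa using h5
  have hcol : ∀ i, M' i 0 = v i := by
    intro i
    rw [hM', hv, Matrix.mul_apply, Matrix.mulVec, dotProduct]
    refine Finset.sum_congr rfl fun j _ => ?_
    rw [Matrix.map_apply, hGz]
    rfl
  have hdet : |M'.det| = |M.det| := by
    rw [hM', Matrix.det_mul, abs_mul]
    have h1 : (G0.map (Int.castRingHom ℝ)).det = ((G0.det : ℤ) : ℝ) := by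
      rw [← RingHom.mapMatrix_apply, ← RingHom.map_det]
      rfl
    rw [h1]
    rcases Int.isUnit_iff.mp hG0 with h2 | h2 <;> rw [h2] <;> simp
  obtain ⟨l, -, hl⟩ := Finset.exists_max_image Finset.univ (fun i => |v i|) ⟨0, Finset.mem_univ _⟩
  have hl1 : ‖v‖ ≤ |v l| := by
    rw [pi_norm_le_iff_of_nonneg (abs_nonneg _)]
    intro i
    exact hl i (Finset.mem_univ _)
  have hl2 : |v l| ≤ ‖v‖ := norm_le_pi_norm v l
  have hvl : |v l| = ‖v‖ := le_antisymm hl2 hl1
  have hvl0 : v l ≠ 0 := by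
    intro h
    rw [h, abs_zero] at hvl
    linarith
  set M2 : Matrix (Fin k) (Fin k) ℝ := (Matrix.of fun (m j : Fin k) => M' (l.succAbove m) j.succ -
      M' (l.succAbove m) 0 / M' l 0 * M' l j.succ) with hM2
  have helim := MK2_elim M' l (by rw [hcol]; exact hvl0)
  rw [← hM2, hdet, hcol, hvl] at helim
  have hdet2 : M2.det ≠ 0 := by
    intro h
    rw [h, abs_zero, mul_zero] at helim
    exact hM (abs_eq_zero.mp helim)
  obtain ⟨G2, hG2, hprod⟩ := ih M2 hdet2
  -- the vectors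
  set y : Fin k → Fin (k + 1) → ℝ := fun j m => ∑ i : Fin k, M' m i.succ * (G2 i j : ℝ) with hy
  set a : Fin k → ℤ := fun j => - round (y j l / v l) with ha
  set G1 := MK2_blk a G2 with hG1
  have hG1det : IsUnit G1.det := by
    rw [hG1, MK2_blk_det]
    exact hG2
  have hGdet : IsUnit (G0 * G1).det := by
    rw [Matrix.det_mul]
    exact hG0.mul hG1det
  refine ⟨G0 * G1, hGdet, ?_⟩
  have hx0 : M.mulVec (fun i => (((G0 * G1) i 0 : ℤ) : ℝ)) = v := by
    rw [MK2_mulVec, ← hM']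
    ext m
    rw [Matrix.mulVec, dotProduct, Fin.sum_univ_succ, Finset.sum_eq_zero]
    · rw [hcol, hG1]
      simp [MK2_blk]
    · intro i _
      simp [hG1, MK2_blk]
  have hxj : ∀ (j : Fin k) (m : Fin (k + 1)),
      M.mulVec (fun i => (((G0 * G1) i j.succ : ℤ) : ℝ)) m = y j m + a j * v m := by
    intro j m
    rw [MK2_mulVec, ← hM', Matrix.mulVec, dotProduct, Fin.sum_univ_succ, hcol]
    have h1 : ∀ i : Fin k, G1 i.succ j.succ = G2 i j := by
      intro i
      simp [hG1, MK2_blk]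
    have h2 : G1 0 j.succ = a j := by
      simp [hG1, MK2_blk]
    simp only [h1, h2]
    rw [hy]
    ring
  have hkey : ∀ j : Fin k, ‖M.mulVec (fun i => (((G0 * G1) i j.succ : ℤ) : ℝ))‖ ≤
      2 * ‖M2.mulVec (fun i => (G2 i j : ℝ))‖ := by
    intro j
    set x := M.mulVec (fun i => (((G0 * G1) i j.succ : ℤ) : ℝ)) with hx
    have hxv : ∀ m, x m = y j m + a j * v m := fun m => hxj j m
    have hsh : ‖v‖ ≤ ‖x‖ := hs _ (MK2_col_ne (G0 * G1) hGdet j.succ)
    have hxl : |x l| ≤ ‖v‖ / 2 := by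
      rw [hxv, ← hvl, ha]
      push_cast
      have h1 : y j l + -(round (y j l / v l) : ℝ) * v l =
          (y j l / v l - round (y j l / v l)) * v l := by
        field_simp
        ring
      rw [h1, abs_mul]
      have h2 := abs_sub_round (y j l / v l)
      have h3 := abs_nonneg (v l)
      nlinarith
    have h1 : ‖x‖ ≤ ‖M2.mulVec (fun i => (G2 i j : ℝ))‖ + ‖v‖ / 2 := by
      rw [pi_norm_le_iff_of_nonneg (by positivity)]
      intro m
      rcases eq_or_ne m l with rfl | hml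
      · rw [Real.norm_eq_abs]
        have := norm_nonneg (M2.mulVec (fun i => (G2 i j : ℝ)))
        linarith
      · obtain ⟨m', rfl⟩ := Fin.exists_succAbove_eq hml
        have h2 : x (l.succAbove m') = M2.mulVec (fun i => (G2 i j : ℝ)) m' +
            v (l.succAbove m') / v l * x l := by
          rw [hxv, hxv, Matrix.mulVec, dotProduct]
          have h3 : ∑ i, M2 m' i * (G2 i j : ℝ) = y j (l.succAbove m') -
              v (l.succAbove m') / v l * y j l := by
            rw [hy]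
            simp only
            rw [Finset.mul_sum, ← Finset.sum_sub_distrib]
            refine Finset.sum_congr rfl fun i _ => ?_
            rw [hM2, Matrix.of_apply, hcol, hcol]
            ring
          rw [h3]
          field_simp
          ring
        rw [h2, Real.norm_eq_abs]
        refine (abs_add_le _ _).trans ?_
        have h4 : |M2.mulVec (fun i => (G2 i j : ℝ)) m'| ≤ ‖M2.mulVec (fun i => (G2 i j : ℝ))‖ :=
          norm_le_pi_norm (M2.mulVec (fun i => (G2 i j : ℝ))) m'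
        have h5 : |v (l.succAbove m') / v l * x l| ≤ ‖v‖ / 2 := by
          rw [abs_mul, abs_div]
          have h6 : |v (l.succAbove m')| / |v l| ≤ 1 := by
            rw [div_le_one (by positivity), hvl]
            exact norm_le_pi_norm v _
          have h7 := abs_nonneg (x l)
          have h8 : 0 ≤ |v (l.succAbove m')| / |v l| := by positivity
          nlinarith
        linarith
    linarith
  rw [Fin.prod_univ_succ, hx0]
  have h2 : ∏ j : Fin k, ‖M.mulVec (fun i => (((G0 * G1) i j.succ : ℤ) : ℝ))‖ ≤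
      ∏ j : Fin k, (2 * ‖M2.mulVec (fun i => (G2 i j : ℝ))‖) :=
    Finset.prod_le_prod (fun _ _ => norm_nonneg _) fun j _ => hkey j
  rw [Finset.prod_mul_distrib, Finset.prod_const, Finset.card_univ, Fintype.card_fin] at h2
  calc ‖v‖ * ∏ j : Fin k, ‖M.mulVec (fun i => (((G0 * G1) i j.succ : ℤ) : ℝ))‖
      ≤ ‖v‖ * (2 ^ k * (C * |M2.det|)) := by
        refine mul_le_mul_of_nonneg_left (h2.trans ?_) hv0.le
        exact mul_le_mul_of_nonneg_left hprod (by positivity)
    _ = 2 ^ k * C * |M.det| := by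
        rw [helim]
        ring

theorem mk (k : ℕ) : ∃ C : ℝ, 0 < C ∧ ∀ M : Matrix (Fin k) (Fin k) ℝ, M.det ≠ 0 →
    ∃ G : Matrix (Fin k) (Fin k) ℤ, IsUnit G.det ∧
      ∏ j, ‖M.mulVec (fun i => (G i j : ℝ))‖ ≤ C * |M.det| := by
  induction k with
  | zero =>
    refine ⟨1, one_pos, fun M _ => ⟨1, by simp, ?_⟩⟩
    simp
  | succ k ih =>
    obtain ⟨C, hC, h⟩ := ih
    exact ⟨2 ^ k * C, by positivity, fun M hM => MK2_step hC h M hM⟩

end Pool.Agent.Lib.H70X
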