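import Pool.Agent.Lib.H70X.Defs

/-! # Chunk T4: a root close to the point (medium, pure Mathlib)

Proof. All coefficients of `F` are `≤ C Z` in absolute value, so `|F''(y)| ≤ K Z` for `|y| ≤ 2`, `K = C n^2 2^n (n+1)`. Let
`r = min 1 (1/(2 C K))`. For `|y - x| ≤ r`, `|F'(y) - F'(x)| ≤ K Z r ≤ Z/(2C)`, so `F'(y)` has the sign of `F'(x)` and
`|F'(y)| ≥ Z/(2C)`. Let `ρ = 2 C^2 / (U Z)`. If `ρ ≤ r` then
by the mean value theorem `F(x + ρ)` and `F(x - ρ)` are at distance `≥ ρ Z/(2C) = C/U ≥ |F(x)|` from `F(x)` on both sides, so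
`F` vanishes somewhere in `[x - ρ, x + ρ]` (intermediate value theorem). Take `D = max (2 C^2 / r) (2 C^2)`. -/

open Polynomial MeasureTheory Set Filter

namespace Pool.Agent.Lib.H70X

theorem t4_pow (x t : ℝ) (hx0 : 0 ≤ x) (hx1 : x ≤ 1) (ht : |t| ≤ 1) (i : ℕ) :
    |(x + t) ^ i - x ^ i - i * x ^ (i - 1) * t| ≤ 4 ^ i * t ^ 2 := by
  induction i with
  | zero => simp; positivity
  | succ i ih =>
    have h1 : (x + t) ^ (i + 1) - x ^ (i + 1) - ((i + 1 : ℕ) : ℝ) * x ^ (i + 1 - 1) * t =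
        (x + t) * ((x + t) ^ i - x ^ i - i * x ^ (i - 1) * t) + i * x ^ (i - 1) * t ^ 2 := by
      rcases i with _ | i
      · simp
      · simp only [Nat.add_sub_cancel]
        push_cast
        ring
    rw [h1]
    have h2 : |x + t| ≤ 2 := by
      calc |x + t| ≤ |x| + |t| := abs_add_le x t
        _ ≤ 1 + 1 := by
          rw [abs_of_nonneg hx0]
          linarith
        _ = 2 := by norm_num
    have h3 : (i : ℝ) ≤ 4 ^ i := by
      have : i < 4 ^ i := Nat.lt_pow_self (by norm_num)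
      exact_mod_cast this.le
    have h4 : |(i : ℝ) * x ^ (i - 1) * t ^ 2| ≤ 4 ^ i * t ^ 2 := by
      have h5 : x ^ (i - 1) ≤ 1 := pow_le_one₀ hx0 hx1
      have h6 : 0 ≤ x ^ (i - 1) := pow_nonneg hx0 _
      rw [abs_of_nonneg (by positivity)]
      apply mul_le_mul_of_nonneg_right _ (by positivity)
      calc (i : ℝ) * x ^ (i - 1) ≤ i * 1 := mul_le_mul_of_nonneg_left h5 (by positivity)
        _ ≤ 4 ^ i := by linarith
    calc |(x + t) * ((x + t) ^ i - x ^ i - i * x ^ (i - 1) * t) + i * x ^ (i - 1) * t ^ 2|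
        ≤ |(x + t) * ((x + t) ^ i - x ^ i - i * x ^ (i - 1) * t)| + |i * x ^ (i - 1) * t ^ 2| :=
          abs_add_le _ _
      _ ≤ 2 * (4 ^ i * t ^ 2) + 4 ^ i * t ^ 2 := by
          rw [abs_mul]
          exact add_le_add (mul_le_mul h2 ih (abs_nonneg _) (by norm_num)) h4
      _ ≤ 4 ^ (i + 1) * t ^ 2 := by
          rw [pow_succ (4 : ℝ) i]
          have : 0 ≤ (4 : ℝ) ^ i * t ^ 2 := by positivity
          linarith

theorem t4_taylor (n : ℕ) (F : ℤ[X]) (x t M : ℝ) (hF : F.natDegree ≤ n) (hx0 : 0 ≤ x)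
    (hx1 : x ≤ 1) (ht : |t| ≤ 1) (hM : ∀ i, |(F.coeff i : ℝ)| ≤ M) :
    |aeval (x + t) F - aeval x F - aeval x (derivative F) * t| ≤
      M * ((n + 2) * 4 ^ (n + 2)) * t ^ 2 := by
  have e1 : ∀ y : ℝ, aeval y F = ∑ i ∈ Finset.range (n + 2), (F.coeff i : ℝ) * y ^ i := by
    intro y
    rw [aeval_eq_sum_range' (n := n + 2) (by omega)]
    refine Finset.sum_congr rfl fun i _ => ?_
    rw [zsmul_eq_mul]
  have e2 : aeval x (derivative F) =
      ∑ i ∈ Finset.range (n + 2), (F.coeff i : ℝ) * (i * x ^ (i - 1)) := by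
    rw [aeval_eq_sum_range' (n := n + 1) (lt_of_le_of_lt (natDegree_derivative_le F) (by omega)),
      Finset.sum_range_succ' _ (n + 1)]
    simp only [Nat.cast_zero, zero_mul, mul_zero, add_zero]
    refine Finset.sum_congr rfl fun i _ => ?_
    rw [zsmul_eq_mul, coeff_derivative]
    push_cast [Nat.add_sub_cancel]
    ring
  rw [e1, e1, e2, Finset.sum_mul, ← Finset.sum_sub_distrib, ← Finset.sum_sub_distrib]
  have hM0 : 0 ≤ M := le_trans (abs_nonneg _) (hM 0)
  calc |∑ i ∈ Finset.range (n + 2), ((F.coeff i : ℝ) * (x + t) ^ i - (F.coeff i : ℝ) * x ^ i -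
        (F.coeff i : ℝ) * (i * x ^ (i - 1)) * t)|
      ≤ ∑ i ∈ Finset.range (n + 2), |(F.coeff i : ℝ) * (x + t) ^ i - (F.coeff i : ℝ) * x ^ i -
        (F.coeff i : ℝ) * (i * x ^ (i - 1)) * t| := Finset.abs_sum_le_sum_abs _ _
    _ ≤ ∑ i ∈ Finset.range (n + 2), M * (4 ^ (n + 2) * t ^ 2) := by
        refine Finset.sum_le_sum fun i hi => ?_
        have h1 : (F.coeff i : ℝ) * (x + t) ^ i - (F.coeff i : ℝ) * x ^ i -
            (F.coeff i : ℝ) * (i * x ^ (i - 1)) * t =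
            F.coeff i * ((x + t) ^ i - x ^ i - i * x ^ (i - 1) * t) := by ring
        rw [h1, abs_mul]
        apply mul_le_mul (hM i) _ (abs_nonneg _) hM0
        refine le_trans (t4_pow x t hx0 hx1 ht i) ?_
        apply mul_le_mul_of_nonneg_right _ (by positivity)
        exact pow_le_pow_right₀ (by norm_num) (Finset.mem_range.1 hi).le
    _ = M * ((n + 2) * 4 ^ (n + 2)) * t ^ 2 := by
        rw [Finset.sum_const, Finset.card_range, nsmul_eq_mul]
        push_cast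
        ring

theorem exists_close_root (n : ℕ) (C : ℝ) (hC : 1 ≤ C) : ∃ D : ℝ, 1 ≤ D ∧
    ∀ (F : ℤ[X]) (x U Z : ℝ), F.natDegree ≤ n → 0 ≤ x → x ≤ 1 → 1 ≤ U → 1 ≤ Z → D ≤ U * Z →
      (∀ i, |(F.coeff i : ℝ)| ≤ C * Z) → |aeval x F| ≤ C / U →
      Z / C ≤ |aeval x (derivative F)| →
      ∃ y : ℝ, aeval y F = 0 ∧ |x - y| ≤ D / (U * Z) := by
  obtain ⟨K, hK⟩ : ∃ K : ℝ, K = C * ((n + 2) * 4 ^ (n + 2)) := ⟨_, rfl⟩
  have hC0 : 0 < C := by linarith
  have hK1 : 1 ≤ K := by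
    rw [hK]
    have h1 : (1 : ℝ) ≤ (n : ℝ) + 2 := by
      have : (0 : ℝ) ≤ n := Nat.cast_nonneg n
      linarith
    have h2 : (1 : ℝ) ≤ 4 ^ (n + 2) := one_le_pow₀ (by norm_num)
    exact one_le_mul_of_one_le_of_one_le hC (one_le_mul_of_one_le_of_one_le h1 h2)
  refine ⟨4 * C ^ 3 * K, ?_, ?_⟩
  · have h1 : (1 : ℝ) ≤ C ^ 3 := one_le_pow₀ hC
    have h2 : 1 ≤ C ^ 3 * K := one_le_mul_of_one_le_of_one_le h1 hK1
    linarith
  · intro F x U Z hF hx0 hx1 hU hZ hD hco hval hder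
    have hU0 : 0 < U := by linarith
    have hZ0 : 0 < Z := by linarith
    have hUZ : 0 < U * Z := by positivity
    obtain ⟨ρ, hρ⟩ : ∃ ρ : ℝ, ρ = 2 * C ^ 2 / (U * Z) := ⟨_, rfl⟩
    have hρ0 : 0 < ρ := by
      rw [hρ]
      positivity
    have hρUZ : ρ * (U * Z) = 2 * C ^ 2 := by
      rw [hρ]
      field_simp
    -- `2 C K ρ ≤ 1`
    have hρK : 2 * C * K * ρ ≤ 1 := by
      have h1 : 2 * C * K * ρ * (U * Z) ≤ 1 * (U * Z) := by
        calc 2 * C * K * ρ * (U * Z) = 2 * C * K * (ρ * (U * Z)) := by ring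
          _ = 4 * C ^ 3 * K := by
            rw [hρUZ]
            ring
          _ ≤ U * Z := hD
          _ = 1 * (U * Z) := (one_mul _).symm
      exact le_of_mul_le_mul_right h1 hUZ
    have hρ1 : ρ ≤ 1 := by
      have h1 : 1 ≤ 2 * C * K := by
        have : 1 ≤ C * K := one_le_mul_of_one_le_of_one_le hC hK1
        linarith
      nlinarith
    have hρD : ρ ≤ 4 * C ^ 3 * K / (U * Z) := by
      rw [hρ]
      apply div_le_div_of_nonneg_right _ hUZ.le
      have h1 : C ^ 2 * 1 ≤ C ^ 2 * (C * K) :=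
        mul_le_mul_of_nonneg_left (one_le_mul_of_one_le_of_one_le hC hK1) (by positivity)
      nlinarith
    -- the main estimate
    have hmain : C / U ≤ Z / C * ρ - K * Z * ρ ^ 2 := by
      have h1 : Z / C * ρ - K * Z * ρ ^ 2 = Z * ρ / C * (1 - C * K * ρ) := by
        field_simp
      have h2 : (1 : ℝ) / 2 ≤ 1 - C * K * ρ := by linarith
      have h3 : Z * ρ / C = 2 * C / U := by
        rw [hρ]
        field_simp
      rw [h1, h3]
      calc C / U = 2 * C / U * (1 / 2) := by ring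
        _ ≤ 2 * C / U * (1 - C * K * ρ) := mul_le_mul_of_nonneg_left h2 (by positivity)
    have hco' : ∀ i, |(F.coeff i : ℝ)| ≤ C * Z := hco
    have hcont : ContinuousOn (fun y : ℝ => aeval y F) (Icc (x - ρ) (x + ρ)) := by
      exact F.continuous_aeval.continuousOn
    have hT : ∀ t : ℝ, |t| = ρ → |aeval (x + t) F - aeval x F - aeval x (derivative F) * t| ≤
        K * Z * ρ ^ 2 := by
      intro t ht
      refine le_trans (t4_taylor n F x t (C * Z) hF hx0 hx1 (by linarith) hco') ?_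
      rw [← ht, sq_abs, hK]
      apply le_of_eq
      ring
    have hp := abs_le.1 (hT ρ (abs_of_pos hρ0))
    have hm := abs_le.1 (hT (-ρ) (by rw [abs_neg, abs_of_pos hρ0]))
    have hv := abs_le.1 hval
    have hxm : x + -ρ = x - ρ := by ring
    rw [hxm] at hm
    have hle : x - ρ ≤ x + ρ := by linarith
    have hfin : ∀ y ∈ Icc (x - ρ) (x + ρ), |x - y| ≤ 4 * C ^ 3 * K / (U * Z) := by
      intro y hy
      refine le_trans ?_ hρD
      rw [abs_le]
      exact ⟨by linarith [hy.2], by linarith [hy.1]⟩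
    rcases le_abs.1 hder with h | h
    · have h1 : Z / C * ρ ≤ aeval x (derivative F) * ρ := mul_le_mul_of_nonneg_right h hρ0.le
      have h2 : (0 : ℝ) ∈ Icc (aeval (x - ρ) F) (aeval (x + ρ) F) := by
        constructor
        · linarith [hm.2, hv.2]
        · linarith [hp.1, hv.1]
      obtain ⟨y, hy, hy0⟩ := intermediate_value_Icc hle hcont h2
      exact ⟨y, hy0, hfin y hy⟩
    · have h1 : Z / C * ρ ≤ -aeval x (derivative F) * ρ := mul_le_mul_of_nonneg_right h hρ0.le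
      have h2 : (0 : ℝ) ∈ Icc (aeval (x + ρ) F) (aeval (x - ρ) F) := by
        constructor
        · linarith [hp.2, hv.2]
        · linarith [hm.1, hv.1]
      obtain ⟨y, hy, hy0⟩ := intermediate_value_Icc' hle hcont h2
      exact ⟨y, hy0, hfin y hy⟩

end Pool.Agent.Lib.H70X
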