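import Mathlib

open Polynomial Filter

namespace Pool.Agent.Lib.H70X.U

/-- The height of an integer polynomial: the maximum of the absolute values of its coefficients. -/
noncomputable def height (P : ℤ[X]) : ℕ := P.support.sup fun i => (P.coeff i).natAbs

/-- Real numbers `w` for which, for all sufficiently large `X`, the system
`H(P) ≤ X`, `0 < |P(ζ)| ≤ X^{-w}` has an irreducible solution of degree exactly `n`. -/
def OrdSet (n : ℕ) (ζ : ℝ) : Set ℝ :=
  {w : ℝ | ∀ᶠ X : ℝ in atTop, ∃ P : ℤ[X], Irreducible P ∧ P.natDegree = n ∧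
    (height P : ℝ) ≤ X ∧ 0 < |aeval ζ P| ∧ |aeval ζ P| ≤ X ^ (-w)}

/-- Real numbers `w` for which, for all sufficiently large `X`, there is a nonzero real algebraic
number `α` of degree exactly `n` with `H(α) ≤ X` and `0 < |ζ - α| ≤ H(α)⁻¹ X^{-w}`; here `P` is
the minimal polynomial of `α` over the integers (up to sign). -/
def StarSet (n : ℕ) (ζ : ℝ) : Set ℝ :=
  {w : ℝ | ∀ᶠ X : ℝ in atTop, ∃ (α : ℝ) (P : ℤ[X]), α ≠ 0 ∧ Irreducible P ∧ P.natDegree = n ∧
    aeval α P = 0 ∧ (height P : ℝ) ≤ X ∧ 0 < |ζ - α| ∧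
    |ζ - α| ≤ (height P : ℝ)⁻¹ * X ^ (-w)}

/-- The uniform exact-degree exponent `\hat w_{=n}(ζ)`. -/
noncomputable def uniformExp (n : ℕ) (ζ : ℝ) : EReal :=
  sSup ((fun w : ℝ => (w : EReal)) '' OrdSet n ζ)

/-- The uniform exact-degree star exponent `\hat w^*_{=n}(ζ)`. -/
noncomputable def uniformExpStar (n : ℕ) (ζ : ℝ) : EReal :=
  sSup ((fun w : ℝ => (w : EReal)) '' StarSet n ζ)

theorem natAbs_coeff_le_height (P : ℤ[X]) (i : ℕ) : (P.coeff i).natAbs ≤ height P := by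
  by_cases h : i ∈ P.support
  · exact Finset.le_sup (f := fun i => (P.coeff i).natAbs) h
  · rw [Polynomial.notMem_support_iff] at h
    simp [h]

theorem abs_coeff_le_height (P : ℤ[X]) (i : ℕ) : |(P.coeff i : ℝ)| ≤ height P := by
  have h := natAbs_coeff_le_height P i
  have h2 : ((P.coeff i).natAbs : ℝ) ≤ (height P : ℝ) := by exact_mod_cast h
  rwa [Nat.cast_natAbs, Int.cast_abs] at h2

theorem height_le {P : ℤ[X]} {B : ℝ} (hB : 0 ≤ B) (h : ∀ i, |(P.coeff i : ℝ)| ≤ B) :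
    (height P : ℝ) ≤ B := by
  have h1 : height P ≤ ⌊B⌋₊ := by
    unfold height
    apply Finset.sup_le
    intro i _
    apply Nat.le_floor
    rw [Nat.cast_natAbs, Int.cast_abs]
    exact h i
  exact (Nat.le_floor_iff hB).1 h1

theorem one_le_height {P : ℤ[X]} (h : P ≠ 0) : (1 : ℝ) ≤ height P := by
  have h1 : P.leadingCoeff ≠ 0 := leadingCoeff_ne_zero.2 h
  have h2 := natAbs_coeff_le_height P P.natDegree
  have h3 : 1 ≤ (P.coeff P.natDegree).natAbs := Nat.one_le_iff_ne_zero.2 (by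
    rw [Int.natAbs_ne_zero]; exact h1)
  exact_mod_cast h3.trans h2

theorem aeval_eq_sum {P : ℤ[X]} {n : ℕ} (hP : P.natDegree ≤ n) (x : ℝ) :
    aeval x P = ∑ i ∈ Finset.range (n + 1), (P.coeff i : ℝ) * x ^ i := by
  rw [aeval_eq_sum_range' (Nat.lt_succ_of_le hP)]
  simp

theorem abs_aeval_sub_le {P : ℤ[X]} {n : ℕ} (hP : P.natDegree ≤ n) {x y : ℝ}
    (hx : 0 ≤ x) (hx1 : x ≤ 1) (hy : 0 ≤ y) (hy1 : y ≤ 1) :
    |aeval x P - aeval y P| ≤ ((n + 1) * n) * height P * |x - y| := by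
  rw [aeval_eq_sum hP, aeval_eq_sum hP, ← Finset.sum_sub_distrib]
  calc |∑ i ∈ Finset.range (n + 1), ((P.coeff i : ℝ) * x ^ i - (P.coeff i : ℝ) * y ^ i)|
      ≤ ∑ i ∈ Finset.range (n + 1), |(P.coeff i : ℝ) * x ^ i - (P.coeff i : ℝ) * y ^ i| :=
        Finset.abs_sum_le_sum_abs _ _
    _ ≤ ∑ i ∈ Finset.range (n + 1), (height P : ℝ) * (|x - y| * n) := by
        apply Finset.sum_le_sum
        intro i hi
        rw [← mul_sub, abs_mul]
        apply mul_le_mul (abs_coeff_le_height P i) _ (abs_nonneg _) (Nat.cast_nonneg _)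
        calc |x ^ i - y ^ i| ≤ |x - y| * i * max |x| |y| ^ (i - 1) := abs_pow_sub_pow_le x y i
          _ ≤ |x - y| * n * 1 := by
            apply mul_le_mul
            · apply mul_le_mul_of_nonneg_left _ (abs_nonneg _)
              have := Finset.mem_range.1 hi
              exact_mod_cast Nat.lt_succ_iff.1 this
            · apply pow_le_one₀
              · exact le_max_of_le_left (abs_nonneg _)
              · apply max_le
                · rw [abs_of_nonneg hx]; exact hx1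
                · rw [abs_of_nonneg hy]; exact hy1
            · apply pow_nonneg
              exact le_max_of_le_left (abs_nonneg _)
            · positivity
          _ = |x - y| * n := by ring
    _ = ((n + 1) * n) * height P * |x - y| := by
        rw [Finset.sum_const, Finset.card_range]
        simp only [nsmul_eq_mul]
        push_cast
        ring

/-- An irreducible integer polynomial of degree at least two has no rational root. -/
theorem aeval_rat_ne_zero {P : ℤ[X]} (hP : Irreducible P) (hd : 2 ≤ P.natDegree) (p q : ℕ) :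
    aeval ((p : ℝ) / q) P ≠ 0 := by
  intro h0
  have hprim : P.IsPrimitive := hP.isPrimitive (by omega)
  have hirr : Irreducible (P.map (Int.castRingHom ℚ)) :=
    (IsPrimitive.Int.irreducible_iff_irreducible_map_cast hprim).1 hP
  have hroot : (P.map (Int.castRingHom ℚ)).IsRoot ((p : ℚ) / q) := by
    have h1 : aeval ((((p : ℚ) / q : ℚ)) : ℝ) P = ((aeval ((p : ℚ) / q) P : ℚ) : ℝ) := by
      have := (aeval_algebraMap_apply (A := ℚ) ℝ ((p : ℚ) / q) P)
      simpa using this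
    have h2 : (((aeval ((p : ℚ) / q) P : ℚ)) : ℝ) = 0 := by
      rw [← h1]; push_cast; exact h0
    have h3 : aeval ((p : ℚ) / q) P = 0 := by exact_mod_cast h2
    rw [IsRoot.def, eval_map]
    rw [aeval_def] at h3
    exact h3
  have hdeg := degree_eq_one_of_irreducible_of_root hirr hroot
  have h4 : (P.map (Int.castRingHom ℚ)).natDegree = 1 := natDegree_eq_of_degree_eq_some hdeg
  rw [natDegree_map_eq_of_injective (RingHom.injective_int _)] at h4
  omega

theorem irrational_of_root {P : ℤ[X]} (hP : Irreducible P) (hd : 2 ≤ P.natDegree) {x : ℝ}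
    (hx : 0 ≤ x) (h : aeval x P = 0) : Irrational x := by
  rintro ⟨r, rfl⟩
  have hr : 0 ≤ r := by exact_mod_cast hx
  have h1 := aeval_rat_ne_zero hP hd r.num.toNat r.den
  apply h1
  have h2 : ((r.num.toNat : ℕ) : ℝ) = ((r.num : ℤ) : ℝ) := by
    have : ((r.num.toNat : ℕ) : ℤ) = r.num := Int.toNat_of_nonneg (Rat.num_nonneg.2 hr)
    exact_mod_cast congrArg (Int.cast : ℤ → ℝ) this
  rw [h2]
  have h3 : ((r.num : ℤ) : ℝ) / (r.den : ℝ) = (r : ℝ) := by
    exact_mod_cast congrArg (Rat.cast : ℚ → ℝ) (Rat.num_div_den r)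
  rw [h3]
  exact h

theorem one_le_pow_mul_abs {P : ℤ[X]} {n : ℕ} (hn : P.natDegree = n) (p q : ℕ) (hq : 0 < q)
    (h : aeval ((p : ℝ) / q) P ≠ 0) : (1 : ℝ) ≤ (q : ℝ) ^ n * |aeval ((p : ℝ) / q) P| := by
  have h1 := one_le_pow_mul_abs_eval_div (K := ℝ) (f := P) (a := (p : ℤ)) (b := (q : ℤ))
    (by exact_mod_cast hq)
  have h2 : eval (((p : ℤ) : ℝ) / ((q : ℤ) : ℝ)) (P.map (algebraMap ℤ ℝ)) =
      aeval ((p : ℝ) / q) P := by
    rw [eval_map, aeval_def]
    push_cast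
    rfl
  rw [h2] at h1
  have h3 := h1 h
  rw [hn] at h3
  exact_mod_cast h3


theorem aeval_C' (a : ℤ) (x : ℝ) : aeval x (C a : ℤ[X]) = (a : ℝ) := by
  rw [aeval_C]; simp

theorem aeval_lin (q p : ℤ) (x : ℝ) : aeval x (C q * X - C p : ℤ[X]) = q * x - p := by
  rw [map_sub, map_mul, aeval_X, aeval_C', aeval_C']

theorem reduce (p q : ℕ) (hq : 0 < q) (n : ℕ) : ∀ Y : ℤ[X], Y.natDegree ≤ n →
    ∃ A : ℤ[X], (Y - C 4 * (C (q : ℤ) * X - C (p : ℤ)) * A).natDegree ≤ n ∧
      ∀ i, 1 ≤ i → 0 ≤ (Y - C 4 * (C (q : ℤ) * X - C (p : ℤ)) * A).coeff i ∧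
        (Y - C 4 * (C (q : ℤ) * X - C (p : ℤ)) * A).coeff i < 4 * (q : ℤ) := by
  induction n with
  | zero =>
    intro Y hY
    refine ⟨0, by simpa using hY, ?_⟩
    intro i hi
    have h : Y.coeff i = 0 := coeff_eq_zero_of_natDegree_lt (by omega)
    simp only [mul_zero, sub_zero, h]
    refine ⟨le_refl _, ?_⟩
    have : (0 : ℤ) < q := by exact_mod_cast hq
    linarith
  | succ n ih =>
    intro Y hY
    set t : ℤ := Y.coeff (n + 1) / (4 * q) with ht
    set c : ℤ := Y.coeff (n + 1) % (4 * q) with hc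
    have hqc : Y.coeff (n + 1) = 4 * q * t + c := (Int.mul_ediv_add_emod _ _).symm
    have hq4 : (0 : ℤ) < 4 * q := by
      have : (0 : ℤ) < q := by exact_mod_cast hq
      linarith
    have hc0 : 0 ≤ c := Int.emod_nonneg _ hq4.ne'
    have hc1 : c < 4 * q := Int.emod_lt_of_pos _ hq4
    set Y2 : ℤ[X] := Y - C 4 * (C (q : ℤ) * X - C (p : ℤ)) * (C t * X ^ n) - C c * X ^ (n + 1)
      with hY2
    have hform : Y2 = Y - C (4 * q * t + c) * X ^ (n + 1) + C (4 * p * t) * X ^ n := by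
      rw [hY2]
      simp only [C_add, C_mul]
      ring
    have hdeg : Y2.natDegree ≤ n := by
      rw [natDegree_le_iff_coeff_eq_zero]
      intro N hN
      rw [hform]
      simp only [coeff_add, coeff_sub, coeff_C_mul, coeff_X_pow]
      have h1 : N ≠ n := by omega
      by_cases h2 : N = n + 1
      · subst h2
        simp [hqc]
      · have h3 : Y.coeff N = 0 := coeff_eq_zero_of_natDegree_lt (by omega)
        simp [h1, h2, h3]
    obtain ⟨A, hA1, hA2⟩ := ih Y2 hdeg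
    refine ⟨C t * X ^ n + A, ?_⟩
    have key : Y - C 4 * (C (q : ℤ) * X - C (p : ℤ)) * (C t * X ^ n + A) =
        (Y2 - C 4 * (C (q : ℤ) * X - C (p : ℤ)) * A) + C c * X ^ (n + 1) := by
      rw [hY2]; ring
    rw [key]
    constructor
    · apply (natDegree_add_le _ _).trans
      apply max_le (hA1.trans (Nat.le_succ n)) (natDegree_C_mul_X_pow_le _ _)
    · intro i hi
      rw [coeff_add, coeff_C_mul, coeff_X_pow]
      by_cases h2 : i = n + 1
      · subst h2
        have h3 : (Y2 - C 4 * (C (q : ℤ) * X - C (p : ℤ)) * A).coeff (n + 1) = 0 :=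
          coeff_eq_zero_of_natDegree_lt (by omega)
        rw [h3]
        simp [hc0, hc1]
      · simp only [h2, if_false, mul_zero, add_zero]
        exact hA2 i hi

theorem exists_E (n : ℕ) (hn : 2 ≤ n) (p q : ℕ) (hp : 1 ≤ p) (hpq : p < q)
    (hco : Nat.Coprime p q) :
    ∃ (E : ℤ[X]) (c : ℝ), E.natDegree ≤ n ∧ 1 ≤ c ∧ c ≤ 3 ∧ aeval ((p : ℝ) / q) E = c / q ^ n ∧
      (∀ i, 1 ≤ i → 0 ≤ E.coeff i ∧ E.coeff i < 4 * (q : ℤ)) ∧
      E.coeff n % 4 = 1 ∧ E.coeff 0 % 4 = 2 ∧ (∀ i, 0 < i → i < n → (4 : ℤ) ∣ E.coeff i) ∧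
      |(E.coeff 0 : ℝ)| ≤ (4 * n + 3) * q := by
  have hq : 0 < q := by omega
  have hqR : (0 : ℝ) < q := by exact_mod_cast hq
  set v : ℤ := (p : ℤ) ^ n + 2 * (q : ℤ) ^ n with hv
  have hc0 : v % 4 ≠ 0 := by
    intro h0
    rcases Nat.even_or_odd p with he | ho
    · have hqo : Odd q := by
        by_contra hcon
        rw [Nat.not_odd_iff_even] at hcon
        have h2 : 2 ∣ Nat.gcd p q := Nat.dvd_gcd he.two_dvd hcon.two_dvd
        rw [hco] at h2
        omega
      obtain ⟨a, ha⟩ := he.two_dvd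
      have h4 : (4 : ℤ) ∣ (p : ℤ) ^ n := by
        have h5 : (4 : ℤ) ∣ (p : ℤ) ^ 2 := by
          rw [ha]; push_cast; exact ⟨(a : ℤ) ^ 2, by ring⟩
        exact h5.trans (pow_dvd_pow _ hn)
      have h6 : Odd ((q : ℤ) ^ n) := by
        have : Odd (q : ℤ) := by exact_mod_cast hqo
        exact this.pow
      obtain ⟨b, hb⟩ := h6
      obtain ⟨d, hd⟩ := h4
      rw [hv, hb, hd] at h0
      omega
    · have h6 : Odd ((p : ℤ) ^ n) := by
        have : Odd (p : ℤ) := by exact_mod_cast ho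
        exact this.pow
      obtain ⟨b, hb⟩ := h6
      rw [hv, hb] at h0
      omega
  have hc4 : 0 ≤ v % 4 ∧ v % 4 < 4 := ⟨Int.emod_nonneg _ (by norm_num),
    Int.emod_lt_of_pos _ (by norm_num)⟩
  have hcop : IsCoprime ((p : ℤ) ^ n) ((q : ℤ) ^ n) := by
    apply IsCoprime.pow
    exact Nat.isCoprime_iff_coprime.2 hco
  obtain ⟨u, w, huw⟩ := hcop
  set m : ℤ := -(v / 4) with hm
  set Y : ℤ[X] := C (1 + 4 * (m * u)) * X ^ n + C (2 + 4 * (m * w)) with hY
  have hYdeg : Y.natDegree ≤ n := by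
    rw [hY]
    apply (natDegree_add_le _ _).trans
    apply max_le (natDegree_C_mul_X_pow_le _ _)
    rw [natDegree_C]; exact Nat.zero_le _
  obtain ⟨A, hA1, hA2⟩ := reduce p q hq n Y hYdeg
  set E := Y - C 4 * (C (q : ℤ) * X - C (p : ℤ)) * A with hE
  have hval : aeval ((p : ℝ) / q) E = ((v % 4 : ℤ) : ℝ) / q ^ n := by
    have hL : aeval ((p : ℝ) / q) (C (q : ℤ) * X - C (p : ℤ)) = 0 := by
      rw [aeval_lin]
      push_cast
      field_simp
      ring
    have h1 : aeval ((p : ℝ) / q) E = aeval ((p : ℝ) / q) Y := by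
      rw [hE, map_sub, map_mul, map_mul, hL]
      ring
    rw [h1, hY, map_add, map_mul, map_pow, aeval_X, aeval_C', aeval_C', div_pow]
    have h3 : (1 + 4 * (m * u)) * (p : ℤ) ^ n + (2 + 4 * (m * w)) * (q : ℤ) ^ n = v % 4 := by
      have h4 : v = 4 * (v / 4) + v % 4 := (Int.mul_ediv_add_emod v 4).symm
      have h5 : (1 + 4 * (m * u)) * (p : ℤ) ^ n + (2 + 4 * (m * w)) * (q : ℤ) ^ n =
          v + 4 * m * (u * (p : ℤ) ^ n + w * (q : ℤ) ^ n) := by
        rw [hv]; ring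
      rw [h5, huw, hm]
      linarith
    have h6 : ((1 + 4 * (m * u) : ℤ) : ℝ) * (p : ℝ) ^ n + ((2 + 4 * (m * w) : ℤ) : ℝ) *
        (q : ℝ) ^ n = ((v % 4 : ℤ) : ℝ) := by
      rw [← h3]; push_cast; ring
    rw [← h6]
    field_simp
  have hAcoef : ∀ i, E.coeff i = Y.coeff i - 4 * ((C (q : ℤ) * X - C (p : ℤ)) * A).coeff i := by
    intro i
    rw [hE, coeff_sub, mul_assoc, coeff_C_mul]
  have hYn : Y.coeff n = 1 + 4 * (m * u) := by
    rw [hY, coeff_add, coeff_C_mul, coeff_X_pow, coeff_C]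
    have : n ≠ 0 := by omega
    simp [this]
  have hY0 : Y.coeff 0 = 2 + 4 * (m * w) := by
    rw [hY, coeff_add, coeff_C_mul, coeff_X_pow, coeff_C]
    have : 0 ≠ n := by omega
    simp [this]
  refine ⟨E, ((v % 4 : ℤ) : ℝ), hA1, ?_, ?_, hval, hA2, ?_, ?_, ?_, ?_⟩
  · have : (1 : ℤ) ≤ v % 4 := by omega
    exact_mod_cast this
  · have : v % 4 ≤ (3 : ℤ) := by omega
    exact_mod_cast this
  · rw [hAcoef, hYn]; omega
  · rw [hAcoef, hY0]; omega
  · intro i hi hin
    rw [hAcoef]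
    have : Y.coeff i = 0 := by
      rw [hY, coeff_add, coeff_C_mul, coeff_X_pow, coeff_C]
      have h1 : i ≠ n := by omega
      have h2 : i ≠ 0 := by omega
      simp [h1, h2]
    rw [this]
    exact ⟨-((C (q : ℤ) * X - C (p : ℤ)) * A).coeff i, by ring⟩
  · have h1 := aeval_eq_sum hA1 ((p : ℝ) / q)
    rw [hval, Finset.sum_range_succ'] at h1
    simp only [pow_zero, mul_one] at h1
    have h2 : (E.coeff 0 : ℝ) = ((v % 4 : ℤ) : ℝ) / q ^ n -
        ∑ k ∈ Finset.range n, (E.coeff (k + 1) : ℝ) * ((p : ℝ) / q) ^ (k + 1) := by linarith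
    have hx0 : 0 ≤ (p : ℝ) / q := by positivity
    have hx1 : (p : ℝ) / q ≤ 1 := by
      rw [div_le_one hqR]; exact_mod_cast hpq.le
    have h3 : 0 ≤ ∑ k ∈ Finset.range n, (E.coeff (k + 1) : ℝ) * ((p : ℝ) / q) ^ (k + 1) := by
      apply Finset.sum_nonneg
      intro k _
      have := (hA2 (k + 1) (by omega)).1
      have h5 : (0 : ℝ) ≤ E.coeff (k + 1) := by exact_mod_cast this
      positivity
    have h4 : ∑ k ∈ Finset.range n, (E.coeff (k + 1) : ℝ) * ((p : ℝ) / q) ^ (k + 1) ≤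
        n * (4 * q) := by
      calc _ ≤ ∑ k ∈ Finset.range n, (4 * (q : ℝ)) := by
            apply Finset.sum_le_sum
            intro k _
            have h6 := hA2 (k + 1) (by omega)
            have h7 : (0 : ℝ) ≤ E.coeff (k + 1) := by exact_mod_cast h6.1
            have h8 : (E.coeff (k + 1) : ℝ) ≤ 4 * q := by exact_mod_cast h6.2.le
            have h9 : ((p : ℝ) / q) ^ (k + 1) ≤ 1 := pow_le_one₀ hx0 hx1
            have h10 : 0 ≤ ((p : ℝ) / q) ^ (k + 1) := by positivity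
            calc _ ≤ (4 * (q : ℝ)) * 1 := mul_le_mul h8 h9 h10 (by positivity)
              _ = 4 * q := mul_one _
        _ = n * (4 * q) := by simp
    have h5 : ((v % 4 : ℤ) : ℝ) / q ^ n ≤ 3 := by
      have : ((v % 4 : ℤ) : ℝ) ≤ 3 := by
        have : v % 4 ≤ (3 : ℤ) := by omega
        exact_mod_cast this
      rw [div_le_iff₀ (by positivity)]
      have h1q : (1 : ℝ) ≤ (q : ℝ) ^ n := one_le_pow₀ (by exact_mod_cast hq)
      nlinarith
    have h6 : 0 ≤ ((v % 4 : ℤ) : ℝ) / q ^ n := by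
      have : (0 : ℝ) ≤ ((v % 4 : ℤ) : ℝ) := by exact_mod_cast hc4.1
      positivity
    have h1q : (1 : ℝ) ≤ q := by exact_mod_cast hq
    rw [h2, abs_le]
    constructor
    · nlinarith
    · nlinarith

/-- Eisenstein at two, after dividing by the content. -/
theorem primPart_props (n : ℕ) (hn : 1 ≤ n) (F : ℤ[X]) (hdeg : F.natDegree ≤ n)
    (hFn : F.coeff n % 4 = 1) (hF0 : F.coeff 0 % 4 = 2)
    (hFi : ∀ i, 0 < i → i < n → (4 : ℤ) ∣ F.coeff i) :
    Irreducible F.primPart ∧ F.primPart.natDegree = n ∧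
      (∀ i, |(F.primPart.coeff i : ℝ)| ≤ |(F.coeff i : ℝ)|) ∧
      (∃ m : ℝ, 1 ≤ m ∧ (∀ i, (F.coeff i : ℝ) = m * F.primPart.coeff i) ∧
        ∀ x : ℝ, aeval x F = m * aeval x F.primPart) := by
  have hFne : F ≠ 0 := by
    intro h; rw [h] at hF0; simp at hF0
  have hFdeg : F.natDegree = n := by
    apply le_antisymm hdeg
    apply le_natDegree_of_ne_zero
    intro h; rw [h] at hFn; simp at hFn
  set m : ℤ := F.content with hm
  have hdecomp : F = C m * F.primPart := F.eq_C_content_mul_primPart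
  have hmne : m ≠ 0 := by
    intro h
    rw [hm, content_eq_zero_iff] at h
    exact hFne h
  have hm0 : 0 ≤ m := by
    have h : normalize F.content = F.content := normalize_content
    rw [← hm] at h
    exact Int.nonneg_of_normalize_eq_self h
  have hm1 : 1 ≤ m := by omega
  have hcoef : ∀ i, F.coeff i = m * F.primPart.coeff i := by
    intro i
    conv_lhs => rw [hdecomp]
    rw [coeff_C_mul]
  have hodd : m % 2 = 1 := by
    have h := hcoef n
    by_contra hcon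
    have h2 : m % 2 = 0 := by omega
    obtain ⟨k, hk⟩ : (2 : ℤ) ∣ m := Int.dvd_of_emod_eq_zero h2
    rw [hk] at h
    rw [h] at hFn
    have h5 : 2 * k * F.primPart.coeff n = 2 * (k * F.primPart.coeff n) := by ring
    rw [h5] at hFn
    omega
  have hpdeg : F.primPart.natDegree = n := by rw [natDegree_primPart, hFdeg]
  have h2dvd : ∀ i, (2 : ℤ) ∣ F.coeff i → (2 : ℤ) ∣ F.primPart.coeff i := by
    intro i hi
    rw [hcoef i] at hi
    rcases Int.prime_two.dvd_or_dvd hi with h | h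
    · omega
    · exact h
  refine ⟨?_, hpdeg, ?_, ⟨(m : ℝ), by exact_mod_cast hm1, ?_, ?_⟩⟩
  · have hprime : (Ideal.span {(2 : ℤ)}).IsPrime := by
      rw [Ideal.span_singleton_prime (by norm_num)]
      exact Int.prime_two
    apply irreducible_of_eisenstein_criterion hprime
    · rw [Ideal.mem_span_singleton, leadingCoeff, hpdeg]
      intro h
      have h3 := (hcoef n)
      obtain ⟨k, hk⟩ := h
      rw [hk] at h3
      rw [h3] at hFn
      have h5 : m * (2 * k) = 2 * (m * k) := by ring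
      rw [h5] at hFn
      omega
    · intro i hi
      rw [Ideal.mem_span_singleton]
      apply h2dvd
      have hi2 : i < n := by
        have := lt_of_lt_of_le hi degree_le_natDegree
        rw [hpdeg] at this
        exact_mod_cast this
      rcases Nat.eq_zero_or_pos i with h0 | h0
      · subst h0
        omega
      · exact (by norm_num : (2 : ℤ) ∣ 4).trans (hFi i h0 hi2)
    · rw [← natDegree_pos_iff_degree_pos, hpdeg]; omega
    · rw [Ideal.span_singleton_pow, Ideal.mem_span_singleton]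
      intro h
      obtain ⟨k, hk⟩ := h
      have h3 := hcoef 0
      rw [hk] at h3
      rw [h3] at hF0
      have h5 : m * (2 ^ 2 * k) = 4 * (m * k) := by ring
      rw [h5] at hF0
      omega
    · exact F.isPrimitive_primPart
  · intro i
    rw [hcoef i]
    push_cast
    rw [abs_mul]
    have h1 : (1 : ℝ) ≤ |(m : ℝ)| := by
      rw [abs_of_nonneg (by exact_mod_cast hm0)]
      exact_mod_cast hm1
    nlinarith [abs_nonneg (F.primPart.coeff i : ℝ)]
  · intro i
    rw [hcoef i]; push_cast; ring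
  · intro x
    conv_lhs => rw [hdecomp]
    rw [map_mul, aeval_C]
    simp


theorem exists_root_poly (n : ℕ) (hn : 2 ≤ n) (p q : ℕ) (hp : 1 ≤ p) (hpq : p < q)
    (hco : Nat.Coprime p q) (r : ℕ) (hr : 1 ≤ r) :
    ∃ (Q : ℤ[X]) (β : ℝ), Irreducible Q ∧ Q.natDegree = n ∧
      (height Q : ℝ) ≤ (4 * n + 8) * (r * q) ∧ aeval β Q = 0 ∧ 0 < β ∧ β < 1 ∧
      |β - (p : ℝ) / q| ≤ 3 / (4 * (r * q ^ (n + 1))) := by
  obtain ⟨E, c, hEdeg, hc1, hc3, hEval, hEcoef, hEn, hE0, hEi, hE0b⟩ :=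
    exists_E n hn p q hp hpq hco
  have hq : 0 < q := by omega
  have hqR : (0 : ℝ) < q := by exact_mod_cast hq
  have hq1R : (1 : ℝ) ≤ q := by exact_mod_cast hq
  have hrR : (1 : ℝ) ≤ r := by exact_mod_cast hr
  have hpR : (1 : ℝ) ≤ p := by exact_mod_cast hp
  have hpqR : (p : ℝ) < q := by exact_mod_cast hpq
  have hnR : (2 : ℝ) ≤ n := by exact_mod_cast hn
  set L : ℤ[X] := C (q : ℤ) * X - C (p : ℤ) with hL
  set F : ℤ[X] := E + C (4 * (r : ℤ)) * L with hF
  have hLcoef : ∀ i, L.coeff i = if i = 0 then -(p : ℤ) else if i = 1 then (q : ℤ) else 0 := by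
    intro i
    rw [hL, coeff_sub, coeff_C_mul, coeff_X, coeff_C]
    by_cases h0 : i = 0
    · subst h0; simp
    · by_cases h1 : i = 1
      · subst h1; simp
      · have h2 : ¬ (1 = i) := fun h => h1 h.symm
        simp [h0, h1, h2]
  have hFcoef : ∀ i, F.coeff i = E.coeff i + 4 * ((r : ℤ) * L.coeff i) := by
    intro i; rw [hF, coeff_add, coeff_C_mul]; ring
  have hLdeg : L.natDegree ≤ 1 := by
    rw [natDegree_le_iff_coeff_eq_zero]
    intro N hN
    rw [hLcoef]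
    have h1 : N ≠ 0 := by omega
    have h2 : N ≠ 1 := by omega
    simp [h1, h2]
  have hFdeg : F.natDegree ≤ n := by
    rw [hF]
    apply (natDegree_add_le _ _).trans
    apply max_le hEdeg
    exact (natDegree_C_mul_le _ _).trans (hLdeg.trans (by omega))
  obtain ⟨hirr, hpdeg, hpcoef, m, hm1, -, hmev⟩ := primPart_props n (by omega) F hFdeg
    (by rw [hFcoef]; omega) (by rw [hFcoef]; omega)
    (by
      intro i hi hin
      rw [hFcoef]
      exact dvd_add (hEi i hi hin) (dvd_mul_right _ _))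
  -- evaluation
  have hFev : ∀ x : ℝ, aeval x F = aeval x E + 4 * r * (q * x - p) := by
    intro x
    rw [hF, map_add, map_mul, aeval_C', hL, aeval_lin]
    push_cast
    ring
  have hFpq : aeval ((p : ℝ) / q) F = c / q ^ n := by
    rw [hFev, hEval]
    field_simp
    ring
  have hmono : ∀ x : ℝ, 0 ≤ x → x ≤ (p : ℝ) / q → aeval x E ≤ aeval ((p : ℝ) / q) E := by
    intro x hx hxp
    rw [aeval_eq_sum hEdeg, aeval_eq_sum hEdeg]
    apply Finset.sum_le_sum
    intro i _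
    rcases Nat.eq_zero_or_pos i with h0 | h0
    · subst h0; simp
    · apply mul_le_mul_of_nonneg_left _ (by exact_mod_cast (hEcoef i h0).1)
      exact pow_le_pow_left₀ hx hxp i
  set D : ℝ := 4 * (r * q ^ (n + 1)) with hD
  have hDpos : 0 < D := by positivity
  set x0 : ℝ := (p : ℝ) / q - 3 / D with hx0
  have hx0pos : 0 < x0 := by
    rw [hx0, sub_pos]
    have h1 : (1 : ℝ) / q ≤ (p : ℝ) / q := by
      apply div_le_div_of_nonneg_right hpR hqR.le
    apply lt_of_lt_of_le _ h1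
    rw [div_lt_div_iff₀ hDpos hqR, hD, pow_succ]
    have h2 : (1 : ℝ) ≤ (q : ℝ) ^ n := one_le_pow₀ hq1R
    have h3 : (1 : ℝ) ≤ r * (q : ℝ) ^ n := by nlinarith
    nlinarith
  have hx0le : x0 ≤ (p : ℝ) / q := by
    rw [hx0]
    have : 0 < 3 / D := by positivity
    linarith
  have hF0 : aeval x0 F ≤ 0 := by
    have h1 := hmono x0 hx0pos.le hx0le
    rw [hEval] at h1
    rw [hFev]
    have h2 : (q : ℝ) * x0 - p = -(3 * q / D) := by
      rw [hx0]; field_simp; ring
    rw [h2]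
    have h3 : 4 * (r : ℝ) * -(3 * q / D) = -(3 / q ^ n) := by
      rw [hD, pow_succ]
      field_simp
    rw [h3]
    have h4 : c / (q : ℝ) ^ n ≤ 3 / q ^ n := by
      apply div_le_div_of_nonneg_right hc3 (by positivity)
    linarith
  have hF1 : 0 ≤ aeval ((p : ℝ) / q) F := by
    rw [hFpq]; positivity
  have hcont : ContinuousOn (fun x : ℝ => aeval x F) (Set.Icc x0 ((p : ℝ) / q)) :=
    (Polynomial.continuous_aeval F).continuousOn
  obtain ⟨β, hβmem, hβ⟩ : (0 : ℝ) ∈ (fun x : ℝ => aeval x F) '' Set.Icc x0 ((p : ℝ) / q) :=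
    intermediate_value_Icc hx0le hcont ⟨hF0, hF1⟩
  have hβ0 : aeval β F = 0 := hβ
  refine ⟨F.primPart, β, hirr, hpdeg, ?_, ?_, ?_, ?_, ?_⟩
  · apply height_le (by positivity)
    intro i
    apply (hpcoef i).trans
    rw [hFcoef, hLcoef]
    have hrq : (q : ℝ) ≤ r * q := by nlinarith
    have hrq0 : (0 : ℝ) ≤ r * q := by positivity
    by_cases h0 : i = 0
    · subst h0
      simp only [if_true]
      push_cast
      have h1 : |(E.coeff 0 : ℝ) + 4 * ((r : ℝ) * -(p : ℝ))| ≤ |(E.coeff 0 : ℝ)| +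
          4 * (r * p) := by
        apply (abs_add_le _ _).trans
        have : |4 * ((r : ℝ) * -(p : ℝ))| = 4 * (r * p) := by
          rw [show 4 * ((r : ℝ) * -(p : ℝ)) = -(4 * (r * p)) by ring, abs_neg,
            abs_of_nonneg (by positivity)]
        linarith
      have h2 : (r : ℝ) * p ≤ r * q := by nlinarith
      nlinarith
    · have hi1 : 1 ≤ i := by omega
      have h3 := hEcoef i hi1
      have h4 : (0 : ℝ) ≤ E.coeff i := by exact_mod_cast h3.1
      have h5 : (E.coeff i : ℝ) ≤ 4 * q := by exact_mod_cast h3.2.le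
      by_cases h1 : i = 1
      · subst h1
        simp only [one_ne_zero, if_false, if_true]
        push_cast
        rw [abs_of_nonneg (by positivity)]
        nlinarith
      · simp only [h0, h1, if_false, mul_zero, add_zero]
        rw [abs_of_nonneg h4]
        nlinarith
  · have h1 := hmev β
    rw [hβ0] at h1
    have hm0 : m ≠ 0 := by linarith
    exact (mul_eq_zero.1 h1.symm).resolve_left hm0
  · exact lt_of_lt_of_le hx0pos hβmem.1
  · apply lt_of_le_of_lt hβmem.2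
    rw [div_lt_one hqR]; exact hpqR
  · rw [abs_sub_comm, abs_of_nonneg (by linarith [hβmem.2])]
    have := hβmem.1
    rw [hx0] at this
    linarith

/-- One stage of the construction. -/
structure St where
  p : ℕ
  q : ℕ
  r : ℕ
  E : ℤ[X]
  Q : ℤ[X]
  η : ℝ
  β : ℝ
  ρ : ℝ
  hβ0 : 0 < β
  hβ1 : β < 1
  hβ : Irrational β
  hρ : 0 < ρ

/-- What the next stage has to satisfy. -/
def Nxt (n : ℕ) (s : ℝ) (N : ℕ) (a : ℝ) (u v : St) : Prop :=
  N ≤ v.q ∧ 1 ≤ v.p ∧ v.p < v.q ∧ 1 ≤ v.r ∧ (v.q : ℝ) ^ (s - 1) ≤ v.r ∧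
    (v.r : ℝ) ≤ 2 * (v.q : ℝ) ^ (s - 1) ∧
  Irreducible v.E ∧ v.E.natDegree = n ∧ (height v.E : ℝ) ≤ (4 * n + 8) * v.q ∧
    aeval v.η v.E = 0 ∧ 0 < v.η ∧ v.η < 1 ∧ |v.η - (v.p : ℝ) / v.q| ≤ 1 / (v.q : ℝ) ^ (n + 1) ∧
  Irreducible v.Q ∧ v.Q.natDegree = n ∧ (height v.Q : ℝ) ≤ (4 * n + 8) * (v.r * v.q) ∧
    aeval v.β v.Q = 0 ∧ |v.β - (v.p : ℝ) / v.q| ≤ 3 / (4 * (v.r * (v.q : ℝ) ^ (n + 1))) ∧
  |u.β - (v.p : ℝ) / v.q| ≤ 1 / (v.q : ℝ) ^ 2 ∧ v.ρ ≤ 1 / (4 * (v.r * (v.q : ℝ) ^ (n + 1))) ∧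
  Metric.closedBall v.β v.ρ ⊆ Metric.closedBall u.β u.ρ ∧
  (a ∉ Metric.closedBall v.β v.ρ ∨ a = v.β)

theorem exists_good_rat (β : ℝ) (hβ0 : 0 < β) (hβ1 : β < 1) (hβ : Irrational β) (N : ℕ) :
    ∃ p q : ℕ, N ≤ q ∧ 1 ≤ p ∧ p < q ∧ Nat.Coprime p q ∧
      |β - (p : ℝ) / q| ≤ 1 / (q : ℝ) ^ 2 := by
  have hinf := Real.infinite_rat_abs_sub_lt_one_div_den_sq_of_irrational hβ
  -- enough: denominators are unbounded
  set δ : ℝ := min β (1 - β) with hδ
  have hδ0 : 0 < δ := lt_min hβ0 (by linarith)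
  obtain ⟨M, hM⟩ := exists_nat_gt (1 / δ)
  set K : ℕ := max N (M + 1) with hK
  by_contra hcon
  push Not at hcon
  apply hinf
  -- all members have denominator < K
  have hsub : {x : ℚ | |β - x| < 1 / (x.den : ℝ) ^ 2} ⊆
      {x : ℚ | x.den < K ∧ |x.num| ≤ 2 * K} := by
    intro x hx
    have hx' : |β - x| < 1 / (x.den : ℝ) ^ 2 := hx
    have hdpos : (0 : ℝ) < x.den := by exact_mod_cast x.den_pos
    have hd1 : (1 : ℝ) ≤ x.den := by exact_mod_cast x.den_pos
    have hxeq : (x : ℝ) = (x.num : ℝ) / x.den := by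
      exact_mod_cast (congrArg (Rat.cast : ℚ → ℝ) (Rat.num_div_den x)).symm
    have hdK : x.den < K := by
      by_contra hge
      push Not at hge
      have hMden : (M : ℝ) + 1 ≤ x.den := by
        have : M + 1 ≤ x.den := (le_max_right _ _).trans hge
        exact_mod_cast this
      have h1 : 1 / (x.den : ℝ) ^ 2 ≤ 1 / (x.den : ℝ) := by
        apply one_div_le_one_div_of_le hdpos
        nlinarith
      have h2 : 1 / (x.den : ℝ) < δ := by
        rw [div_lt_iff₀ hdpos]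
        rw [div_lt_iff₀ hδ0] at hM
        nlinarith
      have h3 : |β - x| < δ := by linarith
      rw [abs_lt] at h3
      have h4 : 0 < (x : ℝ) := by linarith [h3.2, min_le_left β (1 - β)]
      have h5 : (x : ℝ) < 1 := by linarith [h3.1, min_le_right β (1 - β)]
      have h6 : 0 < x := by exact_mod_cast h4
      have h7 : x < 1 := by exact_mod_cast h5
      have h8 : 0 < x.num := Rat.num_pos.2 h6
      have h9 : x.num < x.den := by
        exact Rat.num_lt_denom_iff.2 h7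
      have h10 : ((x.num.toNat : ℕ) : ℤ) = x.num := Int.toNat_of_nonneg h8.le
      have h11 : ((x.num.toNat : ℕ) : ℝ) = (x.num : ℝ) := by exact_mod_cast congrArg (Int.cast : ℤ → ℝ) h10
      have h12 := hcon x.num.toNat x.den ((le_max_left _ _).trans hge) (by omega) (by omega) (by
        have := x.reduced
        rwa [show x.num.natAbs = x.num.toNat by omega] at this)
      rw [h11, ← hxeq] at h12
      linarith
    refine ⟨hdK, ?_⟩
    have h1 : |(x : ℝ)| ≤ 2 := by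
      have h2 : 1 / (x.den : ℝ) ^ 2 ≤ 1 := by
        rw [div_le_one (by positivity)]
        nlinarith
      have h3 : |β - x| < 1 := lt_of_lt_of_le hx' h2
      rw [abs_lt] at h3
      rw [abs_le]
      constructor <;> linarith
    have h2 : |(x.num : ℝ)| ≤ 2 * K := by
      have h3 : (x.num : ℝ) = x * x.den := by rw [hxeq]; field_simp
      rw [h3, abs_mul, abs_of_nonneg hdpos.le]
      have h4 : (x.den : ℝ) ≤ K := by exact_mod_cast hdK.le
      have h5 : (0 : ℝ) ≤ |(x : ℝ)| := abs_nonneg _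
      nlinarith
    exact_mod_cast h2
  apply Set.Finite.subset _ hsub
  have hfin : (Set.Icc (-(2 * K : ℤ)) (2 * K) ×ˢ Set.Iio K : Set (ℤ × ℕ)).Finite :=
    (Set.finite_Icc _ _).prod (Set.finite_Iio _)
  apply Set.Finite.of_finite_image (f := fun x : ℚ => (x.num, x.den))
  · apply hfin.subset
    rintro _ ⟨x, ⟨hx1, hx2⟩, rfl⟩
    refine ⟨?_, hx1⟩
    rw [abs_le] at hx2
    exact ⟨hx2.1, hx2.2⟩
  · intro x _ y _ hxy
    simp only [Prod.mk.injEq] at hxy
    exact Rat.ext hxy.1 hxy.2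

theorem exists_next (n : ℕ) (hn : 2 ≤ n) (s : ℝ) (hs : 1 ≤ s) (N : ℕ) (a : ℝ) (u : St) :
    ∃ v : St, Nxt n s N a u v := by
  obtain ⟨M, hM⟩ := exists_nat_gt (4 / u.ρ)
  obtain ⟨p, q, hqN, hp, hpq, hco, hap⟩ := exists_good_rat u.β u.hβ0 u.hβ1 u.hβ (max N (M + 1))
  have hq : 0 < q := by omega
  have hqR : (0 : ℝ) < q := by exact_mod_cast hq
  have hq1R : (1 : ℝ) ≤ q := by exact_mod_cast hq
  have hqM : (M : ℝ) + 1 ≤ q := by
    have : M + 1 ≤ q := (le_max_right _ _).trans hqN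
    exact_mod_cast this
  set r : ℕ := ⌈(q : ℝ) ^ (s - 1)⌉₊ with hr
  have hpow1 : (1 : ℝ) ≤ (q : ℝ) ^ (s - 1) := Real.one_le_rpow hq1R (by linarith)
  have hr1 : (q : ℝ) ^ (s - 1) ≤ r := Nat.le_ceil _
  have hr2 : (r : ℝ) ≤ 2 * (q : ℝ) ^ (s - 1) := by
    have := (Nat.ceil_lt_add_one (by linarith : (0 : ℝ) ≤ (q : ℝ) ^ (s - 1))).le
    rw [← hr] at this
    linarith
  have hr3 : (1 : ℝ) ≤ r := hpow1.trans hr1
  have hr4 : 1 ≤ r := by exact_mod_cast hr3
  obtain ⟨E, η, hE1, hE2, hE3, hE4, hη0, hη1, hη⟩ := exists_root_poly n hn p q hp hpq hco 1 le_rfl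
  obtain ⟨Q, β, hQ1, hQ2, hQ3, hQ4, hβ0, hβ1, hβ⟩ := exists_root_poly n hn p q hp hpq hco r hr4
  have hirr : Irrational β := irrational_of_root hQ1 (by omega) hβ0.le hQ4
  -- radius
  have hT : (0 : ℝ) < 1 / (4 * (r * (q : ℝ) ^ (n + 1))) := by positivity
  have hdist : |u.β - β| ≤ 2 / (q : ℝ) ^ 2 := by
    have h1 : |u.β - β| ≤ |u.β - (p : ℝ) / q| + |β - (p : ℝ) / q| := by
      have := abs_sub_le u.β ((p : ℝ) / q) β
      rwa [abs_sub_comm ((p : ℝ) / q) β] at this
    have h2 : 3 / (4 * (r * (q : ℝ) ^ (n + 1))) ≤ 1 / (q : ℝ) ^ 2 := by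
      rw [div_le_div_iff₀ (by positivity) (by positivity)]
      have h3 : (q : ℝ) ^ 2 ≤ (q : ℝ) ^ (n + 1) := pow_le_pow_right₀ hq1R (by omega)
      have h4 : (0 : ℝ) < (q : ℝ) ^ (n + 1) := by positivity
      nlinarith
    have h3 : (2 : ℝ) / (q : ℝ) ^ 2 = 1 / (q : ℝ) ^ 2 + 1 / (q : ℝ) ^ 2 := by ring
    rw [h3]
    linarith
  have hdist2 : |u.β - β| ≤ u.ρ / 2 := by
    apply hdist.trans
    rw [div_le_div_iff₀ (by positivity) (by norm_num)]
    have h1 := u.hρ
    rw [div_lt_iff₀ h1] at hM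
    have h2 : (M : ℝ) ≤ q := by linarith
    have h3 : (q : ℝ) ≤ (q : ℝ) ^ 2 := by nlinarith
    nlinarith
  obtain ⟨ρ1, hρ1, ha⟩ : ∃ ρ1 : ℝ, 0 < ρ1 ∧ (a = β ∨ ρ1 < |a - β|) := by
    by_cases hab : a = β
    · exact ⟨1, one_pos, Or.inl hab⟩
    · have h1 : 0 < |a - β| := abs_pos.2 (sub_ne_zero.2 hab)
      exact ⟨|a - β| / 2, by linarith, Or.inr (by linarith)⟩
  set ρ : ℝ := min ρ1 (min (u.ρ / 2) (1 / (4 * (r * (q : ℝ) ^ (n + 1))))) with hρ
  have hρ0 : 0 < ρ := lt_min hρ1 (lt_min (by have := u.hρ; linarith) hT)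
  refine ⟨⟨p, q, r, E, Q, η, β, ρ, hβ0, hβ1, hirr, hρ0⟩, (le_max_left _ _).trans hqN, hp, hpq,
    hr4, hr1, hr2, hE1, hE2, ?_, hE4, hη0, hη1, ?_, hQ1, hQ2, hQ3, hQ4, hβ, hap, ?_, ?_, ?_⟩
  · simpa using hE3
  · apply hη.trans
    simp only [Nat.cast_one, one_mul]
    rw [div_le_div_iff₀ (by positivity) (by positivity)]
    have h4 : (0 : ℝ) < (q : ℝ) ^ (n + 1) := by positivity
    linarith
  · exact (min_le_right _ _).trans (min_le_right _ _)
  · intro x hx
    rw [Metric.mem_closedBall, Real.dist_eq] at hx ⊢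
    have h1 : ρ ≤ u.ρ / 2 := (min_le_right _ _).trans (min_le_left _ _)
    simp only at hx ⊢
    have h2 := abs_sub_le x β u.β
    rw [abs_sub_comm β u.β] at h2
    linarith
  · rcases ha with h | h
    · right; exact h
    · left
      rw [Metric.mem_closedBall, Real.dist_eq]
      simp only
      have : ρ ≤ ρ1 := min_le_left _ _
      push Not
      linarith


/-- The complete list of properties of the sequences that determine `ζ`. -/
def Good (n : ℕ) (s : ℕ → ℝ) (ζ : ℝ) (p q r : ℕ → ℕ) (E Q : ℕ → ℤ[X]) (η β : ℕ → ℝ)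
    (k : ℕ) : Prop :=
  0 < q k ∧ p k ≤ q k ∧ 1 ≤ r k ∧ (q k : ℝ) ^ (s k - 1) ≤ r k ∧
    (r k : ℝ) ≤ 2 * (q k : ℝ) ^ (s k - 1) ∧
  Irreducible (E k) ∧ (E k).natDegree = n ∧ (height (E k) : ℝ) ≤ (4 * n + 8) * q k ∧
    aeval (η k) (E k) = 0 ∧ 0 < η k ∧ |ζ - η k| ≤ 2 / (q k : ℝ) ^ (n + 1) ∧
  Irreducible (Q k) ∧ (Q k).natDegree = n ∧ (height (Q k) : ℝ) ≤ (4 * n + 8) * (r k * q k) ∧
    aeval (β k) (Q k) = 0 ∧ 0 < β k ∧ |ζ - β k| ≤ 2 / (q (k + 1) : ℝ) ^ 2 ∧
  |ζ - (p k : ℝ) / q k| ≤ 1 / (r k * (q k : ℝ) ^ (n + 1)) ∧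
  (r k * q k + 2) ^ (k + 1) ≤ q (k + 1)

theorem exists_zeta (n : ℕ) (hn : 2 ≤ n) (s : ℕ → ℝ) (hs : ∀ k, 1 ≤ s k) :
    ∃ (ζ : ℝ) (p q r : ℕ → ℕ) (E Q : ℕ → ℤ[X]) (η β : ℕ → ℝ),
      Transcendental ℤ ζ ∧ 0 ≤ ζ ∧ ζ ≤ 1 ∧ ∀ k, Good n s ζ p q r E Q η β k := by
  classical
  -- enumeration of the algebraic reals
  have hcount : {x : ℝ | IsAlgebraic ℤ x}.Countable := Algebraic.countable ℤ ℝ
  obtain ⟨a, ha⟩ := hcount.exists_eq_range ⟨0, isAlgebraic_zero⟩
  -- initial stage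
  obtain ⟨st0⟩ : Nonempty St := by
    obtain ⟨Q, β, hQ1, hQ2, -, hQ4, hβ0, hβ1, -⟩ :=
      exists_root_poly n hn 1 2 le_rfl (by norm_num) (by norm_num) 1 le_rfl
    exact ⟨⟨1, 2, 1, 0, 0, 0, β, 1, hβ0, hβ1, irrational_of_root hQ1 (by omega) hβ0.le hQ4,
      one_pos⟩⟩
  have hnext : ∀ (k : ℕ) (u : St), ∃ v : St, Nxt n (s k) ((u.r * u.q + 2) ^ (k + 1)) (a k) u v :=
    fun k u => exists_next n hn (s k) (hs k) _ (a k) u
  choose f hf using hnext
  let u : ℕ → St := fun k => Nat.rec st0 (fun j st => f j st) k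
  have hu : ∀ k, Nxt n (s k) (((u k).r * (u k).q + 2) ^ (k + 1)) (a k) (u k) (u (k + 1)) :=
    fun k => hf k (u k)
  -- the limit
  have hne : (⋂ k, Metric.closedBall (u k).β (u k).ρ).Nonempty := by
    apply IsCompact.nonempty_iInter_of_sequence_nonempty_isCompact_isClosed
    · intro k
      obtain ⟨-, -, -, -, -, -, -, -, -, -, -, -, -, -, -, -, -, -, -, -, h, -⟩ := hu k
      exact h
    · intro k
      exact ⟨(u k).β, Metric.mem_closedBall_self (u k).hρ.le⟩
    · exact isCompact_closedBall _ _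
    · intro k
      exact Metric.isClosed_closedBall
  obtain ⟨ζ, hζ⟩ := hne
  rw [Set.mem_iInter] at hζ
  have hball : ∀ k, |ζ - (u k).β| ≤ (u k).ρ := by
    intro k
    have := hζ k
    rwa [Metric.mem_closedBall, Real.dist_eq] at this
  have hpq : ∀ k, |ζ - ((u (k + 1)).p : ℝ) / (u (k + 1)).q| ≤
      1 / ((u (k + 1)).r * ((u (k + 1)).q : ℝ) ^ (n + 1)) := by
    intro k
    obtain ⟨-, hp1, hpq, hr1, -, -, -, -, -, -, -, -, -, -, -, -, -, h1, -, h2, -, -⟩ := hu k
    have hqpos : (0 : ℝ) < (u (k + 1)).q := by exact_mod_cast (by omega : 0 < (u (k + 1)).q)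
    have hrpos : (0 : ℝ) < (u (k + 1)).r := by exact_mod_cast (by omega : 0 < (u (k + 1)).r)
    have h3 := hball (k + 1)
    have h4 := abs_sub_le ζ (u (k + 1)).β (((u (k + 1)).p : ℝ) / (u (k + 1)).q)
    have hD : (0 : ℝ) < (u (k + 1)).r * ((u (k + 1)).q : ℝ) ^ (n + 1) := by positivity
    have h5 : 1 / ((u (k + 1)).r * ((u (k + 1)).q : ℝ) ^ (n + 1)) =
        3 / (4 * ((u (k + 1)).r * ((u (k + 1)).q : ℝ) ^ (n + 1))) +
        1 / (4 * ((u (k + 1)).r * ((u (k + 1)).q : ℝ) ^ (n + 1))) := by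
      field_simp; norm_num
    rw [h5]
    linarith
  have hqge : ∀ k, 2 ^ (k + 1) ≤ (u (k + 1)).q := by
    intro k
    obtain ⟨h1, -⟩ := hu k
    exact (Nat.pow_le_pow_left (by omega) _).trans h1
  have hpq01 : 0 ≤ ζ ∧ ζ ≤ 1 := by
    obtain ⟨-, hp1, hpq1, hr1, -⟩ := hu 0
    have h1 := hpq 0
    simp only [zero_add] at h1 hp1 hpq1 hr1
    set q := (u 1).q
    set p := (u 1).p
    set r := (u 1).r
    have hqpos : (0 : ℝ) < q := by exact_mod_cast (by omega : 0 < q)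
    have hq1 : (1 : ℝ) ≤ q := by exact_mod_cast (by omega : 1 ≤ q)
    have hrR : (1 : ℝ) ≤ r := by exact_mod_cast hr1
    have h2 : 1 / (r * (q : ℝ) ^ (n + 1)) ≤ 1 / q := by
      apply one_div_le_one_div_of_le hqpos
      have h3 : (q : ℝ) ^ 1 ≤ (q : ℝ) ^ (n + 1) := pow_le_pow_right₀ hq1 (by omega)
      rw [pow_one] at h3
      have h4 : (0 : ℝ) < (q : ℝ) ^ (n + 1) := by positivity
      nlinarith
    have h5 : 1 / (q : ℝ) ≤ (p : ℝ) / q :=
      div_le_div_of_nonneg_right (by exact_mod_cast hp1) hqpos.le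
    have h6 : (p : ℝ) / q + 1 / q ≤ 1 := by
      rw [← add_div, div_le_one hqpos]
      exact_mod_cast hpq1
    rw [abs_le] at h1
    constructor <;> linarith [h1.1, h1.2]
  refine ⟨ζ, fun k => (u (k + 1)).p, fun k => (u (k + 1)).q, fun k => (u (k + 1)).r,
    fun k => (u (k + 1)).E, fun k => (u (k + 1)).Q, fun k => (u (k + 1)).η,
    fun k => (u (k + 1)).β, ?_, hpq01.1, hpq01.2, ?_⟩
  · -- transcendence
    intro halg
    have hmem : ζ ∈ Set.range a := by rw [← ha]; exact halg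
    obtain ⟨k, hk⟩ := hmem
    have hNk := hu k
    obtain ⟨-, -, -, -, -, -, -, -, -, -, -, -, -, hQ1, hQ2, -, hQ4, -, -, -, -, hor⟩ := hNk
    have hζβ : ζ = (u (k + 1)).β := by
      rcases hor with h | h
      · exact absurd (hk ▸ hζ (k + 1)) h
      · rw [← hk]; exact h
    have hirr : Irrational ζ := hζβ ▸ (u (k + 1)).hβ
    have hroot : eval ζ (map (algebraMap ℤ ℝ) (u (k + 1)).Q) = 0 := by
      rw [eval_map, ← aeval_def, hζβ]; exact hQ4
    obtain ⟨A, hA0, hA⟩ := Liouville.exists_pos_real_of_irrational_root hirr hQ1.ne_zero hroot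
    obtain ⟨j, hj⟩ := exists_nat_gt A
    have h1 := hA ((u (j + 1)).p : ℤ) ((u (j + 1)).q - 1)
    have hq1 := hqge j
    have hqpos : 0 < (u (j + 1)).q := lt_of_lt_of_le (by positivity) hq1
    have h2 : (((u (j + 1)).q - 1 : ℕ) : ℝ) + 1 = (u (j + 1)).q := by
      have : (u (j + 1)).q - 1 + 1 = (u (j + 1)).q := by omega
      exact_mod_cast congrArg (Nat.cast : ℕ → ℝ) this
    rw [h2, hQ2] at h1
    have h3 := hpq j
    obtain ⟨-, -, -, hr1, -⟩ := hu j
    have hrR : (1 : ℝ) ≤ (u (j + 1)).r := by exact_mod_cast hr1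
    have hqR : (0 : ℝ) < (u (j + 1)).q := by exact_mod_cast hqpos
    have h4 : (j : ℝ) < (u (j + 1)).q := by
      have : j < 2 ^ (j + 1) := (Nat.lt_two_pow_self).trans (Nat.pow_lt_pow_right (by norm_num) (by omega))
      exact_mod_cast lt_of_lt_of_le this hq1
    have h5 : ((u (j + 1)).q : ℝ) ^ n * (|ζ - (((u (j + 1)).p : ℤ) : ℝ) / (u (j + 1)).q| * A) ≤
        ((u (j + 1)).q : ℝ) ^ n * (1 / ((u (j + 1)).r * ((u (j + 1)).q : ℝ) ^ (n + 1)) * A) := by
      apply mul_le_mul_of_nonneg_left _ (by positivity)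
      apply mul_le_mul_of_nonneg_right _ hA0.le
      rw [Int.cast_natCast]
      exact h3
    have h6 : ((u (j + 1)).q : ℝ) ^ n * (1 / ((u (j + 1)).r * ((u (j + 1)).q : ℝ) ^ (n + 1)) * A)
        = A / ((u (j + 1)).r * (u (j + 1)).q) := by
      rw [pow_succ]; field_simp
    rw [h6] at h5
    have h7 := h1.trans h5
    rw [le_div_iff₀ (by positivity)] at h7
    nlinarith
  · intro k
    have hNk := hu k
    have hNk1 := hu (k + 1)
    obtain ⟨-, hp1, hpq1, hr1, hr2, hr3, hE1, hE2, hE3, hE4, hE5, -, hE6, hQ1, hQ2, hQ3, hQ4, hQ5,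
      -, hρ, -, -⟩ := hNk
    obtain ⟨hgrow, -, hpq2, hr1', -, -, -, -, -, -, -, -, -, -, -, -, -, -, hnear, -⟩ := hNk1
    have hqpos : 0 < (u (k + 1)).q := by omega
    have hqR : (0 : ℝ) < (u (k + 1)).q := by exact_mod_cast hqpos
    have hqR' : (1 : ℝ) ≤ (u (k + 1 + 1)).q := by exact_mod_cast (by omega : 1 ≤ (u (k + 1 + 1)).q)
    have hrR : (1 : ℝ) ≤ (u (k + 1)).r := by exact_mod_cast hr1
    have hrR' : (1 : ℝ) ≤ (u (k + 1 + 1)).r := by exact_mod_cast hr1'
    refine ⟨hqpos, hpq1.le, hr1, hr2, hr3, hE1, hE2, hE3, hE4, hE5, ?_, hQ1, hQ2, hQ3, hQ4,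
      (u (k + 1)).hβ0, ?_, hpq k, ?_⟩
    · have h1 := abs_sub_le ζ (((u (k + 1)).p : ℝ) / (u (k + 1)).q) (u (k + 1)).η
      rw [abs_sub_comm (((u (k + 1)).p : ℝ) / (u (k + 1)).q)] at h1
      have h2 := hpq k
      have h3 : 1 / ((u (k + 1)).r * ((u (k + 1)).q : ℝ) ^ (n + 1)) ≤
          1 / ((u (k + 1)).q : ℝ) ^ (n + 1) := by
        apply one_div_le_one_div_of_le (by positivity)
        have : (0 : ℝ) < ((u (k + 1)).q : ℝ) ^ (n + 1) := by positivity
        nlinarith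
      have h4 : (2 : ℝ) / ((u (k + 1)).q : ℝ) ^ (n + 1) = 1 / ((u (k + 1)).q : ℝ) ^ (n + 1) +
        1 / ((u (k + 1)).q : ℝ) ^ (n + 1) := by ring
      simp only
      rw [h4]
      linarith
    · have h1 := abs_sub_le ζ (((u (k + 1 + 1)).p : ℝ) / (u (k + 1 + 1)).q) (u (k + 1)).β
      rw [abs_sub_comm (((u (k + 1 + 1)).p : ℝ) / (u (k + 1 + 1)).q)] at h1
      have h2 := hpq (k + 1)
      have h3 : 1 / ((u (k + 1 + 1)).r * ((u (k + 1 + 1)).q : ℝ) ^ (n + 1)) ≤
          1 / ((u (k + 1 + 1)).q : ℝ) ^ 2 := by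
        apply one_div_le_one_div_of_le (by positivity)
        have h5 : ((u (k + 1 + 1)).q : ℝ) ^ 2 ≤ ((u (k + 1 + 1)).q : ℝ) ^ (n + 1) :=
          pow_le_pow_right₀ hqR' (by omega)
        have : (0 : ℝ) < ((u (k + 1 + 1)).q : ℝ) ^ (n + 1) := by positivity
        nlinarith
      have h4 : (2 : ℝ) / ((u (k + 1 + 1)).q : ℝ) ^ 2 = 1 / ((u (k + 1 + 1)).q : ℝ) ^ 2 +
        1 / ((u (k + 1 + 1)).q : ℝ) ^ 2 := by ring
      simp only
      rw [h4]
      linarith
    · simp only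
      refine le_trans ?_ hgrow
      exact Nat.pow_le_pow_right (by omega) (by omega)


theorem aeval_ne_zero_of_transcendental {ζ : ℝ} (h : Transcendental ℤ ζ) {P : ℤ[X]}
    (hP : P ≠ 0) : aeval ζ P ≠ 0 := fun h0 => h ⟨P, hP, h0⟩

theorem neg_mem_ordSet {n : ℕ} {ζ : ℝ} (htr : Transcendental ℤ ζ) {P : ℤ[X]}
    (hP : Irreducible P) (hPn : P.natDegree = n) {w : ℝ} (hw : w < 0) : w ∈ OrdSet n ζ := by
  have h1 : Tendsto (fun X : ℝ => X ^ (-w)) atTop atTop := tendsto_rpow_atTop (by linarith)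
  have h2 := h1.eventually_ge_atTop |aeval ζ P|
  filter_upwards [h2, eventually_ge_atTop (height P : ℝ)] with X hX1 hX2
  exact ⟨P, hP, hPn, hX2, abs_pos.2 (aeval_ne_zero_of_transcendental htr hP.ne_zero), hX1⟩

/-- The Lipschitz bound on `[-2, 2]`. -/
theorem abs_aeval_sub_le' {P : ℤ[X]} {n : ℕ} (hP : P.natDegree ≤ n) {x y : ℝ}
    (hx : |x| ≤ 2) (hy : |y| ≤ 2) :
    |aeval x P - aeval y P| ≤ ((n + 1) * (n * 2 ^ n)) * height P * |x - y| := by
  rw [aeval_eq_sum hP, aeval_eq_sum hP, ← Finset.sum_sub_distrib]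
  calc |∑ i ∈ Finset.range (n + 1), ((P.coeff i : ℝ) * x ^ i - (P.coeff i : ℝ) * y ^ i)|
      ≤ ∑ i ∈ Finset.range (n + 1), |(P.coeff i : ℝ) * x ^ i - (P.coeff i : ℝ) * y ^ i| :=
        Finset.abs_sum_le_sum_abs _ _
    _ ≤ ∑ i ∈ Finset.range (n + 1), (height P : ℝ) * (|x - y| * n * 2 ^ n) := by
        apply Finset.sum_le_sum
        intro i hi
        rw [← mul_sub, abs_mul]
        apply mul_le_mul (abs_coeff_le_height P i) _ (abs_nonneg _) (Nat.cast_nonneg _)
        have hin : i ≤ n := Nat.lt_succ_iff.1 (Finset.mem_range.1 hi)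
        calc |x ^ i - y ^ i| ≤ |x - y| * i * max |x| |y| ^ (i - 1) := abs_pow_sub_pow_le x y i
          _ ≤ |x - y| * n * 2 ^ n := by
            apply mul_le_mul
            · apply mul_le_mul_of_nonneg_left _ (abs_nonneg _)
              exact_mod_cast hin
            · calc max |x| |y| ^ (i - 1) ≤ 2 ^ (i - 1) := by
                    apply pow_le_pow_left₀ (le_max_of_le_left (abs_nonneg _))
                    exact max_le hx hy
                _ ≤ 2 ^ n := pow_le_pow_right₀ (by norm_num) (by omega)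
            · apply pow_nonneg
              exact le_max_of_le_left (abs_nonneg _)
            · positivity
    _ = ((n + 1) * (n * 2 ^ n)) * height P * |x - y| := by
        rw [Finset.sum_const, Finset.card_range]
        simp only [nsmul_eq_mul]
        push_cast
        ring

/-- The star exponent is at most the ordinary one. -/
theorem mem_ordSet_of_mem_starSet {n : ℕ} {ζ : ℝ} (htr : Transcendental ℤ ζ)
    (hζ0 : 0 ≤ ζ) (hζ1 : ζ ≤ 1) {w w' : ℝ} (hw : 0 < w) (hw' : w' < w) (h : w ∈ StarSet n ζ) :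
    w' ∈ OrdSet n ζ := by
  have h1 : Tendsto (fun X : ℝ => X ^ (w - w')) atTop atTop := tendsto_rpow_atTop (by linarith)
  have h2 := h1.eventually_ge_atTop (((n : ℝ) + 1) * (n * 2 ^ n))
  have h' : ∀ᶠ X : ℝ in atTop, ∃ (α : ℝ) (P : ℤ[X]), α ≠ 0 ∧ Irreducible P ∧ P.natDegree = n ∧
    aeval α P = 0 ∧ (height P : ℝ) ≤ X ∧ 0 < |ζ - α| ∧
    |ζ - α| ≤ (height P : ℝ)⁻¹ * X ^ (-w) := h
  filter_upwards [h', h2, eventually_ge_atTop (1 : ℝ)] with X hX1 hX2 hX3
  obtain ⟨α, P, -, hP, hPn, hα, hH, -, hle⟩ := hX1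
  have hX0 : 0 < X := by linarith
  have hH1 : (1 : ℝ) ≤ height P := one_le_height hP.ne_zero
  have hH0 : (0 : ℝ) < height P := by linarith
  refine ⟨P, hP, hPn, hH, abs_pos.2 (aeval_ne_zero_of_transcendental htr hP.ne_zero), ?_⟩
  have hpow : X ^ (-w) ≤ 1 := Real.rpow_le_one_of_one_le_of_nonpos hX3 (by linarith)
  have hle1 : |ζ - α| ≤ 1 := by
    apply hle.trans
    have h3 : (height P : ℝ)⁻¹ ≤ 1 := inv_le_one_of_one_le₀ hH1
    have h4 : 0 ≤ X ^ (-w) := by positivity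
    have h5 : (0 : ℝ) ≤ (height P : ℝ)⁻¹ := by positivity
    nlinarith
  have hα2 : |α| ≤ 2 := by
    rw [abs_le] at hle1 ⊢
    constructor <;> linarith [hle1.1, hle1.2]
  have hζ2 : |ζ| ≤ 2 := by rw [abs_of_nonneg hζ0]; linarith
  have h3 := abs_aeval_sub_le' hPn.le hζ2 hα2
  rw [hα, sub_zero] at h3
  apply h3.trans
  calc ((n : ℝ) + 1) * (n * 2 ^ n) * height P * |ζ - α|
      ≤ ((n : ℝ) + 1) * (n * 2 ^ n) * height P * ((height P : ℝ)⁻¹ * X ^ (-w)) := by
        apply mul_le_mul_of_nonneg_left hle (by positivity)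
    _ = ((n : ℝ) + 1) * (n * 2 ^ n) * X ^ (-w) := by field_simp
    _ ≤ X ^ (w - w') * X ^ (-w) := by
        apply mul_le_mul_of_nonneg_right hX2 (by positivity)
    _ = X ^ (-w') := by
        rw [← Real.rpow_add hX0]; congr 1; ring

section final

variable {n : ℕ} {s : ℕ → ℝ} {ζ : ℝ} {p q r : ℕ → ℕ} {E Q : ℕ → ℤ[X]} {η β : ℕ → ℝ}

theorem two_pow_le_q (h : ∀ k, Good n s ζ p q r E Q η β k) (k : ℕ) : 2 ^ k ≤ q k := by
  cases k with
  | zero => exact (h 0).1
  | succ k =>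
    obtain ⟨-, -, -, -, -, -, -, -, -, -, -, -, -, -, -, -, -, -, h1⟩ := h k
    exact (Nat.pow_le_pow_left (by omega) _).trans h1

theorem tendsto_q (h : ∀ k, Good n s ζ p q r E Q η β k) :
    Tendsto (fun k => (q k : ℝ)) atTop atTop := by
  apply tendsto_atTop_mono (f := fun k : ℕ => ((2 : ℝ) ^ k))
  · intro k
    exact_mod_cast two_pow_le_q h k
  · exact tendsto_pow_atTop_atTop_of_one_lt (by norm_num)

/-- Upper bound for the ordinary exponent. -/
theorem le_of_mem_ordSet (hn : 2 ≤ n) (hζ0 : 0 ≤ ζ) (hζ1 : ζ ≤ 1)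
    (h : ∀ k, Good n s ζ p q r E Q η β k) {w : ℝ} (hw0 : 0 < w) {δ : ℝ} (hδ : 0 < δ)
    (hs : ∀ᶠ k in atTop, n + δ ≤ s k * w) : w ∉ OrdSet n ζ := by
  intro hw
  have hw' : ∀ᶠ X : ℝ in atTop, ∃ P : ℤ[X], Irreducible P ∧ P.natDegree = n ∧
    (height P : ℝ) ≤ X ∧ 0 < |aeval ζ P| ∧ |aeval ζ P| ≤ X ^ (-w) := hw
  set c : ℝ := 1 / (2 * ((n + 1) * n)) with hc
  have hnR : (2 : ℝ) ≤ n := by exact_mod_cast hn
  have hc0 : 0 < c := by positivity
  have hX : Tendsto (fun k => c * ((r k : ℝ) * q k)) atTop atTop := by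
    apply Tendsto.const_mul_atTop hc0
    apply tendsto_atTop_mono _ (tendsto_q h)
    intro k
    have hr : (1 : ℝ) ≤ r k := by exact_mod_cast (h k).2.2.1
    have hq : (0 : ℝ) < q k := by exact_mod_cast (h k).1
    nlinarith
  have h1 := hX.eventually hw'
  have h2 : Tendsto (fun k => (q k : ℝ) ^ δ) atTop atTop :=
    (tendsto_rpow_atTop hδ).comp (tendsto_q h)
  have h3 := h2.eventually_gt_atTop (2 * c ^ (-w))
  obtain ⟨k, ⟨P, hP, hPn, hPH, -, hPle⟩, hk2, hk3⟩ := (h1.and (h3.and hs)).exists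
  obtain ⟨hq0, hpq, hr1, hr2, -, -, -, -, -, -, -, -, -, -, -, -, -, hclose, -⟩ := h k
  have hqR : (0 : ℝ) < q k := by exact_mod_cast hq0
  have hq1 : (1 : ℝ) ≤ q k := by exact_mod_cast hq0
  have hrR : (1 : ℝ) ≤ r k := by exact_mod_cast hr1
  have hne : aeval ((p k : ℝ) / q k) P ≠ 0 := aeval_rat_ne_zero hP (by omega) _ _
  have h4 := one_le_pow_mul_abs hPn (p k) (q k) hq0 hne
  have h5 : |aeval ζ P - aeval ((p k : ℝ) / q k) P| ≤ 1 / (2 * (q k : ℝ) ^ n) := by
    have h6 := abs_aeval_sub_le (n := n) hPn.le hζ0 hζ1 (y := (p k : ℝ) / q k) (by positivity)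
      (by rw [div_le_one hqR]; exact_mod_cast hpq)
    apply h6.trans
    calc ((n : ℝ) + 1) * n * height P * |ζ - (p k : ℝ) / q k|
        ≤ ((n : ℝ) + 1) * n * (c * ((r k : ℝ) * q k)) * (1 / (r k * (q k : ℝ) ^ (n + 1))) := by
          apply mul_le_mul
          · apply mul_le_mul_of_nonneg_left hPH (by positivity)
          · exact hclose
          · exact abs_nonneg _
          · positivity
      _ = 1 / (2 * (q k : ℝ) ^ n) := by
          rw [hc, pow_succ]; field_simp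
  have h6 : 1 / (q k : ℝ) ^ n ≤ |aeval ((p k : ℝ) / q k) P| := by
    rw [div_le_iff₀ (by positivity)]
    linarith
  have h7 : 1 / (2 * (q k : ℝ) ^ n) ≤ |aeval ζ P| := by
    have h8 := abs_sub_abs_le_abs_sub (aeval ((p k : ℝ) / q k) P) (aeval ζ P)
    rw [abs_sub_comm] at h8
    have h9 : 1 / (q k : ℝ) ^ n = 1 / (2 * (q k : ℝ) ^ n) + 1 / (2 * (q k : ℝ) ^ n) := by
      field_simp; norm_num
    linarith
  have h8 : 1 / (2 * (q k : ℝ) ^ n) ≤ (c * ((r k : ℝ) * q k)) ^ (-w) := h7.trans hPle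
  have h9 : (c * ((r k : ℝ) * q k)) ^ (-w) ≤ c ^ (-w) * (q k : ℝ) ^ (-(n + δ)) := by
    have h10 : (q k : ℝ) ^ (s k) ≤ (r k : ℝ) * q k := by
      calc (q k : ℝ) ^ (s k) = (q k : ℝ) ^ (s k - 1) * q k := by
            rw [Real.rpow_sub_one hqR.ne']; field_simp
        _ ≤ (r k : ℝ) * q k := mul_le_mul_of_nonneg_right hr2 hqR.le
    have h11 : 0 < (q k : ℝ) ^ (s k) := by positivity
    rw [Real.mul_rpow hc0.le (by positivity)]
    apply mul_le_mul_of_nonneg_left _ (by positivity)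
    calc ((r k : ℝ) * q k) ^ (-w) ≤ ((q k : ℝ) ^ (s k)) ^ (-w) :=
          Real.rpow_le_rpow_of_nonpos h11 h10 (by linarith)
      _ = (q k : ℝ) ^ (-(s k * w)) := by
          rw [← Real.rpow_mul hqR.le]; congr 1; ring
      _ ≤ (q k : ℝ) ^ (-((n : ℝ) + δ)) := by
          apply Real.rpow_le_rpow_of_exponent_le hq1
          linarith
  have h10 := h8.trans h9
  have h11 : (q k : ℝ) ^ (-((n : ℝ) + δ)) = ((q k : ℝ) ^ n)⁻¹ * ((q k : ℝ) ^ δ)⁻¹ := by
    rw [Real.rpow_neg hqR.le, Real.rpow_add hqR, Real.rpow_natCast, mul_inv]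
  rw [h11] at h10
  have hqn : 0 < (q k : ℝ) ^ n := by positivity
  have hqd : 0 < (q k : ℝ) ^ δ := by positivity
  rw [div_le_iff₀ (by positivity)] at h10
  have h12 : c ^ (-w) * (((q k : ℝ) ^ n)⁻¹ * ((q k : ℝ) ^ δ)⁻¹) * (2 * (q k : ℝ) ^ n) =
      2 * c ^ (-w) / (q k : ℝ) ^ δ := by
    field_simp
  rw [h12, le_div_iff₀ hqd] at h10
  linarith

theorem monotone_q (h : ∀ k, Good n s ζ p q r E Q η β k) : Monotone q := by
  apply monotone_nat_of_le_succ
  intro k
  obtain ⟨h0, -, hr, -, -, -, -, -, -, -, -, -, -, -, -, -, -, -, h1⟩ := h k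
  have h2 : r k * q k + 2 ≤ (r k * q k + 2) ^ (k + 1) :=
    Nat.le_self_pow (by omega) _
  have h3 : q k ≤ r k * q k := Nat.le_mul_of_pos_left _ (by omega)
  omega

/-- Lower bound for the star exponent. -/
theorem mem_starSet (htr : Transcendental ℤ ζ)
    (h : ∀ k, Good n s ζ p q r E Q η β k) {w u : ℝ} (hu0 : 0 ≤ u) (hwu : w ≤ u) (hu2 : u < 2)
    {δ : ℝ} (hδ : 0 < δ) (hs : ∀ᶠ k in atTop, s k * u ≤ n - δ) : w ∈ StarSet n ζ := by
  set C : ℝ := 4 * n + 8 with hC
  have hC8 : (8 : ℝ) ≤ C := by rw [hC]; have : (0 : ℝ) ≤ n := Nat.cast_nonneg n; linarith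
  have hC0 : 0 < C := by linarith
  -- large indices
  have hb : ∀ᶠ k in atTop, 2 * C * (2 * C) ^ u ≤ (q k : ℝ) ^ δ :=
    ((tendsto_rpow_atTop hδ).comp (tendsto_q h)).eventually_ge_atTop _
  have hc2 : ∀ᶠ k in atTop, 2 * C * C ^ u ≤ (q k : ℝ) := (tendsto_q h).eventually_ge_atTop _
  have hc1 : ∀ᶠ k : ℕ in atTop, 2 ≤ ((k : ℝ) + 1) * (2 - u) := by
    obtain ⟨m, hm⟩ := exists_nat_gt (2 / (2 - u))
    filter_upwards [eventually_ge_atTop m] with k hk
    have h1 : (m : ℝ) ≤ k := by exact_mod_cast hk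
    have h2 : 0 < 2 - u := by linarith
    rw [div_lt_iff₀ h2] at hm
    nlinarith
  obtain ⟨K0, hK0⟩ := eventually_atTop.1 (hs.and (hb.and (hc2.and hc1)))
  have hgoal : ∀ᶠ X : ℝ in atTop, ∃ (α : ℝ) (P : ℤ[X]), α ≠ 0 ∧ Irreducible P ∧
    P.natDegree = n ∧ aeval α P = 0 ∧ (height P : ℝ) ≤ X ∧ 0 < |ζ - α| ∧
    |ζ - α| ≤ (height P : ℝ)⁻¹ * X ^ (-w) := by
    filter_upwards [eventually_ge_atTop (1 : ℝ), eventually_ge_atTop (C * q K0)] with X hX1 hXK
    have hX0 : 0 < X := by linarith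
    have hex : ∃ m, X < C * q m := by
      have h1 : Tendsto (fun k => C * (q k : ℝ)) atTop atTop :=
        Tendsto.const_mul_atTop hC0 (tendsto_q h)
      exact (h1.eventually_gt_atTop X).exists
    classical
    set m := Nat.find hex with hm
    have hm1 : X < C * q m := Nat.find_spec hex
    have hmK : K0 < m := by
      by_contra hcon
      push Not at hcon
      have h1 : (q m : ℝ) ≤ q K0 := by exact_mod_cast monotone_q h hcon
      have h2 : C * q m ≤ C * q K0 := mul_le_mul_of_nonneg_left h1 hC0.le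
      linarith
    obtain ⟨k, hk⟩ : ∃ k, m = k + 1 := ⟨m - 1, by omega⟩
    have hkK : K0 ≤ k := by omega
    have hXk : C * q k ≤ X := by
      have := Nat.find_min hex (m := k) (by omega)
      push Not at this
      exact this
    rw [hk] at hm1
    obtain ⟨hs1, hb1, hc21, hc11⟩ := hK0 k hkK
    obtain ⟨hq0, hpq, hr1, hr2, hr3, hE1, hE2, hE3, hE4, hη0, hηc, hQ1, hQ2, hQ3, hQ4, hβ0, hβc,
      -, hgrow⟩ := h k
    have hqR : (0 : ℝ) < q k := by exact_mod_cast hq0
    have hq1 : (1 : ℝ) ≤ q k := by exact_mod_cast hq0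
    have hrR : (1 : ℝ) ≤ r k := by exact_mod_cast hr1
    have hwX : X ^ (-u) ≤ X ^ (-w) := Real.rpow_le_rpow_of_exponent_le hX1 (by linarith)
    by_cases hcase : X < C * (r k * q k)
    · refine ⟨η k, E k, hη0.ne', hE1, hE2, hE4, hE3.trans hXk, ?_, ?_⟩
      · apply abs_pos.2
        intro h0
        have h1 : ζ = η k := by linarith
        exact aeval_ne_zero_of_transcendental htr hE1.ne_zero (h1 ▸ hE4)
      · have hH1 := one_le_height hE1.ne_zero
        have hinv : (C * q k)⁻¹ ≤ (height (E k) : ℝ)⁻¹ :=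
          inv_anti₀ (by linarith) hE3
        have hXu : (2 * C) ^ (-u) * (q k : ℝ) ^ (-((n : ℝ) - δ)) ≤ X ^ (-u) := by
          have h1 : X ≤ 2 * C * (q k : ℝ) ^ (s k) := by
            have h2 : (r k : ℝ) * q k ≤ 2 * (q k : ℝ) ^ (s k) := by
              calc (r k : ℝ) * q k ≤ 2 * (q k : ℝ) ^ (s k - 1) * q k :=
                    mul_le_mul_of_nonneg_right hr3 hqR.le
                _ = 2 * (q k : ℝ) ^ (s k) := by
                    rw [Real.rpow_sub_one hqR.ne']; field_simp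
            nlinarith
          calc (2 * C) ^ (-u) * (q k : ℝ) ^ (-((n : ℝ) - δ))
              ≤ (2 * C) ^ (-u) * (q k : ℝ) ^ (-(s k * u)) := by
                apply mul_le_mul_of_nonneg_left _ (by positivity)
                apply Real.rpow_le_rpow_of_exponent_le hq1
                linarith
            _ = (2 * C * (q k : ℝ) ^ (s k)) ^ (-u) := by
                rw [Real.mul_rpow (x := 2 * C) (y := (q k : ℝ) ^ (s k)) (by positivity)
                  (by positivity), ← Real.rpow_mul hqR.le]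
                congr 2; ring
            _ ≤ X ^ (-u) := Real.rpow_le_rpow_of_nonpos hX0 h1 (by linarith)
        calc |ζ - η k| ≤ 2 / (q k : ℝ) ^ (n + 1) := hηc
          _ ≤ (C * q k)⁻¹ * ((2 * C) ^ (-u) * (q k : ℝ) ^ (-((n : ℝ) - δ))) := by
            have h1 : (q k : ℝ) ^ (-((n : ℝ) - δ)) = (q k : ℝ) ^ δ * ((q k : ℝ) ^ n)⁻¹ := by
              rw [show -((n : ℝ) - δ) = δ + -(n : ℝ) by ring, Real.rpow_add hqR,
                Real.rpow_neg hqR.le, Real.rpow_natCast]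
            rw [h1, Real.rpow_neg (by positivity), pow_succ]
            have h2 : (0 : ℝ) < (2 * C) ^ u := by positivity
            rw [div_le_iff₀ (by positivity)]
            have h3 : (C * (q k : ℝ))⁻¹ * (((2 * C) ^ u)⁻¹ * ((q k : ℝ) ^ δ *
                ((q k : ℝ) ^ n)⁻¹)) * ((q k : ℝ) ^ n * q k) =
                (q k : ℝ) ^ δ / (C * (2 * C) ^ u) := by
              field_simp
            rw [h3, le_div_iff₀ (by positivity)]
            linarith
          _ ≤ (height (E k) : ℝ)⁻¹ * X ^ (-w) := by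
            apply mul_le_mul hinv (hXu.trans hwX) (by positivity) (by positivity)
    · push Not at hcase
      refine ⟨β k, Q k, hβ0.ne', hQ1, hQ2, hQ4, hQ3.trans hcase, ?_, ?_⟩
      · apply abs_pos.2
        intro h0
        have h1 : ζ = β k := by linarith
        exact aeval_ne_zero_of_transcendental htr hQ1.ne_zero (h1 ▸ hQ4)
      · have hH1 := one_le_height hQ1.ne_zero
        have hinv : (C * (r k * q k))⁻¹ ≤ (height (Q k) : ℝ)⁻¹ :=
          inv_anti₀ (by linarith) hQ3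
        set T : ℝ := (q (k + 1) : ℝ) with hT
        have hT1 : (1 : ℝ) ≤ T := by
          rw [hT]; exact_mod_cast (h (k + 1)).1
        have hT0 : 0 < T := by linarith
        have hgrowR : ((r k : ℝ) * q k + 2) ^ (k + 1) ≤ T := by
          rw [hT]; exact_mod_cast hgrow
        set R : ℝ := (r k : ℝ) * q k with hR
        have hRq : (q k : ℝ) ≤ R := by rw [hR]; nlinarith
        have hR0 : 0 < R := by linarith
        have hkey : 2 * C * C ^ u * R ≤ T ^ (2 - u) := by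
          have h1 : (R + 2) ^ (2 : ℝ) ≤ T ^ (2 - u) := by
            calc (R + 2) ^ (2 : ℝ) ≤ (R + 2) ^ (((k : ℝ) + 1) * (2 - u)) := by
                  apply Real.rpow_le_rpow_of_exponent_le (by linarith) hc11
              _ = ((R + 2) ^ (k + 1)) ^ (2 - u) := by
                  rw [Real.rpow_mul (by linarith)]
                  congr 1
                  rw [← Real.rpow_natCast]; push_cast; rfl
              _ ≤ T ^ (2 - u) := by
                  apply Real.rpow_le_rpow (by positivity) hgrowR (by linarith)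
          have h2 : (R + 2) ^ (2 : ℝ) = (R + 2) ^ (2 : ℕ) := by
            rw [← Real.rpow_natCast]; norm_num
          rw [h2] at h1
          have h3 : 2 * C * C ^ u * R ≤ R * R := by
            apply mul_le_mul_of_nonneg_right _ hR0.le
            linarith
          nlinarith
        calc |ζ - β k| ≤ 2 / T ^ 2 := hβc
          _ ≤ (C * R)⁻¹ * (C * T) ^ (-u) := by
            rw [Real.mul_rpow hC0.le hT0.le, Real.rpow_neg hC0.le, Real.rpow_neg hT0.le]
            rw [div_le_iff₀ (by positivity)]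
            have h1 : T ^ (2 - u) = T ^ 2 / T ^ u := by
              rw [Real.rpow_sub hT0]; norm_num
            have h2 : (C * R)⁻¹ * ((C ^ u)⁻¹ * (T ^ u)⁻¹) * T ^ 2 =
                T ^ (2 - u) / (C * R * C ^ u) := by
              rw [h1]; field_simp
            rw [h2, le_div_iff₀ (by positivity)]
            nlinarith
          _ ≤ (height (Q k) : ℝ)⁻¹ * X ^ (-w) := by
            apply mul_le_mul hinv _ (by positivity) (by positivity)
            apply le_trans _ hwX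
            exact Real.rpow_le_rpow_of_nonpos hX0 hm1.le (by linarith)
  exact hgoal

end final

theorem sSup_eq_of (S : Set ℝ) (τ : ℝ) (h1 : ∀ w, w < τ → w ∈ S) (h2 : ∀ w ∈ S, w ≤ τ) :
    sSup ((fun w : ℝ => (w : EReal)) '' S) = (τ : EReal) := by
  apply le_antisymm
  · apply sSup_le
    rintro _ ⟨w, hw, rfl⟩
    exact EReal.coe_le_coe_iff.2 (h2 w hw)
  · apply le_of_forall_lt
    intro c hc
    obtain ⟨w, hw1, hw2⟩ := EReal.lt_iff_exists_real_btwn.1 hc
    have hw3 : w < τ := by exact_mod_cast hw2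
    exact lt_of_lt_of_le hw1 (le_sSup ⟨w, h1 w hw3, rfl⟩)

/-- For every `n ≥ 2` and every `τ ∈ [0, 2]` some real transcendental `ζ` has both uniform
exact-degree exponents equal to `τ`. -/
theorem result (n : ℕ) (hn : 2 ≤ n) (τ : ℝ) (h0 : 0 ≤ τ) (h2 : τ ≤ 2) :
    ∃ ζ : ℝ, Transcendental ℤ ζ ∧ uniformExp n ζ = (τ : EReal) ∧
      uniformExpStar n ζ = (τ : EReal) := by
  have hnR : (2 : ℝ) ≤ n := by exact_mod_cast hn
  -- the exponent sequence
  obtain ⟨s, hs1, hsU, hsL⟩ : ∃ s : ℕ → ℝ, (∀ k, 1 ≤ s k) ∧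
      (∀ w, τ < w → ∃ δ > 0, ∀ᶠ k in atTop, n + δ ≤ s k * w) ∧
      (∀ w, w < τ → ∃ δ > 0, ∀ᶠ k in atTop, s k * max w 0 ≤ n - δ) := by
    rcases h0.eq_or_lt with h | h
    · subst h
      refine ⟨fun k => k + 1, ?_, ?_, ?_⟩
      · intro k
        have : (0 : ℝ) ≤ k := Nat.cast_nonneg k
        linarith
      · intro w hw
        refine ⟨1, one_pos, ?_⟩
        obtain ⟨m, hm⟩ := exists_nat_gt ((n + 1 : ℝ) / w)
        filter_upwards [eventually_ge_atTop m] with k hk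
        rw [div_lt_iff₀ hw] at hm
        have h1 : (m : ℝ) ≤ k := by exact_mod_cast hk
        nlinarith
      · intro w hw
        refine ⟨1, one_pos, Eventually.of_forall ?_⟩
        intro k
        rw [max_eq_right hw.le, mul_zero]
        linarith
    · refine ⟨fun _ => n / τ, ?_, ?_, ?_⟩
      · intro _
        rw [le_div_iff₀ h]; linarith
      · intro w hw
        refine ⟨n / τ * w - n, ?_, Eventually.of_forall fun k => by linarith⟩
        have h3 : n / τ * w - n = n * (w - τ) / τ := by field_simp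
        rw [h3]
        apply div_pos (mul_pos (by linarith) (by linarith)) h
      · intro w hw
        refine ⟨n - n / τ * max w 0, ?_, Eventually.of_forall fun k => by linarith⟩
        have h3 : n - n / τ * max w 0 = n * (τ - max w 0) / τ := by field_simp
        rw [h3]
        apply div_pos (mul_pos (by linarith) _) h
        have : max w 0 < τ := max_lt hw h
        linarith
  obtain ⟨ζ, p, q, r, E, Q, η, β, htr, hζ0, hζ1, hgood⟩ := exists_zeta n hn s hs1
  have hupper : ∀ w, τ < w → w ∉ OrdSet n ζ := by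
    intro w hw
    obtain ⟨δ, hδ, hev⟩ := hsU w hw
    exact le_of_mem_ordSet hn hζ0 hζ1 hgood (by linarith) hδ hev
  have hlower : ∀ w, w < τ → w ∈ StarSet n ζ := by
    intro w hw
    obtain ⟨δ, hδ, hev⟩ := hsL w hw
    refine mem_starSet htr hgood (le_max_right w 0) (le_max_left w 0) ?_ hδ hev
    exact max_lt (by linarith) (by norm_num)
  refine ⟨ζ, htr, ?_, ?_⟩
  · apply sSup_eq_of
    · intro w hw
      rcases lt_or_ge w 0 with hneg | hpos
      · obtain ⟨-, -, -, -, -, hE1, hE2, -⟩ := hgood 0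
        exact neg_mem_ordSet htr hE1 hE2 hneg
      · exact mem_ordSet_of_mem_starSet htr hζ0 hζ1 (w := (w + τ) / 2) (by linarith)
          (by linarith) (hlower _ (by linarith))
    · intro w hw
      by_contra hcon
      push Not at hcon
      exact hupper w hcon hw
  · apply sSup_eq_of
    · exact hlower
    · intro w hw
      by_contra hcon
      push Not at hcon
      have h3 : (w + τ) / 2 ∈ OrdSet n ζ :=
        mem_ordSet_of_mem_starSet htr hζ0 hζ1 (w := w) (by linarith) (by linarith) hw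
      exact hupper _ (by linarith) h3

end Pool.Agent.Lib.H70X.U
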