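import Pool.Agent.Lib.H70X.T3
import Pool.Agent.Lib.H70X.T4
import Pool.Agent.Lib.H70X.U

/-! # Chunk T5: the lower bound for the star exponent (medium)

Proof. Let `C` be the constant of `star_poly n`, `D` that of `exists_close_root n C`. Let `X` be large, `Z = X / C`,
`U = Z^τ ≥ 1`. `Free n ζ U Z` holds for large `X`; let `F` be given by `star_poly` and `α` the root given by
`exists_close_root` (`U Z ≥ D` for large `X`). Let `P = F.primPart`: by `U.primPart_props` it is irreducible of degree `n`,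
`|coeff P| ≤ |coeff F| ≤ C Z = X` (so `height P ≤ X`, `U.height_le`) and `P(α) = 0` (`F = m P`, `m ≥ 1`). `α ≠ 0` and
`0 < |ζ - α|`: `|ζ - α| ≤ D / (U Z) < ζ` for large `X`, and `ζ ≠ α` because `ζ` is transcendental. Finally
`D / (U Z) = D C^(τ+1) X^(-τ-1) ≤ X^(-1) X^(-w) ≤ (height P)⁻¹ X^(-w)` for large `X`, as `w < τ` and `1 ≤ height P ≤ X`. -/

open Polynomial MeasureTheory Set Filter

namespace Pool.Agent.Lib.H70X

theorem mem_starSet (n : ℕ) (hn : 1 ≤ n) (ζ τ : ℝ) (h0 : 0 < ζ) (h1 : ζ < 1) (hτ : 0 < τ)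
    (htr : Transcendental ℤ ζ) (hF : ∀ᶠ Z : ℝ in atTop, Free n ζ (Z ^ τ) Z) (w : ℝ)
    (hw : w < τ) : w ∈ U.StarSet n ζ := by
  obtain ⟨C, hC1, hC⟩ := star_poly n hn
  obtain ⟨D, hD1, hD⟩ := exists_close_root n C hC1
  have hC0 : 0 < C := by linarith
  have hD0 : 0 < D := by linarith
  have hZt : Tendsto (fun X : ℝ => X / C) atTop atTop := tendsto_id.atTop_div_const hC0
  have hev1 : ∀ᶠ X : ℝ in atTop, Free n ζ ((X / C) ^ τ) (X / C) := hZt.eventually hF
  have hev2 : ∀ᶠ X : ℝ in atTop, D / ζ < X / C := hZt.eventually (eventually_gt_atTop _)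
  have hev3 : ∀ᶠ X : ℝ in atTop, D * C ^ (τ + 1) ≤ X ^ (τ - w) :=
    (tendsto_rpow_atTop (by linarith)).eventually (eventually_ge_atTop _)
  have hmain : ∀ᶠ X : ℝ in atTop, ∃ (α : ℝ) (P : ℤ[X]), α ≠ 0 ∧ Irreducible P ∧ P.natDegree = n ∧
      aeval α P = 0 ∧ (U.height P : ℝ) ≤ X ∧ 0 < |ζ - α| ∧
      |ζ - α| ≤ (U.height P : ℝ)⁻¹ * X ^ (-w) := by
    filter_upwards [hev1, hev2, hev3, eventually_gt_atTop (0 : ℝ)] with X h2 h3 h4 hX0
    have hDζ : D ≤ D / ζ := by
      rw [le_div_iff₀ h0]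
      nlinarith
    have hZD : D < X / C := lt_of_le_of_lt hDζ h3
    have hZ1 : 1 ≤ X / C := by linarith
    have hZ0 : 0 < X / C := by linarith
    have hU1 : 1 ≤ (X / C) ^ τ := Real.one_le_rpow hZ1 hτ.le
    obtain ⟨F, hFdeg, hFn, hF0, hFi, hFc, hFx, hFd⟩ :=
      hC ζ ((X / C) ^ τ) (X / C) h0.le h1.le hU1 hZ1 h2
    have hUZ : D ≤ (X / C) ^ τ * (X / C) := by nlinarith
    obtain ⟨α, hα, hζα⟩ := hD F ζ ((X / C) ^ τ) (X / C) hFdeg h0.le h1.le hU1 hZ1 hUZ hFc hFx hFd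
    obtain ⟨hirr, hdeg, hcoef, m, hm1, -, hmev⟩ := U.primPart_props n hn F hFdeg hFn hF0 hFi
    have hPα : aeval α F.primPart = 0 := by
      have h5 := hmev α
      rw [hα] at h5
      have h6 : m ≠ 0 := by positivity
      rcases mul_eq_zero.1 h5.symm with h7 | h7
      · exact absurd h7 h6
      · exact h7
    have hheight : (U.height F.primPart : ℝ) ≤ X := by
      refine U.height_le hX0.le fun i => ((hcoef i).trans (hFc i)).trans ?_
      rw [mul_div_cancel₀ _ hC0.ne']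
    have hheight1 : (1 : ℝ) ≤ U.height F.primPart := U.one_le_height hirr.ne_zero
    have hbound : D / ((X / C) ^ τ * (X / C)) < ζ := by
      rw [div_lt_iff₀ (by positivity)]
      rw [div_lt_iff₀ h0] at h3
      nlinarith
    have hα0 : α ≠ 0 := by
      rintro rfl
      rw [sub_zero, abs_of_pos h0] at hζα
      linarith
    have hne : ζ - α ≠ 0 := by
      intro h5
      have h6 : ζ = α := by linarith
      apply htr
      exact ⟨F.primPart, hirr.ne_zero, by rw [h6]; exact hPα⟩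
    refine ⟨α, F.primPart, hα0, hirr, hdeg, hPα, hheight, abs_pos.2 hne, hζα.trans ?_⟩
    have h5 : (X / C) ^ τ * (X / C) = X ^ (τ + 1) / C ^ (τ + 1) := by
      rw [← Real.div_rpow hX0.le hC0.le, Real.rpow_add_one hZ0.ne']
    have hXp : 0 < X ^ (τ + 1) := Real.rpow_pos_of_pos hX0 _
    have hCp : 0 < C ^ (τ + 1) := Real.rpow_pos_of_pos hC0 _
    have h6 : D / ((X / C) ^ τ * (X / C)) ≤ X⁻¹ * X ^ (-w) := by
      rw [h5]
      calc D / (X ^ (τ + 1) / C ^ (τ + 1)) = D * C ^ (τ + 1) / X ^ (τ + 1) := by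
            field_simp
        _ ≤ X ^ (τ - w) / X ^ (τ + 1) := div_le_div_of_nonneg_right h4 hXp.le
        _ = X⁻¹ * X ^ (-w) := by
            rw [← Real.rpow_sub hX0, ← Real.rpow_neg_one, ← Real.rpow_add hX0]
            congr 1
            ring
    refine h6.trans ?_
    have hXw : 0 < X ^ (-w) := Real.rpow_pos_of_pos hX0 _
    refine mul_le_mul_of_nonneg_right ?_ hXw.le
    exact inv_anti₀ (by linarith) hheight
  exact hmain

end Pool.Agent.Lib.H70X
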