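import Pool.Agent.Lib.H70X.U

/-! # Chunk T6: the upper bound for the exponent (medium)

Proof (compare `U.le_of_mem_ordSet`, almost the same). Suppose `n/w0 < w`, i.e. `n < w0 w` (`w0 ≥ 1` plays the role of `W`).
Let `c = 1/(6 n (n+1))`. For `p/q` with `q` large put `X = c q^w0` (real power): large. There is `P` irreducible of
degree `n`, `height P ≤ X`, `|P(ζ)| ≤ X^(-w)`. `P(p/q) ≠ 0` (`U.aeval_rat_ne_zero`), so `|P(p/q)| ≥ q^(-n)` (`U.one_le_pow_mul_abs`).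
`|P(ζ) - P(p/q)| ≤ (n+1) n X |ζ - p/q| ≤ (n+1) n c q^w0 3 q^(-w0-n) = q^(-n)/2` (`U.abs_aeval_sub_le`). So
`q^(-n)/2 ≤ |P(ζ)| ≤ (c q^w0)^(-w)`, i.e. `q^(w0 w - n) ≤ 2 c^(-w)`: false for large `q`. -/

open Polynomial MeasureTheory Set Filter

namespace Pool.Agent.Lib.H70X

theorem le_of_mem_ordSet (n : ℕ) (hn : 2 ≤ n) (ζ w0 : ℝ) (h0 : 0 < ζ) (h1 : ζ < 1)
    (hw0 : 1 ≤ w0)
    (happ : ∀ Q : ℕ, ∃ p q : ℕ, Q ≤ q ∧ 0 < q ∧ p ≤ q ∧
      |ζ - (p : ℝ) / q| ≤ 3 * (q : ℝ) ^ (-(w0 + n)))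
    (w : ℝ) (hw : w ∈ U.OrdSet n ζ) : w ≤ n / w0 := by
  by_contra hcon
  push Not at hcon
  have hw0' : 0 < w0 := by linarith
  have hcon' : (n : ℝ) < w0 * w := by
    rw [div_lt_iff₀ hw0'] at hcon
    linarith
  have hw' : ∀ᶠ X : ℝ in atTop, ∃ P : ℤ[X], Irreducible P ∧ P.natDegree = n ∧
    (U.height P : ℝ) ≤ X ∧ 0 < |aeval ζ P| ∧ |aeval ζ P| ≤ X ^ (-w) := hw
  set δ : ℝ := w0 * w - n with hδdef
  have hδ : 0 < δ := by linarith
  set c : ℝ := 1 / (6 * ((n + 1) * n)) with hc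
  have hnR : (2 : ℝ) ≤ n := by exact_mod_cast hn
  have hc0 : 0 < c := by positivity
  have hcast : Tendsto (fun q : ℕ => (q : ℝ)) atTop atTop := tendsto_natCast_atTop_atTop
  have hX : Tendsto (fun q : ℕ => c * (q : ℝ) ^ w0) atTop atTop :=
    Tendsto.const_mul_atTop hc0 ((tendsto_rpow_atTop hw0').comp hcast)
  have e1 := hX.eventually hw'
  have h2 : Tendsto (fun q : ℕ => (q : ℝ) ^ δ) atTop atTop :=
    (tendsto_rpow_atTop hδ).comp hcast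
  have e2 := h2.eventually_gt_atTop (2 * c ^ (-w))
  obtain ⟨Q, hQ⟩ := (e1.and e2).exists_forall_of_atTop
  obtain ⟨p, q, hQq, hq0, hpq, hclose⟩ := happ Q
  obtain ⟨⟨P, hP, hPn, hPH, -, hPle⟩, hk2⟩ := hQ q hQq
  have hqR : (0 : ℝ) < q := by exact_mod_cast hq0
  have hne : aeval ((p : ℝ) / q) P ≠ 0 := U.aeval_rat_ne_zero hP (by omega) _ _
  have h4 := U.one_le_pow_mul_abs hPn p q hq0 hne
  have hqq : (q : ℝ) ^ w0 * (q : ℝ) ^ (-(w0 + n)) = 1 / (q : ℝ) ^ n := by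
    rw [← Real.rpow_add hqR]
    have : w0 + -(w0 + (n : ℝ)) = -(n : ℝ) := by ring
    rw [this, Real.rpow_neg hqR.le, Real.rpow_natCast, one_div]
  have h5 : |aeval ζ P - aeval ((p : ℝ) / q) P| ≤ 1 / (2 * (q : ℝ) ^ n) := by
    have h6 := U.abs_aeval_sub_le (n := n) hPn.le h0.le h1.le (y := (p : ℝ) / q) (by positivity)
      (by rw [div_le_one hqR]; exact_mod_cast hpq)
    apply h6.trans
    calc ((n : ℝ) + 1) * n * U.height P * |ζ - (p : ℝ) / q|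
        ≤ ((n : ℝ) + 1) * n * (c * (q : ℝ) ^ w0) * (3 * (q : ℝ) ^ (-(w0 + n))) := by
          apply mul_le_mul
          · apply mul_le_mul_of_nonneg_left hPH (by positivity)
          · exact hclose
          · exact abs_nonneg _
          · positivity
      _ = ((n : ℝ) + 1) * n * c * 3 * ((q : ℝ) ^ w0 * (q : ℝ) ^ (-(w0 + n))) := by ring
      _ = 1 / (2 * (q : ℝ) ^ n) := by
          rw [hqq, hc]
          field_simp
          norm_num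
  have h6 : 1 / (q : ℝ) ^ n ≤ |aeval ((p : ℝ) / q) P| := by
    rw [div_le_iff₀ (by positivity)]
    linarith
  have h7 : 1 / (2 * (q : ℝ) ^ n) ≤ |aeval ζ P| := by
    have h8 := abs_sub_abs_le_abs_sub (aeval ((p : ℝ) / q) P) (aeval ζ P)
    rw [abs_sub_comm] at h8
    have h9 : 1 / (q : ℝ) ^ n = 1 / (2 * (q : ℝ) ^ n) + 1 / (2 * (q : ℝ) ^ n) := by
      field_simp; norm_num
    linarith
  have h8 : 1 / (2 * (q : ℝ) ^ n) ≤ (c * (q : ℝ) ^ w0) ^ (-w) := h7.trans hPle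
  have h9 : (c * (q : ℝ) ^ w0) ^ (-w) = c ^ (-w) * (((q : ℝ) ^ n)⁻¹ * ((q : ℝ) ^ δ)⁻¹) := by
    rw [Real.mul_rpow hc0.le (by positivity), ← Real.rpow_mul hqR.le]
    have : w0 * -w = -((n : ℝ) + δ) := by rw [hδdef]; ring
    rw [this, Real.rpow_neg hqR.le, Real.rpow_add hqR, Real.rpow_natCast, mul_inv]
  rw [h9] at h8
  have hqn : 0 < (q : ℝ) ^ n := by positivity
  have hqd : 0 < (q : ℝ) ^ δ := by positivity
  rw [div_le_iff₀ (by positivity)] at h8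
  have h12 : c ^ (-w) * (((q : ℝ) ^ n)⁻¹ * ((q : ℝ) ^ δ)⁻¹) * (2 * (q : ℝ) ^ n) =
      2 * c ^ (-w) / (q : ℝ) ^ δ := by
    field_simp
  rw [h12, le_div_iff₀ hqd] at h8
  linarith

end Pool.Agent.Lib.H70X
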