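import Pool.Agent.Lib.H70X.S5
import Pool.Agent.Lib.H70X.T5
import Pool.Agent.Lib.H70X.T6

/-! # The final assembly (proved from the chunks) -/

open Polynomial MeasureTheory Set Filter

namespace Pool.Agent.Lib.H70X

/-- For every `n ≥ 2` and every `τ ∈ [0, n]` some real transcendental `ζ` has both uniform
exact-degree exponents equal to `τ`. -/
theorem main (n : ℕ) (hn : 2 ≤ n) (τ : ℝ) (h0 : 0 ≤ τ) (h2 : τ ≤ n) :
    ∃ ζ : ℝ, Transcendental ℤ ζ ∧ U.uniformExp n ζ = (τ : EReal) ∧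
      U.uniformExpStar n ζ = (τ : EReal) := by
  rcases h0.eq_or_lt with h | hτ
  · exact U.result n hn τ h0 (by rw [← h]; norm_num)
  have hw0 : 1 ≤ (n : ℝ) / τ := by rw [le_div_iff₀ hτ]; linarith
  have hnR : (2 : ℝ) ≤ n := by exact_mod_cast hn
  have hdiv : (n : ℝ) / (n / τ) = τ := by
    field_simp
  obtain ⟨ζ, hζ0, hζ1, htr, hfree, happ⟩ := exists_zeta n (by omega) (n / τ) hw0
  rw [hdiv] at hfree
  have hupper : ∀ w, w ∈ U.OrdSet n ζ → w ≤ τ := by
    intro w hw
    have := le_of_mem_ordSet n hn ζ (n / τ) hζ0 hζ1 hw0 happ w hw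
    rwa [hdiv] at this
  have hlower : ∀ w, w < τ → w ∈ U.StarSet n ζ := by
    intro w hw
    have h3 : w < max ((w + τ) / 2) (τ / 2) := lt_of_lt_of_le (by linarith) (le_max_left _ _)
    have h4 : max ((w + τ) / 2) (τ / 2) < τ := max_lt (by linarith) (by linarith)
    have h5 : 0 < max ((w + τ) / 2) (τ / 2) := lt_of_lt_of_le (by linarith) (le_max_right _ _)
    refine mem_starSet n (by omega) ζ (max ((w + τ) / 2) (τ / 2)) hζ0 hζ1 h5 htr ?_ w h3
    have h6 := hfree (τ - max ((w + τ) / 2) (τ / 2)) (by linarith)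
    rwa [sub_sub_cancel] at h6
  refine ⟨ζ, htr, ?_, ?_⟩
  · apply U.sSup_eq_of
    · intro w hw
      rcases lt_or_ge w 0 with hneg | hpos
      · have h3 : ∀ᶠ X : ℝ in atTop, ∃ (α : ℝ) (P : ℤ[X]), α ≠ 0 ∧ Irreducible P ∧
            P.natDegree = n ∧ aeval α P = 0 ∧ (U.height P : ℝ) ≤ X ∧ 0 < |ζ - α| ∧
            |ζ - α| ≤ (U.height P : ℝ)⁻¹ * X ^ (-w) := hlower w hw
        obtain ⟨X, α, P, -, hP, hPn, -⟩ := h3.exists
        exact U.neg_mem_ordSet htr hP hPn hneg
      · exact U.mem_ordSet_of_mem_starSet htr hζ0.le hζ1.le (w := (w + τ) / 2) (by linarith)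
          (by linarith) (hlower _ (by linarith))
    · exact hupper
  · apply U.sSup_eq_of
    · exact hlower
    · intro w hw
      by_contra hcon
      push Not at hcon
      have h3 : (w + τ) / 2 ∈ U.OrdSet n ζ :=
        U.mem_ordSet_of_mem_starSet htr hζ0.le hζ1.le (w := w) (by linarith) (by linarith) hw
      have := hupper _ h3
      linarith

end Pool.Agent.Lib.H70X
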