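import Pool.Agent.Lib.H70X.Defs

/-! # Chunk B0: elementary facts on the coordinates `cd` (medium, binomial sums)

`cd x u m = u((T-x)^m)` for `m ≤ n`, where `u(T^l) = u_l`.

Proofs. `cd_zero`: only `l = 0` contributes. `cd_add`: `(T - x - t)^m = ∑_l choose m l (-t)^(m-l) (T-x)^l`; concretely, exchange
sums and use `choose m l * choose l i = choose m i * choose (m-i) (l-i)` and the binomial theorem (or define
the linear functional `P ↦ ∑ P.coeff l * u l` on real polynomials, show that `cd x u m` is its value at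
`(X - C x)^m` by `Polynomial.coeff_X_sub_C_pow`, and everything becomes polynomial identities; recommended). `cd_inv` is `cd_add` at `x + (-x) = 0`,
as `cd 0 u l = u l`. `cd_inj`: `cd_inv`. `cd_sum`: linearity. `cd_sub`: put `u_l = u_0 (r+y)^l + e_l`
(`e_0 = 0`): the functional `P ↦ u_0 P(r+y)` takes the value `u_0 y^m` at `(T-r)^m`. `cd_sub_le`: `|r| ≤ 1`, sum of
binomial coefficients `≤ 2^n`. `err_le`: the converse: `u_m = ∑_l choose m l r^(m-l) cd r u l` and `cd r u 0 = u_0`, so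
`u_m - u_0 r^m = ∑_{l ≥ 1} choose m l r^(m-l) cd r u l`. `goodRat_mono`, `free_mono`: immediate. -/

open Polynomial MeasureTheory Set Filter

namespace Pool.Agent.Lib.H70X

/-- The functional `P ↦ ∑ P.coeff l * u l` on real polynomials. -/
noncomputable def B0_L {n : ℕ} (u : Fin (n + 1) → ℝ) : ℝ[X] →ₗ[ℝ] ℝ :=
  ∑ l : Fin (n + 1), u l • Polynomial.lcoeff ℝ (l : ℕ)

theorem B0_L_apply {n : ℕ} (u : Fin (n + 1) → ℝ) (P : ℝ[X]) :
    B0_L u P = ∑ l : Fin (n + 1), P.coeff (l : ℕ) * u l := by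
  unfold B0_L
  simp [LinearMap.sum_apply, mul_comm]

theorem B0_cd {n : ℕ} (x : ℝ) (u : Fin (n + 1) → ℤ) (m : ℕ) :
    cd x u m = B0_L (fun l => (u l : ℝ)) ((X - C x) ^ m) := by
  rw [B0_L_apply]
  unfold cd
  refine Finset.sum_congr rfl fun l _ => ?_
  have h1 : (X - C x : ℝ[X]) = X + C (-x) := by
    rw [C_neg]
    ring
  rw [h1, Polynomial.coeff_X_add_C_pow]
  ring

theorem B0_exp (x t : ℝ) (m n : ℕ) (hm : m ≤ n) :
    (X - C (x + t)) ^ m = ∑ l : Fin (n + 1),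
      ((m.choose (l : ℕ) : ℝ) * (-t) ^ (m - (l : ℕ))) • (X - C x : ℝ[X]) ^ (l : ℕ) := by
  have h1 : (X - C (x + t) : ℝ[X]) = (X - C x) + C (-t) := by
    rw [C_add, C_neg]
    ring
  rw [h1, add_pow]
  have h2 : ∀ l : ℕ, (X - C x : ℝ[X]) ^ l * C (-t) ^ (m - l) * (m.choose l : ℝ[X]) =
      ((m.choose l : ℝ) * (-t) ^ (m - l)) • (X - C x : ℝ[X]) ^ l := by
    intro l
    rw [Polynomial.smul_eq_C_mul, C_mul, C_pow]
    have : (C (m.choose l : ℝ) : ℝ[X]) = (m.choose l : ℝ[X]) := by simp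
    rw [this]
    ring
  rw [Finset.sum_congr rfl fun l _ => h2 l,
    Fin.sum_univ_eq_sum_range (fun l => ((m.choose l : ℝ) * (-t) ^ (m - l)) • (X - C x : ℝ[X]) ^ l)
      (n + 1)]
  refine Finset.sum_subset (Finset.range_subset_range.2 (by omega)) fun l _ hl => ?_
  rw [Nat.choose_eq_zero_of_lt (by
    rw [Finset.mem_range] at hl
    omega)]
  simp

theorem B0_gen {n : ℕ} (x t : ℝ) (u : Fin (n + 1) → ℤ) (m : ℕ) (hm : m ≤ n) :
    cd (x + t) u m = ∑ l : Fin (n + 1), (m.choose (l : ℕ) : ℝ) * (-t) ^ (m - (l : ℕ)) * cd x u l := by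
  rw [B0_cd, B0_exp x t m n hm, map_sum]
  refine Finset.sum_congr rfl fun l _ => ?_
  rw [map_smul, smul_eq_mul, B0_cd]

theorem B0_zero {n : ℕ} (u : Fin (n + 1) → ℤ) (m : Fin (n + 1)) : cd 0 u m = u m := by
  rw [B0_cd, B0_L_apply, C_0, sub_zero, Finset.sum_eq_single m]
  · rw [coeff_X_pow, if_pos rfl, one_mul]
  · intro l _ hl
    rw [coeff_X_pow, if_neg (fun h => hl (Fin.ext h)), zero_mul]
  · intro h
    exact absurd (Finset.mem_univ _) h

theorem cd_zero {n : ℕ} (x : ℝ) (u : Fin (n + 1) → ℤ) : cd x u 0 = u 0 := by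
  rw [B0_cd, pow_zero, B0_L_apply, Finset.sum_eq_single 0]
  · rw [coeff_one]
    simp
  · intro l _ hl
    rw [coeff_one, if_neg (fun h : (l : ℕ) = 0 => hl (Fin.ext h)), zero_mul]
  · intro h
    exact absurd (Finset.mem_univ _) h

theorem cd_add {n : ℕ} (x t : ℝ) (u : Fin (n + 1) → ℤ) (m : ℕ) (hm : m ≤ n) :
    cd (x + t) u m = ∑ l : Fin (n + 1), (m.choose (l : ℕ) : ℝ) * (-t) ^ (m - (l : ℕ)) * cd x u l :=
  B0_gen x t u m hm

theorem cd_inv {n : ℕ} (x : ℝ) (u : Fin (n + 1) → ℤ) (m : Fin (n + 1)) :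
    (u m : ℝ) = ∑ l : Fin (n + 1), ((m : ℕ).choose (l : ℕ) : ℝ) * x ^ ((m : ℕ) - (l : ℕ)) * cd x u l := by
  have h1 := cd_add x (-x) u (m : ℕ) (Nat.le_of_lt_succ m.2)
  rw [add_neg_cancel, B0_zero, neg_neg] at h1
  exact h1

theorem cd_inj {n : ℕ} (x : ℝ) (u : Fin (n + 1) → ℤ) (h : ∀ m : Fin (n + 1), cd x u m = 0) :
    u = 0 := by
  funext m
  have h1 := cd_inv x u m
  rw [Finset.sum_eq_zero fun l _ => by rw [h l, mul_zero]] at h1
  exact_mod_cast h1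

theorem cd_sum {n i : ℕ} (x : ℝ) (z : Fin i → ℤ) (v : Fin i → Fin (n + 1) → ℤ) (m : ℕ) :
    cd x (∑ s, z s • v s) m = ∑ s, (z s : ℝ) * cd x (v s) m := by
  unfold cd
  simp only [Finset.mul_sum]
  rw [Finset.sum_comm]
  refine Finset.sum_congr rfl fun l _ => ?_
  rw [Finset.sum_apply]
  push_cast
  rw [Finset.mul_sum]
  refine Finset.sum_congr rfl fun s _ => ?_
  rw [Pi.smul_apply, smul_eq_mul]
  push_cast
  ring

theorem cd_sub {n : ℕ} (r y : ℝ) (u : Fin (n + 1) → ℤ) (m : ℕ) (hm : m ≤ n) :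
    cd r u m - u 0 * y ^ m = ∑ l : Fin (n + 1), (m.choose (l : ℕ) : ℝ) * (-r) ^ (m - (l : ℕ)) *
      ((u l : ℝ) - u 0 * (r + y) ^ (l : ℕ)) := by
  have h1 : (y : ℝ) ^ m = ∑ l : Fin (n + 1), (m.choose (l : ℕ) : ℝ) * (-r) ^ (m - (l : ℕ)) *
      (r + y) ^ (l : ℕ) := by
    have h2 : y = (r + y) + (-r) := by ring
    conv_lhs => rw [h2, add_pow]
    rw [Fin.sum_univ_eq_sum_range (fun l => (m.choose l : ℝ) * (-r) ^ (m - l) * (r + y) ^ l) (n + 1)]
    have h3 : ∀ l : ℕ, (r + y) ^ l * (-r) ^ (m - l) * (m.choose l : ℝ) =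
        (m.choose l : ℝ) * (-r) ^ (m - l) * (r + y) ^ l := by
      intro l
      ring
    rw [Finset.sum_congr rfl fun l _ => h3 l]
    refine Finset.sum_subset (Finset.range_subset_range.2 (by omega)) fun l _ hl => ?_
    rw [Nat.choose_eq_zero_of_lt (by
      rw [Finset.mem_range] at hl
      omega)]
    simp
  rw [h1]
  unfold cd
  rw [Finset.mul_sum, ← Finset.sum_sub_distrib]
  refine Finset.sum_congr rfl fun l _ => ?_
  ring

theorem B0_choose (m n : ℕ) (hm : m ≤ n) :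
    ∑ l : Fin (n + 1), (m.choose (l : ℕ) : ℝ) ≤ 2 ^ n := by
  rw [Fin.sum_univ_eq_sum_range (fun l => (m.choose l : ℝ)) (n + 1)]
  have h1 : ∑ l ∈ Finset.range (n + 1), (m.choose l : ℝ) = ∑ l ∈ Finset.range (m + 1), (m.choose l : ℝ) := by
    symm
    refine Finset.sum_subset (Finset.range_subset_range.2 (by omega)) fun l _ hl => ?_
    rw [Nat.choose_eq_zero_of_lt (by
      rw [Finset.mem_range] at hl
      omega)]
    simp
  rw [h1]
  have h2 := Nat.sum_range_choose m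
  have h3 : ∑ l ∈ Finset.range (m + 1), (m.choose l : ℝ) = 2 ^ m := by exact_mod_cast h2
  rw [h3]
  exact pow_le_pow_right₀ (by norm_num) hm

theorem cd_sub_le {n : ℕ} (r y δ : ℝ) (hr0 : 0 ≤ r) (hr1 : r ≤ 1) (u : Fin (n + 1) → ℤ) (m : ℕ)
    (hm : m ≤ n) (h : ∀ l : Fin (n + 1), |(u l : ℝ) - u 0 * (r + y) ^ (l : ℕ)| ≤ δ) :
    |cd r u m - u 0 * y ^ m| ≤ 2 ^ n * δ := by
  have hδ : 0 ≤ δ := (abs_nonneg _).trans (h 0)
  rw [cd_sub r y u m hm]
  calc |∑ l : Fin (n + 1), (m.choose (l : ℕ) : ℝ) * (-r) ^ (m - (l : ℕ)) *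
        ((u l : ℝ) - u 0 * (r + y) ^ (l : ℕ))|
      ≤ ∑ l : Fin (n + 1), |(m.choose (l : ℕ) : ℝ) * (-r) ^ (m - (l : ℕ)) *
        ((u l : ℝ) - u 0 * (r + y) ^ (l : ℕ))| := Finset.abs_sum_le_sum_abs _ _
    _ ≤ ∑ l : Fin (n + 1), (m.choose (l : ℕ) : ℝ) * δ := by
        refine Finset.sum_le_sum fun l _ => ?_
        rw [abs_mul, abs_mul, abs_pow, abs_neg, abs_of_nonneg hr0, Nat.abs_cast]
        have h1 : r ^ (m - (l : ℕ)) ≤ 1 := pow_le_one₀ hr0 hr1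
        have h2 : (0 : ℝ) ≤ (m.choose (l : ℕ) : ℝ) := Nat.cast_nonneg _
        calc (m.choose (l : ℕ) : ℝ) * r ^ (m - (l : ℕ)) * |(u l : ℝ) - u 0 * (r + y) ^ (l : ℕ)|
            ≤ (m.choose (l : ℕ) : ℝ) * 1 * δ := by
              apply mul_le_mul _ (h l) (abs_nonneg _) (by positivity)
              exact mul_le_mul_of_nonneg_left h1 h2
          _ = _ := by ring
    _ = (∑ l : Fin (n + 1), (m.choose (l : ℕ) : ℝ)) * δ := by rw [Finset.sum_mul]
    _ ≤ 2 ^ n * δ := mul_le_mul_of_nonneg_right (B0_choose m n hm) hδ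

theorem err_le {n : ℕ} (r δ : ℝ) (hr0 : 0 ≤ r) (hr1 : r ≤ 1) (hδ : 0 ≤ δ)
    (u : Fin (n + 1) → ℤ) (h : ∀ m : Fin (n + 1), m ≠ 0 → |cd r u m| ≤ δ) (m : Fin (n + 1)) :
    |(u m : ℝ) - u 0 * r ^ (m : ℕ)| ≤ 2 ^ n * δ := by
  have h1 := cd_inv r u m
  have h2 : (u m : ℝ) - u 0 * r ^ (m : ℕ) = ∑ l : Fin (n + 1), if l = 0 then 0 else
      ((m : ℕ).choose (l : ℕ) : ℝ) * r ^ ((m : ℕ) - (l : ℕ)) * cd r u l := by
    have h3 : (u 0 : ℝ) * r ^ (m : ℕ) = ∑ l : Fin (n + 1), if l = 0 then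
        ((m : ℕ).choose (l : ℕ) : ℝ) * r ^ ((m : ℕ) - (l : ℕ)) * cd r u l else 0 := by
      rw [Finset.sum_ite_eq' Finset.univ (0 : Fin (n + 1))
        (fun l => ((m : ℕ).choose (l : ℕ) : ℝ) * r ^ ((m : ℕ) - (l : ℕ)) * cd r u l),
        if_pos (Finset.mem_univ _)]
      have h4 : cd r u ((0 : Fin (n + 1)) : ℕ) = u 0 := cd_zero r u
      rw [h4]
      simp
      ring
    rw [h1, h3, ← Finset.sum_sub_distrib]
    refine Finset.sum_congr rfl fun l _ => ?_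
    by_cases hl : l = 0
    · rw [if_pos hl, if_pos hl, sub_self]
    · rw [if_neg hl, if_neg hl, sub_zero]
  rw [h2]
  calc |∑ l : Fin (n + 1), (if l = 0 then 0 else
        ((m : ℕ).choose (l : ℕ) : ℝ) * r ^ ((m : ℕ) - (l : ℕ)) * cd r u l)|
      ≤ ∑ l : Fin (n + 1), |if l = 0 then 0 else
        ((m : ℕ).choose (l : ℕ) : ℝ) * r ^ ((m : ℕ) - (l : ℕ)) * cd r u l| :=
        Finset.abs_sum_le_sum_abs _ _
    _ ≤ ∑ l : Fin (n + 1), ((m : ℕ).choose (l : ℕ) : ℝ) * δ := by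
        refine Finset.sum_le_sum fun l _ => ?_
        have h2 : (0 : ℝ) ≤ ((m : ℕ).choose (l : ℕ) : ℝ) := Nat.cast_nonneg _
        by_cases hl : l = 0
        · rw [if_pos hl, abs_zero]
          positivity
        · rw [if_neg hl, abs_mul, abs_mul, abs_pow, abs_of_nonneg hr0, Nat.abs_cast]
          have h1 : r ^ ((m : ℕ) - (l : ℕ)) ≤ 1 := pow_le_one₀ hr0 hr1
          calc ((m : ℕ).choose (l : ℕ) : ℝ) * r ^ ((m : ℕ) - (l : ℕ)) * |cd r u l|
              ≤ ((m : ℕ).choose (l : ℕ) : ℝ) * 1 * δ := by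
                apply mul_le_mul _ (h l hl) (abs_nonneg _) (by positivity)
                exact mul_le_mul_of_nonneg_left h1 h2
            _ = _ := by ring
    _ = (∑ l : Fin (n + 1), ((m : ℕ).choose (l : ℕ) : ℝ)) * δ := by rw [Finset.sum_mul]
    _ ≤ 2 ^ n * δ :=
        mul_le_mul_of_nonneg_right (B0_choose (m : ℕ) n (Nat.le_of_lt_succ m.2)) hδ

theorem goodRat_mono {n p q : ℕ} {η η' : ℝ} (hη : η' ≤ η) (hη' : 0 ≤ η') (h : GoodRat n η p q) :
    GoodRat n η' p q := by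
  intro n' hn' R hR hRq u h0 h1
  have hR0 : 0 < R := by linarith
  refine h n' hn' R hR hRq u (h0.trans ?_) fun m hm => (h1 m hm).trans ?_
  · exact mul_le_mul_of_nonneg_right hη (by positivity)
  · exact div_le_div_of_nonneg_right hη hR0.le

theorem free_mono {n : ℕ} {x U U' Z Z' : ℝ} (hU : U' ≤ U) (hZ0 : 0 < Z) (hZ : Z ≤ Z')
    (h : Free n x U Z) : Free n x U' Z' := by
  intro u h0 h1
  refine h u (h0.trans hU) fun m => (h1 m).trans ?_
  exact one_div_le_one_div_of_le hZ0 hZ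

end Pool.Agent.Lib.H70X
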