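import Mathlib

/-!
# H70X: the uniform exponents of approximation in exact degree n take all values in [0,n]

Definitions for MP_5a602a_nt. An integer vector `u : Fin (n+1) → ℤ` is regarded as the functional
`T^l ↦ u_l` on polynomials of degree at most `n`.
-/

open Polynomial MeasureTheory Set Filter

namespace Pool.Agent.Lib.H70X

/-- The value at `x` of the polynomial matrix `h` applied to the integer vector `u`. -/
noncomputable def ev {k : ℕ} (h : Matrix (Fin k) (Fin k) ℝ[X]) (x : ℝ) (u : Fin k → ℤ)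
    (i : Fin k) : ℝ := ∑ l, (h i l).eval x * (u l : ℝ)

/-- The minor with columns `S` of the tuple `h(x) v_1, ..., h(x) v_j`. -/
noncomputable def mn {k j : ℕ} (h : Matrix (Fin k) (Fin k) ℝ[X]) (x : ℝ) (v : Fin j → Fin k → ℤ)
    (S : Fin j → Fin k) : ℝ := Matrix.det (Matrix.of fun s t : Fin j => ev h x (v s) (S t))

/-- The sum of the absolute values of all minors. -/
noncomputable def mns {k j : ℕ} (h : Matrix (Fin k) (Fin k) ℝ[X]) (x : ℝ)
    (v : Fin j → Fin k → ℤ) : ℝ := ∑ S : Fin j → Fin k, |mn h x v S|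

/-- The number `u((T - x)^m)`. -/
noncomputable def cd {n : ℕ} (x : ℝ) (u : Fin (n + 1) → ℤ) (m : ℕ) : ℝ :=
  ∑ l : Fin (n + 1), (m.choose (l : ℕ) : ℝ) * (-x) ^ (m - (l : ℕ)) * (u l : ℝ)

/-- The minor with columns `S` in the coordinates `cd x`. -/
noncomputable def W {n j : ℕ} (x : ℝ) (v : Fin j → Fin (n + 1) → ℤ) (S : Fin j → Fin (n + 1)) :
    ℝ := Matrix.det (Matrix.of fun s t : Fin j => cd x (v s) (S t : ℕ))

/-- There is no nonzero integer vector `u` with `|u_0| ≤ U` and `|u_m - u_0 x^m| ≤ 1/Z`. -/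
def Free (n : ℕ) (x U Z : ℝ) : Prop :=
  ∀ u : Fin (n + 1) → ℤ, |(u 0 : ℝ)| ≤ U →
    (∀ m : Fin (n + 1), |(u m : ℝ) - u 0 * x ^ (m : ℕ)| ≤ 1 / Z) → u = 0

/-- The rational number `p/q` is as badly approximable as possible (simultaneous approximation
of its powers, degrees at most `n`) up to the factor `η`. -/
def GoodRat (n : ℕ) (η : ℝ) (p q : ℕ) : Prop :=
  ∀ n' ≤ n, ∀ R : ℝ, 1 ≤ R → R ≤ q → ∀ u : Fin (n' + 1) → ℤ, |(u 0 : ℝ)| ≤ η * R ^ n' →
    (∀ m : Fin (n' + 1), m ≠ 0 → |cd ((p : ℝ) / q) u m| ≤ η / R) → u = 0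

/-- The functional `P ↦ u((q T - p) P)` in degree one less. -/
def bar {n : ℕ} (p q : ℕ) (u : Fin (n + 2) → ℤ) (l : Fin (n + 1)) : ℤ :=
  q * u l.succ - p * u l.castSucc

/-- The polynomial matrix of the flow near the rational number `r`: the coordinates of
`u` at `y` are `u_0 / U` and `Z (u((T-r)^m) - u_0 y^m)`, `m ≥ 1`. -/
noncomputable def hJ (n : ℕ) (r U Z : ℝ) : Matrix (Fin (n + 1)) (Fin (n + 1)) ℝ[X] :=
  Matrix.of fun i l => if i = 0 then (if l = 0 then C (1 / U) else 0) else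
    C Z * (C ((((i : ℕ).choose (l : ℕ) : ℕ) : ℝ) * (-r) ^ ((i : ℕ) - (l : ℕ))) -
      (if l = 0 then X ^ (i : ℕ) else 0))

/-! ### The abstract part of quantitative nondivergence -/

/-- The system of functions of quantitative nondivergence, indexed by a poset of finite length. -/
structure Sys (P : Type*) [PartialOrder P] (k : ℕ) (rk : P → ℕ) (ψ : P → ℝ → ℝ)
    (ρ C α : ℝ) : Prop where
  rk_lt : ∀ s t, s < t → rk s < rk t
  rk_pos : ∀ s, 1 ≤ rk s
  rk_le : ∀ s, rk s ≤ k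
  cont : ∀ s, Continuous (ψ s)
  good : ∀ s (ε a b x0 : ℝ), 0 < ε → a < b → x0 ∈ Icc a b → 0 < ψ s x0 →
    volume {x ∈ Icc a b | ψ s x < ε} ≤ ENNReal.ofReal (C * (ε / ψ s x0) ^ α * (b - a))
  fin : ∀ x, {s | ψ s x < ρ}.Finite

/-- The point `x` is marked relative to the chain `F`. -/
def Mk {P : Type*} [PartialOrder P] (ψ : P → ℝ → ℝ) (ε ρ : ℝ) (F : Set P) (x : ℝ) : Prop :=
  ∃ F' : Set P, F ⊆ F' ∧ IsChain (· ≤ ·) F' ∧ (∀ s ∈ F' \ F, ε ≤ ψ s x ∧ ψ s x ≤ ρ) ∧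
    ∀ s ∉ F', (∀ t ∈ F', s ≤ t ∨ t ≤ s) → ρ ≤ ψ s x

end Pool.Agent.Lib.H70X
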