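import Pool.Agent.Lib.H70X.B0

/-! # Chunk G1: the reversed fraction (medium, polynomial identity)

Proof. Let `φ(P) = ∑_l P.coeff l * u l` for `P ∈ ℤ[T]` (or `ℝ[T]`) of degree `≤ n`, `L = q T - p`, `M = a T - b`,
`d_i = φ(L^(n-i) M^i)`, an integer. By the binomial theorem
`cd (a/q) d i = ∑_l choose i l (-a/q)^(i-l) φ(L^(n-l) M^l) = φ(L^(n-i) (M - (a/q) L)^i)` for `i ≤ n`, and
`M - (a/q) L = (p a - b q)/q = 1/q`, `L = q (T - p/q)`. So it is `q^(n-i) q^(-i) φ((T - p/q)^(n-i))`, and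
`φ((T - x)^m) = cd x u m`. -/

open Polynomial MeasureTheory Set Filter

namespace Pool.Agent.Lib.H70X

/-- the functional of `u` -/
private noncomputable def g1_phi {n : ℕ} (u : Fin (n + 1) → ℤ) : ℝ[X] →ₗ[ℝ] ℝ :=
  ∑ l : Fin (n + 1), (u l : ℝ) • Polynomial.lcoeff ℝ (l : ℕ)

private theorem g1_phi_apply {n : ℕ} (u : Fin (n + 1) → ℤ) (P : ℝ[X]) :
    g1_phi u P = ∑ l : Fin (n + 1), (u l : ℝ) * P.coeff l := by
  unfold g1_phi
  rw [LinearMap.sum_apply]
  rfl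

private theorem g1_cd {n : ℕ} (u : Fin (n + 1) → ℤ) (x : ℝ) (m : ℕ) :
    cd x u m = g1_phi u ((X - C x) ^ m) := by
  rw [g1_phi_apply]
  unfold cd
  refine Finset.sum_congr rfl fun l _ => ?_
  have e : (X - C x : ℝ[X]) = X + C (-x) := by rw [map_neg, sub_eq_add_neg]
  rw [e, Polynomial.coeff_X_add_C_pow]
  ring

private theorem g1_cast {n : ℕ} (u : Fin (n + 1) → ℤ) (P : ℤ[X]) :
    ((∑ l : Fin (n + 1), u l * P.coeff l : ℤ) : ℝ) = g1_phi u (P.map (Int.castRingHom ℝ)) := by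
  rw [g1_phi_apply]
  push_cast
  refine Finset.sum_congr rfl fun l _ => ?_
  rw [Polynomial.coeff_map]
  rfl

theorem cd_theta (n : ℕ) (p q a b : ℤ) (hq : q ≠ 0) (h : p * a - b * q = 1)
    (u : Fin (n + 1) → ℤ) :
    ∃ d : Fin (n + 1) → ℤ, ∀ i : ℕ, i ≤ n →
      cd ((a : ℝ) / q) d i = (q : ℝ) ^ (n - i) / (q : ℝ) ^ i * cd ((p : ℝ) / q) u (n - i) := by
  have hq' : (q : ℝ) ≠ 0 := by exact_mod_cast hq
  have h' : (p : ℝ) * a - b * q = 1 := by exact_mod_cast h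
  set L : ℝ[X] := C (q : ℝ) * X - C (p : ℝ) with hL
  set M : ℝ[X] := C (a : ℝ) * X - C (b : ℝ) with hM
  refine ⟨fun i => ∑ l : Fin (n + 1), u l *
    ((C q * X - C p : ℤ[X]) ^ (n - (i : ℕ)) * (C a * X - C b) ^ (i : ℕ)).coeff l, fun i hi => ?_⟩
  have hmap : ∀ i : ℕ, ((C q * X - C p : ℤ[X]) ^ (n - (i : ℕ)) * (C a * X - C b) ^ (i : ℕ)).map
      (Int.castRingHom ℝ) = L ^ (n - i) * M ^ i := by
    intro i
    simp [hL, hM, Polynomial.map_mul, Polynomial.map_pow, Polynomial.map_sub]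
  unfold cd
  simp only [g1_cast, hmap]
  -- left side as a sum over range
  have e1 : ∑ l : Fin (n + 1), (i.choose (l : ℕ) : ℝ) * (-((a : ℝ) / q)) ^ (i - (l : ℕ)) *
      g1_phi u (L ^ (n - (l : ℕ)) * M ^ (l : ℕ)) =
      g1_phi u (L ^ (n - i) * (M + C (-((a : ℝ) / q)) * L) ^ i) := by
    rw [add_pow, Finset.mul_sum, map_sum]
    rw [Fin.sum_univ_eq_sum_range (fun l => (i.choose l : ℝ) * (-((a : ℝ) / q)) ^ (i - l) *
      g1_phi u (L ^ (n - l) * M ^ l)) (n + 1)]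
    symm
    refine (Finset.sum_congr rfl fun l hl => ?_).trans
      (Finset.sum_subset (Finset.range_mono (by omega)) fun l _ hl => ?_)
    · have hl' : l ≤ i := by
        have := Finset.mem_range.1 hl
        omega
      have e2 : L ^ (n - i) * (M ^ l * (C (-((a : ℝ) / q)) * L) ^ (i - l) * ((i.choose l : ℕ) : ℝ[X])) =
          ((i.choose l : ℝ) * (-((a : ℝ) / q)) ^ (i - l)) • (L ^ (n - l) * M ^ l) := by
        have e3 : n - l = (n - i) + (i - l) := by omega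
        rw [e3, pow_add, mul_pow, Polynomial.smul_eq_C_mul, map_mul, map_pow]
        have e4 : ((i.choose l : ℕ) : ℝ[X]) = C ((i.choose l : ℕ) : ℝ) := by simp
        rw [e4]
        ring
      rw [e2, map_smul, smul_eq_mul]
    · have hl' : i < l := by
        by_contra hcon
        exact hl (Finset.mem_range.2 (by omega))
      rw [Nat.choose_eq_zero_of_lt hl']
      simp
  rw [e1]
  have e5 : M + C (-((a : ℝ) / q)) * L = C (1 / (q : ℝ)) := by
    rw [hM, hL]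
    have e6 : (b : ℝ) = ((p : ℝ) * a - 1) / q := by
      field_simp
      linarith
    have e7 : (C (a : ℝ) * X - C (b : ℝ) + C (-((a : ℝ) / q)) * (C (q : ℝ) * X - C (p : ℝ)) : ℝ[X]) =
        C ((a : ℝ) + -((a : ℝ) / q) * q) * X + C (-(b : ℝ) + (a : ℝ) / q * p) := by
      simp only [map_add, map_mul, map_neg]
      ring
    rw [e7, e6]
    have e8 : (a : ℝ) + -((a : ℝ) / q) * q = 0 := by
      field_simp
      ring
    have e9 : -(((p : ℝ) * a - 1) / q) + (a : ℝ) / q * p = 1 / q := by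
      field_simp
      ring
    rw [e8, e9]
    simp
  have e10 : L = C (q : ℝ) * (X - C ((p : ℝ) / q)) := by
    rw [hL, mul_sub, ← map_mul, mul_div_cancel₀ _ hq']
  rw [e5, e10]
  have e11 : (C (q : ℝ) * (X - C ((p : ℝ) / q))) ^ (n - i) * C (1 / (q : ℝ)) ^ i =
      ((q : ℝ) ^ (n - i) / (q : ℝ) ^ i) • (X - C ((p : ℝ) / q)) ^ (n - i) := by
    rw [mul_pow, Polynomial.smul_eq_C_mul, ← map_pow, ← map_pow, mul_right_comm, ← map_mul]
    congr 3
    rw [one_div, inv_pow]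
  rw [e11, map_smul, smul_eq_mul]
  congr 1
  exact (g1_cd u _ _).symm

end Pool.Agent.Lib.H70X
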