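import Pool.Agent.Lib.H70X.G1

/-! # Chunk G2: bad rational numbers give intervals of bad points (medium)

`BadTheta n N R ε` = the `θ` for which some nonzero integer vector is short in the weights
`A_i = N^(n-2i)/R` (`i < n`), `A_n = (R/N)^n`.

Proof. `p/q` is bad: there are `R` (`1 ≤ R ≤ q`) and `u ≠ 0` with `|u_0| ≤ η R^n`, `|cd (p/q) u m| ≤ η/R` for `1 ≤ m ≤ n`. Let `d` be given by `cd_theta`; `d ≠ 0`
(otherwise all `cd (p/q) u m = 0` and `u = 0` by `cd_inj`). With `N < 4 q`, `q ≤ N`: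
`|cd (a/q) d i| = q^(n-i) q^(-i) |cd (p/q) u (n-i)| ≤ 4^n N^(n-i) N^(-i) η/R = 4^n η A_i` for `i < n`, and
`|cd (a/q) d n| = q^(-n) |u_0| ≤ η (R/q)^n ≤ 4^n η (R/N)^n`. For `θ' = a/q + t`, `|t| ≤ 1/N^2`, by `cd_add`
`|cd θ' d i| ≤ ∑_{l ≤ i} choose i l |t|^(i-l) 4^n η A_l`, and `N^(-2(i-l)) A_l ≤ A_i` for `l ≤ i ≤ n`: for `l ≤ i < n` it is an equality, for
`l < i = n` the left side is `N^(-n)/R ≤ (R/N)^n` as `R ≥ 1`. So `|cd θ' d i| ≤ 8^n η A_i`.
The statement takes `R0 ≤ R ≤ 2 R0`: `A_i(R) ≤ A_i(R0)` for `i < n` and `A_n(R) ≤ 2^n A_n(R0)`; hence `C = 16^n`. -/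

open Polynomial MeasureTheory Set Filter

namespace Pool.Agent.Lib.H70X

/-- the set of bad `θ` -/
def BadTheta (n : ℕ) (N R ε : ℝ) : Set ℝ :=
  {θ | ∃ d : Fin (n + 1) → ℤ, d ≠ 0 ∧ (∀ i : ℕ, i < n → |cd θ d i| ≤ ε * (N ^ (n - i) / N ^ i / R)) ∧
    |cd θ d n| ≤ ε * (R / N) ^ n}

/-- the weights -/
private noncomputable def g2_A (n : ℕ) (N R : ℝ) (i : ℕ) : ℝ :=
  if i < n then N ^ (n - i) / N ^ i / R else (R / N) ^ n

private theorem g2_A_nonneg (n : ℕ) (N R : ℝ) (i : ℕ) (hN : 0 < N) (hR : 0 < R) : 0 ≤ g2_A n N R i := by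
  unfold g2_A
  split_ifs <;> positivity

private theorem g2_A_step (n : ℕ) (N R : ℝ) (hN : 0 < N) (hR : 1 ≤ R) (l i : ℕ) (hl : l ≤ i) (hi : i ≤ n) :
    (1 / N ^ 2) ^ (i - l) * g2_A n N R l ≤ g2_A n N R i := by
  have hR0 : 0 < R := by linarith
  rcases Nat.lt_or_ge i n with hin | hin
  · have hln : l < n := by omega
    unfold g2_A
    rw [if_pos hin, if_pos hln]
    obtain ⟨t, rfl⟩ := Nat.exists_eq_add_of_le hl
    obtain ⟨s, rfl⟩ := Nat.exists_eq_add_of_le hi
    have e1 : l + t - l = t := by omega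
    have e2 : l + t + s - l = t + s := by omega
    have e3 : l + t + s - (l + t) = s := by omega
    rw [e1, e2, e3]
    apply le_of_eq
    rw [pow_add, pow_add, one_div, inv_pow, ← pow_mul, mul_comm 2 t, pow_mul, pow_two]
    field_simp
  · have hin' : i = n := by omega
    subst hin'
    rcases Nat.lt_or_ge l i with hli | hli
    · unfold g2_A
      rw [if_neg (lt_irrefl _), if_pos hli]
      obtain ⟨t, rfl⟩ := Nat.exists_eq_add_of_le hl
      have e1 : l + t - l = t := by omega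
      rw [e1]
      have e2 : (1 / N ^ 2) ^ t * (N ^ t / N ^ l / R) = 1 / N ^ (l + t) / R := by
        rw [pow_add, one_div, inv_pow, ← pow_mul, mul_comm 2 t, pow_mul, pow_two]
        field_simp
      rw [e2, div_pow, div_div, div_le_div_iff₀ (by positivity) (by positivity)]
      have h1 : 1 ≤ R ^ (l + t) := one_le_pow₀ hR
      have h2 : 1 ≤ R ^ (l + t) * R := by nlinarith
      have h3 : 0 < N ^ (l + t) := by positivity
      nlinarith
    · have hli' : l = i := by omega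
      subst hli'
      simp

theorem bad_transfer (n : ℕ) (p q a b : ℤ) (N R R0 η : ℝ) (hq : 0 < q) (hNq : N < 4 * q)
    (hqN : (q : ℝ) ≤ N) (h : p * a - b * q = 1) (hη : 0 < η) (hR0 : 1 ≤ R0) (hR : R0 ≤ R)
    (hR2 : R ≤ 2 * R0) (hRq : R ≤ q) (u : Fin (n + 1) → ℤ) (hu : u ≠ 0)
    (hu0 : |(u 0 : ℝ)| ≤ η * R ^ n)
    (hum : ∀ m : Fin (n + 1), m ≠ 0 → |cd ((p : ℝ) / q) u m| ≤ η / R) (θ : ℝ)
    (hθ : |θ - (a : ℝ) / q| ≤ 1 / N ^ 2) : θ ∈ BadTheta n N R0 (16 ^ n * η) := by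
  have hq' : (0 : ℝ) < q := by exact_mod_cast hq
  have hN : 0 < N := by linarith
  have hR1 : 1 ≤ R := by linarith
  have hRp : 0 < R := by linarith
  obtain ⟨d, hd⟩ := cd_theta n p q a b hq.ne' h u
  have hum' : ∀ m : ℕ, m ≠ 0 → m ≤ n → |cd ((p : ℝ) / q) u m| ≤ η / R := by
    intro m hm hmn
    have := hum ⟨m, by omega⟩ (by
      intro hcon
      apply hm
      have := congrArg Fin.val hcon
      simpa using this)
    exact this
  have hd0 : d ≠ 0 := by
    intro hcon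
    apply hu
    apply cd_inj ((p : ℝ) / q)
    intro m
    have h1 := hd (n - (m : ℕ)) (by omega)
    have h2 : n - (n - (m : ℕ)) = (m : ℕ) := by omega
    rw [h2] at h1
    have h3 : cd ((a : ℝ) / q) d (n - (m : ℕ)) = 0 := by
      unfold cd
      rw [hcon]
      simp
    rw [h3] at h1
    have h4 : (q : ℝ) ^ (m : ℕ) / (q : ℝ) ^ (n - (m : ℕ)) ≠ 0 := by positivity
    rcases mul_eq_zero.1 h1.symm with h5 | h5
    · exact absurd h5 h4
    · exact h5
  -- bounds at a/q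
  have hb : ∀ l : ℕ, l ≤ n → |cd ((a : ℝ) / q) d l| ≤ 4 ^ n * η * g2_A n N R l := by
    intro l hl
    rw [hd l hl, abs_mul, abs_of_pos (by positivity)]
    rcases Nat.lt_or_ge l n with hln | hln
    · unfold g2_A
      rw [if_pos hln]
      have h1 := hum' (n - l) (by omega) (by omega)
      have h2 : (q : ℝ) ^ (n - l) ≤ N ^ (n - l) := pow_le_pow_left₀ hq'.le hqN _
      have h3 : N ^ l ≤ 4 ^ n * (q : ℝ) ^ l := by
        calc N ^ l ≤ (4 * (q : ℝ)) ^ l := pow_le_pow_left₀ hN.le hNq.le _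
          _ = 4 ^ l * (q : ℝ) ^ l := mul_pow _ _ _
          _ ≤ 4 ^ n * (q : ℝ) ^ l := mul_le_mul_of_nonneg_right
              (pow_le_pow_right₀ (by norm_num) hl) (by positivity)
      have h4 : (q : ℝ) ^ (n - l) / (q : ℝ) ^ l ≤ 4 ^ n * (N ^ (n - l) / N ^ l) := by
        rw [← mul_div_assoc, div_le_div_iff₀ (by positivity) (by positivity)]
        calc (q : ℝ) ^ (n - l) * N ^ l ≤ N ^ (n - l) * (4 ^ n * (q : ℝ) ^ l) :=
              mul_le_mul h2 h3 (by positivity) (by positivity)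
          _ = _ := by ring
      calc (q : ℝ) ^ (n - l) / (q : ℝ) ^ l * |cd ((p : ℝ) / q) u (n - l)| ≤
            4 ^ n * (N ^ (n - l) / N ^ l) * (η / R) :=
            mul_le_mul h4 h1 (abs_nonneg _) (by positivity)
        _ = _ := by ring
    · have hln' : l = n := by omega
      subst hln'
      unfold g2_A
      rw [if_neg (lt_irrefl _), Nat.sub_self, pow_zero, cd_zero]
      have h3 : N ^ l ≤ 4 ^ l * (q : ℝ) ^ l := by
        rw [← mul_pow]
        exact pow_le_pow_left₀ hN.le hNq.le _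
      have h4 : 1 / (q : ℝ) ^ l ≤ 4 ^ l / N ^ l := by
        rw [div_le_div_iff₀ (by positivity) (by positivity), one_mul]
        exact h3
      calc 1 / (q : ℝ) ^ l * |(u 0 : ℝ)| ≤ 4 ^ l / N ^ l * (η * R ^ l) :=
            mul_le_mul h4 hu0 (abs_nonneg _) (by positivity)
        _ = _ := by rw [div_pow]; ring
  -- bounds at theta
  set t := θ - (a : ℝ) / q with ht
  have hθt : θ = (a : ℝ) / q + t := by rw [ht]; ring
  have hc : ∀ i : ℕ, i ≤ n → |cd θ d i| ≤ 8 ^ n * η * g2_A n N R i := by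
    intro i hi
    rw [hθt, cd_add _ _ _ _ hi]
    have h1 : ∀ l : Fin (n + 1), |(i.choose (l : ℕ) : ℝ) * (-t) ^ (i - (l : ℕ)) * cd ((a : ℝ) / q) d l| ≤
        (i.choose (l : ℕ) : ℝ) * (4 ^ n * η * g2_A n N R i) := by
      intro l
      rcases Nat.lt_or_ge i (l : ℕ) with hil | hil
      · rw [Nat.choose_eq_zero_of_lt hil]
        simp
      · rw [abs_mul, abs_mul, Nat.abs_cast, abs_pow, abs_neg, mul_assoc]
        refine mul_le_mul_of_nonneg_left ?_ (by positivity)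
        have h2 : |t| ^ (i - (l : ℕ)) ≤ (1 / N ^ 2) ^ (i - (l : ℕ)) := pow_le_pow_left₀ (abs_nonneg _) hθ _
        have h3 := hb l (by omega)
        have h4 := g2_A_step n N R hN hR1 l i hil hi
        have h5 : (0 : ℝ) ≤ 4 ^ n * η := by positivity
        calc |t| ^ (i - (l : ℕ)) * |cd ((a : ℝ) / q) d l| ≤
              (1 / N ^ 2) ^ (i - (l : ℕ)) * (4 ^ n * η * g2_A n N R l) :=
              mul_le_mul h2 h3 (abs_nonneg _) (by positivity)
          _ = 4 ^ n * η * ((1 / N ^ 2) ^ (i - (l : ℕ)) * g2_A n N R l) := by ring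
          _ ≤ 4 ^ n * η * g2_A n N R i := mul_le_mul_of_nonneg_left h4 h5
    refine (Finset.abs_sum_le_sum_abs _ _).trans ((Finset.sum_le_sum fun l _ => h1 l).trans ?_)
    rw [← Finset.sum_mul]
    have h6 : ∑ l : Fin (n + 1), (i.choose (l : ℕ) : ℝ) = 2 ^ i := by
      rw [Fin.sum_univ_eq_sum_range (fun l => (i.choose l : ℝ)) (n + 1)]
      have h7 := Nat.sum_range_choose i
      have h8 : ∑ l ∈ Finset.range (i + 1), (i.choose l : ℝ) = 2 ^ i := by exact_mod_cast h7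
      rw [← h8]
      symm
      refine Finset.sum_subset (Finset.range_mono (by omega)) fun l _ hl => ?_
      have hl' : i < l := by
        by_contra hcon
        exact hl (Finset.mem_range.2 (by omega))
      rw [Nat.choose_eq_zero_of_lt hl']
      simp
    rw [h6]
    have h9 : (2 : ℝ) ^ i ≤ 2 ^ n := pow_le_pow_right₀ (by norm_num) hi
    have h10 : 0 ≤ 4 ^ n * η * g2_A n N R i :=
      mul_nonneg (by positivity) (g2_A_nonneg n N R i hN hRp)
    calc (2 : ℝ) ^ i * (4 ^ n * η * g2_A n N R i) ≤ 2 ^ n * (4 ^ n * η * g2_A n N R i) :=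
          mul_le_mul_of_nonneg_right h9 h10
      _ = 8 ^ n * η * g2_A n N R i := by
          rw [show (8 : ℝ) = 2 * 4 by norm_num, mul_pow]
          ring
  refine ⟨d, hd0, fun i hi => (hc i hi.le).trans ?_, (hc n le_rfl).trans ?_⟩
  · unfold g2_A
    rw [if_pos hi]
    have h1 : N ^ (n - i) / N ^ i / R ≤ N ^ (n - i) / N ^ i / R0 :=
      div_le_div_of_nonneg_left (by positivity) (by linarith) hR
    have h2 : (8 : ℝ) ^ n ≤ 16 ^ n := pow_le_pow_left₀ (by norm_num) (by norm_num) n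
    have h3 : 8 ^ n * η ≤ 16 ^ n * η := mul_le_mul_of_nonneg_right h2 hη.le
    exact mul_le_mul h3 h1 (by positivity) (by positivity)
  · unfold g2_A
    rw [if_neg (lt_irrefl _)]
    have h1 : (R / N) ^ n ≤ (2 * (R0 / N)) ^ n := by
      refine pow_le_pow_left₀ (by positivity) ?_ n
      rw [← mul_div_assoc]
      exact div_le_div_of_nonneg_right hR2 hN.le
    calc 8 ^ n * η * (R / N) ^ n ≤ 8 ^ n * η * (2 * (R0 / N)) ^ n :=
          mul_le_mul_of_nonneg_left h1 (by positivity)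
      _ = 16 ^ n * η * (R0 / N) ^ n := by
          rw [mul_pow, show (16 : ℝ) = 8 * 2 by norm_num, mul_pow]
          ring

end Pool.Agent.Lib.H70X
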