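import Pool.Agent.Lib.H70X.WR1

/-! # Chunk WR2: a binomial determinant does not vanish (medium, pure Mathlib)

Proof. Suppose it vanishes. Then there are rationals `λ_t`, not all zero, with `∑_t λ_t choose (N+t) (l a) = 0` for all `a : Fin j`. Let
`g = ∑_t λ_t X^(N+t) ≠ 0` and `G(Y) = g(1 + Y)`, a nonzero polynomial of degree `≤ n = N + j - 1`. The coefficient of `Y^i` in `G` is
`∑_t λ_t choose (N+t) i`, so the `j` coefficients with `i = l a` vanish (`l` injective, `l a ≤ n`), and `G` has at most
`n + 1 - j = N` nonzero coefficients. But `X^N ∣ g`, so `(Y + 1)^N ∣ G`: contradiction to `sparse_mult` with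
`a = -1`, `t = N` (`N < N`). -/

open Polynomial MeasureTheory Set Filter

namespace Pool.Agent.Lib.H70X

theorem binom_det_ne (n j N : ℕ) (hN : N + j = n + 1) (l : Fin j → Fin (n + 1))
    (hl : Function.Injective l) :
    Matrix.det (Matrix.of fun a t : Fin j => (((N + (t : ℕ)).choose (l a : ℕ) : ℕ) : ℚ)) ≠ 0 := by
  classical
  intro hdet
  rw [← Matrix.exists_mulVec_eq_zero_iff] at hdet
  obtain ⟨c, hc, hM⟩ := hdet
  set g : ℚ[X] := ∑ t : Fin j, C (c t) * X ^ (N + (t : ℕ)) with hg
  set G : ℚ[X] := ∑ t : Fin j, C (c t) * (X + 1) ^ (N + (t : ℕ)) with hG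
  have hGg : G = g.comp (X + C 1) := by
    rw [hg, hG, Polynomial.sum_comp]
    apply Finset.sum_congr rfl
    intro t _
    rw [mul_comp, C_comp, X_pow_comp, C_1]
  have hgc : ∀ t : Fin j, g.coeff (N + (t : ℕ)) = c t := by
    intro t
    rw [hg, finsetSum_coeff, Finset.sum_eq_single t]
    · rw [coeff_C_mul, coeff_X_pow, if_pos rfl, mul_one]
    · intro s _ hs
      rw [coeff_C_mul, coeff_X_pow, if_neg, mul_zero]
      intro h
      exact hs (Fin.ext (by omega))
    · intro h
      exact absurd (Finset.mem_univ t) h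
  have hg0 : g ≠ 0 := by
    intro h
    apply hc
    funext t
    rw [← hgc t, h, coeff_zero]
    rfl
  have hG0 : G ≠ 0 := by
    rw [hGg]
    intro h
    apply hg0
    have h1 : (g.comp (X + C 1)).comp (X - C 1) = g := by
      rw [comp_assoc, add_comp, X_comp, C_comp, sub_add_cancel, comp_X]
    rw [← h1, h, zero_comp]
  have hGcoef : ∀ i, G.coeff i = ∑ t : Fin j, c t * ((N + (t : ℕ)).choose i : ℚ) := by
    intro i
    rw [hG, finsetSum_coeff]
    apply Finset.sum_congr rfl
    intro t _
    rw [coeff_C_mul, coeff_X_add_one_pow]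
  have hla : ∀ a : Fin j, G.coeff (l a : ℕ) = 0 := by
    intro a
    rw [hGcoef]
    have h1 := congrFun hM a
    rw [Matrix.mulVec, dotProduct] at h1
    simp only [Matrix.of_apply, Pi.zero_apply] at h1
    rw [← h1]
    apply Finset.sum_congr rfl
    intro t _
    rw [mul_comm]
  have hbig : ∀ i, n < i → G.coeff i = 0 := by
    intro i hi
    rw [hGcoef]
    apply Finset.sum_eq_zero
    intro t _
    have h1 := t.2
    rw [Nat.choose_eq_zero_of_lt (by omega), Nat.cast_zero, mul_zero]
  have hsub : G.support ⊆ Finset.range (n + 1) \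
      (Finset.univ.image fun a : Fin j => (l a : ℕ)) := by
    intro i hi
    rw [mem_support_iff] at hi
    rw [Finset.mem_sdiff, Finset.mem_range]
    constructor
    · by_contra h
      exact hi (hbig i (by omega))
    · intro h
      obtain ⟨a, -, ha⟩ := Finset.mem_image.1 h
      rw [← ha] at hi
      exact hi (hla a)
  have hcard : G.support.card ≤ N := by
    refine (Finset.card_le_card hsub).trans ?_
    rw [Finset.card_sdiff_of_subset, Finset.card_range, Finset.card_image_of_injective,
      Finset.card_univ, Fintype.card_fin]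
    · omega
    · intro a b hab
      exact hl (Fin.ext hab)
    · intro i hi
      obtain ⟨a, -, ha⟩ := Finset.mem_image.1 hi
      rw [← ha, Finset.mem_range]
      exact (l a).2
  have hdvd : (X - C (-1 : ℚ)) ^ N ∣ G := by
    have e : (X - C (-1 : ℚ)) = X + 1 := by
      rw [C_neg, C_1, sub_neg_eq_add]
    rw [e, hG]
    apply Finset.dvd_sum
    intro t _
    exact Dvd.dvd.mul_left (pow_dvd_pow _ (Nat.le_add_right _ _)) _
  have := sparse_mult G hG0 (-1) (by norm_num) N hdvd
  omega

end Pool.Agent.Lib.H70X
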