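import Pool.Agent.Lib.H70X.B0
import Pool.Agent.Lib.H70X.WR2

/-! # Chunk WR3: the Wronskian of independent vectors is not small (large)

The columns are the last `j` ones: `t ↦ N + t`, `N + j = n + 1`.

Proof. (1) `θ ↦ W θ v S` is a polynomial `w` with integer coefficients of degree `≤ D := (n+1)^2` (`j ≤ n+1` columns, entries
of degree `≤ n`). (2) `w ≠ 0`: over `ℚ` the span of the `v_s` has a basis `w_1, ..., w_j` in echelon form: there is an injective
`l : Fin j → Fin (n+1)` with `w_a(i) = 0` for `i < l a`, `w_a(l a) ≠ 0` (Gauss elimination; or take for `l` the set of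
the `i` such that the subspaces `V ∩ {v_m = 0 for m < i}` and `V ∩ {v_m = 0 for m ≤ i}` differ). The determinant for `v` is a nonzero constant times the one for `w`. The
entry `cd θ w_a (N+t) = ∑_{i ≥ l a} choose (N+t) i (-θ)^(N+t-i) w_a(i)` is a polynomial in `θ` in which only exponents
`≤ N + t - l a` occur, the coefficient of `θ^(N+t-l a)` being `(-1)^(N+t-l a) choose (N+t) (l a) w_a(l a)` (for `N+t < l a` the entry is 0 and so is the binomial
coefficient). So the coefficient of `θ^E`, `E = ∑_t (N+t) - ∑_a l a`, in the determinant is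
`± ∏_a w_a(l a) det (choose (N+t) (l a)) ≠ 0` by `binom_det_ne` (signs: `(-1)^(N+t-l a)` factors through
rows and columns; substitute `θ → -θ` first to avoid them. One can multiply the row `a` by `θ^(l a)` and divide the column `t` by `θ^(N+t)` and
let `θ → ∞`: the entry tends to `± choose (N+t) (l a) w_a(l a)`).
(3) A nonzero polynomial of degree `≤ D` does not vanish at one of the points `i/(D+1)`, `0 ≤ i ≤ D`, and with integer
coefficients its value there is at least `(D+1)^(-D)` in absolute value. So `c = (D+1)^(-D)`. -/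

open Polynomial MeasureTheory Set Filter

namespace Pool.Agent.Lib.H70X

/-- the polynomial matrix -/
noncomputable def WR3_M {n j : ℕ} (N : ℕ) (v : Fin j → Fin (n + 1) → ℤ) :
    Matrix (Fin j) (Fin j) ℤ[X] :=
  Matrix.of fun s t => ∑ l : Fin (n + 1), C (((N + (t : ℕ)).choose (l : ℕ) : ℤ) * v s l) *
    (-X) ^ (N + (t : ℕ) - (l : ℕ))

theorem WR3_eval {n j : ℕ} (N : ℕ) (hN : N + j = n + 1) (v : Fin j → Fin (n + 1) → ℤ) (θ : ℝ) :
    eval θ ((WR3_M N v).det.map (algebraMap ℤ ℝ)) =
      W θ v (fun t : Fin j => (⟨N + (t : ℕ), by omega⟩ : Fin (n + 1))) := by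
  have h : eval θ ((WR3_M N v).det.map (algebraMap ℤ ℝ)) =
      ((evalRingHom θ).comp (mapRingHom (algebraMap ℤ ℝ))) (WR3_M N v).det := rfl
  rw [h, RingHom.map_det]
  unfold W
  refine congrArg Matrix.det ?_
  ext s t
  simp only [RingHom.mapMatrix_apply, Matrix.map_apply, WR3_M, Matrix.of_apply, cd,
    RingHom.comp_apply, coe_mapRingHom, coe_evalRingHom, Polynomial.map_sum, eval_finsetSum]
  refine Finset.sum_congr rfl fun l _ => ?_
  simp only [Polynomial.map_mul, Polynomial.map_pow, Polynomial.map_neg, map_X, map_C, eval_mul,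
    eval_pow, eval_neg, eval_X, eval_C]
  simp only [eq_intCast, Int.cast_mul, Int.cast_natCast]
  ring

theorem WR3_deg {n j : ℕ} (N : ℕ) (hN : N + j = n + 1) (v : Fin j → Fin (n + 1) → ℤ) :
    (WR3_M N v).det.natDegree ≤ (n + 1) ^ 2 := by
  have hent : ∀ s t, (WR3_M N v s t).natDegree ≤ n := by
    intro s t
    unfold WR3_M
    rw [Matrix.of_apply]
    refine natDegree_sum_le_of_forall_le _ _ fun l _ => ?_
    refine (natDegree_C_mul_le _ _).trans ?_
    refine natDegree_pow_le.trans ?_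
    rw [natDegree_neg, natDegree_X]
    have := t.2
    omega
  rw [Matrix.det_apply]
  refine natDegree_sum_le_of_forall_le _ _ fun σ _ => ?_
  refine (natDegree_smul_le _ _).trans ?_
  refine (natDegree_prod_le _ _).trans ?_
  refine (Finset.sum_le_sum fun i _ => hent (σ i) i).trans ?_
  rw [Finset.sum_const, Finset.card_univ, Fintype.card_fin, smul_eq_mul]
  have hj : j ≤ n + 1 := by omega
  calc j * n ≤ (n + 1) * (n + 1) := Nat.mul_le_mul hj (by omega)
    _ = (n + 1) ^ 2 := by ring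

theorem WR3_echelon {n j : ℕ} (v : Fin j → Fin (n + 1) → ℤ) (hv : LinearIndependent ℤ v) :
    ∃ (l : Fin j → Fin (n + 1)) (w : Fin j → Fin (n + 1) → ℚ) (g : Fin j → Fin j → ℚ),
      Function.Injective l ∧ (∀ a i, w a i = ∑ s, g a s * (v s i : ℚ)) ∧
      (∀ a i, i < l a → w a i = 0) ∧ ∀ a, w a (l a) ≠ 0 := by
  classical
  set vq : Fin j → Fin (n + 1) → ℚ := fun s i => (v s i : ℚ) with hvq
  have hLI : LinearIndependent ℚ vq := by
    rw [← LinearIndependent.iff_fractionRing ℤ ℚ]
    let f : (Fin (n + 1) → ℤ) →ₗ[ℤ] (Fin (n + 1) → ℚ) :=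
      { toFun := fun u i => (u i : ℚ)
        map_add' := fun u u' => by ext i; simp
        map_smul' := fun c u => by ext i; simp }
    have hf : LinearMap.ker f = ⊥ := by
      rw [LinearMap.ker_eq_bot]
      intro a b hab
      ext i
      have := congrFun hab i
      have h2 : (a i : ℚ) = (b i : ℚ) := this
      exact_mod_cast h2
    exact hv.map' f hf
  set V := Submodule.span ℚ (Set.range vq) with hV
  have hdim : Module.finrank ℚ V = j := by
    rw [hV, finrank_span_eq_card hLI, Fintype.card_fin]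
  set I : Finset (Fin (n + 1)) := Finset.univ.filter fun i => ∃ f ∈ V, f i ≠ 0 ∧
    ∀ i' < i, f i' = 0 with hI
  have hcard : j ≤ I.card := by
    let F : V →ₗ[ℚ] (I → ℚ) :=
      { toFun := fun f i => (f : Fin (n + 1) → ℚ) i
        map_add' := fun f f' => by ext i; simp
        map_smul' := fun c f => by ext i; simp }
    have hF : Function.Injective F := by
      rw [injective_iff_map_eq_zero]
      intro f hf
      by_contra hne
      have hne' : ∃ i, (f : Fin (n + 1) → ℚ) i ≠ 0 := by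
        by_contra hc
        push Not at hc
        exact hne (Subtype.ext (funext hc))
      have hS : (Finset.univ.filter fun i => (f : Fin (n + 1) → ℚ) i ≠ 0).Nonempty := by
        obtain ⟨i, hi⟩ := hne'
        exact ⟨i, by simp [hi]⟩
      obtain ⟨i, hi, hmin⟩ := Finset.exists_minimal hS
      have hi1 : (f : Fin (n + 1) → ℚ) i ≠ 0 := (Finset.mem_filter.1 hi).2
      have hi2 : ∀ i' < i, (f : Fin (n + 1) → ℚ) i' = 0 := by
        intro i' hlt
        by_contra hc
        have := hmin (Finset.mem_filter.2 ⟨Finset.mem_univ i', hc⟩) hlt.le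
        exact absurd hlt (not_lt.2 this)
      have hiI : i ∈ I := Finset.mem_filter.2 ⟨Finset.mem_univ i, f, f.2, hi1, hi2⟩
      exact hi1 (congrFun hf ⟨i, hiI⟩)
    have := LinearMap.finrank_le_finrank_of_injective hF
    rwa [hdim, Module.finrank_fintype_fun_eq_card, Fintype.card_coe] at this
  let l : Fin j → Fin (n + 1) := fun a => I.orderEmbOfFin rfl (Fin.castLE hcard a)
  have hl : ∀ a, l a ∈ I := fun a => Finset.orderEmbOfFin_mem _ _ _
  have hl2 : ∀ a, ∃ f ∈ V, f (l a) ≠ 0 ∧ ∀ i' < l a, f i' = 0 := fun a =>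
    (Finset.mem_filter.1 (hl a)).2
  choose w hw1 hw2 hw3 using hl2
  have hw4 : ∀ a, ∃ c : Fin j → ℚ, ∑ s, c s • vq s = w a := fun a =>
    (Submodule.mem_span_range_iff_exists_fun ℚ).1 (hw1 a)
  choose g hg using hw4
  refine ⟨l, w, g, ?_, ?_, fun a i hi => hw3 a i hi, hw2⟩
  · intro a b hab
    have := (I.orderEmbOfFin rfl).injective hab
    exact Fin.castLE_injective hcard this
  · intro a i
    rw [← hg a]
    simp [hvq]

theorem WR3_ne {n j : ℕ} (N : ℕ) (hN : N + j = n + 1) (v : Fin j → Fin (n + 1) → ℤ)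
    (hv : LinearIndependent ℤ v) :
    ∃ θ : ℝ, W θ v (fun t : Fin j => (⟨N + (t : ℕ), by omega⟩ : Fin (n + 1))) ≠ 0 := by
  classical
  obtain ⟨l, w, g, hl, hw, hw0, hw1⟩ := WR3_echelon v hv
  have hb := binom_det_ne n j N hN l hl
  set P : ℝ[X] := Matrix.det (Matrix.of fun a t : Fin j => ∑ i : Fin (n + 1),
    C (((N + (t : ℕ)).choose (i : ℕ) : ℝ) * (w a i : ℝ)) * X ^ ((i : ℕ) - (l a : ℕ))) with hP
  have hPe : ∀ x : ℝ, eval x P = Matrix.det (Matrix.of fun a t : Fin j => ∑ i : Fin (n + 1),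
      (((N + (t : ℕ)).choose (i : ℕ) : ℝ) * (w a i : ℝ)) * x ^ ((i : ℕ) - (l a : ℕ))) := by
    intro x
    have h : eval x P = (evalRingHom x) P := rfl
    rw [h, hP, RingHom.map_det]
    refine congrArg Matrix.det ?_
    ext a t
    simp only [RingHom.mapMatrix_apply, Matrix.map_apply, Matrix.of_apply, coe_evalRingHom,
      eval_finsetSum, eval_mul, eval_C, eval_pow, eval_X]
  have hP0 : eval 0 P ≠ 0 := by
    rw [hPe]
    have h1 : (Matrix.of fun a t : Fin j => ∑ i : Fin (n + 1),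
        (((N + (t : ℕ)).choose (i : ℕ) : ℝ) * (w a i : ℝ)) * (0 : ℝ) ^ ((i : ℕ) - (l a : ℕ))) =
        Matrix.of fun a t : Fin j => (w a (l a) : ℝ) *
          (Matrix.of fun a t : Fin j => (((N + (t : ℕ)).choose (l a : ℕ) : ℕ) : ℝ)) a t := by
      ext a t
      rw [Matrix.of_apply, Matrix.of_apply, Matrix.of_apply, Finset.sum_eq_single (l a)]
      · rw [Nat.sub_self, pow_zero, mul_one, mul_comm]
      · intro i _ hi
        rcases lt_or_gt_of_ne hi with h | h
        · rw [hw0 a i h]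
          simp
        · have : (i : ℕ) - (l a : ℕ) ≠ 0 := by
            have : (l a : ℕ) < (i : ℕ) := h
            omega
          rw [zero_pow this, mul_zero]
      · intro h
        exact absurd (Finset.mem_univ _) h
    rw [h1, Matrix.det_mul_column]
    refine mul_ne_zero (Finset.prod_ne_zero_iff.2 fun a _ => ?_) ?_
    · exact_mod_cast hw1 a
    · have h2 : (Matrix.of fun a t : Fin j => (((N + (t : ℕ)).choose (l a : ℕ) : ℕ) : ℝ)) =
          (Rat.castHom ℝ).mapMatrix
            (Matrix.of fun a t : Fin j => (((N + (t : ℕ)).choose (l a : ℕ) : ℕ) : ℚ)) := by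
        ext a t
        simp
      rw [h2, ← RingHom.map_det]
      simpa using hb
  have hPne : P ≠ 0 := by
    intro h
    rw [h, eval_zero] at hP0
    exact hP0 rfl
  obtain ⟨x, hx0, hx⟩ : ∃ x : ℝ, x ≠ 0 ∧ eval x P ≠ 0 := by
    by_contra hc
    push Not at hc
    have h1 : X * P = 0 := by
      refine Polynomial.funext fun r => ?_
      rw [eval_mul, eval_X, eval_zero]
      by_cases hr : r = 0
      · rw [hr, zero_mul]
      · rw [hc r hr, mul_zero]
    exact (mul_ne_zero X_ne_zero hPne) h1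
  refine ⟨-x⁻¹, fun hW => ?_⟩
  have hfac : (Matrix.of fun a s : Fin j => (g a s : ℝ)).det *
      W (-x⁻¹) v (fun t : Fin j => (⟨N + (t : ℕ), by omega⟩ : Fin (n + 1))) =
      (∏ t : Fin j, (x⁻¹) ^ (N + (t : ℕ))) * ((∏ a : Fin j, x ^ (l a : ℕ)) * eval x P) := by
    unfold W
    rw [← Matrix.det_mul, hPe, ← Matrix.det_mul_column, ← Matrix.det_mul_row]
    refine congrArg Matrix.det ?_
    ext a t
    simp only [Matrix.mul_apply, Matrix.of_apply, cd, neg_neg]
    have h3 : ∀ s : Fin j, (g a s : ℝ) * ∑ i : Fin (n + 1), ((N + (t : ℕ)).choose (i : ℕ) : ℝ) *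
        x⁻¹ ^ (N + (t : ℕ) - (i : ℕ)) * (v s i : ℝ) =
        ∑ i : Fin (n + 1), ((N + (t : ℕ)).choose (i : ℕ) : ℝ) *
        x⁻¹ ^ (N + (t : ℕ) - (i : ℕ)) * ((g a s : ℝ) * (v s i : ℝ)) := by
      intro s
      rw [Finset.mul_sum]
      exact Finset.sum_congr rfl fun i _ => by ring
    rw [Finset.sum_congr rfl fun s _ => h3 s, Finset.sum_comm, Finset.mul_sum, Finset.mul_sum]
    refine Finset.sum_congr rfl fun i _ => ?_
    rw [← Finset.mul_sum]
    have h4 : ∑ s, (g a s : ℝ) * (v s i : ℝ) = (w a i : ℝ) := by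
      rw [hw a i]
      push_cast
      rfl
    rw [h4]
    by_cases hi : i < l a
    · rw [hw0 a i hi]
      simp
    · by_cases hi2 : N + (t : ℕ) < (i : ℕ)
      · rw [Nat.choose_eq_zero_of_lt hi2]
        simp
      · have e1 : (l a : ℕ) ≤ (i : ℕ) := by
          have : l a ≤ i := not_lt.1 hi
          exact this
        have e2 : (i : ℕ) ≤ N + (t : ℕ) := not_lt.1 hi2
        have e3 : x⁻¹ ^ (N + (t : ℕ) - (i : ℕ)) =
            x⁻¹ ^ (N + (t : ℕ)) * (x ^ (l a : ℕ) * x ^ ((i : ℕ) - (l a : ℕ))) := by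
          rw [← pow_add, Nat.add_sub_cancel' e1]
          obtain ⟨k, hk⟩ := Nat.exists_eq_add_of_le e2
          rw [hk, Nat.add_sub_cancel_left, pow_add, inv_pow, inv_pow]
          field_simp
        rw [e3]
        ring
  rw [hW, mul_zero] at hfac
  refine absurd hfac.symm (mul_ne_zero (Finset.prod_ne_zero_iff.2 fun t _ => ?_)
    (mul_ne_zero (Finset.prod_ne_zero_iff.2 fun a _ => ?_) hx))
  · exact pow_ne_zero _ (inv_ne_zero hx0)
  · exact pow_ne_zero _ hx0

theorem wronskian_large (n : ℕ) : ∃ c : ℝ, 0 < c ∧ ∀ (j N : ℕ) (hN : N + j = n + 1)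
    (v : Fin j → Fin (n + 1) → ℤ), LinearIndependent ℤ v →
    ∃ θ ∈ Icc (0 : ℝ) 1, c ≤ |W θ v (fun t : Fin j => (⟨N + (t : ℕ), by omega⟩ : Fin (n + 1)))| := by
  set D := (n + 1) ^ 2 with hD
  refine ⟨1 / ((D : ℝ) + 1) ^ D, by positivity, fun j N hN v hv => ?_⟩
  obtain ⟨θ0, hθ0⟩ := WR3_ne N hN v hv
  rw [← WR3_eval N hN v θ0] at hθ0
  set w : ℤ[X] := (WR3_M N v).det with hw
  have hw0 : w.map (algebraMap ℤ ℝ) ≠ 0 := by
    intro h
    rw [h, eval_zero] at hθ0
    exact hθ0 rfl
  have hdeg : (w.map (algebraMap ℤ ℝ)).natDegree ≤ D := natDegree_map_le.trans (WR3_deg N hN v)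
  -- a point where the polynomial does not vanish
  obtain ⟨i, hi⟩ : ∃ i : Fin (D + 1), eval (((i : ℕ) : ℝ) / ((D : ℝ) + 1))
      (w.map (algebraMap ℤ ℝ)) ≠ 0 := by
    by_contra hc
    push Not at hc
    refine hw0 (eq_zero_of_natDegree_lt_card_of_eval_eq_zero _
      (f := fun i : Fin (D + 1) => (((i : ℕ) : ℝ) / ((D : ℝ) + 1))) ?_ hc ?_)
    · intro a b hab
      have hpos : ((D : ℝ) + 1) ≠ 0 := by positivity
      have h1 : ((a : ℕ) : ℝ) = ((b : ℕ) : ℝ) := by
        have := (div_left_inj' hpos).1 hab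
        exact this
      exact Fin.ext (by exact_mod_cast h1)
    · rw [Fintype.card_fin]
      omega
  refine ⟨((i : ℕ) : ℝ) / ((D : ℝ) + 1), ⟨by positivity, ?_⟩, ?_⟩
  · rw [div_le_one (by positivity)]
    have : ((i : ℕ) : ℝ) ≤ D := by exact_mod_cast Nat.lt_succ_iff.1 i.2
    linarith
  · rw [← WR3_eval N hN v]
    have h1 := one_le_pow_mul_abs_eval_div (K := ℝ) (f := w) (a := ((i : ℕ) : ℤ))
      (b := ((D : ℤ) + 1)) (by positivity) (by
        push_cast
        exact hi)
    push_cast at h1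
    have h2 : ((D : ℝ) + 1) ^ w.natDegree ≤ ((D : ℝ) + 1) ^ D :=
      pow_le_pow_right₀ (by linarith [(Nat.cast_nonneg D : (0 : ℝ) ≤ D)]) (WR3_deg N hN v)
    rw [div_le_iff₀ (by positivity), mul_comm]
    exact h1.trans (mul_le_mul_of_nonneg_right h2 (abs_nonneg _))

end Pool.Agent.Lib.H70X
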