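import Pool.Agent.Lib.H70X.QL5
import Pool.Agent.Lib.H70X.WR3
import Pool.Agent.Lib.H70X.G2

/-! # Chunk G3: the measure of the set of bad points (medium)

Proof. Apply `qnd (n+1) n` to the matrix `h i l = C ((1/A_i) choose i l) * (-X)^(i-l)`, `A_i = N^(n-i)/N^i/R` (`i < n`), `A_n = (R/N)^n`, on `[-1,2]`:
`ev h θ d i = cd θ d i / A_i`. Its determinant is `∏ 1/A_i` (lower triangular) `≠ 0`. Hypothesis on minors with `ρ = min c 1`, `c` the constant of `wronskian_large`: for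
independent `v_1..v_j` (so `j ≤ n+1`), with `S` the last `j` indices `m ≥ N' := n+1-j`, `mn h θ v S = W θ v S / ∏_{m ≥ N'} A_m`, and
`∏_{m ≥ N'} A_m ≤ 1`: for `j = n+1` the product of all `A_m` is `N^(n^2 - n(n-1)) R^(-n) (R/N)^n = 1`; for `1 ≤ j ≤ n` it is
`(R/N)^n R^(-(j-1)) N^((j-1)(j-n)) = R^(n-j+1) N^(-n-(j-1)(n-j)) ≤ (R/N)^(n-j+1) ≤ 1` (since `n + (j-1)(n-j) - (n-j+1) = (j-1)(n-j+1) ≥ 0`, `1 ≤ R ≤ N`).
(It may be easier to prove `∏_{m ≥ N'} A_m ≤ 1` from `∏_m A_m = 1` as follows: the `A_m` with `m < n` are decreasing in `m`, and ... ; either way.)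
If `θ ∈ BadTheta n N R ε` then `(n+1) ∑_i |ev h θ d i| ≤ (n+1)^2 ε < 2 (n+1)^2 ε`. If `2 (n+1)^2 ε ≤ ρ` use `qnd` with this `ε`; otherwise the bound is trivial
(`volume [-1,2] = 3`). -/

open Polynomial MeasureTheory Set Filter

namespace Pool.Agent.Lib.H70X

/-- the weights -/
private noncomputable def g3_A (n : ℕ) (N R : ℝ) (i : ℕ) : ℝ :=
  if i < n then N ^ (n - i) / N ^ i / R else (R / N) ^ n

private theorem g3_A_pos (n : ℕ) (N R : ℝ) (i : ℕ) (hN : 0 < N) (hR : 0 < R) : 0 < g3_A n N R i := by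
  unfold g3_A
  split_ifs <;> positivity

private theorem g3_prod (n : ℕ) (N R : ℝ) (hN : 0 < N) (hR : 0 < R) (j : ℕ) :
    ∀ N' : ℕ, N' + (j + 1) = n + 1 → ∏ t : Fin (j + 1), g3_A n N R (N' + (t : ℕ)) =
      R ^ N' / N ^ (N' * (j + 1)) := by
  induction j with
  | zero =>
    intro N' h
    have h' : N' = n := by omega
    subst h'
    simp [g3_A, div_pow]
  | succ j ih =>
    intro N' h
    rw [Fin.prod_univ_succ]
    have h1 := ih (N' + 1) (by omega)
    have h2 : ∏ t : Fin (j + 1), g3_A n N R (N' + ((t.succ : Fin (j + 2)) : ℕ)) =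
        ∏ t : Fin (j + 1), g3_A n N R (N' + 1 + (t : ℕ)) := by
      refine Finset.prod_congr rfl fun t _ => ?_
      rw [Fin.val_succ]
      congr 1
      omega
    rw [h2, h1]
    have h3 : N' < n := by omega
    have h4 : n - N' = j + 1 := by omega
    have h5 : g3_A n N R (N' + ((0 : Fin (j + 2)) : ℕ)) = N ^ (j + 1) / N ^ N' / R := by
      unfold g3_A
      rw [Fin.val_zero, Nat.add_zero, if_pos h3, h4]
    rw [h5]
    have h6 : N ^ ((N' + 1) * (j + 1)) = N ^ (N' * (j + 1)) * N ^ (j + 1) := by rw [← pow_add]; congr 1; ring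
    have h7 : N ^ (N' * (j + 1 + 1)) = N ^ (N' * (j + 1)) * N ^ N' := by rw [← pow_add]; congr 1
    rw [h6, h7, pow_succ]
    field_simp
    ring

private theorem g3_prod_le (n : ℕ) (N R : ℝ) (hR : 1 ≤ R) (hN : R ≤ N) (j : ℕ) (hj : 1 ≤ j)
    (N' : ℕ) (h : N' + j = n + 1) : ∏ t : Fin j, g3_A n N R (N' + (t : ℕ)) ≤ 1 := by
  obtain ⟨i, rfl⟩ : ∃ i, j = i + 1 := ⟨j - 1, by omega⟩
  have hR0 : 0 < R := by linarith
  have hN0 : 0 < N := by linarith
  rw [g3_prod n N R hN0 hR0 i N' h, div_le_one (by positivity)]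
  calc R ^ N' ≤ N ^ N' := pow_le_pow_left₀ hR0.le hN _
    _ ≤ N ^ (N' * (i + 1)) := pow_le_pow_right₀ (by linarith) (Nat.le_mul_of_pos_right _ (by omega))

/-- the matrix -/
private noncomputable def g3_h (n : ℕ) (N R : ℝ) : Matrix (Fin (n + 1)) (Fin (n + 1)) ℝ[X] :=
  Matrix.of fun i l => C (1 / g3_A n N R i * ((i : ℕ).choose (l : ℕ) : ℝ)) * (-X) ^ ((i : ℕ) - (l : ℕ))

private theorem g3_ev (n : ℕ) (N R θ : ℝ) (d : Fin (n + 1) → ℤ) (i : Fin (n + 1)) :
    ev (g3_h n N R) θ d i = 1 / g3_A n N R i * cd θ d i := by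
  unfold ev cd g3_h
  rw [Finset.mul_sum]
  refine Finset.sum_congr rfl fun l _ => ?_
  simp only [Matrix.of_apply, Polynomial.eval_mul, Polynomial.eval_C, Polynomial.eval_pow,
    Polynomial.eval_neg, Polynomial.eval_X]
  ring

private theorem g3_mn (n j : ℕ) (N R θ : ℝ) (v : Fin j → Fin (n + 1) → ℤ) (S : Fin j → Fin (n + 1)) :
    mn (g3_h n N R) θ v S = (∏ t, (1 / g3_A n N R (S t))) * W θ v S := by
  unfold mn W
  rw [← Matrix.det_mul_row]
  congr 1
  ext s t
  simp only [Matrix.of_apply]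
  rw [g3_ev]

private theorem g3_deg (n : ℕ) (N R : ℝ) (i l : Fin (n + 1)) : (g3_h n N R i l).natDegree ≤ n := by
  unfold g3_h
  simp only [Matrix.of_apply]
  refine (Polynomial.natDegree_C_mul_le _ _).trans ?_
  refine (Polynomial.natDegree_pow_le).trans ?_
  rw [Polynomial.natDegree_neg, Polynomial.natDegree_X]
  omega

private theorem g3_det (n : ℕ) (N R : ℝ) (hN : 0 < N) (hR : 0 < R) (x : ℝ) :
    ((g3_h n N R).map (Polynomial.eval x)).det ≠ 0 := by
  rw [Matrix.det_of_isLowerTriangular]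
  · rw [Finset.prod_ne_zero_iff]
    intro i _
    have := g3_A_pos n N R i hN hR
    simp only [Matrix.map_apply, g3_h, Matrix.of_apply, Nat.choose_self, Nat.sub_self, pow_zero,
      Nat.cast_one, mul_one, Polynomial.eval_C]
    positivity
  · intro i l hil
    have hil' : i < l := hil
    simp only [Matrix.map_apply, g3_h, Matrix.of_apply]
    rw [Nat.choose_eq_zero_of_lt hil']
    simp

theorem badTheta_measure (n : ℕ) : ∃ C α : ℝ, 0 < C ∧ 0 < α ∧ ∀ N R ε : ℝ, 1 ≤ R → R ≤ N →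
    0 < ε → volume (BadTheta n N R ε ∩ Icc (-1) 2) ≤ ENNReal.ofReal (C * ε ^ α) := by
  obtain ⟨C0, α, hC0, hα, hq⟩ := qnd (n + 1) n
  obtain ⟨c, hc, hw⟩ := wronskian_large n
  set ρ : ℝ := min c 1 with hρ
  have hρ0 : 0 < ρ := lt_min hc one_pos
  have hρ1 : ρ ≤ 1 := min_le_right _ _
  have hρc : ρ ≤ c := min_le_left _ _
  set K : ℝ := 2 * ((n : ℝ) + 1) ^ 2 / ρ with hK
  have hK0 : 0 < K := by positivity
  refine ⟨(3 * C0 + 3) * K ^ α, α, by positivity, hα, fun N R ε hR hRN hε => ?_⟩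
  have hR0 : 0 < R := by linarith
  have hN0 : 0 < N := by linarith
  have e1 : (3 * C0 + 3) * K ^ α * ε ^ α = (3 * C0 + 3) * (K * ε) ^ α := by
    rw [Real.mul_rpow hK0.le hε.le, mul_assoc]
  rw [e1]
  rcases le_or_gt (2 * ((n : ℝ) + 1) ^ 2 * ε) ρ with hcase | hcase
  · have h1 := hq (g3_h n N R) (-1) 2 ρ (2 * ((n : ℝ) + 1) ^ 2 * ε) (g3_deg n N R)
      (g3_det n N R hN0 hR0) (by norm_num) (by positivity) hcase hρ1 (by
        intro j hj v hv
        have hjn : j ≤ n + 1 := by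
          have := hv.fintype_card_le_finrank
          simpa using this
        obtain ⟨θ, hθ, hW⟩ := hw j (n + 1 - j) (by omega) v hv
        refine ⟨θ, ⟨by linarith [hθ.1], by linarith [hθ.2]⟩,
          fun t : Fin j => (⟨n + 1 - j + (t : ℕ), by omega⟩ : Fin (n + 1)), ?_⟩
        rw [g3_mn, abs_mul]
        have h2 := g3_prod_le n N R hR hRN j hj (n + 1 - j) (by omega)
        have h3 : 0 < ∏ t : Fin j, g3_A n N R (n + 1 - j + (t : ℕ)) :=
          Finset.prod_pos fun t _ => g3_A_pos _ _ _ _ hN0 hR0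
        have h4 : (1 : ℝ) ≤ |∏ t : Fin j, (1 / g3_A n N R (n + 1 - j + (t : ℕ)))| := by
          rw [Finset.prod_div_distrib, Finset.prod_const_one, abs_of_pos (by positivity)]
          exact (one_le_div h3).2 h2
        refine hρc.trans (hW.trans ?_)
        exact le_mul_of_one_le_left (abs_nonneg _) h4)
    refine (measure_mono ?_).trans (h1.trans (ENNReal.ofReal_le_ofReal ?_))
    · rintro θ ⟨⟨d, hd0, hd1, hd2⟩, hθ⟩
      refine ⟨hθ, d, hd0, ?_⟩
      have h5 : ∀ i : Fin (n + 1), |ev (g3_h n N R) θ d i| ≤ ε := by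
        intro i
        have hA := g3_A_pos n N R i hN0 hR0
        rw [g3_ev, abs_mul, abs_of_pos (by positivity), one_div, inv_mul_le_iff₀ hA, mul_comm]
        unfold g3_A
        split_ifs with hin
        · exact hd1 i hin
        · have : (i : ℕ) = n := by omega
          rw [this]
          exact hd2
      have h6 : ∑ i : Fin (n + 1), |ev (g3_h n N R) θ d i| ≤ ((n : ℝ) + 1) * ε := by
        refine (Finset.sum_le_sum fun i _ => h5 i).trans (le_of_eq ?_)
        rw [Finset.sum_const, Finset.card_univ, Fintype.card_fin, nsmul_eq_mul]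
        push_cast
        ring
      have h7 : ((n + 1 : ℕ) : ℝ) * ∑ i : Fin (n + 1), |ev (g3_h n N R) θ d i| ≤
          ((n : ℝ) + 1) * (((n : ℝ) + 1) * ε) := by
        push_cast
        exact mul_le_mul_of_nonneg_left h6 (by positivity)
      have h8 : 0 < ((n : ℝ) + 1) * (((n : ℝ) + 1) * ε) := by positivity
      refine lt_of_le_of_lt h7 ?_
      nlinarith
    · have e2 : 2 * ((n : ℝ) + 1) ^ 2 * ε / ρ = K * ε := by
        rw [hK]
        ring
      rw [e2]
      have h9 : 0 < (K * ε) ^ α := by positivity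
      nlinarith
  · have h1 : volume (BadTheta n N R ε ∩ Icc (-1) 2) ≤ ENNReal.ofReal 3 := by
      refine (measure_mono inter_subset_right).trans ?_
      rw [Real.volume_Icc]
      norm_num
    refine h1.trans (ENNReal.ofReal_le_ofReal ?_)
    have h2 : 1 ≤ K * ε := by
      have : K * ε = 2 * ((n : ℝ) + 1) ^ 2 * ε / ρ := by
        rw [hK]
        ring
      rw [this, one_le_div hρ0]
      exact hcase.le
    have h3 : 1 ≤ (K * ε) ^ α := Real.one_le_rpow h2 hα.le
    nlinarith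

end Pool.Agent.Lib.H70X
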