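import Pool.Agent.Lib.H70X.G3

/-! # Chunk G4: few rational numbers are bad (medium/large)

Proof. Let `B` be the union of the sets `BadTheta n' N (2^t) (16^n η) ∩ Icc (-1) 2` over `n' ≤ n` and the `t ≥ 0` with `2^t ≤ N`:
`volume B ≤ C1 (1 + log N) η^α` with `α` = the minimum of the exponents of `badTheta_measure n'` (`n' ≤ n`; treat `16^n η ≥ 1` trivially or use `η ≤ 1` and
enlarge the constant). Let `Bad` be the set of pairs `(p,q)`, `p ≤ q`, `N < 4q`, `q ≤ N`, coprime, not `GoodRat n η p q`. For such a pair choose (Bezout) integers `a, b`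
with `p a - b q = 1`, `0 ≤ a ≤ q` (for `q = 1` take `a = 1` if `p = 1`, `b = 0`; if `p = 0`, `q = 1`: `a = 0`, `b = -1`). By the failure of
`GoodRat` there are `n' ≤ n`, `R` and `u`; with `2^t ≤ R < 2^(t+1)`, `bad_transfer` shows that the interval `(a/q - 1/(2N^2), a/q + 1/(2N^2))` is contained in
`B` (`16^n' ≤ 16^n`, `BadTheta` is monotone in `ε`; `[-1,2]` contains the interval). For different pairs these intervals are disjoint: if `a/q = a'/q'` then, both fractions being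
reduced (`p a - b q = 1`), `q = q'`, `a = a'`, and `p a ≡ 1 ≡ p' a mod q` gives `p ≡ p' mod q`, so `p = p'` (if `q ≥ 2` then `0 < p, p' < q`; if `q = 1`, `p = 0` and
`p = 1` have different `a`); otherwise `|a/q - a'/q'| ≥ 1/(q q') ≥ 1/N^2`. So `#Bad / N^2 ≤ volume B`, and the set in the statement is covered by the intervals
of length `8/N^2` around the `p/q`, `(p,q) ∈ Bad`: measure `≤ 8 volume B`. -/

open Polynomial MeasureTheory Set Filter

namespace Pool.Agent.Lib.H70X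

private theorem g4_unif (n : ℕ) : ∀ m : ℕ, ∃ C α : ℝ, 0 < C ∧ 0 < α ∧ ∀ n' ≤ m, ∀ N R η : ℝ, 1 ≤ R → R ≤ N →
    0 < η → η ≤ 1 → volume (BadTheta n' N R (16 ^ n * η) ∩ Icc (-1) 2) ≤ ENNReal.ofReal (C * η ^ α) := by
  have hone : ∀ m : ℕ, ∃ C α : ℝ, 0 < C ∧ 0 < α ∧ ∀ N R η : ℝ, 1 ≤ R → R ≤ N →
    0 < η → η ≤ 1 → volume (BadTheta m N R (16 ^ n * η) ∩ Icc (-1) 2) ≤ ENNReal.ofReal (C * η ^ α) := by
    intro m
    obtain ⟨C, α, hC, hα, h⟩ := badTheta_measure m
    refine ⟨C * (16 ^ n : ℝ) ^ α, α, by positivity, hα, fun N R η hR hRN hη hη1 => ?_⟩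
    have h1 := h N R (16 ^ n * η) hR hRN (by positivity)
    rw [Real.mul_rpow (by positivity) hη.le, ← mul_assoc] at h1
    exact h1
  intro m
  induction m with
  | zero =>
    obtain ⟨C, α, hC, hα, h⟩ := hone 0
    refine ⟨C, α, hC, hα, fun n' hn' => ?_⟩
    obtain rfl : n' = 0 := by omega
    exact h
  | succ m ih =>
    obtain ⟨C1, α1, hC1, hα1, h1⟩ := ih
    obtain ⟨C2, α2, hC2, hα2, h2⟩ := hone (m + 1)
    refine ⟨C1 + C2, min α1 α2, by positivity, lt_min hα1 hα2, fun n' hn' N R η hR hRN hη hη1 => ?_⟩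
    have g1 : η ^ α1 ≤ η ^ (min α1 α2) := Real.rpow_le_rpow_of_exponent_ge hη hη1 (min_le_left _ _)
    have g2 : η ^ α2 ≤ η ^ (min α1 α2) := Real.rpow_le_rpow_of_exponent_ge hη hη1 (min_le_right _ _)
    have g3 : 0 < η ^ (min α1 α2) := by positivity
    rcases Nat.lt_or_ge m n' with hm | hm
    · obtain rfl : n' = m + 1 := by omega
      refine (h2 N R η hR hRN hη hη1).trans (ENNReal.ofReal_le_ofReal ?_)
      nlinarith
    · refine (h1 n' hm N R η hR hRN hη hη1).trans (ENNReal.ofReal_le_ofReal ?_)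
      nlinarith

private theorem g4_mono (n : ℕ) (N R ε ε' : ℝ) (hN : 0 < N) (hR : 0 < R) (h : ε ≤ ε') :
    BadTheta n N R ε ⊆ BadTheta n N R ε' := by
  rintro θ ⟨d, hd0, hd1, hd2⟩
  exact ⟨d, hd0, fun i hi => (hd1 i hi).trans (mul_le_mul_of_nonneg_right h (by positivity)),
    hd2.trans (mul_le_mul_of_nonneg_right h (by positivity))⟩

private theorem g4_bez (p q : ℕ) (hq : 0 < q) (hpq : p ≤ q) (hc : p.Coprime q) :
    ∃ a b : ℤ, (p : ℤ) * a - b * q = 1 ∧ 0 ≤ a ∧ a ≤ q ∧ (p < q → a < q) ∧ (p = q → a = q) := by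
  rcases Nat.lt_or_ge p q with h | h
  · have hg : (p : ℤ) * Nat.gcdA p q + q * Nat.gcdB p q = 1 := by
      have := Nat.gcd_eq_gcd_ab p q
      rw [hc.gcd_eq_one] at this
      push_cast at this
      linarith
    have hq' : (0 : ℤ) < q := by exact_mod_cast hq
    refine ⟨Nat.gcdA p q % q, -(Nat.gcdB p q + p * (Nat.gcdA p q / q)), ?_, Int.emod_nonneg _ hq'.ne',
      (Int.emod_lt_of_pos _ hq').le, fun _ => Int.emod_lt_of_pos _ hq', fun h' => by omega⟩
    have h2 := Int.emod_add_mul_ediv (Nat.gcdA p q) (q : ℤ)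
    have h3 : (Nat.gcdA p q % q : ℤ) = Nat.gcdA p q - q * (Nat.gcdA p q / q) := by linarith
    rw [h3]
    linear_combination hg
  · obtain rfl : p = q := by omega
    have h1 : p = 1 := by
      have := hc.gcd_eq_one
      rwa [Nat.gcd_self] at this
    subst h1
    exact ⟨1, 0, by norm_num, by norm_num, by norm_num, by norm_num, by norm_num⟩

private theorem g4_inj (p q p' q' : ℕ) (hq : 0 < q) (hq' : 0 < q') (hpq : p ≤ q) (hpq' : p' ≤ q')
    (a b a' b' : ℤ) (h : (p : ℤ) * a - b * q = 1) (h' : (p' : ℤ) * a' - b' * q' = 1)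
    (h1 : p < q → a < q) (h2 : p = q → a = q) (h1' : p' < q' → a' < q') (h2' : p' = q' → a' = q')
    (he : a * q' = a' * q) : p = p' ∧ q = q' := by
  have hca : IsCoprime a (q : ℤ) := ⟨p, -b, by linear_combination h⟩
  have hca' : IsCoprime a' (q' : ℤ) := ⟨p', -b', by linear_combination h'⟩
  have d1 : (q : ℤ) ∣ q' := by
    refine hca.symm.dvd_of_dvd_mul_left ?_
    rw [he]
    exact Dvd.intro_left _ rfl
  have d2 : (q' : ℤ) ∣ q := by
    refine hca'.symm.dvd_of_dvd_mul_left ?_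
    rw [← he]
    exact Dvd.intro_left _ rfl
  have hqq : q = q' := Nat.dvd_antisymm (Int.natCast_dvd_natCast.1 d1) (Int.natCast_dvd_natCast.1 d2)
  subst hqq
  have hq0 : (0 : ℤ) < q := by exact_mod_cast hq
  have haa : a = a' := mul_right_cancel₀ hq0.ne' he
  subst haa
  refine ⟨?_, rfl⟩
  have d3 : (q : ℤ) ∣ (p : ℤ) - p' := by
    have : (q : ℤ) ∣ a * ((p : ℤ) - p') := ⟨b - b', by linear_combination h - h'⟩
    exact hca.symm.dvd_of_dvd_mul_left this
  rcases Nat.lt_or_ge p q with hlt | hge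
  · have g1 := h1 hlt
    have g2 : p' < q := by
      rcases Nat.lt_or_ge p' q with h3 | h3
      · exact h3
      · have := h2' (by omega)
        omega
    obtain ⟨k, hk⟩ := d3
    have hk0 : k = 0 := by
      by_contra hcon
      rcases lt_or_gt_of_ne hcon with h4 | h4
      · nlinarith
      · nlinarith
    rw [hk0, mul_zero] at hk
    omega
  · have g1 := h2 (by omega)
    rcases Nat.lt_or_ge p' q with h3 | h3
    · have := h1' h3
      omega
    · omega

theorem bad_measure (n : ℕ) : ∃ C α : ℝ, 0 < C ∧ 0 < α ∧ ∀ (N : ℕ) (η : ℝ), 1 ≤ N → 0 < η →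
    η ≤ 1 →
    volume {x : ℝ | ∃ p q : ℕ, p ≤ q ∧ N < 4 * q ∧ q ≤ N ∧ p.Coprime q ∧ ¬ GoodRat n η p q ∧
      |x - (p : ℝ) / q| ≤ 4 / (N : ℝ) ^ 2} ≤
      ENNReal.ofReal (C * (1 + Real.log N) * η ^ α) := by
  classical
  obtain ⟨C, α, hC, hα, hB⟩ := g4_unif n n
  refine ⟨8 * (2 * ((n : ℝ) + 1) * C), α, by positivity, hα, fun N η hN hη hη1 => ?_⟩
  have hN0 : (0 : ℝ) < N := by exact_mod_cast hN
  have hN1 : (1 : ℝ) ≤ N := by exact_mod_cast hN
  set T : ℕ := Nat.log 2 N with hT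
  set B : Set ℝ := ⋃ i ∈ Finset.range (n + 1) ×ˢ Finset.range (T + 1),
    (BadTheta i.1 N (2 ^ i.2) (16 ^ n * η) ∩ Icc (-1) 2) with hBdef
  have hTN : ∀ t ≤ T, (2 : ℝ) ^ t ≤ N := by
    intro t ht
    have h1 : 2 ^ t ≤ N := (Nat.pow_le_pow_right (by norm_num) ht).trans (Nat.pow_log_le_self 2 (by omega))
    exact_mod_cast h1
  have hlogN : 0 ≤ Real.log N := Real.log_nonneg hN1
  have hT1 : ((T : ℝ) + 1) ≤ 2 * (1 + Real.log N) := by
    have h1 := hTN T le_rfl
    have h2 : (T : ℝ) * Real.log 2 ≤ Real.log N := by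
      rw [← Real.log_pow]
      exact Real.log_le_log (by positivity) h1
    have h3 := Real.log_two_gt_d9
    have h4 : (0 : ℝ) ≤ T := Nat.cast_nonneg _
    nlinarith
  have hvolB : volume B ≤ ENNReal.ofReal (((n : ℝ) + 1) * (2 * (1 + Real.log N)) * (C * η ^ α)) := by
    refine (measure_biUnion_finset_le _ _).trans ?_
    have h1 : ∀ i ∈ Finset.range (n + 1) ×ˢ Finset.range (T + 1),
        volume (BadTheta i.1 N (2 ^ i.2) (16 ^ n * η) ∩ Icc (-1) 2) ≤ ENNReal.ofReal (C * η ^ α) := by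
      intro i hi
      rw [Finset.mem_product, Finset.mem_range, Finset.mem_range] at hi
      exact hB i.1 (by omega) N (2 ^ i.2) η (one_le_pow₀ (by norm_num)) (hTN i.2 (by omega)) hη hη1
    refine (Finset.sum_le_sum h1).trans ?_
    rw [Finset.sum_const, Finset.card_product, Finset.card_range, Finset.card_range, nsmul_eq_mul,
      ← ENNReal.ofReal_natCast, ← ENNReal.ofReal_mul (by positivity)]
    refine ENNReal.ofReal_le_ofReal ?_
    push_cast
    refine mul_le_mul_of_nonneg_right ?_ (by positivity)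
    exact mul_le_mul_of_nonneg_left hT1 (by positivity)
  -- the bad pairs
  set Bad : Finset (ℕ × ℕ) := (Finset.range (N + 1) ×ˢ Finset.range (N + 1)).filter fun x =>
    x.1 ≤ x.2 ∧ N < 4 * x.2 ∧ x.2 ≤ N ∧ x.1.Coprime x.2 ∧ ¬ GoodRat n η x.1 x.2 with hBad
  have hmem : ∀ x ∈ Bad, x.1 ≤ x.2 ∧ N < 4 * x.2 ∧ x.2 ≤ N ∧ x.1.Coprime x.2 ∧ ¬ GoodRat n η x.1 x.2 := by
    intro x hx
    exact (Finset.mem_filter.1 hx).2
  have hbez : ∀ x : ℕ × ℕ, ∃ a : ℤ, x ∈ Bad → ∃ b : ℤ, (x.1 : ℤ) * a - b * x.2 = 1 ∧ 0 ≤ a ∧ a ≤ x.2 ∧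
      (x.1 < x.2 → a < x.2) ∧ (x.1 = x.2 → a = x.2) := by
    intro x
    by_cases hx : x ∈ Bad
    · obtain ⟨h1, h2, h3, h4, -⟩ := hmem x hx
      obtain ⟨a, b, hab⟩ := g4_bez x.1 x.2 (by omega) h1 h4
      exact ⟨a, fun _ => ⟨b, hab⟩⟩
    · exact ⟨0, fun h => absurd h hx⟩
  choose a ha using hbez
  set I : ℕ × ℕ → Set ℝ := fun x => Ioo ((a x : ℝ) / x.2 - 1 / (2 * (N : ℝ) ^ 2))
    ((a x : ℝ) / x.2 + 1 / (2 * (N : ℝ) ^ 2)) with hI
  have hIB : ∀ x ∈ Bad, I x ⊆ B := by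
    intro x hx θ hθ
    obtain ⟨h1, h2, h3, h4, h5⟩ := hmem x hx
    obtain ⟨b, hab, ha0, haq, -, -⟩ := ha x hx
    have hq0 : 0 < x.2 := by omega
    have hq0' : (0 : ℝ) < x.2 := by exact_mod_cast hq0
    unfold GoodRat at h5
    push Not at h5
    obtain ⟨n', hn', R, hR1, hRq, u, hu0, hum, hu⟩ := h5
    obtain ⟨t, ht1, ht2⟩ := exists_nat_pow_near hR1 (by norm_num : (1 : ℝ) < 2)
    have hqN : (x.2 : ℝ) ≤ N := by exact_mod_cast h3
    have htT : t ≤ T := by
      rw [hT]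
      apply Nat.le_log_of_pow_le (by norm_num)
      have h6 : (2 : ℝ) ^ t ≤ N := by linarith
      exact_mod_cast h6
    have hN2 : (0 : ℝ) < 1 / (N : ℝ) ^ 2 := by positivity
    have hN2' : 1 / (N : ℝ) ^ 2 ≤ 1 := by
      rw [div_le_one (by positivity)]
      exact one_le_pow₀ hN1
    have e1 : 1 / (2 * (N : ℝ) ^ 2) = 1 / (N : ℝ) ^ 2 / 2 := by
      field_simp
    have hθ1 : |θ - (a x : ℝ) / ((x.2 : ℤ) : ℝ)| ≤ 1 / (N : ℝ) ^ 2 := by
      rw [abs_le, Int.cast_natCast]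
      have g1 := hθ.1
      have g2 := hθ.2
      rw [e1] at g1 g2
      constructor <;> linarith
    have h6 := bad_transfer n' (x.1 : ℤ) (x.2 : ℤ) (a x) b N R (2 ^ t) η (by exact_mod_cast hq0)
      (by
        rw [Int.cast_natCast]
        exact_mod_cast h2) (by rw [Int.cast_natCast]; exact hqN) hab hη
      (one_le_pow₀ (by norm_num)) ht1 (by
        rw [pow_succ] at ht2
        linarith) (by rw [Int.cast_natCast]; exact hRq) u hu hu0 (by
        intro m hm
        rw [Int.cast_natCast, Int.cast_natCast]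
        exact hum m hm) θ hθ1
    have h7 : (16 : ℝ) ^ n' * η ≤ 16 ^ n * η :=
      mul_le_mul_of_nonneg_right (pow_le_pow_right₀ (by norm_num) hn') hη.le
    have h8 := g4_mono n' N (2 ^ t) _ _ hN0 (by positivity) h7 h6
    rw [hBdef, mem_iUnion₂]
    refine ⟨(n', t), ?_, h8, ?_⟩
    · rw [Finset.mem_product, Finset.mem_range, Finset.mem_range]
      constructor
      · change n' < n + 1
        omega
      · change t < T + 1
        omega
    · have g0 : (0 : ℝ) ≤ (a x : ℝ) / x.2 := div_nonneg (by exact_mod_cast ha0) hq0'.le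
      have g3 : (a x : ℝ) / x.2 ≤ 1 := by
        rw [div_le_one hq0']
        exact_mod_cast haq
      have g1 := hθ.1
      have g2 := hθ.2
      rw [e1] at g1 g2
      constructor <;> linarith
  have hdisj : (Bad : Set (ℕ × ℕ)).PairwiseDisjoint I := by
    intro x hx y hy hxy
    rw [Function.onFun, Set.disjoint_left]
    intro θ hθx hθy
    obtain ⟨h1, h2, h3, h4, -⟩ := hmem x hx
    obtain ⟨k1, k2, k3, k4, -⟩ := hmem y hy
    obtain ⟨b, hab, ha0, haq, hal, hae⟩ := ha x hx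
    obtain ⟨b', hab', ha0', haq', hal', hae'⟩ := ha y hy
    have hqx : 0 < x.2 := by omega
    have hqy : 0 < y.2 := by omega
    have hqx' : (0 : ℝ) < x.2 := by exact_mod_cast hqx
    have hqy' : (0 : ℝ) < y.2 := by exact_mod_cast hqy
    have hne : a x * y.2 ≠ a y * x.2 := by
      intro hcon
      obtain ⟨g1, g2⟩ := g4_inj x.1 x.2 y.1 y.2 hqx hqy h1 k1 (a x) b (a y) b' hab hab' hal hae hal' hae' hcon
      exact hxy (Prod.ext g1 g2)
    have habs : (1 : ℝ) ≤ |(a x : ℝ) * y.2 - a y * x.2| := by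
      have := Int.one_le_abs (sub_ne_zero.2 hne)
      exact_mod_cast this
    have e1 : (a x : ℝ) / x.2 - a y / y.2 = ((a x : ℝ) * y.2 - a y * x.2) / (x.2 * y.2) := by
      field_simp
    have hlow : 1 / (N : ℝ) ^ 2 ≤ |(a x : ℝ) / x.2 - a y / y.2| := by
      rw [e1, abs_div, abs_of_pos (mul_pos hqx' hqy'), div_le_div_iff₀ (by positivity) (by positivity)]
      have g1 : (x.2 : ℝ) ≤ N := by exact_mod_cast h3
      have g2 : (y.2 : ℝ) ≤ N := by exact_mod_cast k3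
      have g3 : (x.2 : ℝ) * y.2 ≤ (N : ℝ) ^ 2 := by
        rw [pow_two]
        exact mul_le_mul g1 g2 hqy'.le hN0.le
      have g4 : 0 ≤ (N : ℝ) ^ 2 := by positivity
      nlinarith
    have e2 : 1 / (2 * (N : ℝ) ^ 2) = 1 / (N : ℝ) ^ 2 / 2 := by
      field_simp
    have g1 := hθx.1
    have g2 := hθx.2
    have g3 := hθy.1
    have g4 := hθy.2
    rw [e2] at g1 g2 g3 g4
    have hlt : |(a x : ℝ) / x.2 - a y / y.2| < 1 / (N : ℝ) ^ 2 := by
      rw [abs_lt]
      constructor <;> linarith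
    linarith
  have hcard : (Bad.card : ENNReal) * ENNReal.ofReal (1 / (N : ℝ) ^ 2) ≤ volume B := by
    have h1 : volume (⋃ x ∈ Bad, I x) = ∑ x ∈ Bad, volume (I x) :=
      measure_biUnion_finset hdisj fun x _ => measurableSet_Ioo
    have h2 : ∀ x ∈ Bad, volume (I x) = ENNReal.ofReal (1 / (N : ℝ) ^ 2) := by
      intro x _
      rw [hI, Real.volume_Ioo]
      congr 1
      field_simp
      ring
    rw [Finset.sum_congr rfl h2, Finset.sum_const, nsmul_eq_mul] at h1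
    rw [← h1]
    exact measure_mono (iUnion₂_subset hIB)
  -- conclusion
  have hcov : {x : ℝ | ∃ p q : ℕ, p ≤ q ∧ N < 4 * q ∧ q ≤ N ∧ p.Coprime q ∧ ¬ GoodRat n η p q ∧
      |x - (p : ℝ) / q| ≤ 4 / (N : ℝ) ^ 2} ⊆
      ⋃ x ∈ Bad, Icc ((x.1 : ℝ) / x.2 - 4 / (N : ℝ) ^ 2) ((x.1 : ℝ) / x.2 + 4 / (N : ℝ) ^ 2) := by
    rintro θ ⟨p, q, h1, h2, h3, h4, h5, h6⟩
    rw [mem_iUnion₂]
    refine ⟨(p, q), ?_, ?_⟩
    · rw [hBad, Finset.mem_filter, Finset.mem_product, Finset.mem_range, Finset.mem_range]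
      refine ⟨⟨?_, ?_⟩, h1, h2, h3, h4, h5⟩
      · change p < N + 1
        omega
      · change q < N + 1
        omega
    · have := abs_le.1 h6
      constructor
      · change (p : ℝ) / q - 4 / (N : ℝ) ^ 2 ≤ θ
        linarith
      · change θ ≤ (p : ℝ) / q + 4 / (N : ℝ) ^ 2
        linarith
  refine (measure_mono hcov).trans ((measure_biUnion_finset_le _ _).trans ?_)
  have h2 : ∀ x ∈ Bad, volume (Icc ((x.1 : ℝ) / x.2 - 4 / (N : ℝ) ^ 2) ((x.1 : ℝ) / x.2 + 4 / (N : ℝ) ^ 2)) =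
      ENNReal.ofReal 8 * ENNReal.ofReal (1 / (N : ℝ) ^ 2) := by
    intro x _
    rw [Real.volume_Icc, ← ENNReal.ofReal_mul (by norm_num)]
    congr 1
    ring
  rw [Finset.sum_congr rfl h2, Finset.sum_const, nsmul_eq_mul]
  calc (Bad.card : ENNReal) * (ENNReal.ofReal 8 * ENNReal.ofReal (1 / (N : ℝ) ^ 2)) =
        ENNReal.ofReal 8 * ((Bad.card : ENNReal) * ENNReal.ofReal (1 / (N : ℝ) ^ 2)) := by ring
    _ ≤ ENNReal.ofReal 8 * ENNReal.ofReal (((n : ℝ) + 1) * (2 * (1 + Real.log N)) * (C * η ^ α)) := by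
        gcongr
        exact hcard.trans hvolB
    _ = ENNReal.ofReal (8 * (2 * ((n : ℝ) + 1) * C) * (1 + Real.log N) * η ^ α) := by
        rw [← ENNReal.ofReal_mul (by norm_num)]
        congr 1
        ring

end Pool.Agent.Lib.H70X
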