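import Pool.Agent.Lib.H70X.Defs

/-! # Chunk J0: the flow near a rational number (small)

Proof. Unfold. Evaluation: `Finset.sum` of `Z * (choose i l * (-r)^(i-l) - (if l = 0 then y^i else 0)) * u l`.
Determinant: at every `y` the matrix is lower triangular (`choose i l = 0` for `l > i`) with diagonal `1/U, Z, ..., Z`. -/

open Polynomial MeasureTheory Set Filter

namespace Pool.Agent.Lib.H70X

theorem ev_hJ_zero (n : ℕ) (r U Z y : ℝ) (u : Fin (n + 1) → ℤ) :
    ev (hJ n r U Z) y u 0 = u 0 / U := by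
  unfold ev hJ
  rw [Finset.sum_eq_single 0]
  · simp
    ring
  · intro l _ hl
    simp [hl]
  · intro h
    exact absurd (Finset.mem_univ _) h

theorem ev_hJ (n : ℕ) (r U Z y : ℝ) (u : Fin (n + 1) → ℤ) (m : Fin (n + 1)) (hm : m ≠ 0) :
    ev (hJ n r U Z) y u m = Z * (cd r u m - u 0 * y ^ (m : ℕ)) := by
  unfold ev hJ cd
  have h1 : (u 0 : ℝ) * y ^ (m : ℕ) = ∑ l : Fin (n + 1), if l = 0 then (u l : ℝ) * y ^ (m : ℕ) else 0 := by
    rw [Finset.sum_ite_eq' Finset.univ (0 : Fin (n + 1)) (fun l => (u l : ℝ) * y ^ (m : ℕ))]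
    simp
  rw [h1, ← Finset.sum_sub_distrib, Finset.mul_sum]
  refine Finset.sum_congr rfl fun l _ => ?_
  rw [Matrix.of_apply, if_neg hm]
  by_cases hl : l = 0
  · rw [if_pos hl, if_pos hl]
    simp only [eval_mul, eval_C, eval_sub, eval_pow, eval_X]
    ring
  · rw [if_neg hl, if_neg hl]
    simp only [eval_mul, eval_C, eval_sub, eval_zero]
    ring

theorem hJ_natDegree (n : ℕ) (r U Z : ℝ) (i l : Fin (n + 1)) :
    (hJ n r U Z i l).natDegree ≤ n := by
  unfold hJ
  rw [Matrix.of_apply]
  by_cases hi : i = 0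
  · rw [if_pos hi]
    by_cases hl : l = 0
    · rw [if_pos hl, natDegree_C]
      exact Nat.zero_le _
    · rw [if_neg hl, natDegree_zero]
      exact Nat.zero_le _
  · rw [if_neg hi]
    have hin : (i : ℕ) ≤ n := Nat.le_of_lt_succ i.2
    refine (natDegree_C_mul_le _ _).trans ((natDegree_sub_le _ _).trans ?_)
    apply max_le
    · rw [natDegree_C]
      exact Nat.zero_le _
    · by_cases hl : l = 0
      · rw [if_pos hl]
        exact (natDegree_X_pow_le _).trans hin
      · rw [if_neg hl, natDegree_zero]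
        exact Nat.zero_le _

theorem hJ_det (n : ℕ) (r U Z y : ℝ) :
    ((hJ n r U Z).map (Polynomial.eval y)).det = Z ^ n / U := by
  rw [Matrix.det_of_isLowerTriangular]
  · rw [Fin.prod_univ_succ]
    have h0 : ((hJ n r U Z).map (Polynomial.eval y)) 0 0 = 1 / U := by
      rw [Matrix.map_apply]
      unfold hJ
      rw [Matrix.of_apply, if_pos rfl, if_pos rfl, eval_C]
    have h1 : ∀ i : Fin n, ((hJ n r U Z).map (Polynomial.eval y)) i.succ i.succ = Z := by
      intro i
      rw [Matrix.map_apply]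
      unfold hJ
      rw [Matrix.of_apply, if_neg (Fin.succ_ne_zero i), if_neg (Fin.succ_ne_zero i)]
      simp
    rw [h0, Finset.prod_congr rfl fun i _ => h1 i]
    simp
    ring
  · intro i l hil
    have hil' : i < l := hil
    rw [Matrix.map_apply]
    unfold hJ
    rw [Matrix.of_apply]
    have hl : l ≠ 0 := by
      rintro rfl
      exact absurd hil' (Fin.not_lt_zero i)
    by_cases hi : i = 0
    · rw [if_pos hi, if_neg hl, eval_zero]
    · rw [if_neg hi, if_neg hl, Nat.choose_eq_zero_of_lt (by exact_mod_cast hil')]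
      simp

end Pool.Agent.Lib.H70X
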