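import Pool.Agent.Lib.H70X.J0
import Pool.Agent.Lib.H70X.J1

/-! # Chunk J2: if all minors of the flow are small on `[Y,2Y]` (medium)

Proof. Write `W_S = W r v S`, `S[t ↦ m]` = `Function.update S t m`, and let `C` be the constant of `coeff_bound n`.
(a) `S t ≠ 0` for all `t`: `mn (hJ n r U Z) y v S = Z^j det (cd r (v s) (S t) - v s 0 y^(S t)) = Z^j (W_S - ∑_t y^(S t) W_{S[t ↦ 0]})` (expansion in the
columns; two columns proportional to `v s 0` give 0). This is `Z^j` times a polynomial `g` in `y` of degree `≤ n` with `|g| ≤ ρ / Z^j` on `[Y,2Y]`.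
Its constant coefficient is `W_S`, so `|W_S| ≤ C ρ / Z^j`; if `S` is injective its coefficient of `y^(S t)` is `-W_{S[t ↦ 0]}`, so `|W_{S[t ↦ 0]}| ≤ C ρ / (Z^j Y^(S t))`.
(b) `S t = 0` for exactly one `t`: subtracting multiples of this column from the others, `mn y v S = U⁻¹ Z^(j-1) W_S`, so `|W_S| < ρ U Z / Z^j`.
(c) `S` not injective: `W_S = 0`.
First claim: (a), (b), (c), `U Z ≥ 1`. Second claim: `m = 0`: (a). `m ≥ 1`, `S` injective (otherwise (c)): if `0` is not a value of `S`, (a) and `Y ≤ 1`;
if `S t = 0`, apply the second statement of (a) to `S' = S[t ↦ m]` (injective, no value 0), as `S = S'[t ↦ 0]`. -/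

open Polynomial MeasureTheory Set Filter

namespace Pool.Agent.Lib.H70X

theorem J2_cd_zero {n : ℕ} (x : ℝ) (u : Fin (n + 1) → ℤ) : cd x u 0 = u 0 := by
  unfold cd
  rw [Fin.sum_univ_succ]
  simp

theorem J2_col {j : ℕ} {A B : Matrix (Fin j) (Fin j) ℝ} (c : Fin j → ℝ) (k : Fin j)
    (hk : c k = 0) (h : ∀ s t, A s t = B s t + c t * B s k) : A.det = B.det := by
  rw [← Matrix.det_transpose A, ← Matrix.det_transpose B]
  exact Matrix.det_eq_of_forall_row_eq_smul_add_const c k hk fun t s => h s t

theorem J2_rank1 {j : ℕ} (A : Matrix (Fin j) (Fin j) ℝ) (b c : Fin j → ℝ)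
    (T : Finset (Fin j)) :
    (Matrix.of fun s t => if t ∈ T then A s t - b s * c t else A s t).det =
      A.det - ∑ t ∈ T, c t * (A.updateCol t b).det := by
  classical
  induction T using Finset.induction_on with
  | empty =>
    simp only [Finset.notMem_empty, if_false, Finset.sum_empty, sub_zero]
    rfl
  | insert t₀ T ht ih =>
    rw [Finset.sum_insert ht]
    set M : Matrix (Fin j) (Fin j) ℝ :=
      Matrix.of fun s t => if t ∈ T then A s t - b s * c t else A s t with hM
    have h1 : (Matrix.of fun s t => if t ∈ insert t₀ T then A s t - b s * c t else A s t) =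
        M.updateCol t₀ ((fun s => A s t₀) + (-c t₀) • b) := by
      ext s t
      by_cases h : t = t₀
      · subst h
        rw [Matrix.updateCol_self, Matrix.of_apply, if_pos (Finset.mem_insert_self _ _),
          Pi.add_apply, Pi.smul_apply, smul_eq_mul]
        ring
      · rw [Matrix.updateCol_ne h, Matrix.of_apply, hM, Matrix.of_apply]
        by_cases h2 : t ∈ T
        · rw [if_pos h2, if_pos (Finset.mem_insert_of_mem h2)]
        · rw [if_neg h2, if_neg]
          rw [Finset.mem_insert, not_or]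
          exact ⟨h, h2⟩
    have h2 : M.updateCol t₀ (fun s => A s t₀) = M := by
      ext s t
      by_cases h : t = t₀
      · subst h
        rw [Matrix.updateCol_self, hM, Matrix.of_apply, if_neg ht]
      · rw [Matrix.updateCol_ne h]
    have h3 : (M.updateCol t₀ b).det = (A.updateCol t₀ b).det := by
      refine J2_col (fun t => if t ∈ T then -c t else 0) t₀ (if_neg ht) fun s t => ?_
      rw [Matrix.updateCol_self]
      by_cases h : t = t₀
      · subst h
        rw [Matrix.updateCol_self, Matrix.updateCol_self, if_neg ht]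
        ring
      · rw [Matrix.updateCol_ne h, Matrix.updateCol_ne h, hM, Matrix.of_apply]
        by_cases h4 : t ∈ T
        · rw [if_pos h4, if_pos h4]
          ring
        · rw [if_neg h4, if_neg h4]
          ring
    rw [h1, Matrix.det_updateCol_add, Matrix.det_updateCol_smul, h2, h3, ih]
    ring

/-- the matrix of the minor -/
noncomputable def J2_A {n j : ℕ} (r : ℝ) (v : Fin j → Fin (n + 1) → ℤ)
    (S : Fin j → Fin (n + 1)) : Matrix (Fin j) (Fin j) ℝ :=
  Matrix.of fun s t => cd r (v s) (S t : ℕ)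

theorem J2_upd {n j : ℕ} (r : ℝ) (v : Fin j → Fin (n + 1) → ℤ) (S : Fin j → Fin (n + 1))
    (t : Fin j) : ((J2_A r v S).updateCol t fun s => (v s 0 : ℝ)).det =
      W r v (Function.update S t 0) := by
  unfold W
  congr 1
  ext s t'
  by_cases h : t' = t
  · subst h
    rw [Matrix.updateCol_self, Matrix.of_apply, Function.update_self, Fin.val_zero, J2_cd_zero]
  · rw [Matrix.updateCol_ne h, Matrix.of_apply, Function.update_of_ne h]
    rfl

/-- the polynomial -/
noncomputable def J2_g {n j : ℕ} (r : ℝ) (v : Fin j → Fin (n + 1) → ℤ)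
    (S : Fin j → Fin (n + 1)) : ℝ[X] :=
  C (W r v S) - ∑ t, C (W r v (Function.update S t 0)) * X ^ (S t : ℕ)

theorem J2_mn {n j : ℕ} (r U Z y : ℝ) (v : Fin j → Fin (n + 1) → ℤ) (S : Fin j → Fin (n + 1))
    (hS : ∀ t, S t ≠ 0) : mn (hJ n r U Z) y v S = Z ^ j * (J2_g r v S).eval y := by
  have h1 : (Matrix.of fun s t : Fin j => ev (hJ n r U Z) y (v s) (S t)) =
      Matrix.of fun s t => Z * (Matrix.of fun s t => if t ∈ (Finset.univ : Finset (Fin j)) then
        (J2_A r v S) s t - (v s 0 : ℝ) * y ^ (S t : ℕ) else (J2_A r v S) s t) s t := by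
    ext s t
    rw [Matrix.of_apply, Matrix.of_apply, Matrix.of_apply, if_pos (Finset.mem_univ _),
      ev_hJ n r U Z y (v s) (S t) (hS t)]
    rfl
  have h2 := Matrix.det_mul_row (fun _ : Fin j => Z)
    (Matrix.of fun s t => if t ∈ (Finset.univ : Finset (Fin j)) then
        (J2_A r v S) s t - (v s 0 : ℝ) * y ^ (S t : ℕ) else (J2_A r v S) s t)
  rw [Finset.prod_const, Finset.card_univ, Fintype.card_fin] at h2
  unfold mn
  rw [h1, h2, J2_rank1]
  congr 1
  unfold J2_g
  rw [eval_sub, eval_C, eval_finset_sum]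
  congr 1
  refine Finset.sum_congr rfl fun t _ => ?_
  rw [J2_upd, eval_mul, eval_C, eval_pow, eval_X]
  ring

theorem J2_deg {n j : ℕ} (r : ℝ) (v : Fin j → Fin (n + 1) → ℤ) (S : Fin j → Fin (n + 1)) :
    (J2_g r v S).natDegree ≤ n := by
  unfold J2_g
  refine (natDegree_sub_le _ _).trans (max_le ?_ ?_)
  · rw [natDegree_C]
    exact Nat.zero_le _
  · refine natDegree_sum_le_of_forall_le _ _ fun t _ => ?_
    refine (natDegree_C_mul_X_pow_le _ _).trans ?_
    exact Nat.lt_succ_iff.1 (S t).2

theorem J2_coeff0 {n j : ℕ} (r : ℝ) (v : Fin j → Fin (n + 1) → ℤ) (S : Fin j → Fin (n + 1))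
    (hS : ∀ t, S t ≠ 0) : (J2_g r v S).coeff 0 = W r v S := by
  unfold J2_g
  rw [coeff_sub, coeff_C_zero, finset_sum_coeff, Finset.sum_eq_zero, sub_zero]
  intro t _
  rw [coeff_C_mul_X_pow, if_neg]
  intro h
  exact hS t (Fin.ext h.symm)

theorem J2_coeff {n j : ℕ} (r : ℝ) (v : Fin j → Fin (n + 1) → ℤ) (S : Fin j → Fin (n + 1))
    (hS : ∀ t, S t ≠ 0) (hi : Function.Injective S) (t : Fin j) :
    (J2_g r v S).coeff (S t : ℕ) = -W r v (Function.update S t 0) := by
  unfold J2_g
  have h0 : (S t : ℕ) ≠ 0 := fun h => hS t (Fin.ext h)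
  rw [coeff_sub, coeff_C_ne_zero h0, finset_sum_coeff, Finset.sum_eq_single t]
  · rw [coeff_C_mul_X_pow, if_pos rfl, zero_sub]
  · intro t' _ ht'
    rw [coeff_C_mul_X_pow, if_neg]
    intro h
    exact ht' (hi (Fin.ext h)).symm
  · intro h
    exact absurd (Finset.mem_univ _) h

theorem J2_noninj {n j : ℕ} (r : ℝ) (v : Fin j → Fin (n + 1) → ℤ) (S : Fin j → Fin (n + 1))
    (hi : ¬ Function.Injective S) : W r v S = 0 := by
  unfold Function.Injective at hi
  push Not at hi
  obtain ⟨a, b, h1, h2⟩ := hi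
  unfold W
  refine Matrix.det_zero_of_column_eq h2 fun s => ?_
  rw [Matrix.of_apply, Matrix.of_apply, h1]

theorem J2_one {n j : ℕ} (r U Z y : ℝ) (v : Fin j → Fin (n + 1) → ℤ) (S : Fin j → Fin (n + 1))
    (hi : Function.Injective S) (t₀ : Fin j) (h0 : S t₀ = 0) :
    mn (hJ n r U Z) y v S = 1 / U * Z ^ (j - 1) * W r v S := by
  classical
  have hne : ∀ t, t ≠ t₀ → S t ≠ 0 := fun t ht h => ht (hi (h.trans h0.symm))
  have h1 : (Matrix.of fun s t : Fin j => ev (hJ n r U Z) y (v s) (S t)) =
      Matrix.of fun s t => (Function.update (fun _ : Fin j => Z) t₀ (1 / U)) t *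
        (Matrix.of fun s t => (J2_A r v S) s t +
          (if t = t₀ then 0 else -y ^ (S t : ℕ)) * (J2_A r v S) s t₀) s t := by
    ext s t
    rw [Matrix.of_apply, Matrix.of_apply, Matrix.of_apply]
    have h2 : (J2_A r v S) s t₀ = v s 0 := by
      rw [J2_A, Matrix.of_apply, h0, Fin.val_zero, J2_cd_zero]
    by_cases ht : t = t₀
    · subst ht
      rw [Function.update_self, if_pos rfl, h0, ev_hJ_zero, h2]
      ring
    · rw [Function.update_of_ne ht, if_neg ht, ev_hJ n r U Z y (v s) (S t) (hne t ht), h2]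
      have h3 : (J2_A r v S) s t = cd r (v s) (S t : ℕ) := rfl
      rw [h3]
      ring
  unfold mn
  rw [h1, Matrix.det_mul_row, Finset.prod_update_of_mem (Finset.mem_univ _), Finset.prod_const]
  have h3 : (Finset.univ \ {t₀} : Finset (Fin j)).card = j - 1 := by
    rw [Finset.card_sdiff_of_subset (Finset.subset_univ _), Finset.card_univ, Fintype.card_fin,
      Finset.card_singleton]
  rw [h3]
  congr 1
  exact J2_col (fun t => if t = t₀ then 0 else -y ^ (S t : ℕ)) t₀ (if_pos rfl) fun s t => rfl

theorem minors_small (n : ℕ) : ∃ C : ℝ, 1 ≤ C ∧ ∀ (j : ℕ) (r U Z Y ρ : ℝ)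
    (v : Fin j → Fin (n + 1) → ℤ), 1 ≤ U → 1 ≤ Z → 0 < Y → Y ≤ 1 → 0 < ρ →
    (∀ y ∈ Icc Y (2 * Y), ∀ S : Fin j → Fin (n + 1), |mn (hJ n r U Z) y v S| < ρ) →
    (∀ S : Fin j → Fin (n + 1), |W r v S| ≤ C * ρ * (U * Z) / Z ^ j) ∧
    ∀ (S : Fin j → Fin (n + 1)) (m : Fin (n + 1)), (∀ t, S t ≠ m) →
      |W r v S| ≤ C * ρ / (Z ^ j * Y ^ (m : ℕ)) := by
  obtain ⟨C, hC, hco⟩ := coeff_bound n
  refine ⟨C, hC, ?_⟩
  intro j r U Z Y ρ v hU hZ hY hY1 hρ hsm
  have hU0 : 0 < U := by linarith
  have hZ0 : 0 < Z := by linarith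
  have hC0 : 0 < C := by linarith
  have hZj : 0 < Z ^ j := pow_pos hZ0 j
  have hUZ : 1 ≤ U * Z := by nlinarith
  -- the polynomial bound
  have hg : ∀ S : Fin j → Fin (n + 1), (∀ t, S t ≠ 0) → ∀ m : ℕ,
      |(J2_g r v S).coeff m| * Y ^ m ≤ C * (ρ / Z ^ j) := by
    intro S hS m
    refine hco (J2_g r v S) (ρ / Z ^ j) Y (J2_deg r v S) hY ?_ m
    intro y hy
    have h1 := hsm y hy S
    rw [J2_mn r U Z y v S hS, abs_mul, abs_of_pos hZj] at h1
    rw [le_div_iff₀ hZj, mul_comm]
    exact h1.le
  have ha0 : ∀ S : Fin j → Fin (n + 1), (∀ t, S t ≠ 0) → |W r v S| ≤ C * ρ / Z ^ j := by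
    intro S hS
    have h1 := hg S hS 0
    rw [J2_coeff0 r v S hS, pow_zero, mul_one] at h1
    rw [mul_div_assoc]
    exact h1
  constructor
  · intro S
    have hfin : C * ρ / Z ^ j ≤ C * ρ * (U * Z) / Z ^ j := by
      rw [div_le_div_iff_of_pos_right hZj]
      have : 0 < C * ρ := by positivity
      nlinarith
    by_cases hi : Function.Injective S
    · by_cases hS : ∀ t, S t ≠ 0
      · exact (ha0 S hS).trans hfin
      · push Not at hS
        obtain ⟨t₀, ht₀⟩ := hS
        have h1 := hsm Y ⟨le_rfl, by linarith⟩ S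
        rw [J2_one r U Z Y v S hi t₀ ht₀, abs_mul, abs_of_pos (by positivity)] at h1
        have hj : j - 1 + 1 = j := by
          have := t₀.2
          omega
        have h2 : Z ^ j = Z ^ (j - 1) * Z := by rw [← pow_succ, hj]
        rw [le_div_iff₀ hZj, h2]
        have h3 : 1 / U * Z ^ (j - 1) * |W r v S| * (U * Z) ≤ ρ * (U * Z) :=
          mul_le_mul_of_nonneg_right h1.le (by positivity)
        have h4 : 1 / U * Z ^ (j - 1) * |W r v S| * (U * Z) = |W r v S| * (Z ^ (j - 1) * Z) := by
          field_simp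
        rw [h4] at h3
        refine h3.trans ?_
        have h5 : 0 < ρ * (U * Z) := by positivity
        nlinarith
    · rw [J2_noninj r v S hi, abs_zero]
      positivity
  · intro S m hSm
    by_cases hi : Function.Injective S
    · by_cases hS : ∀ t, S t ≠ 0
      · refine (ha0 S hS).trans ?_
        rw [div_le_div_iff₀ hZj (by positivity)]
        have h1 : Y ^ (m : ℕ) ≤ 1 := pow_le_one₀ hY.le hY1
        have h2 : 0 < C * ρ * Z ^ j := by positivity
        nlinarith
      · push Not at hS
        obtain ⟨t₀, ht₀⟩ := hS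
        have hm0 : m ≠ 0 := by
          rintro rfl
          exact hSm t₀ ht₀
        set S' := Function.update S t₀ m with hS'
        have hS'0 : ∀ t, S' t ≠ 0 := by
          intro t
          by_cases ht : t = t₀
          · rw [ht, hS', Function.update_self]
            exact hm0
          · rw [hS', Function.update_of_ne ht]
            intro h
            exact ht (hi (h.trans ht₀.symm))
        have hS'i : Function.Injective S' := by
          intro a b hab
          by_cases ha : a = t₀
          · by_cases hb : b = t₀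
            · rw [ha, hb]
            · rw [ha, hS', Function.update_self, Function.update_of_ne hb] at hab
              exact absurd hab.symm (hSm b)
          · by_cases hb : b = t₀
            · rw [hb, hS', Function.update_self, Function.update_of_ne ha] at hab
              exact absurd hab (hSm a)
            · rw [hS', Function.update_of_ne ha, Function.update_of_ne hb] at hab
              exact hi hab
        have h1 := hg S' hS'0 (S' t₀ : ℕ)
        rw [J2_coeff r v S' hS'0 hS'i t₀, abs_neg] at h1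
        have h2 : Function.update S' t₀ 0 = S := by
          rw [hS', Function.update_idem, ← ht₀, Function.update_eq_self]
        have h3 : S' t₀ = m := by rw [hS', Function.update_self]
        rw [h2, h3] at h1
        rw [le_div_iff₀ (by positivity)]
        calc |W r v S| * (Z ^ j * Y ^ (m : ℕ)) = |W r v S| * Y ^ (m : ℕ) * Z ^ j := by ring
          _ ≤ C * (ρ / Z ^ j) * Z ^ j := mul_le_mul_of_nonneg_right h1 hZj.le
          _ = C * ρ := by field_simp
    · rw [J2_noninj r v S hi, abs_zero]
      positivity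

end Pool.Agent.Lib.H70X
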