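import Pool.Agent.Lib.H70X.Defs

/-! # Chunk J5: the inequality between the exponents (medium, real numbers only)

Here `N = n + 1 - j ≥ 1`, `Z = q^z` (`z ≥ 1`, `z = log Z / log q`), `Y = q^(-(w0+n))`, `κ = n/w0 - (j-1)`, so
`K = ρ q^(κ z - a N)` and `B = ρ q^(-(j z - a (w0 + j - 1)))` (exponents of `q`).
Facts: (K0) `κ ≤ N`. (K2) `κ (w0 + j - 1) ≤ j N`: the difference is `(j-1)(w0-1)(n/w0+1) ≥ 0`.
(K1) if `a, i ≥ 1` and `κ z ≥ a N` then `N (j z - a (w0 + j - 1)) ≥ i (κ z - a N)`: `κ > 0`, and `N j - i κ ≥ N j - i N = a N > 0`, so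
`z (N j - i κ) ≥ (a N/κ)(N j - i κ) = a N (N j/κ - i) ≥ a N (w0 + j - 1 - i)` by (K2), which is the claim.

Proof. `i = 0` (`a = j`): if `κ z ≤ j N` then `K ≤ ρ < 1`. Otherwise `κ > 0` and, by (K2), `z ≥ j N / κ ≥ w0 + j - 1`, so `B ≤ ρ < 1`.
`i ≥ 1, a = 0`: `B = ρ q^(-j z) ≤ ρ q^(-j) < c / q^i` as `z ≥ 1`.
`i ≥ 1, a ≥ 1`: let `r1 = (κ z - a N)/N`. If `r1 ≤ 0` take `R = 1`: `K ≤ ρ < c η^n ≤ c η^i`. If `0 < r1 ≤ 1` take `R = q^r1`: `K = ρ R^N < c η^i R^N`, and
`B ≤ ρ q^(-i r1) = ρ / R^i < c η^i / R^i` by (K1). If `r1 > 1`, `B ≤ ρ q^(-i r1) ≤ ρ / q^i < c / q^i` by (K1). -/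

open Polynomial MeasureTheory Set Filter

namespace Pool.Agent.Lib.H70X

theorem exponents (n j a i : ℕ) (w0 q Z ρ c η K B : ℝ) (hj : a + i = j) (hj1 : 1 ≤ j)
    (hjn : j ≤ n) (hw0 : 1 ≤ w0) (hq : 1 < q) (hZ : q ≤ Z) (hρ : 0 < ρ) (hc : 0 < c) (hc1 : c ≤ 1)
    (hη : 0 < η) (hη1 : η ≤ 1) (hρc : ρ < c * η ^ n)
    (hK : K = ρ * (Z ^ ((n : ℝ) / w0) * Z) / Z ^ j / q ^ (a * (n + 1 - j)))
    (hB : B = ρ / (Z ^ j * q ^ (a * (n + 1 - j)) * (q ^ (-(w0 + n))) ^ a)) :
    (i = 0 → K < 1 ∨ B < 1) ∧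
    (1 ≤ i → (K < c / q ^ i ∨ B < c / q ^ i) ∨ ∃ R : ℝ, 1 ≤ R ∧ R ≤ q ∧
      K < c * η ^ i * R ^ (n + 1 - j) ∧ (K < c * η ^ i / R ^ i ∨ B < c * η ^ i / R ^ i)) := by
  have hq0 : (0 : ℝ) < q := by linarith
  have hZ0 : (0 : ℝ) < Z := by linarith
  obtain ⟨z, hz1, hzZ⟩ : ∃ z : ℝ, 1 ≤ z ∧ Z = q ^ z := by
    refine ⟨Real.logb q Z, ?_, (Real.rpow_logb hq0 (ne_of_gt hq) hZ0).symm⟩
    rw [Real.le_logb_iff_rpow_le hq hZ0, Real.rpow_one]
    exact hZ
  obtain ⟨N, hN⟩ : ∃ N : ℕ, N + j = n + 1 := ⟨n + 1 - j, by omega⟩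
  have hN' : n + 1 - j = N := by omega
  have hN1 : 1 ≤ N := by omega
  have hNR : (N : ℝ) + j = n + 1 := by exact_mod_cast hN
  have hN1R : (1 : ℝ) ≤ N := by exact_mod_cast hN1
  have hjR : (a : ℝ) + i = j := by exact_mod_cast hj
  have hj1R : (1 : ℝ) ≤ j := by exact_mod_cast hj1
  have haR : (0 : ℝ) ≤ a := Nat.cast_nonneg a
  have hiR : (0 : ℝ) ≤ i := Nat.cast_nonneg i
  have hw00 : (0 : ℝ) < w0 := by linarith
  obtain ⟨t, ht⟩ : ∃ t : ℝ, t = (n : ℝ) / w0 := ⟨_, rfl⟩
  have htw : t * w0 = n := by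
    rw [ht]
    field_simp
  have hn0 : (0 : ℝ) ≤ n := Nat.cast_nonneg n
  have ht0 : 0 ≤ t := by
    rw [ht]
    positivity
  have htn : t ≤ n := by nlinarith
  obtain ⟨κ, hκ⟩ : ∃ κ : ℝ, κ = t - (j - 1) := ⟨_, rfl⟩
  have hK0 : κ ≤ N := by
    rw [hκ]
    linarith
  have hK2 : κ * (w0 + j - 1) ≤ j * N := by
    have h1 : (0 : ℝ) ≤ (j - 1) * (w0 - 1) * (1 + t) := by
      apply mul_nonneg (mul_nonneg _ _) <;> linarith
    have h2 : (j : ℝ) * N - κ * (w0 + j - 1) = (j - 1) * (w0 - 1) * (1 + t) := by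
      have hNe : (N : ℝ) = t * w0 + 1 - j := by linarith
      rw [hNe, hκ]
      ring
    linarith
  rw [hN'] at hK hB ⊢
  rw [← ht] at hK
  have hKq : K = ρ * q ^ (κ * z - a * N) := by
    rw [hK, hzZ, ← Real.rpow_mul hq0.le, ← Real.rpow_mul_natCast hq0.le,
      ← Real.rpow_add hq0, ← Real.rpow_natCast q (a * N), mul_div_assoc, mul_div_assoc,
      ← Real.rpow_sub hq0, ← Real.rpow_sub hq0]
    congr 2
    rw [hκ]
    push_cast
    ring
  have hBq : B = ρ * q ^ (-(j * z - a * (w0 + j - 1))) := by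
    rw [hB, hzZ, ← Real.rpow_mul_natCast hq0.le, ← Real.rpow_mul_natCast hq0.le,
      ← Real.rpow_natCast q (a * N), ← Real.rpow_add hq0, ← Real.rpow_add hq0, div_eq_mul_inv,
      ← Real.rpow_neg hq0.le]
    congr 2
    push_cast
    have hNe : (N : ℝ) = n + 1 - j := by linarith
    rw [hNe]
    ring
  have hηn : η ^ n ≤ 1 := pow_le_one₀ hη.le hη1
  have hρ1 : ρ < c := lt_of_lt_of_le hρc (mul_le_of_le_one_right hc.le hηn)
  have hρi : i ≤ n → ρ < c * η ^ i := fun h => lt_of_lt_of_le hρc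
    (mul_le_mul_of_nonneg_left (pow_le_pow_of_le_one hη.le hη1 h) hc.le)
  have hle1 : ∀ x : ℝ, x ≤ 0 → ρ * q ^ x ≤ ρ := fun x hx =>
    mul_le_of_le_one_right hρ.le (Real.rpow_le_one_of_one_le_of_nonpos hq.le hx)
  constructor
  · intro hi
    subst hi
    have haj : (a : ℝ) = j := by simpa using hjR
    by_cases h : κ * z ≤ j * N
    · left
      rw [hKq]
      have h1 : κ * z - a * N ≤ 0 := by
        rw [haj]
        linarith
      linarith [hle1 _ h1]
    · right
      push Not at h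
      rw [hBq]
      have hκ0 : 0 < κ := by
        by_contra hc'
        push Not at hc'
        have h1 : κ * z ≤ 0 := mul_nonpos_of_nonpos_of_nonneg hc' (by linarith)
        have h2 : (0 : ℝ) ≤ j * N := by positivity
        linarith
      have h1 : w0 + j - 1 ≤ z := by
        have h3 : κ * (w0 + j - 1) ≤ κ * z := by linarith
        exact le_of_mul_le_mul_left h3 hκ0
      have h2 : -(j * z - a * (w0 + j - 1)) ≤ 0 := by
        rw [haj]
        have h4 : (j : ℝ) * (w0 + j - 1) ≤ j * z := mul_le_mul_of_nonneg_left h1 (by linarith)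
        linarith
      linarith [hle1 _ h2]
  · intro hi
    have hin : i ≤ n := by omega
    have hi1R : (1 : ℝ) ≤ i := by exact_mod_cast hi
    have hqi : ∀ x : ℝ, (i : ℝ) ≤ x → ρ * q ^ (-x) < c / q ^ i := by
      intro x hx
      have h1 : q ^ (-x) ≤ q ^ (-(i : ℝ)) := Real.rpow_le_rpow_of_exponent_le hq.le (by linarith)
      have h2 : q ^ (-(i : ℝ)) = (q ^ i)⁻¹ := by
        rw [Real.rpow_neg hq0.le, Real.rpow_natCast]
      rw [h2] at h1
      have h3 : 0 < (q ^ i)⁻¹ := by positivity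
      calc ρ * q ^ (-x) ≤ ρ * (q ^ i)⁻¹ := mul_le_mul_of_nonneg_left h1 hρ.le
        _ < c * (q ^ i)⁻¹ := mul_lt_mul_of_pos_right hρ1 h3
        _ = c / q ^ i := by rw [div_eq_mul_inv]
    by_cases ha : a = 0
    · left
      right
      rw [hBq]
      apply hqi
      subst ha
      have hij : (i : ℝ) = j := by simpa using hjR
      rw [hij]
      simp only [Nat.cast_zero, zero_mul, sub_zero]
      nlinarith
    · have ha1 : (1 : ℝ) ≤ a := by exact_mod_cast Nat.one_le_iff_ne_zero.mpr ha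
      have haN : (0 : ℝ) < a * N := by positivity
      obtain ⟨r1, hr1⟩ : ∃ r1 : ℝ, r1 = (κ * z - a * N) / N := ⟨_, rfl⟩
      have hr1N : r1 * N = κ * z - a * N := by
        rw [hr1]
        field_simp
      by_cases h0 : r1 ≤ 0
      · right
        have h1 : κ * z - a * N ≤ 0 := by
          rw [← hr1N]
          exact mul_nonpos_of_nonpos_of_nonneg h0 (by linarith)
        have h2 : K < c * η ^ i := by
          rw [hKq]
          exact lt_of_le_of_lt (hle1 _ h1) (hρi hin)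
        refine ⟨1, le_rfl, hq.le, ?_, Or.inl ?_⟩
        · simpa using h2
        · simpa using h2
      · push Not at h0
        have h1 : 0 < κ * z - a * N := by
          rw [← hr1N]
          positivity
        have hκ0 : 0 < κ := by
          by_contra hc'
          push Not at hc'
          have h2 : κ * z ≤ 0 := mul_nonpos_of_nonpos_of_nonneg hc' (by linarith)
          linarith
        -- (K1)
        have hK1 : i * r1 ≤ j * z - a * (w0 + j - 1) := by
          have h3 : 0 ≤ κ * (N * (j * z - a * (w0 + j - 1)) - i * (κ * z - a * N)) := by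
            have h4 : 0 ≤ (N : ℝ) * j - i * κ := by
              have : (i : ℝ) * κ ≤ i * N := mul_le_mul_of_nonneg_left hK0 hiR
              nlinarith
            have h5 : 0 ≤ (κ * z - a * N) * (N * j - i * κ) := mul_nonneg h1.le h4
            have h6 : 0 ≤ a * N * (j * N - κ * (w0 + j - 1)) :=
              mul_nonneg haN.le (by linarith)
            have h7 : κ * (N * (j * z - a * (w0 + j - 1)) - i * (κ * z - a * N)) =
                (κ * z - a * N) * (N * j - i * κ) + a * N * (j * N - κ * (w0 + j - 1)) := by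
              ring
            rw [h7]
            exact add_nonneg h5 h6
          have h8 : 0 ≤ N * (j * z - a * (w0 + j - 1)) - i * (κ * z - a * N) :=
            nonneg_of_mul_nonneg_right h3 hκ0
          rw [← hr1N] at h8
          have h9 : (N : ℝ) * (i * r1) ≤ N * (j * z - a * (w0 + j - 1)) := by linarith
          exact le_of_mul_le_mul_left h9 (by linarith)
        by_cases hr : r1 ≤ 1
        · right
          refine ⟨q ^ r1, Real.one_le_rpow hq.le h0.le, ?_, ?_, Or.inr ?_⟩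
          · calc q ^ r1 ≤ q ^ (1 : ℝ) := Real.rpow_le_rpow_of_exponent_le hq.le hr
              _ = q := Real.rpow_one q
          · rw [hKq, ← Real.rpow_mul_natCast hq0.le, hr1N]
            exact mul_lt_mul_of_pos_right (hρi hin) (Real.rpow_pos_of_pos hq0 _)
          · rw [hBq, ← Real.rpow_mul_natCast hq0.le, div_eq_mul_inv, ← Real.rpow_neg hq0.le]
            calc ρ * q ^ (-(j * z - a * (w0 + j - 1))) ≤ ρ * q ^ (-(r1 * i)) := by
                  apply mul_le_mul_of_nonneg_left _ hρ.le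
                  apply Real.rpow_le_rpow_of_exponent_le hq.le
                  linarith
              _ < c * η ^ i * q ^ (-(r1 * i)) :=
                mul_lt_mul_of_pos_right (hρi hin) (Real.rpow_pos_of_pos hq0 _)
        · push Not at hr
          left
          right
          rw [hBq]
          apply hqi
          have h2 : (i : ℝ) * 1 ≤ i * r1 := mul_le_mul_of_nonneg_left hr.le hiR
          linarith

end Pool.Agent.Lib.H70X
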