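import Pool.Agent.Lib.H70X.J2
import Pool.Agent.Lib.H70X.J4
import Pool.Agent.Lib.H70X.J5

/-! # Chunk J6: the flow near a good rational number has no small sublattices
(medium/large, assembly by induction)

Proof. Let `C` be the constant of `minors_small n`, `c1` that of `caseA n`, `ρ' = c1 η^n / 2`, `ρ = ρ' / C`, so the final constant is `c = c1 / (2 C)` (`≤ 1`).
Let `r = p/q`, `Y = q^(-(w0+n)) ≤ 1`, `U = Z^(n/w0) ≥ 1`, and suppose that all minors are `< ρ` on `[Y,2Y]`. `j ≤ n + 1`.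
`j = n + 1`: for `S = id`, `mn y v id = det (hJ y) det v` and `|det v| ≥ 1` (integer, independent), `det (hJ y) = Z^n / U ≥ 1` (`hJ_det`): contradiction.
`1 ≤ j ≤ n`: let `N = n + 1 - j`. Define `K_a = ρ' (U Z) / Z^j / q^(a N)`, `B_a = ρ' / (Z^j q^(a N) Y^a)`.
CLAIM(a), `0 ≤ a ≤ j`: there are linearly independent `w_1, ..., w_i ∈ ℤ^(n-a+1)`, `i = j - a`, with `|W r w S| ≤ K_a` for all `S`, and
`|W r w S| ≤ B_a / Y^m` whenever `m` is not a value of `S` (`0 ≤ m ≤ n - a`). `a = 0` is `minors_small`.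
`a → a+1` (`i = j - a ≥ 1`, so `n - a ≥ i ≥ 1`, write `n - a = n' + 1`): if the `bar (w_s)` are independent, `caseA` (with `K = K_a` and `B = min K_a B_a`, which
bounds the `|W r w S|` with `S` without the value 0) contradicts `exponents` (for `a`, `i ≥ 1`; note `n' + 2 - i = N`). So they are dependent and
`strip` (`i = i' + 1`) gives `w'` with `|W r w' S| q^N ≤ |W r w (cons 0 (succ ∘ S))|` (`n' + 1 - i' = N`), so `≤ K_a`, and if `m` is not a value of `S`, `m + 1` is not a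
value of `cons 0 (succ ∘ S)`, so `≤ B_a / Y^(m+1)`: this is CLAIM(a+1).
CLAIM(j): `i = 0`, the empty minor is 1, so `1 ≤ K_j` and `1 ≤ B_j` (`m = 0`): contradiction to `exponents` with `i = 0`.
(It is convenient to prove by induction on `i`, for all `n'' i a` with `n'' + a = n`, `i + a = j`, that no such tuple `w` exists.) -/

open Polynomial MeasureTheory Set Filter

namespace Pool.Agent.Lib.H70X

private theorem j6_claim (n j p q : ℕ) (w0 η Z ρ c : ℝ) (hj1 : 1 ≤ j) (hjn : j ≤ n)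
    (hw0 : 1 ≤ w0) (hq2 : 2 ≤ q) (hpq : p ≤ q) (hcop : p.Coprime q) (hη : 0 < η) (hη1 : η ≤ 1)
    (hgood : GoodRat n η p q) (hZ : (q : ℝ) ≤ Z) (hρ : 0 < ρ) (hc : 0 < c) (hc1 : c ≤ 1)
    (hρc : ρ < c * η ^ n)
    (hA : ∀ (n' i p q : ℕ) (η R K B : ℝ)
      (w : Fin i → Fin (n' + 2) → ℤ), n' + 1 ≤ n → 1 ≤ i → i ≤ n' + 1 → 0 < q → p ≤ q → 0 < η →
      η ≤ 1 → GoodRat n η p q → 1 ≤ R → R ≤ q → LinearIndependent ℤ w →
      LinearIndependent ℤ (fun s => bar p q (w s)) →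
      (∀ S : Fin i → Fin (n' + 2), |W ((p : ℝ) / q) w S| ≤ K) →
      (∀ S : Fin i → Fin (n' + 2), (∀ t, S t ≠ 0) → |W ((p : ℝ) / q) w S| ≤ B) →
      c / (q : ℝ) ^ i ≤ B ∧ (c * η ^ i * R ^ (n' + 2 - i) ≤ K ∨ c * η ^ i / R ^ i ≤ B))
    (K B : ℕ → ℝ)
    (hK : ∀ a, K a = ρ * (Z ^ ((n : ℝ) / w0) * Z) / Z ^ j / (q : ℝ) ^ (a * (n + 1 - j)))
    (hB : ∀ a, B a = ρ / (Z ^ j * (q : ℝ) ^ (a * (n + 1 - j)) * ((q : ℝ) ^ (-(w0 + n))) ^ a)) :
    ∀ i n'' a : ℕ, n'' + a = n → a + i = j → ∀ w : Fin i → Fin (n'' + 1) → ℤ,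
      LinearIndependent ℤ w → (∀ S : Fin i → Fin (n'' + 1), |W ((p : ℝ) / q) w S| ≤ K a) →
      (∀ (S : Fin i → Fin (n'' + 1)) (m : Fin (n'' + 1)), (∀ t, S t ≠ m) →
        |W ((p : ℝ) / q) w S| ≤ B a / ((q : ℝ) ^ (-(w0 + n))) ^ (m : ℕ)) → False := by
  have hq1 : (1 : ℝ) < q := by exact_mod_cast (by omega : 1 < q)
  have hq0 : (0 : ℝ) < q := by linarith
  have hqn : 0 < q := by omega
  have hY : 0 < (q : ℝ) ^ (-(w0 + n)) := Real.rpow_pos_of_pos hq0 _
  have hZ0 : 0 < Z := by linarith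
  intro i
  induction i with
  | zero =>
    intro n'' a hn'' ha w hw hwK hwB
    have h1 : ∀ S : Fin 0 → Fin (n'' + 1), W ((p : ℝ) / q) w S = 1 := by
      intro S
      unfold W
      exact Matrix.det_isEmpty
    obtain ⟨S⟩ : Nonempty (Fin 0 → Fin (n'' + 1)) := ⟨fun t => t.elim0⟩
    have h2 := hwK S
    have h3 := hwB S 0 (fun t => t.elim0)
    rw [h1, abs_one] at h2 h3
    rw [Fin.val_zero, pow_zero, div_one] at h3
    have h4 := (exponents n j a 0 w0 q Z ρ c η (K a) (B a) ha hj1 hjn hw0 hq1 hZ hρ hc hc1 hη hη1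
      hρc (hK a) (hB a)).1 rfl
    rcases h4 with h4 | h4 <;> linarith
  | succ i ih =>
    intro n'' a hn'' ha w hw hwK hwB
    obtain ⟨n', rfl⟩ : ∃ n', n'' = n' + 1 := ⟨n'' - 1, by omega⟩
    have hN : n' + 2 - (i + 1) = n + 1 - j := by omega
    have hN2 : n' + 1 - i = n + 1 - j := by omega
    by_cases hb : LinearIndependent ℤ (fun s => bar p q (w s))
    · have hB' : ∀ S : Fin (i + 1) → Fin (n' + 2), (∀ t, S t ≠ 0) →
          |W ((p : ℝ) / q) w S| ≤ min (K a) (B a) := by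
        intro S hS
        have h1 := hwB S 0 hS
        rw [Fin.val_zero, pow_zero, div_one] at h1
        exact le_min (hwK S) h1
      have hcase := fun R hR1 hR2 => hA n' (i + 1) p q η R (K a) (min (K a) (B a)) w (by omega)
        (by omega) (by omega) hqn hpq hη hη1 hgood hR1 hR2 hw hb hwK hB'
      have h4 := (exponents n j a (i + 1) w0 q Z ρ c η (K a) (B a) ha hj1 hjn hw0 hq1 hZ hρ hc hc1
        hη hη1 hρc (hK a) (hB a)).2 (by omega)
      rcases h4 with h4 | ⟨R, hR1, hR2, hR3, hR4⟩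
      · have h5 := (hcase 1 le_rfl hq1.le).1
        have h6 := h5.trans (min_le_left _ _)
        have h7 := h5.trans (min_le_right _ _)
        rcases h4 with h4 | h4 <;> linarith
      · rcases (hcase R hR1 hR2).2 with h5 | h5
        · rw [hN] at h5
          linarith
        · have h6 := h5.trans (min_le_left _ _)
          have h7 := h5.trans (min_le_right _ _)
          rcases hR4 with h4 | h4 <;> linarith
    · obtain ⟨w', hw', hw'S⟩ := strip n' i p q hqn hcop (by omega) w hw hb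
      refine ih n' (a + 1) (by omega) (by omega) w' hw' ?_ ?_
      · intro S
        have h1 := (hw'S S).trans (hwK _)
        rw [hN2] at h1
        have h2 : K (a + 1) = K a / (q : ℝ) ^ (n + 1 - j) := by
          have e1 : (q : ℝ) ^ ((a + 1) * (n + 1 - j)) =
              (q : ℝ) ^ (a * (n + 1 - j)) * (q : ℝ) ^ (n + 1 - j) := by
            rw [← pow_add]; congr 1; ring
          rw [hK, hK, e1, ← div_div]
        rw [h2, le_div_iff₀ (by positivity)]
        exact h1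
      · intro S m hSm
        have h1 := (hw'S S).trans (hwB (Fin.cons 0 (fun t => (S t).succ) : Fin (i + 1) →
          Fin (n' + 2)) m.succ (by
            intro t
            refine Fin.cases ?_ ?_ t
            · simpa using (Fin.succ_ne_zero m).symm
            · intro t
              simp only [Fin.cons_succ]
              intro h
              exact hSm t (Fin.succ_injective _ h)))
        rw [hN2, Fin.val_succ] at h1
        have h2 : B (a + 1) / ((q : ℝ) ^ (-(w0 + n))) ^ (m : ℕ) =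
            B a / ((q : ℝ) ^ (-(w0 + n))) ^ ((m : ℕ) + 1) / (q : ℝ) ^ (n + 1 - j) := by
          rw [hB, hB]
          have e1 : (q : ℝ) ^ ((a + 1) * (n + 1 - j)) =
              (q : ℝ) ^ (a * (n + 1 - j)) * (q : ℝ) ^ (n + 1 - j) := by
            rw [← pow_add]; congr 1; ring
          rw [e1, pow_succ, pow_succ]
          generalize (q : ℝ) ^ (-(w0 + n)) = Y at hY
          have hq3 : (q : ℝ) ^ (n + 1 - j) ≠ 0 := by positivity
          have hq4 : (q : ℝ) ^ (a * (n + 1 - j)) ≠ 0 := by positivity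
          have hY' : Y ≠ 0 := hY.ne'
          field_simp
        rw [h2, le_div_iff₀ (by positivity)]
        exact h1

theorem pj (n : ℕ) (hn : 1 ≤ n) : ∃ c : ℝ, 0 < c ∧ c ≤ 1 ∧ ∀ (w0 : ℝ) (p q : ℕ) (η Z : ℝ),
    1 ≤ w0 → 2 ≤ q → p ≤ q → p.Coprime q → 0 < η → η ≤ 1 → GoodRat n η p q → (q : ℝ) ≤ Z →
    ∀ j : ℕ, 1 ≤ j → ∀ v : Fin j → Fin (n + 1) → ℤ, LinearIndependent ℤ v →
      ∃ y ∈ Icc ((q : ℝ) ^ (-(w0 + n))) (2 * (q : ℝ) ^ (-(w0 + n))),
        ∃ S : Fin j → Fin (n + 1),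
          c * η ^ n ≤ |mn (hJ n ((p : ℝ) / q) (Z ^ ((n : ℝ) / w0)) Z) y v S| := by
  obtain ⟨C, hC1, hC⟩ := minors_small n
  obtain ⟨c, hc0, hc1, hA⟩ := caseA n
  have hC0 : 0 < C := by linarith
  refine ⟨c / (2 * C), by positivity, ?_, ?_⟩
  · rw [div_le_one (by positivity)]; linarith
  intro w0 p q η Z hw0 hq2 hpq hcop hη hη1 hgood hZ j hj1 v hv
  have hq1 : (1 : ℝ) < q := by exact_mod_cast (by omega : 1 < q)
  have hq0 : (0 : ℝ) < q := by linarith
  have hY : 0 < (q : ℝ) ^ (-(w0 + n)) := Real.rpow_pos_of_pos hq0 _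
  have hn0 : (0 : ℝ) ≤ n := Nat.cast_nonneg n
  have hY1 : (q : ℝ) ^ (-(w0 + n)) ≤ 1 :=
    Real.rpow_le_one_of_one_le_of_nonpos hq1.le (by linarith)
  have hZ1 : 1 ≤ Z := by linarith
  have hZ0 : 0 < Z := by linarith
  have hw0' : 0 < w0 := by linarith
  have hU1 : 1 ≤ Z ^ ((n : ℝ) / w0) := Real.one_le_rpow hZ1 (by positivity)
  have hηn : η ^ n ≤ 1 := pow_le_one₀ hη.le hη1
  have hηn0 : 0 < η ^ n := by positivity
  have hjle : j ≤ n + 1 := by
    have := hv.fintype_card_le_finrank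
    simpa using this
  by_contra hcon
  push Not at hcon
  rcases hjle.eq_or_lt with hj | hj
  · subst hj
    have h1 := hcon ((q : ℝ) ^ (-(w0 + n))) ⟨le_rfl, by linarith⟩ id
    have h2 : mn (hJ n ((p : ℝ) / q) (Z ^ ((n : ℝ) / w0)) Z) ((q : ℝ) ^ (-(w0 + n))) v id =
        ((Matrix.of v).det : ℝ) * (Z ^ n / Z ^ ((n : ℝ) / w0)) := by
      rw [← hJ_det n ((p : ℝ) / q) (Z ^ ((n : ℝ) / w0)) Z ((q : ℝ) ^ (-(w0 + n)))]
      have h3 : ((Matrix.of v).det : ℝ) = ((Matrix.of v).map (Int.cast : ℤ → ℝ)).det := by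
        have := Int.cast_det (R := ℝ) (Matrix.of v)
        rw [this]
      rw [h3, ← Matrix.det_transpose ((hJ n ((p : ℝ) / q) (Z ^ ((n : ℝ) / w0)) Z).map _),
        ← Matrix.det_mul]
      unfold mn
      congr 1
      ext s t
      simp only [Matrix.of_apply, ev, Matrix.mul_apply, Matrix.map_apply, Matrix.transpose_apply,
        id]
      exact Finset.sum_congr rfl fun l _ => mul_comm _ _
    have hdet : (Matrix.of v).det ≠ 0 := by
      intro hdet
      obtain ⟨μ, hμ, hμ2⟩ := Matrix.exists_vecMul_eq_zero_iff.2 hdet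
      apply hμ
      funext a
      apply Fintype.linearIndependent_iff.1 hv μ
      funext l
      have h3 := congrFun hμ2 l
      simpa [Matrix.vecMul, dotProduct, Finset.sum_apply] using h3
    have hdet1 : (1 : ℝ) ≤ |((Matrix.of v).det : ℝ)| := by
      have := Int.one_le_abs hdet
      exact_mod_cast this
    have h4 : 1 ≤ Z ^ n / Z ^ ((n : ℝ) / w0) := by
      rw [one_le_div (by positivity), ← Real.rpow_natCast]
      apply Real.rpow_le_rpow_of_exponent_le hZ1
      exact div_le_self hn0 hw0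
    rw [h2, abs_mul, abs_of_nonneg (by linarith : (0 : ℝ) ≤ Z ^ n / Z ^ ((n : ℝ) / w0))] at h1
    have h5 : 1 ≤ |((Matrix.of v).det : ℝ)| * (Z ^ n / Z ^ ((n : ℝ) / w0)) := by nlinarith
    have h6 : c / (2 * C) ≤ 1 := by rw [div_le_one (by positivity)]; linarith
    have h7 : c / (2 * C) * η ^ n ≤ 1 := by
      have : 0 < c / (2 * C) := by positivity
      nlinarith
    linarith
  · obtain ⟨hm1, hm2⟩ := hC j ((p : ℝ) / q) (Z ^ ((n : ℝ) / w0)) Z ((q : ℝ) ^ (-(w0 + n)))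
      (c / (2 * C) * η ^ n) v hU1 hZ1 hY hY1 (by positivity) hcon
    have hρ : C * (c / (2 * C) * η ^ n) = c * η ^ n / 2 := by field_simp
    rw [hρ] at hm1 hm2
    have hρ0 : 0 < c * η ^ n / 2 := by positivity
    refine j6_claim n j p q w0 η Z (c * η ^ n / 2) c hj1 (by omega) hw0 hq2 hpq hcop hη hη1 hgood
      hZ hρ0 hc0 hc1 (by linarith) hA
      (fun a => c * η ^ n / 2 * (Z ^ ((n : ℝ) / w0) * Z) / Z ^ j / (q : ℝ) ^ (a * (n + 1 - j)))
      (fun a => c * η ^ n / 2 / (Z ^ j * (q : ℝ) ^ (a * (n + 1 - j)) *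
        ((q : ℝ) ^ (-(w0 + n))) ^ a)) (fun a => rfl) (fun a => rfl) j n 0 rfl (by omega) v hv ?_ ?_
    · intro S
      have := hm1 S
      simpa using this
    · intro S m hSm
      have := hm2 S m hSm
      rw [← div_div] at this
      simpa using this

end Pool.Agent.Lib.H70X
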