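import Pool.Agent.Lib.H70X.QL5
import Pool.Agent.Lib.H70X.J6

/-! # Chunk J7: the measure of the bad points near a good rational number, at one scale (small/medium)

Proof. Let `r = p/q`, `Y = q^(-(w0+n))`, `U = Z^(n/w0)`. Apply `qnd (n+1) n` (constants `C0, α`) to `hJ n r U Z` on `[Y, 2Y]`, `ρ = c η^n` (`pj`; `hJ_natDegree`, `hJ_det`). If `x = r + y` is in
the set of the statement, with `u`, then `|ev y u 0| = |u_0|/U ≤ δ` and `|ev y u m| = Z |cd r u m - u_0 y^m| ≤ Z 2^n δ/Z` for `m ≥ 1` (`cd_sub_le`), so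
`(n+1) ∑ |ev| ≤ (n+1)^2 2^n δ < ε := 2 (n+1)^2 2^n δ`. If `ε ≤ ρ`, `qnd` gives the bound `C0 (ε/ρ)^α Y` (translate by `r`). If `ε > ρ` the
measure is `≤ Y ≤ (ε/ρ)^α Y`. -/

open Polynomial MeasureTheory Set Filter

namespace Pool.Agent.Lib.H70X

theorem scale_measure (n : ℕ) (hn : 1 ≤ n) : ∃ C α : ℝ, 0 < C ∧ 0 < α ∧
    ∀ (w0 : ℝ) (p q : ℕ) (η Z δ : ℝ),
    1 ≤ w0 → 2 ≤ q → p ≤ q → p.Coprime q → 0 < η → η ≤ 1 → GoodRat n η p q → (q : ℝ) ≤ Z →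
    0 < δ →
    volume {x ∈ Icc ((p : ℝ) / q + (q : ℝ) ^ (-(w0 + n))) ((p : ℝ) / q + 2 * (q : ℝ) ^ (-(w0 + n))) |
      ∃ u : Fin (n + 1) → ℤ, u ≠ 0 ∧ |(u 0 : ℝ)| ≤ δ * Z ^ ((n : ℝ) / w0) ∧
        ∀ m : Fin (n + 1), |(u m : ℝ) - u 0 * x ^ (m : ℕ)| ≤ δ / Z} ≤
      ENNReal.ofReal (C * (δ / η ^ n) ^ α * (q : ℝ) ^ (-(w0 + n))) := by
  obtain ⟨C0, α, hC0, hα, hq⟩ := qnd (n + 1) n
  obtain ⟨c, hc0, hc1, hpj⟩ := pj n hn
  set D : ℝ := 2 * ((n : ℝ) + 1) ^ 2 * 2 ^ n / c with hD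
  have hD0 : 0 < D := by positivity
  refine ⟨(C0 + 1) * D ^ α, α, by positivity, hα, ?_⟩
  intro w0 p q η Z δ hw0 hq2 hpq hcop hη hη1 hgood hZ hδ
  have hq1 : (1 : ℝ) < q := by exact_mod_cast (by omega : 1 < q)
  have hq0 : (0 : ℝ) < q := by linarith
  have hZ1 : 1 ≤ Z := by linarith
  have hZ0 : 0 < Z := by linarith
  have hU0 : 0 < Z ^ ((n : ℝ) / w0) := Real.rpow_pos_of_pos hZ0 _
  have hY : 0 < (q : ℝ) ^ (-(w0 + n)) := Real.rpow_pos_of_pos hq0 _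
  have hηn : η ^ n ≤ 1 := pow_le_one₀ hη.le hη1
  have hηn0 : 0 < η ^ n := by positivity
  have hr0 : (0 : ℝ) ≤ (p : ℝ) / q := by positivity
  have hr1 : (p : ℝ) / q ≤ 1 := by
    rw [div_le_one hq0]
    exact_mod_cast hpq
  have hδη : 0 < δ / η ^ n := by positivity
  have hpow : ∀ t : ℝ, t = D * (δ / η ^ n) → t ^ α = D ^ α * (δ / η ^ n) ^ α := by
    intro t ht
    rw [ht, Real.mul_rpow hD0.le hδη.le]
  have hratio : 2 * ((n : ℝ) + 1) ^ 2 * 2 ^ n * δ / (c * η ^ n) = D * (δ / η ^ n) := by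
    rw [hD]
    field_simp
  have hJ7pos : 0 < D ^ α * (δ / η ^ n) ^ α := by positivity
  by_cases hcase : 2 * ((n : ℝ) + 1) ^ 2 * 2 ^ n * δ ≤ c * η ^ n
  · have h1 := hq (hJ n ((p : ℝ) / q) (Z ^ ((n : ℝ) / w0)) Z) ((q : ℝ) ^ (-(w0 + n)))
      (2 * (q : ℝ) ^ (-(w0 + n))) (c * η ^ n) (2 * ((n : ℝ) + 1) ^ 2 * 2 ^ n * δ)
      (fun i l => hJ_natDegree n _ _ _ i l)
      (fun x => by rw [hJ_det]; positivity) (by linarith) (by positivity) hcase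
      (by nlinarith)
      (fun j hj v hv => hpj w0 p q η Z hw0 hq2 hpq hcop hη hη1 hgood hZ j hj v hv)
    rw [hpow _ hratio] at h1
    have h2 : volume {x ∈ Icc ((p : ℝ) / q + (q : ℝ) ^ (-(w0 + n)))
        ((p : ℝ) / q + 2 * (q : ℝ) ^ (-(w0 + n))) |
        ∃ u : Fin (n + 1) → ℤ, u ≠ 0 ∧ |(u 0 : ℝ)| ≤ δ * Z ^ ((n : ℝ) / w0) ∧
        ∀ m : Fin (n + 1), |(u m : ℝ) - u 0 * x ^ (m : ℕ)| ≤ δ / Z} ≤
        volume {y ∈ Icc ((q : ℝ) ^ (-(w0 + n))) (2 * (q : ℝ) ^ (-(w0 + n))) |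
        ∃ u : Fin (n + 1) → ℤ, u ≠ 0 ∧ ((n + 1 : ℕ) : ℝ) *
          ∑ i, |ev (hJ n ((p : ℝ) / q) (Z ^ ((n : ℝ) / w0)) Z) y u i| <
            2 * ((n : ℝ) + 1) ^ 2 * 2 ^ n * δ} := by
      rw [← measure_preimage_add volume ((p : ℝ) / q)]
      refine measure_mono ?_
      rintro y ⟨⟨hy1, hy2⟩, u, hu, hu0, hum⟩
      refine ⟨⟨by linarith, by linarith⟩, u, hu, ?_⟩
      have h3 : ∀ i : Fin (n + 1), |ev (hJ n ((p : ℝ) / q) (Z ^ ((n : ℝ) / w0)) Z) y u i| ≤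
          2 ^ n * δ := by
        intro i
        by_cases hi : i = 0
        · subst hi
          rw [ev_hJ_zero, abs_div, abs_of_pos hU0, div_le_iff₀ hU0]
          have h4 : (1 : ℝ) ≤ 2 ^ n := one_le_pow₀ (by norm_num)
          nlinarith [mul_pos hδ hU0]
        · rw [ev_hJ n _ _ _ _ _ _ hi, abs_mul, abs_of_pos hZ0]
          have h4 := cd_sub_le ((p : ℝ) / q) y (δ / Z) hr0 hr1 u (i : ℕ)
            (Nat.le_of_lt_succ i.2) hum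
          calc Z * |cd ((p : ℝ) / q) u (i : ℕ) - u 0 * y ^ (i : ℕ)| ≤ Z * (2 ^ n * (δ / Z)) :=
                mul_le_mul_of_nonneg_left h4 hZ0.le
            _ = 2 ^ n * δ := by field_simp
      have h5 : ∑ i, |ev (hJ n ((p : ℝ) / q) (Z ^ ((n : ℝ) / w0)) Z) y u i| ≤
          ∑ i : Fin (n + 1), (2 ^ n * δ) := Finset.sum_le_sum fun i _ => h3 i
      rw [Finset.sum_const, Finset.card_univ, Fintype.card_fin, nsmul_eq_mul] at h5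
      have hn1 : (0 : ℝ) < ((n + 1 : ℕ) : ℝ) := by positivity
      calc ((n + 1 : ℕ) : ℝ) * ∑ i, |ev (hJ n ((p : ℝ) / q) (Z ^ ((n : ℝ) / w0)) Z) y u i|
          ≤ ((n + 1 : ℕ) : ℝ) * (((n + 1 : ℕ) : ℝ) * (2 ^ n * δ)) :=
            mul_le_mul_of_nonneg_left h5 hn1.le
        _ < 2 * ((n : ℝ) + 1) ^ 2 * 2 ^ n * δ := by
            have h6 : (0 : ℝ) < ((n : ℝ) + 1) ^ 2 * 2 ^ n * δ := by positivity
            push_cast
            nlinarith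
    refine h2.trans (h1.trans (ENNReal.ofReal_le_ofReal ?_))
    have h3 : 2 * (q : ℝ) ^ (-(w0 + n)) - (q : ℝ) ^ (-(w0 + n)) = (q : ℝ) ^ (-(w0 + n)) := by ring
    rw [h3]
    refine mul_le_mul_of_nonneg_right ?_ hY.le
    rw [mul_assoc]
    exact mul_le_mul_of_nonneg_right (by linarith) hJ7pos.le
  · push Not at hcase
    have h1 : 1 ≤ (2 * ((n : ℝ) + 1) ^ 2 * 2 ^ n * δ / (c * η ^ n)) ^ α := by
      refine Real.one_le_rpow ?_ hα.le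
      rw [one_le_div (by positivity)]
      exact hcase.le
    rw [hpow _ hratio] at h1
    have h2 : volume {x ∈ Icc ((p : ℝ) / q + (q : ℝ) ^ (-(w0 + n)))
        ((p : ℝ) / q + 2 * (q : ℝ) ^ (-(w0 + n))) |
        ∃ u : Fin (n + 1) → ℤ, u ≠ 0 ∧ |(u 0 : ℝ)| ≤ δ * Z ^ ((n : ℝ) / w0) ∧
        ∀ m : Fin (n + 1), |(u m : ℝ) - u 0 * x ^ (m : ℕ)| ≤ δ / Z} ≤
        volume (Icc ((p : ℝ) / q + (q : ℝ) ^ (-(w0 + n)))
          ((p : ℝ) / q + 2 * (q : ℝ) ^ (-(w0 + n)))) :=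
      measure_mono (Set.sep_subset _ _)
    refine h2.trans ?_
    rw [Real.volume_Icc]
    refine ENNReal.ofReal_le_ofReal ?_
    have h3 : (p : ℝ) / q + 2 * (q : ℝ) ^ (-(w0 + n)) - ((p : ℝ) / q + (q : ℝ) ^ (-(w0 + n))) =
        1 * (q : ℝ) ^ (-(w0 + n)) := by ring
    rw [h3]
    refine mul_le_mul_of_nonneg_right ?_ hY.le
    rw [mul_assoc]
    nlinarith [mul_pos hC0 hJ7pos]

end Pool.Agent.Lib.H70X
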