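import Pool.Agent.Lib.H70X.J7

/-! # Chunk J8: far from the rational number, all scales (medium)

Proof. Let `τ = n/w0 ≤ n`, `s = ε/(2(n+1)) ≤ 1/4`, `ε1 = s/(2n)`, so `η^n = q^(-s/2)` for `η = q^(-ε1)`. Let `G_t = 2^t q^w0`, `t = 0, 1, ...`. Suppose `Z ≥ (q^w0)^(1+s)` and
`Free n x (Z^(τ-ε)) (Z/2)` fails: `u ≠ 0`, `|u_0| ≤ Z^(τ-ε)`, `|u_m - u_0 x^m| ≤ 2/Z`. Let `t` be maximal with `G_t^(1+s) ≤ Z`, `G = G_t`: `Z < (2G)^(1+s) ≤ 4 G^(1+s)`. Then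
`2/Z ≤ 2 G^(-s)/G`, and `Z^(τ-ε) ≤ 4^n G^((1+s)(τ-ε)) ≤ 4^n G^(τ-s)`: if `τ ≥ ε` use `Z ≤ 4 G^(1+s)` and `τ - ε ≤ n`, if `τ < ε` use `Z ≥ G^(1+s)`; and
`(1+s)(τ-ε) ≤ τ - s` because `s τ + s ≤ s (n+1) = ε/2`. So `x` is in the set of `scale_measure` for `Z := G`, `δ := (4^n + 2) G^(-s)`, whose measure is
`≤ C ((4^n+2) G^(-s) q^(s/2))^α Y ≤ C (4^n+2)^α G_t^(-s α/2) Y` (`q ≤ q^w0 ≤ G`). The sum over `t` is at most
`C' q^(-s α/2) Y` with `C' = C (4^n+2)^α ∑_t 2^(-t s α/2) < ∞`, which is `≤ Y/10` for `q ≥ q0`. -/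

open Polynomial MeasureTheory Set Filter Topology

namespace Pool.Agent.Lib.H70X

/-- arithmetic of one scale -/
theorem j8_scale (n : ℕ) (hn : 1 ≤ n) (τ ε s G Z : ℝ) (hτ0 : 0 < τ) (hτn : τ ≤ n) (hε : 0 < ε)
    (hε1 : ε ≤ 1) (hs : s = ε / (2 * (n + 1))) (hG : 1 ≤ G) (h1 : G ^ (1 + s) ≤ Z)
    (h2 : Z < (2 * G) ^ (1 + s)) :
    2 / Z ≤ ((4 : ℝ) ^ n + 2) * G ^ (-s) / G ∧
      Z ^ (τ - ε) ≤ ((4 : ℝ) ^ n + 2) * G ^ (-s) * G ^ τ := by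
  have hnR : (1 : ℝ) ≤ n := by exact_mod_cast hn
  have hs0 : 0 < s := by rw [hs]; positivity
  have hs1 : s ≤ 1 := by
    rw [hs, div_le_one (by positivity)]
    linarith
  have hsn : s * (n + 1) = ε / 2 := by
    rw [hs]
    field_simp
  have hG0 : 0 < G := by linarith
  have hGs : 0 < G ^ (1 + s) := by positivity
  have hZ0 : 0 < Z := by linarith
  have h4 : (1 : ℝ) ≤ 4 ^ n := one_le_pow₀ (by norm_num)
  have hGm : 0 < G ^ (-s) := by positivity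
  constructor
  · have e1 : 2 / Z ≤ 2 / G ^ (1 + s) := div_le_div_of_nonneg_left (by norm_num) hGs h1
    have e2 : 2 / G ^ (1 + s) = 2 * G ^ (-s) / G := by
      rw [Real.rpow_add hG0, Real.rpow_one, Real.rpow_neg hG0.le]
      field_simp
    rw [e2] at e1
    refine e1.trans ?_
    refine div_le_div_of_nonneg_right ?_ hG0.le
    exact mul_le_mul_of_nonneg_right (by linarith) hGm.le
  · have hexp : (1 + s) * (τ - ε) ≤ τ - s := by
      nlinarith [mul_le_mul_of_nonneg_left hτn hs0.le]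
    have hmain : Z ^ (τ - ε) ≤ (4 : ℝ) ^ n * G ^ ((1 + s) * (τ - ε)) := by
      rcases le_or_gt 0 (τ - ε) with hc | hc
      · have hZ4 : Z ≤ 4 * G ^ (1 + s) := by
          refine h2.le.trans ?_
          rw [Real.mul_rpow (by norm_num) hG0.le]
          refine mul_le_mul_of_nonneg_right ?_ hGs.le
          calc (2 : ℝ) ^ (1 + s) ≤ (2 : ℝ) ^ (2 : ℝ) :=
                Real.rpow_le_rpow_of_exponent_le (by norm_num) (by linarith)
            _ = 4 := by norm_num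
        calc Z ^ (τ - ε) ≤ (4 * G ^ (1 + s)) ^ (τ - ε) :=
              Real.rpow_le_rpow hZ0.le hZ4 hc
          _ = (4 : ℝ) ^ (τ - ε) * G ^ ((1 + s) * (τ - ε)) := by
              rw [Real.mul_rpow (by norm_num) hGs.le, ← Real.rpow_mul hG0.le]
          _ ≤ (4 : ℝ) ^ n * G ^ ((1 + s) * (τ - ε)) := by
              refine mul_le_mul_of_nonneg_right ?_ (by positivity)
              calc (4 : ℝ) ^ (τ - ε) ≤ (4 : ℝ) ^ (n : ℝ) :=
                    Real.rpow_le_rpow_of_exponent_le (by norm_num) (by linarith)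
                _ = 4 ^ n := Real.rpow_natCast _ _
      · calc Z ^ (τ - ε) ≤ (G ^ (1 + s)) ^ (τ - ε) :=
              Real.rpow_le_rpow_of_nonpos hGs h1 hc.le
          _ = G ^ ((1 + s) * (τ - ε)) := by rw [← Real.rpow_mul hG0.le]
          _ ≤ (4 : ℝ) ^ n * G ^ ((1 + s) * (τ - ε)) := by
              have : 0 < G ^ ((1 + s) * (τ - ε)) := by positivity
              nlinarith
    have h5 : G ^ ((1 + s) * (τ - ε)) ≤ G ^ (τ - s) :=
      Real.rpow_le_rpow_of_exponent_le hG hexp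
    have h6 : G ^ (τ - s) = G ^ (-s) * G ^ τ := by
      rw [← Real.rpow_add hG0]
      congr 1
      ring
    rw [h6] at h5
    have h7 : 0 < G ^ (-s) * G ^ τ := by positivity
    calc Z ^ (τ - ε) ≤ (4 : ℝ) ^ n * G ^ ((1 + s) * (τ - ε)) := hmain
      _ ≤ (4 : ℝ) ^ n * (G ^ (-s) * G ^ τ) := mul_le_mul_of_nonneg_left h5 (by positivity)
      _ ≤ ((4 : ℝ) ^ n + 2) * (G ^ (-s) * G ^ τ) := by
          refine mul_le_mul_of_nonneg_right (by linarith) h7.le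
      _ = ((4 : ℝ) ^ n + 2) * G ^ (-s) * G ^ τ := by ring

/-- the scale of `Z` -/
theorem j8_exists (g s Z : ℝ) (hg : 1 ≤ g) (hs : 0 < s) (h : g ^ (1 + s) ≤ Z) :
    ∃ t : ℕ, (2 ^ t * g) ^ (1 + s) ≤ Z ∧ Z < (2 * (2 ^ t * g)) ^ (1 + s) := by
  classical
  have hex : ∃ t : ℕ, Z < (2 * (2 ^ t * g)) ^ (1 + s) := by
    obtain ⟨t, ht⟩ := pow_unbounded_of_one_lt Z (by norm_num : (1 : ℝ) < 2)
    refine ⟨t, lt_of_lt_of_le ht ?_⟩
    have h1 : (1 : ℝ) ≤ 2 ^ t := one_le_pow₀ (by norm_num)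
    have h2 : (2 : ℝ) ^ t ≤ 2 * (2 ^ t * g) := by nlinarith
    have h3 : (1 : ℝ) ≤ 2 * (2 ^ t * g) := h1.trans h2
    calc (2 : ℝ) ^ t ≤ 2 * (2 ^ t * g) := h2
      _ = (2 * (2 ^ t * g)) ^ (1 : ℝ) := (Real.rpow_one _).symm
      _ ≤ (2 * (2 ^ t * g)) ^ (1 + s) :=
          Real.rpow_le_rpow_of_exponent_le h3 (by linarith)
  refine ⟨Nat.find hex, ?_, Nat.find_spec hex⟩
  rcases Nat.eq_zero_or_pos (Nat.find hex) with h0 | h0
  · rw [h0, pow_zero, one_mul]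
    exact h
  · obtain ⟨t', ht'⟩ : ∃ t', Nat.find hex = t' + 1 := ⟨Nat.find hex - 1, by omega⟩
    have := Nat.find_min hex (m := t') (by omega)
    rw [ht']
    rw [not_lt] at this
    have e : (2 : ℝ) ^ (t' + 1) * g = 2 * (2 ^ t' * g) := by ring
    rw [e]
    exact this

theorem far_measure (n : ℕ) (hn : 1 ≤ n) (w0 : ℝ) (hw0 : 1 ≤ w0) (ε : ℝ) (hε : 0 < ε)
    (hε1 : ε ≤ 1) : ∃ ε1 : ℝ, 0 < ε1 ∧ ∃ q0 : ℕ, ∀ p q : ℕ, q0 ≤ q → p ≤ q → p.Coprime q →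
      GoodRat n ((q : ℝ) ^ (-ε1)) p q →
      volume {x ∈ Icc ((p : ℝ) / q + (q : ℝ) ^ (-(w0 + n)))
          ((p : ℝ) / q + 2 * (q : ℝ) ^ (-(w0 + n))) |
        ∃ Z : ℝ, ((q : ℝ) ^ w0) ^ (1 + ε / (2 * (n + 1))) ≤ Z ∧
          ¬ Free n x (Z ^ ((n : ℝ) / w0 - ε)) (Z / 2)} ≤
        ENNReal.ofReal ((q : ℝ) ^ (-(w0 + n)) / 10) := by
  obtain ⟨C, α, hC, hα, hsm⟩ := scale_measure n hn
  have hnR : (1 : ℝ) ≤ n := by exact_mod_cast hn
  have hw0' : 0 < w0 := by linarith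
  set s : ℝ := ε / (2 * (n + 1)) with hs
  have hs0 : 0 < s := by positivity
  set τ : ℝ := (n : ℝ) / w0 with hτ
  have hτ0 : 0 < τ := by positivity
  have hτn : τ ≤ n := by
    rw [hτ, div_le_iff₀ hw0']
    nlinarith
  set β : ℝ := s / 2 * α with hβ
  have hβ0 : 0 < β := by positivity
  set ρ : ℝ := (2 : ℝ) ^ (-β) with hρ
  have hρ0 : 0 < ρ := by positivity
  have hρ1 : ρ < 1 := Real.rpow_lt_one_of_one_lt_of_neg (by norm_num) (by linarith)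
  set D : ℝ := C * ((4 : ℝ) ^ n + 2) ^ α with hD
  have hD0 : 0 < D := by positivity
  -- the choice of `q0`
  have htend : Tendsto (fun q : ℕ => D * (1 - ρ)⁻¹ * (q : ℝ) ^ (-β)) atTop (𝓝 0) := by
    have h1 : Tendsto (fun q : ℕ => (q : ℝ) ^ (-β)) atTop (𝓝 0) :=
      (tendsto_rpow_neg_atTop hβ0).comp tendsto_natCast_atTop_atTop
    simpa using h1.const_mul (D * (1 - ρ)⁻¹)
  obtain ⟨q1, hq1⟩ := (htend.eventually_lt_const (by norm_num : (0 : ℝ) < 1 / 10)).exists_forall_of_atTop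
  refine ⟨s / (2 * n), by positivity, max q1 2, ?_⟩
  intro p q hq hpq hcop hgood
  have hq2 : 2 ≤ q := (le_max_right _ _).trans hq
  have hqR : (2 : ℝ) ≤ q := by exact_mod_cast hq2
  have hqR1 : (1 : ℝ) ≤ q := by linarith
  have hqR0 : (0 : ℝ) < q := by linarith
  set η : ℝ := (q : ℝ) ^ (-(s / (2 * n))) with hη
  have hη0 : 0 < η := by positivity
  have hη1 : η ≤ 1 := Real.rpow_le_one_of_one_le_of_nonpos hqR1 (by
    have : 0 < s / (2 * (n : ℝ)) := by positivity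
    linarith)
  have hηn : η ^ n = (q : ℝ) ^ (-(s / 2)) := by
    rw [hη, ← Real.rpow_natCast, ← Real.rpow_mul hqR0.le]
    congr 1
    field_simp
  set Y : ℝ := (q : ℝ) ^ (-(w0 + n)) with hY
  have hY0 : 0 < Y := by positivity
  set g : ℝ := (q : ℝ) ^ w0 with hg
  have hqg : (q : ℝ) ≤ g := by
    calc (q : ℝ) = (q : ℝ) ^ (1 : ℝ) := (Real.rpow_one _).symm
      _ ≤ g := Real.rpow_le_rpow_of_exponent_le hqR1 hw0
  have hg1 : 1 ≤ g := hqR1.trans hqg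
  -- the pieces
  set I : Set ℝ := Icc ((p : ℝ) / q + Y) ((p : ℝ) / q + 2 * Y) with hI
  set S : ℕ → Set ℝ := fun t => {x ∈ I | ∃ u : Fin (n + 1) → ℤ, u ≠ 0 ∧
    |(u 0 : ℝ)| ≤ ((4 : ℝ) ^ n + 2) * (2 ^ t * g) ^ (-s) * (2 ^ t * g) ^ ((n : ℝ) / w0) ∧
    ∀ m : Fin (n + 1), |(u m : ℝ) - u 0 * x ^ (m : ℕ)| ≤
      ((4 : ℝ) ^ n + 2) * (2 ^ t * g) ^ (-s) / (2 ^ t * g)} with hSdef
  have hsub : {x ∈ I | ∃ Z : ℝ, g ^ (1 + s) ≤ Z ∧ ¬ Free n x (Z ^ (τ - ε)) (Z / 2)} ⊆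
      ⋃ t, S t := by
    rintro x ⟨hx, Z, hZ, hF⟩
    obtain ⟨t, ht1, ht2⟩ := j8_exists g s Z hg1 hs0 hZ
    have hG1 : 1 ≤ 2 ^ t * g := by
      have : (1 : ℝ) ≤ 2 ^ t := one_le_pow₀ (by norm_num)
      nlinarith
    obtain ⟨e1, e2⟩ := j8_scale n hn τ ε s (2 ^ t * g) Z hτ0 hτn hε hε1 hs hG1 ht1 ht2
    unfold Free at hF
    push Not at hF
    obtain ⟨u, hu1, hu2, hu3⟩ := hF
    refine Set.mem_iUnion.mpr ⟨t, hx, u, hu3, hu1.trans e2, fun m => (hu2 m).trans ?_⟩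
    refine le_trans (le_of_eq ?_) e1
    rw [one_div_div]
  have hSm : ∀ t, volume (S t) ≤ ENNReal.ofReal (D * (q : ℝ) ^ (-β) * Y * ρ ^ t) := by
    intro t
    have hp1 : (1 : ℝ) ≤ 2 ^ t := one_le_pow₀ (by norm_num)
    have hG1 : 1 ≤ 2 ^ t * g := by nlinarith
    have hG0 : 0 < 2 ^ t * g := by linarith
    have hqG : (q : ℝ) ≤ 2 ^ t * g := by nlinarith
    have hδ : 0 < ((4 : ℝ) ^ n + 2) * (2 ^ t * g) ^ (-s) := by positivity
    have := hsm w0 p q η (2 ^ t * g) (((4 : ℝ) ^ n + 2) * (2 ^ t * g) ^ (-s)) hw0 hq2 hpq hcop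
      hη0 hη1 hgood hqG hδ
    refine this.trans (ENNReal.ofReal_le_ofReal ?_)
    rw [← hY]
    have e1 : ((4 : ℝ) ^ n + 2) * (2 ^ t * g) ^ (-s) / η ^ n ≤
        ((4 : ℝ) ^ n + 2) * (2 ^ t * q) ^ (-(s / 2)) := by
      rw [hηn, Real.rpow_neg hqR0.le (s / 2), div_inv_eq_mul, mul_assoc]
      refine mul_le_mul_of_nonneg_left ?_ (by positivity)
      have hq2t : 0 < 2 ^ t * (q : ℝ) := by positivity
      have a1 : (2 ^ t * g) ^ (-s) = (2 ^ t * g) ^ (-(s / 2)) * (2 ^ t * g) ^ (-(s / 2)) := by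
        rw [← Real.rpow_add hG0]
        congr 1
        ring
      have a2 : (2 ^ t * g) ^ (-(s / 2)) ≤ (q : ℝ) ^ (-(s / 2)) :=
        Real.rpow_le_rpow_of_nonpos hqR0 hqG (by linarith)
      have a3 : (2 ^ t * g) ^ (-(s / 2)) ≤ (2 ^ t * (q : ℝ)) ^ (-(s / 2)) :=
        Real.rpow_le_rpow_of_nonpos hq2t (by nlinarith) (by linarith)
      have a4 : (q : ℝ) ^ (-(s / 2)) * (q : ℝ) ^ (s / 2) = 1 := by
        rw [← Real.rpow_add hqR0]
        simp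
      calc (2 ^ t * g) ^ (-s) * (q : ℝ) ^ (s / 2)
          = (2 ^ t * g) ^ (-(s / 2)) * ((2 ^ t * g) ^ (-(s / 2)) * (q : ℝ) ^ (s / 2)) := by
            rw [a1]; ring
        _ ≤ (2 ^ t * (q : ℝ)) ^ (-(s / 2)) * ((q : ℝ) ^ (-(s / 2)) * (q : ℝ) ^ (s / 2)) := by
            refine mul_le_mul a3 ?_ (by positivity) (by positivity)
            exact mul_le_mul_of_nonneg_right a2 (by positivity)
        _ = (2 ^ t * (q : ℝ)) ^ (-(s / 2)) := by rw [a4, mul_one]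
    have e2 : (((4 : ℝ) ^ n + 2) * (2 ^ t * g) ^ (-s) / η ^ n) ^ α ≤
        (((4 : ℝ) ^ n + 2) * (2 ^ t * q) ^ (-(s / 2))) ^ α :=
      Real.rpow_le_rpow (by positivity) e1 hα.le
    have e3 : (((4 : ℝ) ^ n + 2) * (2 ^ t * (q : ℝ)) ^ (-(s / 2))) ^ α =
        ((4 : ℝ) ^ n + 2) ^ α * (ρ ^ t * (q : ℝ) ^ (-β)) := by
      rw [Real.mul_rpow (by positivity) (by positivity), ← Real.rpow_mul (by positivity)]
      congr 1
      have : -(s / 2) * α = -β := by rw [hβ]; ring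
      rw [this, Real.mul_rpow (by positivity) hqR0.le]
      congr 1
      rw [hρ, ← Real.rpow_natCast, ← Real.rpow_natCast, ← Real.rpow_mul (by norm_num),
        ← Real.rpow_mul (by norm_num)]
      congr 1
      ring
    rw [e3] at e2
    calc C * (((4 : ℝ) ^ n + 2) * (2 ^ t * g) ^ (-s) / η ^ n) ^ α * Y
        ≤ C * (((4 : ℝ) ^ n + 2) ^ α * (ρ ^ t * (q : ℝ) ^ (-β))) * Y := by
          refine mul_le_mul_of_nonneg_right ?_ hY0.le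
          exact mul_le_mul_of_nonneg_left e2 hC.le
      _ = D * (q : ℝ) ^ (-β) * Y * ρ ^ t := by rw [hD]; ring
  have hq1' := hq1 q ((le_max_left _ _).trans hq)
  calc volume {x ∈ I | ∃ Z : ℝ, g ^ (1 + s) ≤ Z ∧ ¬ Free n x (Z ^ (τ - ε)) (Z / 2)}
      ≤ volume (⋃ t, S t) := measure_mono hsub
    _ ≤ ∑' t, volume (S t) := measure_iUnion_le _
    _ ≤ ∑' t, ENNReal.ofReal (D * (q : ℝ) ^ (-β) * Y * ρ ^ t) := ENNReal.tsum_le_tsum hSm
    _ = ENNReal.ofReal (∑' t, D * (q : ℝ) ^ (-β) * Y * ρ ^ t) := by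
        rw [ENNReal.ofReal_tsum_of_nonneg (fun t => by positivity)
          ((summable_geometric_of_lt_one hρ0.le hρ1).mul_left _)]
    _ = ENNReal.ofReal (D * (q : ℝ) ^ (-β) * Y * (1 - ρ)⁻¹) := by
        rw [tsum_mul_left, tsum_geometric_of_lt_one hρ0.le hρ1]
    _ ≤ ENNReal.ofReal (Y / 10) := by
        refine ENNReal.ofReal_le_ofReal ?_
        have : D * (q : ℝ) ^ (-β) * Y * (1 - ρ)⁻¹ = (D * (1 - ρ)⁻¹ * (q : ℝ) ^ (-β)) * Y := by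
          ring
        rw [this]
        nlinarith

end Pool.Agent.Lib.H70X
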