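import Pool.Agent.Lib.H70X.Defs

/-! # Chunk MK0: a primitive integer vector is the first column of a unimodular matrix
(medium, pure Mathlib)

Proof. Bezout: there is a functional `φ` on `ℤ^(k+1)` with `φ z = 1`; its kernel `N` is free and
`ℤ^(k+1) = ℤ z ⊕ N`, so `z` together with a basis of `N` is a basis (`Module.Basis.mkFinCons`); its
matrix has unit determinant. -/

open Polynomial MeasureTheory Set Filter

namespace Pool.Agent.Lib.H70X

theorem MK0_bezout (k : ℕ) (z : Fin (k + 1) → ℤ) (hz : ∀ d : ℤ, (∀ i, d ∣ z i) → IsUnit d) :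
    ∃ c : Fin (k + 1) → ℤ, ∑ i, c i * z i = 1 := by
  have h1 : Ideal.span (Set.range z) = ⊤ := by
    obtain ⟨d, hd⟩ := IsPrincipalIdealRing.principal (Ideal.span (Set.range z))
    have h2 : IsUnit d := by
      refine hz d fun i => ?_
      have h3 : z i ∈ Ideal.span (Set.range z) := Ideal.subset_span ⟨i, rfl⟩
      rw [hd] at h3
      exact Ideal.mem_span_singleton.mp h3
    rw [hd]
    exact Ideal.span_singleton_eq_top.mpr h2
  have h2 : (1 : ℤ) ∈ Ideal.span (Set.range z) := by rw [h1]; trivial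
  obtain ⟨c, hc⟩ := Ideal.mem_span_range_iff_exists_fun.mp h2
  exact ⟨c, hc⟩

theorem complete (k : ℕ) (z : Fin (k + 1) → ℤ) (hz : ∀ d : ℤ, (∀ i, d ∣ z i) → IsUnit d) :
    ∃ G : Matrix (Fin (k + 1)) (Fin (k + 1)) ℤ, IsUnit G.det ∧ ∀ i, G i 0 = z i := by
  obtain ⟨c, hc⟩ := MK0_bezout k z hz
  set φ : (Fin (k + 1) → ℤ) →ₗ[ℤ] ℤ := ∑ i, c i • LinearMap.proj i with hφ
  have hφa : ∀ x, φ x = ∑ i, c i * x i := by
    intro x
    simp [hφ]
  have hφz : φ z = 1 := by rw [hφa, hc]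
  obtain ⟨n, b⟩ := Submodule.basisOfPid (Pi.basisFun ℤ (Fin (k + 1))) (LinearMap.ker φ)
  have hli : ∀ (c : ℤ), ∀ x ∈ LinearMap.ker φ, c • z + x = 0 → c = 0 := by
    intro c x hx h
    have h1 := congrArg φ h
    rw [map_add, map_smul, hφz, LinearMap.mem_ker.mp hx, map_zero] at h1
    simpa using h1
  have hsp : ∀ y : Fin (k + 1) → ℤ, ∃ c : ℤ, y + c • z ∈ LinearMap.ker φ := by
    intro y
    refine ⟨- φ y, ?_⟩
    rw [LinearMap.mem_ker, map_add, map_smul, hφz]
    simp
  set B := Module.Basis.mkFinCons z b hli hsp with hB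
  have hn : n = k := by
    have h1 := Module.finrank_eq_card_basis B
    have h2 := Module.finrank_eq_card_basis (Pi.basisFun ℤ (Fin (k + 1)))
    rw [h2] at h1
    simpa using h1.symm
  subst hn
  refine ⟨(Pi.basisFun ℤ (Fin (n + 1))).toMatrix B, ?_, ?_⟩
  · exact Module.Basis.isUnit_det (Pi.basisFun ℤ (Fin (n + 1))) B
  · intro i
    rw [Module.Basis.toMatrix_apply, hB, Module.Basis.coe_mkFinCons]
    simp

end Pool.Agent.Lib.H70X
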