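import Pool.Agent.Lib.H70X.Defs

/-! # Chunk QA1: polynomials are good functions (medium, pure Mathlib)

Proof. Let `L = b - a`, `D = natDegree p ≤ d`, `e = ε / |p(x0)|`, `s = 2 e^(1/(d+1))`, `z_i` the complex roots.
If `1 < s` the bound is trivial. Otherwise let `x ∈ [a,b]` with `|x - z_i| ≥ L s` for all `i`. If
`|x - z_i| ≥ L` then `|x0 - z_i| ≤ 2 |x - z_i|`, and if `|x - z_i| < L` then `|x0 - z_i| < 2 L`; in both cases
`|x - z_i| ≥ (s/2) |x0 - z_i|`. So `|p(x)| ≥ (s/2)^d |p(x0)| ≥ ε`. So the set is contained in the union of the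
intervals `|x - re z_i| < L s`. -/

open Polynomial MeasureTheory Set Filter

namespace Pool.Agent.Lib.H70X

theorem QA1_prod (c : ℂ) (Z : Multiset ℂ) (x y : ℂ) (u : ℝ) (hu : 0 ≤ u)
    (h : ∀ z ∈ Z, u * ‖y - z‖ ≤ ‖x - z‖) :
    u ^ Z.card * ‖c * (Z.map (fun z => y - z)).prod‖ ≤ ‖c * (Z.map (fun z => x - z)).prod‖ := by
  rw [norm_mul, norm_mul]
  have h1 : ∀ W : Multiset ℂ, (∀ z ∈ W, u * ‖y - z‖ ≤ ‖x - z‖) →
      u ^ W.card * ‖(W.map (fun z => y - z)).prod‖ ≤ ‖(W.map (fun z => x - z)).prod‖ := by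
    intro W
    induction W using Multiset.induction_on with
    | empty => simp
    | cons a W ih =>
      intro hW
      have h2 := ih (fun z hz => hW z (Multiset.mem_cons_of_mem hz))
      have h3 := hW a (Multiset.mem_cons_self a W)
      rw [Multiset.card_cons, Multiset.map_cons, Multiset.map_cons, Multiset.prod_cons, Multiset.prod_cons,
        norm_mul, norm_mul]
      calc u ^ (W.card + 1) * (‖y - a‖ * ‖(W.map (fun z => y - z)).prod‖)
          = (u * ‖y - a‖) * (u ^ W.card * ‖(W.map (fun z => y - z)).prod‖) := by ring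
        _ ≤ ‖x - a‖ * ‖(W.map (fun z => x - z)).prod‖ :=
          mul_le_mul h3 h2 (by positivity) (norm_nonneg _)
  have h4 := h1 Z h
  calc u ^ Z.card * (‖c‖ * ‖(Z.map (fun z => y - z)).prod‖)
      = ‖c‖ * (u ^ Z.card * ‖(Z.map (fun z => y - z)).prod‖) := by ring
    _ ≤ _ := mul_le_mul_of_nonneg_left h4 (norm_nonneg _)

theorem poly_good (d : ℕ) : ∃ C : ℝ, 0 < C ∧ ∀ (p : ℝ[X]) (ε a b x0 : ℝ), p.natDegree ≤ d →
    0 < ε → a < b → x0 ∈ Icc a b → p.eval x0 ≠ 0 →
    volume {x ∈ Icc a b | |p.eval x| < ε} ≤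
      ENNReal.ofReal (C * (ε / |p.eval x0|) ^ (1 / ((d : ℝ) + 1)) * (b - a)) := by
  refine ⟨4 * (d + 1), by positivity, ?_⟩
  intro p ε a b x0 hpd hε hab hx0 hp0
  have hL : 0 < b - a := by linarith
  have hP : 0 < |p.eval x0| := abs_pos.2 hp0
  set e := ε / |p.eval x0| with he
  have he0 : 0 < e := div_pos hε hP
  set w := e ^ (1 / ((d : ℝ) + 1)) with hw
  have hw0 : 0 < w := Real.rpow_pos_of_pos he0 _
  by_cases hs : 1 < 2 * w
  · calc volume {x ∈ Icc a b | |p.eval x| < ε} ≤ volume (Icc a b) := measure_mono (fun x hx => hx.1)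
      _ = ENNReal.ofReal (b - a) := Real.volume_Icc
      _ ≤ ENNReal.ofReal (4 * (d + 1) * w * (b - a)) := by
        apply ENNReal.ofReal_le_ofReal
        have h1 : (0 : ℝ) ≤ d := Nat.cast_nonneg d
        have h2 : 1 ≤ 4 * (d + 1) * w := by nlinarith
        nlinarith
  · push Not at hs
    have hw1 : w ≤ 1 / 2 := by linarith
    -- the roots
    set Q : ℂ[X] := p.map (algebraMap ℝ ℂ) with hQ
    have hsp : Q.Splits := IsAlgClosed.splits Q
    set Z := Q.roots with hZ
    have hcard : Z.card ≤ d := (Polynomial.card_roots' Q).trans ((Polynomial.natDegree_map_le).trans hpd)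
    have hev : ∀ x : ℝ, ‖Q.leadingCoeff * (Z.map (fun z => (x : ℂ) - z)).prod‖ = |p.eval x| := by
      intro x
      rw [← hsp.eval_eq_prod_roots]
      have h1 : Q.eval (x : ℂ) = ((p.eval x : ℝ) : ℂ) := by
        rw [hQ]
        have := Polynomial.eval_map_algebraMap p (x : ℂ)
        rw [this]
        have h2 := Polynomial.aeval_algebraMap_apply ℂ x p
        simpa using h2
      rw [h1, Complex.norm_real, Real.norm_eq_abs]
    have hsub : {x ∈ Icc a b | |p.eval x| < ε} ⊆
        ⋃ z ∈ Z.toFinset, Ioo (z.re - (b - a) * (2 * w)) (z.re + (b - a) * (2 * w)) := by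
      rintro x ⟨hx, hxe⟩
      by_contra hcon
      have h1 : ∀ z ∈ Z, w * ‖(x0 : ℂ) - z‖ ≤ ‖(x : ℂ) - z‖ := by
        intro z hz
        have h2 : (b - a) * (2 * w) ≤ ‖(x : ℂ) - z‖ := by
          by_contra h3
          push Not at h3
          apply hcon
          rw [mem_iUnion₂]
          refine ⟨z, Multiset.mem_toFinset.2 hz, ?_⟩
          have h4 := (Complex.abs_re_le_norm ((x : ℂ) - z)).trans_lt h3
          rw [Complex.sub_re, Complex.ofReal_re, abs_lt] at h4
          constructor <;> linarith [h4.1, h4.2]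
        have h5 : ‖(x0 : ℂ) - z‖ ≤ (b - a) + ‖(x : ℂ) - z‖ := by
          calc ‖(x0 : ℂ) - z‖ = ‖((x0 : ℂ) - x) + ((x : ℂ) - z)‖ := by ring_nf
            _ ≤ ‖(x0 : ℂ) - x‖ + ‖(x : ℂ) - z‖ := norm_add_le _ _
            _ ≤ _ := by
              have : ‖(x0 : ℂ) - x‖ = |x0 - x| := by
                rw [← Complex.ofReal_sub, Complex.norm_real, Real.norm_eq_abs]
              rw [this]
              have : |x0 - x| ≤ b - a := by
                rw [abs_le]
                constructor <;> linarith [hx0.1, hx0.2, hx.1, hx.2]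
              linarith
        have h6 : w * ‖(x0 : ℂ) - z‖ ≤ w * ((b - a) + ‖(x : ℂ) - z‖) :=
          mul_le_mul_of_nonneg_left h5 hw0.le
        have h7 : 0 ≤ ‖(x : ℂ) - z‖ := norm_nonneg _
        nlinarith
      have h8 := QA1_prod Q.leadingCoeff Z x x0 w hw0.le h1
      rw [hev, hev] at h8
      have h9 : e ≤ w ^ Z.card := by
        have he1 : e ≤ 1 := by
          by_contra hc
          push Not at hc
          have : 1 < w := Real.one_lt_rpow hc (by positivity)
          linarith
        calc e = w ^ (d + 1) := by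
              rw [hw, ← Real.rpow_natCast, ← Real.rpow_mul he0.le]
              have : 1 / ((d : ℝ) + 1) * ((d + 1 : ℕ) : ℝ) = 1 := by
                push_cast
                field_simp
              rw [this, Real.rpow_one]
          _ ≤ w ^ Z.card := pow_le_pow_of_le_one hw0.le (by linarith) (by omega)
      have h10 : ε ≤ w ^ Z.card * |p.eval x0| := by
        calc ε = e * |p.eval x0| := by rw [he]; field_simp
          _ ≤ _ := mul_le_mul_of_nonneg_right h9 hP.le
      linarith
    calc volume {x ∈ Icc a b | |p.eval x| < ε}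
        ≤ volume (⋃ z ∈ Z.toFinset, Ioo (z.re - (b - a) * (2 * w)) (z.re + (b - a) * (2 * w))) :=
          measure_mono hsub
      _ ≤ ∑ z ∈ Z.toFinset, volume (Ioo (z.re - (b - a) * (2 * w)) (z.re + (b - a) * (2 * w))) :=
          measure_biUnion_finset_le _ _
      _ = ∑ z ∈ Z.toFinset, ENNReal.ofReal (2 * ((b - a) * (2 * w))) := by
          refine Finset.sum_congr rfl fun z _ => ?_
          rw [Real.volume_Ioo]
          congr 1
          ring
      _ = ENNReal.ofReal (Z.toFinset.card * (2 * ((b - a) * (2 * w)))) := by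
          rw [Finset.sum_const, nsmul_eq_mul, ENNReal.ofReal_mul (Nat.cast_nonneg _), ENNReal.ofReal_natCast]
      _ ≤ ENNReal.ofReal (4 * (d + 1) * w * (b - a)) := by
          apply ENNReal.ofReal_le_ofReal
          have h1 : (Z.toFinset.card : ℝ) ≤ d := by
            exact_mod_cast (Multiset.toFinset_card_le Z).trans hcard
          have h2 : 0 ≤ 2 * ((b - a) * (2 * w)) := by positivity
          calc (Z.toFinset.card : ℝ) * (2 * ((b - a) * (2 * w))) ≤ (d + 1) * (2 * ((b - a) * (2 * w))) :=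
                mul_le_mul_of_nonneg_right (by linarith) h2
            _ = _ := by ring

end Pool.Agent.Lib.H70X
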