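import Pool.Agent.Lib.H70X.Defs

/-! # Chunk QA2: coverings by intervals of multiplicity two (medium, pure Mathlib)

Proof. Among the subsets `t ⊆ s` with the same union (there is one: `s`) choose one with the least
number of elements. Then no interval of `t` is contained in the union of the others. If a point `x`
were in three intervals `I, J, K` of `t`, let `I` be one of the three with the smallest left end and `J` one with
the largest right end; then `I ∪ J` is an interval (both contain `x`) which contains all three intervals,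
so the third one (or one of them, if `I = J`) is contained in the union of the others:
contradiction. So every point is in at most two intervals, and
`∑ (r i - l i) = ∑ volume (Icc (l i) (r i)) = ∫ ∑ indicator ≤ 2 volume (Icc a b) = 2 (b - a)`. -/

open Polynomial MeasureTheory Set Filter

namespace Pool.Agent.Lib.H70X

theorem QA2_min {ι : Type*} (s : Finset ι) (l r : ι → ℝ) :
    ∃ t ⊆ s, (⋃ i ∈ s, Icc (l i) (r i)) ⊆ (⋃ i ∈ t, Icc (l i) (r i)) ∧
      ∀ u ⊆ s, (⋃ i ∈ s, Icc (l i) (r i)) ⊆ (⋃ i ∈ u, Icc (l i) (r i)) → t.card ≤ u.card := by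
  classical
  obtain ⟨t, ht, hmin⟩ := Finset.exists_min_image
    (s.powerset.filter (fun t => (⋃ i ∈ s, Icc (l i) (r i)) ⊆ (⋃ i ∈ t, Icc (l i) (r i)))) Finset.card
    ⟨s, by rw [Finset.mem_filter]; exact ⟨Finset.mem_powerset_self s, subset_rfl⟩⟩
  rw [Finset.mem_filter, Finset.mem_powerset] at ht
  refine ⟨t, ht.1, ht.2, ?_⟩
  intro u hu hu2
  exact hmin u (by rw [Finset.mem_filter, Finset.mem_powerset]; exact ⟨hu, hu2⟩)

open Classical in
theorem QA2_mult {ι : Type*} (s t : Finset ι) (l r : ι → ℝ) (hts : t ⊆ s)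
    (hcov : (⋃ i ∈ s, Icc (l i) (r i)) ⊆ (⋃ i ∈ t, Icc (l i) (r i)))
    (hmin : ∀ u ⊆ s, (⋃ i ∈ s, Icc (l i) (r i)) ⊆ (⋃ i ∈ u, Icc (l i) (r i)) → t.card ≤ u.card) (x : ℝ) :
    (t.filter (fun i => x ∈ Icc (l i) (r i))).card ≤ 2 := by
  by_contra hcon
  push Not at hcon
  set F := t.filter (fun i => x ∈ Icc (l i) (r i)) with hF
  have hne : F.Nonempty := Finset.card_pos.1 (by omega)
  obtain ⟨I, hI, hI2⟩ := Finset.exists_min_image F l hne
  obtain ⟨J, hJ, hJ2⟩ := Finset.exists_max_image F r hne
  have hex : ∃ K ∈ F, K ≠ I ∧ K ≠ J := by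
    by_contra hc
    push Not at hc
    have hsub : F ⊆ {I, J} := by
      intro K hK
      rw [Finset.mem_insert, Finset.mem_singleton]
      by_cases h : K = I
      · exact Or.inl h
      · exact Or.inr (hc K hK h)
    have := (Finset.card_le_card hsub).trans Finset.card_le_two
    omega
  obtain ⟨K, hK, hKI, hKJ⟩ := hex
  have hI' := Finset.mem_filter.1 hI
  have hJ' := Finset.mem_filter.1 hJ
  have hK' := Finset.mem_filter.1 hK
  have h1 := hmin (t.erase K) ((Finset.erase_subset _ _).trans hts) (by
    refine hcov.trans ?_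
    intro y hy
    rw [mem_iUnion₂] at hy ⊢
    obtain ⟨i, hi, hyi⟩ := hy
    by_cases hiK : i = K
    · subst hiK
      rcases le_total y x with h | h
      · refine ⟨I, Finset.mem_erase.2 ⟨fun h => hKI h.symm, hI'.1⟩, ?_⟩
        exact ⟨(hI2 i hK).trans hyi.1, h.trans hI'.2.2⟩
      · refine ⟨J, Finset.mem_erase.2 ⟨fun h => hKJ h.symm, hJ'.1⟩, ?_⟩
        exact ⟨hJ'.2.1.trans h, hyi.2.trans (hJ2 i hK)⟩
    · exact ⟨i, Finset.mem_erase.2 ⟨hiK, hi⟩, hyi⟩)
  rw [Finset.card_erase_of_mem hK'.1] at h1
  have h2 : 0 < t.card := Finset.card_pos.2 ⟨K, hK'.1⟩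
  omega

theorem cover2 (a b : ℝ) (hab : a < b) {ι : Type*} (s : Finset ι) (l r : ι → ℝ)
    (h : ∀ i ∈ s, a ≤ l i ∧ l i ≤ r i ∧ r i ≤ b) :
    ∃ t ⊆ s, (⋃ i ∈ s, Icc (l i) (r i)) ⊆ (⋃ i ∈ t, Icc (l i) (r i)) ∧
      ∑ i ∈ t, (r i - l i) ≤ 2 * (b - a) := by
  classical
  obtain ⟨t, hts, hcov, hmin⟩ := QA2_min s l r
  refine ⟨t, hts, hcov, ?_⟩
  have hm := QA2_mult s t l r hts hcov hmin
  have h1 : ∑ i ∈ t, volume (Icc (l i) (r i)) ≤ 2 * volume (Icc a b) := by
    calc ∑ i ∈ t, volume (Icc (l i) (r i))
        = ∑ i ∈ t, ∫⁻ x, (Icc (l i) (r i)).indicator (fun _ => (1 : ENNReal)) x := by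
          refine Finset.sum_congr rfl fun i _ => ?_
          rw [lintegral_indicator measurableSet_Icc]
          simp
      _ = ∫⁻ x, ∑ i ∈ t, (Icc (l i) (r i)).indicator (fun _ => (1 : ENNReal)) x := by
          rw [lintegral_finsetSum]
          intro i _
          exact measurable_const.indicator measurableSet_Icc
      _ ≤ ∫⁻ x, (Icc a b).indicator (fun _ => (2 : ENNReal)) x := by
          apply lintegral_mono
          intro x
          have h2 : ∑ i ∈ t, (Icc (l i) (r i)).indicator (fun _ => (1 : ENNReal)) x =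
              ((t.filter (fun i => x ∈ Icc (l i) (r i))).card : ENNReal) := by
            rw [Finset.card_filter]
            push_cast
            refine Finset.sum_congr rfl fun i _ => ?_
            rw [indicator_apply]
          simp only
          rw [h2]
          by_cases hx : x ∈ Icc a b
          · rw [indicator_of_mem hx]
            exact_mod_cast hm x
          · rw [indicator_of_notMem hx]
            have : t.filter (fun i => x ∈ Icc (l i) (r i)) = ∅ := by
              rw [Finset.filter_eq_empty_iff]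
              intro i hi hxi
              have h3 := h i (hts hi)
              exact hx ⟨h3.1.trans hxi.1, hxi.2.trans h3.2.2⟩
            rw [this]
            simp
      _ = 2 * volume (Icc a b) := by
          rw [lintegral_indicator measurableSet_Icc]
          simp
  have h2 : ∑ i ∈ t, volume (Icc (l i) (r i)) = ENNReal.ofReal (∑ i ∈ t, (r i - l i)) := by
    rw [ENNReal.ofReal_sum_of_nonneg]
    · refine Finset.sum_congr rfl fun i _ => ?_
      rw [Real.volume_Icc]
    · intro i hi
      have := (h i (hts hi)).2.1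
      linarith
  have h3 : 2 * volume (Icc a b) = ENNReal.ofReal (2 * (b - a)) := by
    rw [Real.volume_Icc, ENNReal.ofReal_mul (by norm_num)]
    simp
  rw [h2, h3, ENNReal.ofReal_le_ofReal_iff (by linarith)] at h1
  exact h1

end Pool.Agent.Lib.H70X
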