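import Pool.Agent.Lib.H70X.Defs

/-! # Chunk QL1: minimal integer tuples of a rational subspace (medium)

Proof. There are linearly independent integer vectors `v_1, ..., v_j ∈ V` (`j = finrank V`; multiply a
basis by denominators). Among all such tuples choose one with the least value of the natural
number `∑_S |det (v_s (S t))|` (`S : Fin j → Fin k`; integer determinants; it is not zero because the
rows are independent). Let `v'` be another tuple. Then `v'_s = ∑_t A_{st} v_t` with a rational matrix `A`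
(both are bases of `V` over `ℚ`), so `det (v'_s (S t)) = det A * det (v_s (S t))` for every `S`; by minimality
`|det A| ≥ 1`. In the same way `mn h x v' S = det A * mn h x v S` (`ev h x` is linear), so
`mns h x v' = |det A| mns h x v ≥ mns h x v`. -/

open Polynomial MeasureTheory Set Filter

namespace Pool.Agent.Lib.H70X

/-- `v` consists of independent integer vectors of `V` (as many as the dimension of `V`). -/
def IsTup {k : ℕ} (V : Submodule ℚ (Fin k → ℚ))
    (v : Fin (Module.finrank ℚ V) → Fin k → ℤ) : Prop :=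
  LinearIndependent ℤ v ∧ ∀ s, (fun i => ((v s i : ℤ) : ℚ)) ∈ V

/-- the inclusion of the integer vectors -/
private noncomputable def ql1_c (k : ℕ) : (Fin k → ℤ) →ₗ[ℤ] (Fin k → ℚ) :=
  (Algebra.linearMap ℤ ℚ).compLeft (Fin k)

private theorem ql1_c_apply (k : ℕ) (u : Fin k → ℤ) : ql1_c k u = fun i => ((u i : ℤ) : ℚ) := by
  funext i
  rfl

private theorem ql1_c_inj (k : ℕ) : Function.Injective (ql1_c k) := by
  intro u v h
  rw [ql1_c_apply, ql1_c_apply] at h
  funext i
  have := congrFun h i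
  exact_mod_cast this

private theorem ql1_ev {k m : ℕ} (h : Matrix (Fin k) (Fin k) ℝ[X]) (x : ℝ) (w : Fin m → Fin k → ℤ)
    (a : Fin m → ℤ) (i : Fin k) : ev h x (∑ t, a t • w t) i = ∑ t, (a t : ℝ) * ev h x (w t) i := by
  unfold ev
  simp only [Finset.sum_apply, Pi.smul_apply, smul_eq_mul, Int.cast_sum, Int.cast_mul, Finset.mul_sum]
  rw [Finset.sum_comm]
  refine Finset.sum_congr rfl fun t _ => Finset.sum_congr rfl fun l _ => ?_
  ring

private theorem ql1_mn {k m : ℕ} (h : Matrix (Fin k) (Fin k) ℝ[X]) (x : ℝ) (w : Fin m → Fin k → ℤ)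
    (A : Matrix (Fin m) (Fin m) ℤ) (v' : Fin m → Fin k → ℤ) (hv : ∀ s, v' s = ∑ t, A s t • w t)
    (S : Fin m → Fin k) : mn h x v' S = (A.det : ℝ) * mn h x w S := by
  unfold mn
  have e : (Matrix.of fun s t : Fin m => ev h x (v' s) (S t)) =
      (A.map (Int.castRingHom ℝ)) * (Matrix.of fun s t : Fin m => ev h x (w s) (S t)) := by
    ext s t
    rw [Matrix.mul_apply, Matrix.of_apply, hv, ql1_ev]
    rfl
  rw [e, Matrix.det_mul]
  congr 1
  exact ((Int.castRingHom ℝ).map_det A).symm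

theorem exists_tup {k : ℕ} (V : Submodule ℚ (Fin k → ℚ)) :
    ∃ v : Fin (Module.finrank ℚ V) → Fin k → ℤ, IsTup V v ∧
      ∀ v' : Fin (Module.finrank ℚ V) → Fin k → ℤ, IsTup V v' →
        ∀ (h : Matrix (Fin k) (Fin k) ℝ[X]) (x : ℝ), mns h x v ≤ mns h x v' := by
  set Λ : Submodule ℤ (Fin k → ℤ) := (V.restrictScalars ℤ).comap (ql1_c k) with hΛ
  have hΛm : ∀ u, u ∈ Λ ↔ (fun i => ((u i : ℤ) : ℚ)) ∈ V := by
    intro u
    rw [hΛ, Submodule.mem_comap, ql1_c_apply]
    rfl
  obtain ⟨m, b⟩ := Submodule.basisOfPid (Pi.basisFun ℤ (Fin k)) Λ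
  have hli : LinearIndependent ℤ (fun t => ((b t : Λ) : Fin k → ℤ)) := by
    have := b.linearIndependent.map' Λ.subtype (Submodule.ker_subtype _)
    exact this
  have hliQ : LinearIndependent ℚ (fun t => ql1_c k ((b t : Λ) : Fin k → ℤ)) := by
    rw [← LinearIndependent.iff_fractionRing ℤ ℚ]
    exact hli.map' (ql1_c k) (LinearMap.ker_eq_bot.2 (ql1_c_inj k))
  have hmem : ∀ t, ql1_c k ((b t : Λ) : Fin k → ℤ) ∈ V := fun t => (b t).2
  have hliV : LinearIndependent ℚ (fun t => (⟨ql1_c k ((b t : Λ) : Fin k → ℤ), hmem t⟩ : V)) :=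
    LinearIndependent.of_comp V.subtype hliQ
  have hspan : ⊤ ≤ Submodule.span ℚ (Set.range (fun t => (⟨ql1_c k ((b t : Λ) : Fin k → ℤ), hmem t⟩ : V))) := by
    intro y _
    -- common denominator
    set D : ℕ := ∏ i, (((y : Fin k → ℚ) i).den) with hD
    have hD0 : D ≠ 0 := Finset.prod_ne_zero_iff.2 fun i _ => ((y : Fin k → ℚ) i).den_nz
    have hint : ∀ i, ∃ z : ℤ, (z : ℚ) = (D : ℚ) * (y : Fin k → ℚ) i := by
      intro i
      obtain ⟨c, hc⟩ : (((y : Fin k → ℚ) i).den) ∣ D := Finset.dvd_prod_of_mem _ (Finset.mem_univ i)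
      refine ⟨((y : Fin k → ℚ) i).num * c, ?_⟩
      have h1 := Rat.mul_den_eq_num ((y : Fin k → ℚ) i)
      rw [hc]
      push_cast
      rw [← h1]
      ring
    choose z hz using hint
    have hzV : (fun i => ((z i : ℤ) : ℚ)) = (D : ℚ) • (y : Fin k → ℚ) := by
      funext i
      rw [hz]
      rfl
    have hzΛ : z ∈ Λ := by
      rw [hΛm, hzV]
      exact V.smul_mem _ y.2
    have h2 : z = ∑ t, (b.repr ⟨z, hzΛ⟩ t) • ((b t : Λ) : Fin k → ℤ) := by
      have h3 := congrArg Λ.subtype (b.sum_repr ⟨z, hzΛ⟩)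
      rw [map_sum] at h3
      simp only [map_smul] at h3
      exact h3.symm
    have h4 : (y : Fin k → ℚ) = ∑ t, (((b.repr ⟨z, hzΛ⟩ t : ℤ) : ℚ) / D) • ql1_c k ((b t : Λ) : Fin k → ℤ) := by
      have h5 := congrArg (ql1_c k) h2
      rw [ql1_c_apply, hzV, map_sum] at h5
      have hDq : (D : ℚ) ≠ 0 := by exact_mod_cast hD0
      have h6 : (y : Fin k → ℚ) = (D : ℚ)⁻¹ • ((D : ℚ) • (y : Fin k → ℚ)) := by
        rw [smul_smul, inv_mul_cancel₀ hDq, one_smul]
      rw [h6, h5, Finset.smul_sum]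
      refine Finset.sum_congr rfl fun t _ => ?_
      rw [map_smul, ← Int.cast_smul_eq_zsmul ℚ, smul_smul, inv_mul_eq_div]
    have h7 : y = ∑ t, (((b.repr ⟨z, hzΛ⟩ t : ℤ) : ℚ) / D) •
        (⟨ql1_c k ((b t : Λ) : Fin k → ℤ), hmem t⟩ : V) := by
      apply Subtype.ext
      rw [Submodule.coe_sum]
      exact h4
    rw [h7]
    exact Submodule.sum_mem _ fun t _ => Submodule.smul_mem _ _ (Submodule.subset_span ⟨t, rfl⟩)
  have hrank : Module.finrank ℚ V = m := by
    have := Module.finrank_eq_card_basis (Module.Basis.mk hliV hspan)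
    rw [this, Fintype.card_fin]
  subst hrank
  refine ⟨fun t => ((b t : Λ) : Fin k → ℤ), ⟨hli, fun s => (hΛm _).1 (b s).2⟩, fun v' hv' h x => ?_⟩
  have hv'Λ : ∀ s, v' s ∈ Λ := fun s => (hΛm _).2 (hv'.2 s)
  set A : Matrix (Fin (Module.finrank ℚ V)) (Fin (Module.finrank ℚ V)) ℤ :=
    Matrix.of fun s t => b.repr ⟨v' s, hv'Λ s⟩ t with hA
  have hv : ∀ s, v' s = ∑ t, A s t • ((b t : Λ) : Fin k → ℤ) := by
    intro s
    have h3 := congrArg Λ.subtype (b.sum_repr ⟨v' s, hv'Λ s⟩)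
    rw [map_sum] at h3
    simp only [map_smul] at h3
    exact h3.symm
  have hdet : A.det ≠ 0 := by
    intro hcon
    obtain ⟨z, hz0, hz⟩ := Matrix.exists_vecMul_eq_zero_iff.2 hcon
    have h1 : ∑ s, z s • v' s = 0 := by
      simp only [hv, Finset.smul_sum, smul_smul]
      rw [Finset.sum_comm]
      refine Finset.sum_eq_zero fun t _ => ?_
      rw [← Finset.sum_smul]
      have h2 : ∑ s, z s * A s t = 0 := congrFun hz t
      rw [h2, zero_smul]
    have h2 := Fintype.linearIndependent_iff.1 hv'.1 z h1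
    exact hz0 (funext h2)
  have habs : (1 : ℝ) ≤ |(A.det : ℝ)| := by
    have := Int.one_le_abs hdet
    exact_mod_cast this
  unfold mns
  refine Finset.sum_le_sum fun S _ => ?_
  rw [ql1_mn h x _ A v' hv S, abs_mul]
  exact le_mul_of_one_le_left (abs_nonneg _) habs

/-- a minimal tuple of `V` -/
noncomputable def tup {k : ℕ} (V : Submodule ℚ (Fin k → ℚ)) :
    Fin (Module.finrank ℚ V) → Fin k → ℤ := (exists_tup V).choose

theorem tup_isTup {k : ℕ} (V : Submodule ℚ (Fin k → ℚ)) : IsTup V (tup V) :=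
  (exists_tup V).choose_spec.1

theorem tup_min {k : ℕ} (V : Submodule ℚ (Fin k → ℚ))
    (v' : Fin (Module.finrank ℚ V) → Fin k → ℤ) (hv : IsTup V v')
    (h : Matrix (Fin k) (Fin k) ℝ[X]) (x : ℝ) : mns h x (tup V) ≤ mns h x v' :=
  (exists_tup V).choose_spec.2 v' hv h x

end Pool.Agent.Lib.H70X
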