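import Pool.Agent.Lib.H70X.B0

/-! # Chunk S2: near the rational number (medium, real numbers)

Proof. Let `τ = n/w0 ≤ n`, `s = ε/(2(n+1))`, `ε1 = ε/(4(n+1)^2)`, `η = q^(-ε1)`, `r = p/q`. Let `u` satisfy `|u_0| ≤ Z^(τ-ε)`, `|u_m - u_0 x^m| ≤ 1/Z`. Then
`|u_m - u_0 r^m| ≤ 1/Z + n |u_0| |x - r| ≤ 1/Z + 3 n |u_0| q^(-w0-n)` (`0 ≤ x, r ≤ 1`).
CASE `Z ≤ q`: `3 n |u_0| q^(-w0-n) ≤ 1/Z`, since `3 n Z^(τ-ε+1) ≤ 3 n q^(n+1-ε) ≤ q^(w0+n)` for large `q` (`Z ≥ 1`, `τ ≤ n`). So `|cd r u m| ≤ 2^n 2/Z` for `m ≥ 1` (`cd_sub_le` with `y = 0`). Put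
`R = η Z/2^(n+1)`: `1 ≤ R ≤ q` for large `q` (`Z ≥ q^(1/(n+1))`, `ε1 < 1/(n+1)`), `|cd r u m| ≤ η/R`, and
`|u_0| ≤ Z^(n-ε) ≤ η R^n = η^(n+1) Z^n / 2^(n(n+1))`, because `Z^ε ≥ q^(ε/(n+1)) ≥ 2^(n(n+1)) q^((n+1) ε1)` for large `q`. `GoodRat` gives `u = 0`.
CASE `q < Z ≤ (q^w0)^(1+s)`: `|u_0| ≤ q^(n-ε/2)`: if `τ ≥ ε` then `|u_0| ≤ q^(w0(1+s)(τ-ε))` and `w0 (1+s)(τ-ε) ≤ n + n s - w0 ε ≤ n - ε/2`; if `τ < ε`, `|u_0| ≤ 1`. So
`|u_m - u_0 r^m| ≤ 1/q + 3 n q^(-ε/2-w0) ≤ 2/q` for large `q`. Put `R = η q/2^(n+1)`: `|cd r u m| ≤ 2^n 2/q = η/R` and `|u_0| ≤ q^(n-ε/2) ≤ η^(n+1) q^n/2^(n(n+1)) = η R^n`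
for large `q` (`(n+1) ε1 < ε/2`). `GoodRat` gives `u = 0`. -/

open Polynomial MeasureTheory Set Filter

namespace Pool.Agent.Lib.H70X

private lemma S2_pow_sub (m : ℕ) (x r : ℝ) (hx0 : 0 ≤ x) (hx1 : x ≤ 1) (hr0 : 0 ≤ r)
    (hr1 : r ≤ 1) : |x ^ m - r ^ m| ≤ m * |x - r| := by
  induction m with
  | zero => simp
  | succ m ih =>
    have e : x ^ (m + 1) - r ^ (m + 1) = (x ^ m - r ^ m) * x + r ^ m * (x - r) := by ring
    rw [e]
    refine (abs_add_le _ _).trans ?_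
    rw [abs_mul, abs_mul, abs_of_nonneg hx0, abs_of_nonneg (pow_nonneg hr0 m)]
    have h1 : |x ^ m - r ^ m| * x ≤ m * |x - r| :=
      (mul_le_of_le_one_right (abs_nonneg _) hx1).trans ih
    have h2 : r ^ m * |x - r| ≤ |x - r| :=
      mul_le_of_le_one_left (abs_nonneg _) (pow_le_one₀ hr0 hr1)
    push_cast
    linarith

private lemma S2_core (n : ℕ) (hn : 1 ≤ n) (ε : ℝ) (hε : 0 < ε) (hε1 : ε ≤ 1) (p q : ℕ)
    (hq : 1 ≤ q) (hpq : p ≤ q)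
    (ha : (2 : ℝ) ^ (n * (n + 1)) ≤ (q : ℝ) ^ (3 * ε / (4 * ((n : ℝ) + 1))))
    (hb : (2 : ℝ) ^ (n + 1) ≤ (q : ℝ) ^ (1 / (2 * ((n : ℝ) + 1))))
    (hgood : GoodRat n ((q : ℝ) ^ (-(ε / (4 * ((n : ℝ) + 1) ^ 2)))) p q)
    (Y : ℝ) (hY1 : (q : ℝ) ^ (1 / ((n : ℝ) + 1)) ≤ Y) (hY2 : Y ≤ q)
    (u : Fin (n + 1) → ℤ) (hu0 : |(u 0 : ℝ)| ≤ Y ^ n * (q : ℝ) ^ (-(ε / ((n : ℝ) + 1))))
    (hu : ∀ m : Fin (n + 1), |(u m : ℝ) - u 0 * ((p : ℝ) / q) ^ (m : ℕ)| ≤ 2 / Y) : u = 0 := by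
  have hq1 : (1 : ℝ) ≤ q := by exact_mod_cast hq
  have hq0 : (0 : ℝ) < q := by linarith
  have hn1 : (1 : ℝ) ≤ n := by exact_mod_cast hn
  have hY0 : 0 < Y := lt_of_lt_of_le (Real.rpow_pos_of_pos hq0 _) hY1
  set η : ℝ := (q : ℝ) ^ (-(ε / (4 * ((n : ℝ) + 1) ^ 2))) with hη
  have hη0 : 0 < η := Real.rpow_pos_of_pos hq0 _
  have hη1 : η ≤ 1 := Real.rpow_le_one_of_one_le_of_nonpos hq1 (by
    have : 0 ≤ ε / (4 * ((n : ℝ) + 1) ^ 2) := by positivity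
    linarith)
  have h2 : (0 : ℝ) < 2 ^ (n + 1) := by positivity
  have hr0 : 0 ≤ (p : ℝ) / q := by positivity
  have hr1 : (p : ℝ) / q ≤ 1 := by
    rw [div_le_one hq0]; exact_mod_cast hpq
  refine hgood n le_rfl (η * Y / 2 ^ (n + 1)) ?_ ?_ u ?_ ?_
  · rw [le_div_iff₀ h2, one_mul]
    refine hb.trans ?_
    have : (q : ℝ) ^ (1 / (2 * ((n : ℝ) + 1))) ≤ η * (q : ℝ) ^ (1 / ((n : ℝ) + 1)) := by
      rw [hη, ← Real.rpow_add hq0]
      refine Real.rpow_le_rpow_of_exponent_le hq1 ?_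
      have e1 : ε / (4 * ((n : ℝ) + 1) ^ 2) ≤ 1 / (2 * ((n : ℝ) + 1)) := by
        rw [div_le_div_iff₀ (by positivity) (by positivity)]
        nlinarith
      have e2 : 1 / ((n : ℝ) + 1) = 1 / (2 * ((n : ℝ) + 1)) + 1 / (2 * ((n : ℝ) + 1)) := by
        field_simp; ring
      rw [e2]
      linarith
    exact this.trans (mul_le_mul_of_nonneg_left hY1 hη0.le)
  · rw [div_le_iff₀ h2]
    have h1 : η * Y ≤ q := (mul_le_of_le_one_left hY0.le hη1).trans hY2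
    have h3 : (1 : ℝ) ≤ 2 ^ (n + 1) := one_le_pow₀ (by norm_num)
    nlinarith
  · refine hu0.trans ?_
    have e : η * (η * Y / 2 ^ (n + 1)) ^ n = Y ^ n * (η ^ (n + 1) / 2 ^ (n * (n + 1))) := by
      rw [div_pow, mul_pow, ← pow_mul, mul_comm (n + 1) n]
      ring
    rw [e]
    refine mul_le_mul_of_nonneg_left ?_ (by positivity)
    rw [le_div_iff₀ (by positivity)]
    have e1 : η ^ (n + 1) = (q : ℝ) ^ (-(ε / (4 * ((n : ℝ) + 1)))) := by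
      rw [hη, ← Real.rpow_natCast, ← Real.rpow_mul hq0.le]
      congr 1
      push_cast
      field_simp
    rw [e1]
    calc (q : ℝ) ^ (-(ε / ((n : ℝ) + 1))) * 2 ^ (n * (n + 1))
        ≤ (q : ℝ) ^ (-(ε / ((n : ℝ) + 1))) * (q : ℝ) ^ (3 * ε / (4 * ((n : ℝ) + 1))) :=
          mul_le_mul_of_nonneg_left ha (Real.rpow_nonneg hq0.le _)
      _ = (q : ℝ) ^ (-(ε / (4 * ((n : ℝ) + 1)))) := by
          rw [← Real.rpow_add hq0]
          congr 1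
          field_simp
          ring
  · intro m hm
    have h := cd_sub_le ((p : ℝ) / q) 0 (2 / Y) hr0 hr1 u m (Nat.lt_succ_iff.mp m.2)
      (fun l => by rw [add_zero]; exact hu l)
    have hm0 : (m : ℕ) ≠ 0 := fun h0 => hm (Fin.ext (by simpa using h0))
    rw [zero_pow hm0, mul_zero, sub_zero] at h
    refine h.trans (le_of_eq ?_)
    field_simp
    ring

theorem near_free (n : ℕ) (hn : 1 ≤ n) (w0 : ℝ) (hw0 : 1 ≤ w0) (ε : ℝ) (hε : 0 < ε)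
    (hε1 : ε ≤ 1) : ∃ ε1 : ℝ, 0 < ε1 ∧ ∃ q0 : ℕ, ∀ p q : ℕ, q0 ≤ q → p ≤ q → 0 < q →
      GoodRat n ((q : ℝ) ^ (-ε1)) p q →
      ∀ x : ℝ, 0 ≤ x → x ≤ 1 → |x - (p : ℝ) / q| ≤ 3 * (q : ℝ) ^ (-(w0 + n)) →
      ∀ Z : ℝ, (q : ℝ) ^ (1 / ((n : ℝ) + 1)) ≤ Z →
        Z ≤ ((q : ℝ) ^ w0) ^ (1 + ε / (2 * (n + 1))) → Free n x (Z ^ ((n : ℝ) / w0 - ε)) Z := by
  have hn1 : (1 : ℝ) ≤ n := by exact_mod_cast hn
  have hn0 : (0 : ℝ) < (n : ℝ) + 1 := by linarith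
  refine ⟨ε / (4 * ((n : ℝ) + 1) ^ 2), by positivity, ?_⟩
  have hA : ∀ᶠ q : ℕ in atTop, (2 : ℝ) ^ (n * (n + 1)) ≤ (q : ℝ) ^ (3 * ε / (4 * ((n : ℝ) + 1))) :=
    ((tendsto_rpow_atTop (by positivity)).comp tendsto_natCast_atTop_atTop).eventually
      (eventually_ge_atTop _)
  have hB : ∀ᶠ q : ℕ in atTop, (2 : ℝ) ^ (n + 1) ≤ (q : ℝ) ^ (1 / (2 * ((n : ℝ) + 1))) :=
    ((tendsto_rpow_atTop (by positivity)).comp tendsto_natCast_atTop_atTop).eventually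
      (eventually_ge_atTop _)
  have hC : ∀ᶠ q : ℕ in atTop, (3 * n : ℝ) ≤ (q : ℝ) ^ (ε / 2) :=
    ((tendsto_rpow_atTop (by positivity)).comp tendsto_natCast_atTop_atTop).eventually
      (eventually_ge_atTop _)
  obtain ⟨q0, hq0⟩ := eventually_atTop.mp (hA.and (hB.and hC))
  refine ⟨q0, fun p q hqq hpq hqpos hgood x hx0 hx1 hxr Z hZ1 hZ2 u hu0 hu => ?_⟩
  obtain ⟨ha, hb, hc⟩ := hq0 q hqq
  have hq1' : 1 ≤ q := hqpos
  have hq1 : (1 : ℝ) ≤ q := by exact_mod_cast hq1'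
  have hqp : (0 : ℝ) < q := by linarith
  have hr0 : 0 ≤ (p : ℝ) / q := by positivity
  have hr1 : (p : ℝ) / q ≤ 1 := by
    rw [div_le_one hqp]; exact_mod_cast hpq
  have hZ1' : 1 ≤ Z := (Real.one_le_rpow hq1 (by positivity)).trans hZ1
  have hZ0 : 0 < Z := by linarith
  have hw : 0 < w0 := by linarith
  have hτn : (n : ℝ) / w0 ≤ n := div_le_self (by linarith) hw0
  have hτ0 : 0 ≤ (n : ℝ) / w0 := by positivity
  -- the distance to the powers of the rational number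
  have herr : ∀ m : Fin (n + 1), |(u m : ℝ) - u 0 * ((p : ℝ) / q) ^ (m : ℕ)| ≤
      1 / Z + |(u 0 : ℝ)| * (3 * n * (q : ℝ) ^ (-(w0 + n))) := by
    intro m
    have e : (u m : ℝ) - u 0 * ((p : ℝ) / q) ^ (m : ℕ) =
        ((u m : ℝ) - u 0 * x ^ (m : ℕ)) + u 0 * (x ^ (m : ℕ) - ((p : ℝ) / q) ^ (m : ℕ)) := by ring
    rw [e]
    refine (abs_add_le _ _).trans (add_le_add (hu m) ?_)
    rw [abs_mul]
    refine mul_le_mul_of_nonneg_left ?_ (abs_nonneg _)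
    refine (S2_pow_sub m x _ hx0 hx1 hr0 hr1).trans ?_
    have hm : ((m : ℕ) : ℝ) ≤ n := by exact_mod_cast Nat.lt_succ_iff.mp m.2
    calc ((m : ℕ) : ℝ) * |x - (p : ℝ) / q| ≤ n * (3 * (q : ℝ) ^ (-(w0 + n))) :=
          mul_le_mul hm hxr (abs_nonneg _) (by linarith)
      _ = 3 * n * (q : ℝ) ^ (-(w0 + n)) := by ring
  have hcq : 3 * (n : ℝ) * (q : ℝ) ^ (-(ε / 2)) ≤ 1 := by
    rw [Real.rpow_neg hqp.le, ← div_eq_mul_inv, div_le_one (Real.rpow_pos_of_pos hqp _)]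
    exact hc
  rcases le_or_gt Z q with hZq | hZq
  · -- the case `Z ≤ q`
    refine S2_core n hn ε hε hε1 p q hq1' hpq ha hb hgood Z hZ1 hZq u ?_ ?_
    · refine hu0.trans ?_
      calc Z ^ ((n : ℝ) / w0 - ε) ≤ Z ^ ((n : ℝ) - ε) :=
            Real.rpow_le_rpow_of_exponent_le hZ1' (by linarith)
        _ = Z ^ n * Z ^ (-ε) := by
            rw [← Real.rpow_natCast, ← Real.rpow_add hZ0, sub_eq_add_neg]
        _ ≤ Z ^ n * (q : ℝ) ^ (-(ε / ((n : ℝ) + 1))) := by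
            refine mul_le_mul_of_nonneg_left ?_ (by positivity)
            have e : (q : ℝ) ^ (-(ε / ((n : ℝ) + 1))) =
                ((q : ℝ) ^ (1 / ((n : ℝ) + 1))) ^ (-ε) := by
              rw [← Real.rpow_mul hqp.le]
              congr 1
              field_simp
            rw [e]
            exact Real.rpow_le_rpow_of_nonpos (Real.rpow_pos_of_pos hqp _) hZ1 (by linarith)
    · intro m
      refine (herr m).trans ?_
      have key : |(u 0 : ℝ)| * (3 * n * (q : ℝ) ^ (-(w0 + n))) ≤ 1 / Z := by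
        rw [le_div_iff₀ hZ0]
        have h1 : |(u 0 : ℝ)| * Z ≤ (q : ℝ) ^ (w0 + n - ε) := by
          calc |(u 0 : ℝ)| * Z ≤ Z ^ ((n : ℝ) / w0 - ε) * Z :=
                mul_le_mul_of_nonneg_right hu0 hZ0.le
            _ = Z ^ ((n : ℝ) / w0 - ε + 1) := by
                rw [Real.rpow_add hZ0, Real.rpow_one]
            _ ≤ (q : ℝ) ^ ((n : ℝ) / w0 - ε + 1) :=
                Real.rpow_le_rpow hZ0.le hZq (by linarith)
            _ ≤ (q : ℝ) ^ (w0 + n - ε) :=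
                Real.rpow_le_rpow_of_exponent_le hq1 (by linarith)
        have h2 : (0 : ℝ) ≤ 3 * n * (q : ℝ) ^ (-(w0 + n)) := by positivity
        calc |(u 0 : ℝ)| * (3 * n * (q : ℝ) ^ (-(w0 + n))) * Z
            = |(u 0 : ℝ)| * Z * (3 * n * (q : ℝ) ^ (-(w0 + n))) := by ring
          _ ≤ (q : ℝ) ^ (w0 + n - ε) * (3 * n * (q : ℝ) ^ (-(w0 + n))) :=
              mul_le_mul_of_nonneg_right h1 h2
          _ = 3 * n * ((q : ℝ) ^ (w0 + n - ε) * (q : ℝ) ^ (-(w0 + n))) := by ring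
          _ = 3 * n * (q : ℝ) ^ (-ε) := by
              rw [← Real.rpow_add hqp]
              congr 2
              ring
          _ ≤ 3 * n * (q : ℝ) ^ (-(ε / 2)) := by
              refine mul_le_mul_of_nonneg_left ?_ (by positivity)
              exact Real.rpow_le_rpow_of_exponent_le hq1 (by linarith)
          _ ≤ 1 := hcq
      have e2 : 2 / Z = 1 / Z + 1 / Z := by ring
      rw [e2]
      linarith
  · -- the case `q < Z`
    have hu0' : |(u 0 : ℝ)| ≤ (q : ℝ) ^ ((n : ℝ) - ε / 2) := by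
      refine hu0.trans ?_
      rcases le_or_gt ε ((n : ℝ) / w0) with hτ | hτ
      · calc Z ^ ((n : ℝ) / w0 - ε)
            ≤ (((q : ℝ) ^ w0) ^ (1 + ε / (2 * ((n : ℝ) + 1)))) ^ ((n : ℝ) / w0 - ε) :=
              Real.rpow_le_rpow hZ0.le hZ2 (by linarith)
          _ = (q : ℝ) ^ (w0 * (1 + ε / (2 * ((n : ℝ) + 1))) * ((n : ℝ) / w0 - ε)) := by
              rw [← Real.rpow_mul hqp.le, ← Real.rpow_mul hqp.le]
          _ ≤ (q : ℝ) ^ ((n : ℝ) - ε / 2) := by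
              refine Real.rpow_le_rpow_of_exponent_le hq1 ?_
              have e1 : w0 * (1 + ε / (2 * ((n : ℝ) + 1))) * ((n : ℝ) / w0 - ε) =
                  (1 + ε / (2 * ((n : ℝ) + 1))) * ((n : ℝ) - w0 * ε) := by
                field_simp
              rw [e1]
              have hs0 : 0 ≤ ε / (2 * ((n : ℝ) + 1)) := by positivity
              have hs : (n : ℝ) * (ε / (2 * ((n : ℝ) + 1))) ≤ ε / 2 := by
                rw [← mul_div_assoc, div_le_div_iff₀ (by positivity) (by norm_num)]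
                nlinarith
              have hwε : ε ≤ w0 * ε := le_mul_of_one_le_left hε.le hw0
              have h3 : 0 ≤ ε / (2 * ((n : ℝ) + 1)) * (w0 * ε) := by positivity
              have e2 : (1 + ε / (2 * ((n : ℝ) + 1))) * ((n : ℝ) - w0 * ε) =
                  n + n * (ε / (2 * ((n : ℝ) + 1))) - w0 * ε -
                    ε / (2 * ((n : ℝ) + 1)) * (w0 * ε) := by ring
              rw [e2]
              linarith
      · calc Z ^ ((n : ℝ) / w0 - ε) ≤ 1 :=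
              Real.rpow_le_one_of_one_le_of_nonpos hZ1' (by linarith)
          _ ≤ (q : ℝ) ^ ((n : ℝ) - ε / 2) := Real.one_le_rpow hq1 (by linarith)
    refine S2_core n hn ε hε hε1 p q hq1' hpq ha hb hgood q ?_ le_rfl u ?_ ?_
    · conv_rhs => rw [← Real.rpow_one (q : ℝ)]
      refine Real.rpow_le_rpow_of_exponent_le hq1 ?_
      rw [div_le_one hn0]
      linarith
    · refine hu0'.trans ?_
      rw [← Real.rpow_natCast, ← Real.rpow_add hqp]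
      refine Real.rpow_le_rpow_of_exponent_le hq1 ?_
      have : ε / ((n : ℝ) + 1) ≤ ε / 2 :=
        div_le_div_of_nonneg_left hε.le (by norm_num) (by linarith)
      linarith
    · intro m
      refine (herr m).trans ?_
      have h1 : 1 / Z ≤ 1 / (q : ℝ) := one_div_le_one_div_of_le hqp hZq.le
      have h2 : (0 : ℝ) ≤ 3 * n * (q : ℝ) ^ (-(w0 + n)) := by positivity
      have key : |(u 0 : ℝ)| * (3 * n * (q : ℝ) ^ (-(w0 + n))) ≤ 1 / q := by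
        rw [le_div_iff₀ hqp]
        calc |(u 0 : ℝ)| * (3 * n * (q : ℝ) ^ (-(w0 + n))) * q
            ≤ (q : ℝ) ^ ((n : ℝ) - ε / 2) * (3 * n * (q : ℝ) ^ (-(w0 + n))) * q :=
              mul_le_mul_of_nonneg_right (mul_le_mul_of_nonneg_right hu0' h2) hqp.le
          _ = 3 * n * ((q : ℝ) ^ ((n : ℝ) - ε / 2) * (q : ℝ) ^ (-(w0 + n)) * (q : ℝ) ^ (1 : ℝ)) := by
              rw [Real.rpow_one]; ring
          _ = 3 * n * (q : ℝ) ^ ((n : ℝ) - ε / 2 + -(w0 + n) + 1) := by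
              rw [← Real.rpow_add hqp, ← Real.rpow_add hqp]
          _ ≤ 3 * n * (q : ℝ) ^ (-(ε / 2)) := by
              refine mul_le_mul_of_nonneg_left ?_ (by positivity)
              exact Real.rpow_le_rpow_of_exponent_le hq1 (by linarith)
          _ ≤ 1 := hcq
      have e2 : 2 / (q : ℝ) = 1 / q + 1 / q := by ring
      rw [e2]
      linarith

end Pool.Agent.Lib.H70X
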