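import Pool.Agent.Lib.H70X.G4
import Pool.Agent.Lib.H70X.S1
import Pool.Agent.Lib.H70X.B0

/-! # Chunk S3: choosing a good rational number close to a point of a large set (medium)

Proof. Let `N` be large, `η = (N/4)^(-ε1) ≤ 1`. `many_rationals`: the set `X1` has outer measure `≥ 3(b-a)/10`; `bad_measure`: the set `X2` (for this `η`) has measure
`≤ C (1 + log N) (N/4)^(-ε1 α) < (b-a)/20` for large `N`; `volume (Icc a b \ A) ≤ (b-a)/5`. So `X1` is not contained in `X2 ∪ (Icc a b \ A)` (subadditivity): there is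
`x ∈ A ∩ [a,b]` with `p/q`, `N < 4q ≤ 4N`, `|x - p/q| ≤ 4/N^2 ≤ 4/q^2`, `x ∉ X2`, so `GoodRat n η p q`, and `q^(-ε1) ≤ η` (`q > N/4`): `goodRat_mono`.
`0 < p < q` since `|x - p/q| ≤ 4/N^2 < min a (1-b)` for large `N`, and `q > N/4 ≥ Q0`. -/

open Polynomial MeasureTheory Set Filter

namespace Pool.Agent.Lib.H70X

theorem S3_lim (C α ε1 : ℝ) (hα : 0 < α) (hε1 : 0 < ε1) :
    Tendsto (fun N : ℕ => C * (1 + Real.log N) * (((N : ℝ) / 4) ^ (-ε1)) ^ α) atTop (nhds 0) := by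
  have hr : 0 < ε1 * α := by positivity
  have h1 : Tendsto (fun x : ℝ => Real.log x / x ^ (ε1 * α)) atTop (nhds 0) :=
    (isLittleO_log_rpow_atTop hr).tendsto_div_nhds_zero
  have h2 : Tendsto (fun x : ℝ => x ^ (-(ε1 * α))) atTop (nhds 0) := tendsto_rpow_neg_atTop hr
  have h3 : Tendsto (fun x : ℝ => C * (4 : ℝ) ^ (ε1 * α) *
      (x ^ (-(ε1 * α)) + Real.log x / x ^ (ε1 * α))) atTop (nhds 0) := by
    have := (h2.add h1).const_mul (C * (4 : ℝ) ^ (ε1 * α))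
    simpa using this
  have h4 := h3.comp tendsto_natCast_atTop_atTop
  refine h4.congr' ?_
  filter_upwards [eventually_gt_atTop 0] with N hN
  have hN0 : (0 : ℝ) < N := by exact_mod_cast hN
  simp only [Function.comp]
  rw [← Real.rpow_mul (by positivity), Real.div_rpow hN0.le (by norm_num),
    show -ε1 * α = -(ε1 * α) by ring, Real.rpow_neg hN0.le, Real.rpow_neg (by norm_num : (0:ℝ) ≤ 4)]
  have h5 : (N : ℝ) ^ (ε1 * α) ≠ 0 := (Real.rpow_pos_of_pos hN0 _).ne'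
  have h6 : (4 : ℝ) ^ (ε1 * α) ≠ 0 := (Real.rpow_pos_of_pos (by norm_num) _).ne'
  field_simp

theorem pick (n : ℕ) (a b : ℝ) (ha : 0 < a) (hab : a < b) (hb : b < 1) (ε1 : ℝ) (hε1 : 0 < ε1)
    (A : Set ℝ) (hA : volume (Icc a b \ A) ≤ ENNReal.ofReal ((b - a) / 5)) (Q0 : ℕ) :
    ∃ x ∈ A ∩ Icc a b, ∃ p q : ℕ, Q0 ≤ q ∧ 0 < p ∧ p < q ∧ p.Coprime q ∧
      GoodRat n ((q : ℝ) ^ (-ε1)) p q ∧ |x - (p : ℝ) / q| ≤ 4 / (q : ℝ) ^ 2 := by
  obtain ⟨N0, hN0⟩ := many_rationals a b ha.le hab hb.le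
  obtain ⟨C, α, hC, hα, hbad⟩ := bad_measure n
  have hba : 0 < b - a := by linarith
  have hlim := S3_lim C α ε1 hα hε1
  have hev1 : ∀ᶠ N : ℕ in atTop, C * (1 + Real.log N) * (((N : ℝ) / 4) ^ (-ε1)) ^ α <
      (b - a) / 20 := hlim.eventually_lt_const (by positivity)
  have hlim2 : Tendsto (fun N : ℕ => 4 / (N : ℝ) ^ 2) atTop (nhds 0) := by
    have h1 : Tendsto (fun N : ℕ => (N : ℝ) ^ 2) atTop atTop :=
      (tendsto_pow_atTop (by norm_num)).comp tendsto_natCast_atTop_atTop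
    exact h1.const_div_atTop 4
  have hev2 : ∀ᶠ N : ℕ in atTop, 4 / (N : ℝ) ^ 2 < a := hlim2.eventually_lt_const ha
  have hev3 : ∀ᶠ N : ℕ in atTop, 4 / (N : ℝ) ^ 2 < 1 - b :=
    hlim2.eventually_lt_const (by linarith)
  obtain ⟨N, ⟨⟨⟨h1, h2⟩, h3⟩, h4⟩, h5, h6⟩ := (((((hev1.and hev2).and hev3).and
    (eventually_ge_atTop N0)).and ((eventually_ge_atTop 4).and
    (eventually_ge_atTop (4 * Q0))))).exists
  have hN4 : (4 : ℝ) ≤ N := by exact_mod_cast h5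
  have hNpos : (0 : ℝ) < N := by linarith
  have hη0 : 0 < ((N : ℝ) / 4) ^ (-ε1) := Real.rpow_pos_of_pos (by positivity) _
  have hη1 : ((N : ℝ) / 4) ^ (-ε1) ≤ 1 :=
    Real.rpow_le_one_of_one_le_of_nonpos (by rw [le_div_iff₀ (by norm_num)]; linarith)
      (by linarith)
  have hX1 := hN0 N h4
  have hX2 := hbad N (((N : ℝ) / 4) ^ (-ε1)) (by omega) hη0 hη1
  have hex : ∃ x, x ∈ {x ∈ Icc a b | ∃ p q : ℕ, p ≤ q ∧
      N < 4 * q ∧ q ≤ N ∧ p.Coprime q ∧ |x - (p : ℝ) / q| ≤ 4 / (N : ℝ) ^ 2} ∧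
      x ∉ ({x : ℝ | ∃ p q : ℕ, p ≤ q ∧ N < 4 * q ∧ q ≤ N ∧ p.Coprime q ∧
        ¬ GoodRat n (((N : ℝ) / 4) ^ (-ε1)) p q ∧
      |x - (p : ℝ) / q| ≤ 4 / (N : ℝ) ^ 2} ∪ (Icc a b \ A)) := by
    by_contra hcon
    push Not at hcon
    have h7 := measure_mono (μ := volume) (fun x hx => hcon x hx)
    have h8 := hX1.trans (h7.trans ((measure_union_le _ _).trans (add_le_add hX2 hA)))
    rw [← ENNReal.ofReal_add (by
      have : 0 ≤ Real.log N := Real.log_nonneg (by linarith)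
      positivity) (by positivity),
      ENNReal.ofReal_le_ofReal_iff (by
      have : 0 ≤ Real.log N := Real.log_nonneg (by linarith)
      positivity)] at h8
    linarith
  obtain ⟨x, ⟨hxab, p, q, hpq, hNq, hqN, hcop, hxpq⟩, hx2⟩ := hex
  rw [Set.mem_union, not_or] at hx2
  have hxA : x ∈ A := by
    by_contra hxA
    exact hx2.2 ⟨hxab, hxA⟩
  have hgood : GoodRat n (((N : ℝ) / 4) ^ (-ε1)) p q := by
    by_contra hg
    exact hx2.1 ⟨p, q, hpq, hNq, hqN, hcop, hg, hxpq⟩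
  have hq0 : (0 : ℝ) < q := by exact_mod_cast (by omega : 0 < q)
  have hNq' : (N : ℝ) < 4 * q := by exact_mod_cast hNq
  have hqN' : (q : ℝ) ≤ N := by exact_mod_cast hqN
  have habs := abs_le.1 hxpq
  refine ⟨x, ⟨hxA, hxab⟩, p, q, by omega, ?_, ?_, hcop, ?_, ?_⟩
  · have h7 : 0 < (p : ℝ) / q := by linarith [hxab.1, habs.2]
    rcases Nat.eq_zero_or_pos p with hp | hp
    · rw [hp] at h7
      simp at h7
    · exact hp
  · have h7 : (p : ℝ) / q < 1 := by linarith [hxab.2, habs.1]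
    rw [div_lt_one hq0] at h7
    exact_mod_cast h7
  · refine goodRat_mono ?_ (Real.rpow_pos_of_pos hq0 _).le hgood
    exact Real.rpow_le_rpow_of_nonpos (by positivity) (by linarith) (by linarith)
  · refine hxpq.trans ?_
    exact div_le_div_of_nonneg_left (by norm_num) (by positivity)
      (pow_le_pow_left₀ hq0.le hqN' 2)

end Pool.Agent.Lib.H70X
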