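import Pool.Agent.Lib.H70X.J8
import Pool.Agent.Lib.H70X.S3

/-! # Chunk S4: the next rational number (medium)

Proof. `ε1, q0` from `far_measure` (`q0 ≥ 2`). Let `r = p/q`, `Y = q^(-(w0+n))`, `s = ε/(2(n+1))`. Apply `pick` on `[r + 11Y/10, r + 19Y/10] ⊆ (0,1)` (length `4Y/5`) to
`A = {x | ∀ Z ≥ (q^w0)^(1+s), Free n x (Z^(n/w0-ε)) (Z/2)} \ Ioo (β - Y/100) (β + Y/100)`: the complement in this interval has measure `≤ Y/10 + Y/50 ≤ (4Y/5)/5`. With `q' ≥ Q1`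
very large: `4/q'^2 + 2 Y' ≤ 6/q'^2 ≤ Y/200`, `Y' = q'^(-(w0+n)) ≤ q'^(-2)`, and `6 n ≤ q'`. For `x' ∈ [p'/q' + Y', p'/q' + 2Y']`: `|x' - x| ≤ 6/q'^2`; `x' ≠ β` as `|x - β| ≥ Y/100`.
Let `(q^w0)^(1+s) ≤ Z ≤ q'^(1/(n+1))` and `|u_0| ≤ Z^(n/w0-ε) ≤ Z^n`, `|u_m - u_0 x'^m| ≤ 1/Z`. Then
`|u_m - u_0 x^m| ≤ 1/Z + n Z^n 6/q'^2 ≤ 2/Z` because `Z^(n+1) ≤ q'` and `6 n ≤ q'`; so `u = 0` by the choice of `x` (`x, x' ∈ [0,1]`). -/

open Polynomial MeasureTheory Set Filter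

namespace Pool.Agent.Lib.H70X

private theorem pow_lip (n : ℕ) (m : Fin (n + 1)) (x x' : ℝ) (hx0 : 0 ≤ x) (hx1 : x ≤ 1) (hx'0 : 0 ≤ x')
    (hx'1 : x' ≤ 1) : |x' ^ (m : ℕ) - x ^ (m : ℕ)| ≤ n * |x' - x| := by
  have h := abs_pow_sub_pow_le x' x (m : ℕ)
  have h1 : max |x'| |x| ≤ 1 := by
    rw [abs_of_nonneg hx0, abs_of_nonneg hx'0]
    exact max_le hx'1 hx1
  have h2 : (max |x'| |x|) ^ ((m : ℕ) - 1) ≤ 1 := pow_le_one₀ (le_max_of_le_left (abs_nonneg _)) h1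
  have h3 : ((m : ℕ) : ℝ) ≤ n := by exact_mod_cast Nat.lt_succ_iff.mp m.2
  have h4 : 0 ≤ |x' - x| := abs_nonneg _
  have h5 : 0 ≤ ((m : ℕ) : ℝ) := Nat.cast_nonneg _
  calc |x' ^ (m : ℕ) - x ^ (m : ℕ)| ≤ |x' - x| * m * max |x'| |x| ^ ((m : ℕ) - 1) := h
    _ ≤ |x' - x| * m * 1 := by
        apply mul_le_mul_of_nonneg_left h2 (by positivity)
    _ ≤ |x' - x| * n * 1 := by
        apply mul_le_mul_of_nonneg_right _ (by norm_num)
        exact mul_le_mul_of_nonneg_left h3 h4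
    _ = n * |x' - x| := by ring

theorem next (n : ℕ) (hn : 1 ≤ n) (w0 : ℝ) (hw0 : 1 ≤ w0) (ε : ℝ) (hε : 0 < ε) (hε1 : ε ≤ 1) :
    ∃ ε1 : ℝ, 0 < ε1 ∧ ∃ q0 : ℕ, ∀ p q : ℕ, q0 ≤ q → 0 < p → p < q → p.Coprime q →
      GoodRat n ((q : ℝ) ^ (-ε1)) p q →
      (p : ℝ) / q + 2 * (q : ℝ) ^ (-(w0 + n)) < 1 →
      ∀ (ε1' : ℝ) (Q0 : ℕ) (β : ℝ), 0 < ε1' →
      ∃ p' q' : ℕ, Q0 ≤ q' ∧ 0 < p' ∧ p' < q' ∧ p'.Coprime q' ∧
        GoodRat n ((q' : ℝ) ^ (-ε1')) p' q' ∧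
        (p : ℝ) / q + (q : ℝ) ^ (-(w0 + n)) ≤ (p' : ℝ) / q' ∧
        (p' : ℝ) / q' + 2 * (q' : ℝ) ^ (-(w0 + n)) ≤ (p : ℝ) / q + 2 * (q : ℝ) ^ (-(w0 + n)) ∧
        β ∉ Icc ((p' : ℝ) / q' + (q' : ℝ) ^ (-(w0 + n))) ((p' : ℝ) / q' + 2 * (q' : ℝ) ^ (-(w0 + n))) ∧
        ∀ x ∈ Icc ((p' : ℝ) / q' + (q' : ℝ) ^ (-(w0 + n)))
            ((p' : ℝ) / q' + 2 * (q' : ℝ) ^ (-(w0 + n))),
          ∀ Z : ℝ, ((q : ℝ) ^ w0) ^ (1 + ε / (2 * (n + 1))) ≤ Z →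
            Z ≤ (q' : ℝ) ^ (1 / ((n : ℝ) + 1)) → Free n x (Z ^ ((n : ℝ) / w0 - ε)) Z := by
  obtain ⟨ε1, hε1pos, q0, hfar⟩ := far_measure n hn w0 hw0 ε hε hε1
  refine ⟨ε1, hε1pos, max q0 2, ?_⟩
  intro p q hq hp hpq hcop hgood hlt ε1' Q0 β hε1'
  have hq0 : q0 ≤ q := le_trans (le_max_left _ _) hq
  have hq2 : 2 ≤ q := le_trans (le_max_right _ _) hq
  have hqR : (2 : ℝ) ≤ q := by exact_mod_cast hq2
  have hqpos : (0 : ℝ) < q := by linarith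
  have hfm := hfar p q hq0 hpq.le hcop hgood
  set r : ℝ := (p : ℝ) / q with hr
  set Y : ℝ := (q : ℝ) ^ (-(w0 + n)) with hY
  set Zm : ℝ := ((q : ℝ) ^ w0) ^ (1 + ε / (2 * (n + 1))) with hZm
  have hYpos : 0 < Y := Real.rpow_pos_of_pos hqpos _
  have hrpos : 0 < r := div_pos (by exact_mod_cast hp) hqpos
  have hnR : (1 : ℝ) ≤ n := by exact_mod_cast hn
  have hZm1 : 1 ≤ Zm := by
    apply Real.one_le_rpow
    · apply Real.one_le_rpow (by linarith) (by linarith)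
    · positivity
  set a : ℝ := r + 11 / 10 * Y with ha
  set b : ℝ := r + 19 / 10 * Y with hb
  set A : Set ℝ := {x | ∀ Z : ℝ, Zm ≤ Z → Free n x (Z ^ ((n : ℝ) / w0 - ε)) (Z / 2)} \
    Ioo (β - Y / 100) (β + Y / 100) with hA
  have hapos : 0 < a := by positivity
  have hab : a < b := by rw [ha, hb]; linarith
  have hb1 : b < 1 := by rw [hb]; linarith
  have hAmeas : volume (Icc a b \ A) ≤ ENNReal.ofReal ((b - a) / 5) := by
    have hsub : Icc a b \ A ⊆ {x ∈ Icc (r + Y) (r + 2 * Y) |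
        ∃ Z : ℝ, Zm ≤ Z ∧ ¬ Free n x (Z ^ ((n : ℝ) / w0 - ε)) (Z / 2)} ∪
        Ioo (β - Y / 100) (β + Y / 100) := by
      intro x hx
      by_cases hxI : x ∈ Ioo (β - Y / 100) (β + Y / 100)
      · exact Or.inr hxI
      · left
        refine ⟨⟨?_, ?_⟩, ?_⟩
        · have := hx.1.1; rw [ha] at this; linarith
        · have := hx.1.2; rw [hb] at this; linarith
        · by_contra hcon
          push Not at hcon
          exact hx.2 ⟨fun Z hZ => hcon Z hZ, hxI⟩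
    calc volume (Icc a b \ A) ≤ _ := measure_mono hsub
      _ ≤ _ := measure_union_le _ _
      _ ≤ ENNReal.ofReal (Y / 10) + ENNReal.ofReal (Y / 50) := by
          apply add_le_add hfm
          rw [Real.volume_Ioo]
          apply ENNReal.ofReal_le_ofReal
          linarith
      _ = ENNReal.ofReal (Y / 10 + Y / 50) := by
          rw [ENNReal.ofReal_add (by positivity) (by positivity)]
      _ ≤ ENNReal.ofReal ((b - a) / 5) := by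
          apply ENNReal.ofReal_le_ofReal
          rw [ha, hb]; linarith
  obtain ⟨N1, hN1⟩ := exists_nat_ge (1200 / Y)
  obtain ⟨x, hxA, p', q', hQ1, hp', hp'q', hcop', hgood', hxr⟩ :=
    pick n a b hapos hab hb1 ε1' hε1' A hAmeas (max (max Q0 1) (max N1 (6 * n)))
  have hQ0 : Q0 ≤ q' := le_trans (le_trans (le_max_left _ _) (le_max_left _ _)) hQ1
  have h1q' : 1 ≤ q' := le_trans (le_trans (le_max_right _ _) (le_max_left _ _)) hQ1
  have hN1q' : N1 ≤ q' := le_trans (le_trans (le_max_left _ _) (le_max_right _ _)) hQ1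
  have h6n : 6 * n ≤ q' := le_trans (le_trans (le_max_right _ _) (le_max_right _ _)) hQ1
  have h1q'R : (1 : ℝ) ≤ q' := by exact_mod_cast h1q'
  have hq'pos : (0 : ℝ) < q' := by linarith
  have h6nR : 6 * (n : ℝ) ≤ q' := by exact_mod_cast h6n
  have hYq' : 1200 ≤ Y * q' := by
    have h1 : 1200 / Y ≤ q' := hN1.trans (by exact_mod_cast hN1q')
    rw [div_le_iff₀ hYpos] at h1
    linarith
  have hinv : 6 / (q' : ℝ) ^ 2 ≤ Y / 200 := by
    rw [div_le_div_iff₀ (by positivity) (by norm_num)]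
    nlinarith
  set r' : ℝ := (p' : ℝ) / q' with hr'
  set Y' : ℝ := (q' : ℝ) ^ (-(w0 + n)) with hY'
  have hY'pos : 0 < Y' := Real.rpow_pos_of_pos hq'pos _
  have hY'le : Y' ≤ 1 / (q' : ℝ) ^ 2 := by
    have : Y' ≤ (q' : ℝ) ^ (-(2 : ℝ)) := Real.rpow_le_rpow_of_exponent_le h1q'R (by linarith)
    rw [Real.rpow_neg hq'pos.le] at this
    have h2 : (q' : ℝ) ^ (2 : ℝ) = (q' : ℝ) ^ 2 := by norm_cast
    rw [h2] at this
    rw [one_div]; exact this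
  have hab1 := abs_le.mp hxr
  have h4 : 4 / (q' : ℝ) ^ 2 + 2 * Y' ≤ Y / 200 := by
    have : 6 / (q' : ℝ) ^ 2 = 4 / (q' : ℝ) ^ 2 + 2 * (1 / (q' : ℝ) ^ 2) := by ring
    linarith
  have h44 : 4 / (q' : ℝ) ^ 2 ≤ Y / 200 := by linarith
  have hxa : a ≤ x := hxA.2.1
  have hxb : x ≤ b := hxA.2.2
  have hxβ := hxA.1.2
  have hxfree := hxA.1.1
  refine ⟨p', q', hQ0, hp', hp'q', hcop', hgood', ?_, ?_, ?_, ?_⟩
  · rw [ha] at hxa; linarith
  · rw [hb] at hxb; linarith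
  · intro hβ
    apply hxβ
    constructor <;> linarith [hβ.1, hβ.2]
  · intro x' hx' Z hZ1 hZ2 u hu0 hum
    apply hxfree Z hZ1 u hu0
    intro m
    have hZpos : 0 < Z := by linarith
    have hZ1' : 1 ≤ Z := by linarith
    have hx0 : 0 ≤ x := by linarith
    have hx1 : x ≤ 1 := by linarith
    have hx'0 : 0 ≤ x' := by
      have : 0 ≤ r' := by positivity
      linarith [hx'.1]
    have hx'1 : x' ≤ 1 := by
      have := hx'.2
      rw [hb] at hxb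
      linarith
    have hdist : |x' - x| ≤ 6 / (q' : ℝ) ^ 2 := by
      have : 6 / (q' : ℝ) ^ 2 = 4 / (q' : ℝ) ^ 2 + 2 * (1 / (q' : ℝ) ^ 2) := by ring
      rw [abs_le]
      constructor <;> linarith [hx'.1, hx'.2]
    have hlip := pow_lip n m x x' hx0 hx1 hx'0 hx'1
    have hu0' : |(u 0 : ℝ)| ≤ Z ^ n := by
      refine hu0.trans ?_
      have : Z ^ ((n : ℝ) / w0 - ε) ≤ Z ^ (n : ℝ) := by
        apply Real.rpow_le_rpow_of_exponent_le hZ1'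
        have : (n : ℝ) / w0 ≤ n := div_le_self (by linarith) hw0
        linarith
      rwa [Real.rpow_natCast] at this
    have hZn : Z ^ (n + 1) ≤ q' := by
      have h1 : Z ^ ((n : ℝ) + 1) ≤ ((q' : ℝ) ^ (1 / ((n : ℝ) + 1))) ^ ((n : ℝ) + 1) :=
        Real.rpow_le_rpow hZpos.le hZ2 (by positivity)
      rw [← Real.rpow_mul hq'pos.le, one_div, inv_mul_cancel₀ (by positivity), Real.rpow_one] at h1
      have h2 : Z ^ ((n : ℝ) + 1) = Z ^ (n + 1) := by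
        rw [← Real.rpow_natCast]; push_cast; rfl
      rwa [h2] at h1
    have hkey : Z ^ n * (n * (6 / (q' : ℝ) ^ 2)) ≤ 1 / Z := by
      rw [le_div_iff₀ hZpos]
      have h1 : Z ^ n * (n * (6 / (q' : ℝ) ^ 2)) * Z = (Z ^ (n + 1)) * (6 * n) / (q' : ℝ) ^ 2 := by
        rw [pow_succ]; ring
      rw [h1, div_le_one (by positivity), sq]
      exact mul_le_mul hZn h6nR (by positivity) hq'pos.le
    calc |(u m : ℝ) - u 0 * x ^ (m : ℕ)|
        = |((u m : ℝ) - u 0 * x' ^ (m : ℕ)) + u 0 * (x' ^ (m : ℕ) - x ^ (m : ℕ))| := by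
          congr 1; ring
      _ ≤ |(u m : ℝ) - u 0 * x' ^ (m : ℕ)| + |(u 0 : ℝ)| * |x' ^ (m : ℕ) - x ^ (m : ℕ)| := by
          rw [← abs_mul]; exact abs_add_le _ _
      _ ≤ 1 / Z + Z ^ n * (n * (6 / (q' : ℝ) ^ 2)) := by
          apply add_le_add (hum m)
          apply mul_le_mul hu0' _ (abs_nonneg _) (by positivity)
          refine hlip.trans ?_
          exact mul_le_mul_of_nonneg_left hdist (by positivity)
      _ ≤ 1 / Z + 1 / Z := by linarith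
      _ = 1 / (Z / 2) := by
          field_simp; norm_num

end Pool.Agent.Lib.H70X
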