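import Pool.Agent.Lib.H70X.S2
import Pool.Agent.Lib.H70X.S4

/-! # Chunk S5: the number zeta (medium/large)

Proof. `ε_k = 1/(k+1)`. For every `k` let `e_k > 0` be the minimum of the two `ε1` and `Q_k` the maximum of the two `q0` given by `near_free` and `next` for `ε_k` (`goodRat_mono`: `GoodRat n (q^(-e_k))`
implies `GoodRat n (q^(-ε1))` if `e_k ≤ ε1`, `q ≥ 1`). Let `β_0, β_1, ...` be an enumeration of the real algebraic numbers (a countable nonempty set: `Algebraic.countable`). Choose recursively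
`p_k/q_k` with `q_k ≥ max Q_k (k+2)`, `q_k ≥ q_{k-1} + 1`, `0 < p_k < q_k`, coprime, `GoodRat n (q_k^(-e_k))`, `J_k = [p_k/q_k + Y_k, p_k/q_k + 2 Y_k]`, `Y_k = q_k^(-(w0+n))`, `p_k/q_k + 2 Y_k < 1`: the
first by `pick` on `[1/4, 3/4]` with `A = univ` (`q_0` large), the next ones by `next` with `ε = ε_k`, `ε1' = e_{k+1}`, `Q0 = max Q_{k+1} (q_k + k + 3)`, `β = β_k`. So `J_{k+1} ⊆ J_k` (closed, nonempty, bounded), `β_k ∉ J_{k+1}`. Let `ζ ∈ ⋂ J_k`: it is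
transcendental over `ℤ` (not algebraic over `ℚ`), `0 < ζ < 1`, and `|ζ - p_k/q_k| ≤ 2 Y_k`.
Let `ε > 0`, `ε_k ≤ ε` for `k ≥ K`, and `Z ≥ q_K^(1/(n+1))`. As `q_k → ∞` there is `k ≥ K` with `q_k^(1/(n+1)) ≤ Z < q_{k+1}^(1/(n+1))`. If `Z ≤ (q_k^w0)^(1 + ε_k/(2(n+1)))` then `near_free` (for `p_k/q_k`, `x = ζ`),
otherwise `next` (`ζ ∈ J_{k+1}`) gives `Free n ζ (Z^(n/w0-ε_k)) Z`, and `Z^(n/w0-ε) ≤ Z^(n/w0-ε_k)` (`Z ≥ 1`): `free_mono`. -/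

open Polynomial MeasureTheory Set Filter

namespace Pool.Agent.Lib.H70X

private theorem s5_mono {n p q : ℕ} (hq : 0 < q) {e e' : ℝ} (he : e ≤ e')
    (h : GoodRat n ((q : ℝ) ^ (-e)) p q) : GoodRat n ((q : ℝ) ^ (-e')) p q := by
  have hq1 : (1 : ℝ) ≤ q := by exact_mod_cast hq
  refine goodRat_mono (Real.rpow_le_rpow_of_exponent_le hq1 (by linarith)) ?_ h
  exact Real.rpow_nonneg (by linarith) _

theorem exists_zeta (n : ℕ) (hn : 1 ≤ n) (w0 : ℝ) (hw0 : 1 ≤ w0) : ∃ ζ : ℝ, 0 < ζ ∧ ζ < 1 ∧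
    Transcendental ℤ ζ ∧
    (∀ ε : ℝ, 0 < ε → ∀ᶠ Z : ℝ in atTop, Free n ζ (Z ^ ((n : ℝ) / w0 - ε)) Z) ∧
    ∀ Q : ℕ, ∃ p q : ℕ, Q ≤ q ∧ 0 < q ∧ p ≤ q ∧
      |ζ - (p : ℝ) / q| ≤ 3 * (q : ℝ) ^ (-(w0 + n)) := by
  have hnR : (1 : ℝ) ≤ n := by exact_mod_cast hn
  -- the parameters
  have hpar : ∀ k : ℕ, ∃ e : ℝ, 0 < e ∧ ∃ Q : ℕ,
      (∀ p q : ℕ, Q ≤ q → p ≤ q → 0 < q → GoodRat n ((q : ℝ) ^ (-e)) p q →
        ∀ x : ℝ, 0 ≤ x → x ≤ 1 → |x - (p : ℝ) / q| ≤ 3 * (q : ℝ) ^ (-(w0 + n)) →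
        ∀ Z : ℝ, (q : ℝ) ^ (1 / ((n : ℝ) + 1)) ≤ Z →
          Z ≤ ((q : ℝ) ^ w0) ^ (1 + (1 / ((k : ℝ) + 1)) / (2 * (n + 1))) →
            Free n x (Z ^ ((n : ℝ) / w0 - (1 / ((k : ℝ) + 1)))) Z) ∧
      ∀ p q : ℕ, Q ≤ q → 0 < p → p < q → p.Coprime q →
        GoodRat n ((q : ℝ) ^ (-e)) p q →
        (p : ℝ) / q + 2 * (q : ℝ) ^ (-(w0 + n)) < 1 →
        ∀ (ε1' : ℝ) (Q0 : ℕ) (β : ℝ), 0 < ε1' →
        ∃ p' q' : ℕ, Q0 ≤ q' ∧ 0 < p' ∧ p' < q' ∧ p'.Coprime q' ∧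
          GoodRat n ((q' : ℝ) ^ (-ε1')) p' q' ∧
          (p : ℝ) / q + (q : ℝ) ^ (-(w0 + n)) ≤ (p' : ℝ) / q' ∧
          (p' : ℝ) / q' + 2 * (q' : ℝ) ^ (-(w0 + n)) ≤ (p : ℝ) / q + 2 * (q : ℝ) ^ (-(w0 + n)) ∧
          β ∉ Icc ((p' : ℝ) / q' + (q' : ℝ) ^ (-(w0 + n)))
            ((p' : ℝ) / q' + 2 * (q' : ℝ) ^ (-(w0 + n))) ∧
          ∀ x ∈ Icc ((p' : ℝ) / q' + (q' : ℝ) ^ (-(w0 + n)))
              ((p' : ℝ) / q' + 2 * (q' : ℝ) ^ (-(w0 + n))),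
            ∀ Z : ℝ, ((q : ℝ) ^ w0) ^ (1 + (1 / ((k : ℝ) + 1)) / (2 * (n + 1))) ≤ Z →
              Z ≤ (q' : ℝ) ^ (1 / ((n : ℝ) + 1)) →
                Free n x (Z ^ ((n : ℝ) / w0 - (1 / ((k : ℝ) + 1)))) Z := by
    intro k
    have hk0 : (0 : ℝ) < 1 / ((k : ℝ) + 1) := by positivity
    have hk1 : (1 : ℝ) / ((k : ℝ) + 1) ≤ 1 := by
      rw [div_le_one (by positivity)]
      have : (0 : ℝ) ≤ k := Nat.cast_nonneg k
      linarith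
    obtain ⟨e1, he1, Q1, h1⟩ := near_free n hn w0 hw0 (1 / ((k : ℝ) + 1)) hk0 hk1
    obtain ⟨e2, he2, Q2, h2⟩ := next n hn w0 hw0 (1 / ((k : ℝ) + 1)) hk0 hk1
    refine ⟨min e1 e2, lt_min he1 he2, max Q1 Q2, ?_, ?_⟩
    · intro p q hQ hpq hq hg
      exact h1 p q ((le_max_left _ _).trans hQ) hpq hq (s5_mono hq (min_le_left _ _) hg)
    · intro p q hQ hp hpq hco hg
      exact h2 p q ((le_max_right _ _).trans hQ) hp hpq hco
        (s5_mono (by omega) (min_le_right _ _) hg)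
  choose e he Q hnear hnext using hpar
  -- the algebraic numbers
  obtain ⟨β, hβ⟩ : ∃ β : ℕ → ℝ, {x : ℝ | IsAlgebraic ℤ x} = range β :=
    (Algebraic.countable ℤ ℝ).exists_eq_range ⟨0, isAlgebraic_zero⟩
  -- the states
  set Y : ℕ × ℕ → ℝ := fun x => (x.2 : ℝ) ^ (-(w0 + n)) with hYdef
  set P : ℕ → ℕ × ℕ → Prop := fun k x => Q k ≤ x.2 ∧ k + 2 ≤ x.2 ∧ 0 < x.1 ∧ x.1 < x.2 ∧
    x.1.Coprime x.2 ∧ GoodRat n ((x.2 : ℝ) ^ (-(e k))) x.1 x.2 ∧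
    (x.1 : ℝ) / x.2 + 2 * (x.2 : ℝ) ^ (-(w0 + n)) < 1 with hPdef
  set R : ℕ → ℕ × ℕ → ℕ × ℕ → Prop := fun k x y => x.2 < y.2 ∧
    (x.1 : ℝ) / x.2 + (x.2 : ℝ) ^ (-(w0 + n)) ≤ (y.1 : ℝ) / y.2 ∧
    (y.1 : ℝ) / y.2 + 2 * (y.2 : ℝ) ^ (-(w0 + n)) ≤
      (x.1 : ℝ) / x.2 + 2 * (x.2 : ℝ) ^ (-(w0 + n)) ∧
    β k ∉ Icc ((y.1 : ℝ) / y.2 + (y.2 : ℝ) ^ (-(w0 + n)))
            ((y.1 : ℝ) / y.2 + 2 * (y.2 : ℝ) ^ (-(w0 + n))) ∧
    ∀ t ∈ Icc ((y.1 : ℝ) / y.2 + (y.2 : ℝ) ^ (-(w0 + n)))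
              ((y.1 : ℝ) / y.2 + 2 * (y.2 : ℝ) ^ (-(w0 + n))),
            ∀ Z : ℝ, ((x.2 : ℝ) ^ w0) ^ (1 + (1 / ((k : ℝ) + 1)) / (2 * (n + 1))) ≤ Z →
              Z ≤ (y.2 : ℝ) ^ (1 / ((n : ℝ) + 1)) →
                Free n t (Z ^ ((n : ℝ) / w0 - (1 / ((k : ℝ) + 1)))) Z with hRdef
  have hstart : ∃ x, P 0 x := by
    obtain ⟨x, hx, p, q, hQ, hp, hpq, hco, hg, hxp⟩ := pick n (1 / 4) (3 / 4) (by norm_num)
      (by norm_num) (by norm_num) (e 0) (he 0) univ (by simp) (max (Q 0) 8)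
    refine ⟨(p, q), ?_⟩
    have hq8 : 8 ≤ q := (le_max_right _ _).trans hQ
    have hq8R : (8 : ℝ) ≤ q := by exact_mod_cast hq8
    refine ⟨(le_max_left _ _).trans hQ, by omega, hp, hpq, hco, hg, ?_⟩
    have h1 : (q : ℝ) ^ (-(w0 + n)) ≤ 1 / (q : ℝ) ^ 2 := by
      have h2 : (q : ℝ) ^ (-(w0 + n)) ≤ (q : ℝ) ^ (-(2 : ℝ)) :=
        Real.rpow_le_rpow_of_exponent_le (by linarith) (by linarith)
      refine h2.trans (le_of_eq ?_)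
      rw [Real.rpow_neg (by linarith), one_div]
      norm_cast
    have h2 : (1 : ℝ) / (q : ℝ) ^ 2 ≤ 1 / 64 := by
      apply one_div_le_one_div_of_le (by norm_num)
      nlinarith
    have h3 := (abs_le.1 hxp).1
    have h4 := hx.2.2
    have h5 : 4 / (q : ℝ) ^ 2 = 4 * (1 / (q : ℝ) ^ 2) := by ring
    simp only
    linarith
  have hstep : ∀ (k : ℕ) (x : {x : ℕ × ℕ // P k x}), ∃ y : {y : ℕ × ℕ // P (k + 1) y},
      R k x.1 y.1 := by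
    rintro k ⟨x, hx1, hx2, hx3, hx4, hx5, hx6, hx7⟩
    obtain ⟨p', q', h1, h2, h3, h4, h5, h6, h7, h8, h9⟩ := hnext k x.1 x.2 hx1 hx3 hx4 hx5 hx6 hx7
      (e (k + 1)) (max (Q (k + 1)) (x.2 + k + 3)) (β k) (he (k + 1))
    have hq' : x.2 + k + 3 ≤ q' := (le_max_right _ _).trans h1
    refine ⟨⟨(p', q'), (le_max_left _ _).trans h1, by simp only; omega, h2, h3, h4, h5, ?_⟩,
      by simp only; omega, h6, h7, h8, h9⟩
    exact lt_of_le_of_lt h7 hx7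
  obtain ⟨x0, hx0⟩ := hstart
  choose f hf using hstep
  set u : ∀ k : ℕ, {x : ℕ × ℕ // P k x} := fun k => Nat.rec ⟨x0, hx0⟩ (fun k u => f k u) k
    with hu
  have huR : ∀ k, R k (u k).1 (u (k + 1)).1 := fun k => hf k (u k)
  have huP : ∀ k, P k (u k).1 := fun k => (u k).2
  set q : ℕ → ℕ := fun k => (u k).1.2 with hq
  set p : ℕ → ℕ := fun k => (u k).1.1 with hp
  have hq2 : ∀ k, k + 2 ≤ q k := fun k => (huP k).2.1
  have hqpos : ∀ k, (0 : ℝ) < q k := fun k => by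
    have := hq2 k
    exact_mod_cast (by omega : 0 < q k)
  have hYpos : ∀ k, (0 : ℝ) < (q k : ℝ) ^ (-(w0 + n)) := fun k => Real.rpow_pos_of_pos (hqpos k) _
  have hqmono : StrictMono q := strictMono_nat_of_lt_succ fun k => (huR k).1
  have hfm : Monotone fun k => (p k : ℝ) / q k + (q k : ℝ) ^ (-(w0 + n)) := by
    apply monotone_nat_of_le_succ
    intro k
    have h1 := (huR k).2.1
    have h2 := hYpos (k + 1)
    simp only [hp, hq] at h2 ⊢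
    linarith
  have hgm : Antitone fun k => (p k : ℝ) / q k + 2 * (q k : ℝ) ^ (-(w0 + n)) := by
    apply antitone_nat_of_succ_le
    intro k
    exact (huR k).2.2.1
  have hfg : (fun k => (p k : ℝ) / q k + (q k : ℝ) ^ (-(w0 + n))) ≤
      fun k => (p k : ℝ) / q k + 2 * (q k : ℝ) ^ (-(w0 + n)) := by
    intro k
    have h2 := hYpos k
    simp only
    linarith
  have hmem := Monotone.ciSup_mem_iInter_Icc_of_antitone hfm hgm hfg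
  set ζ := ⨆ k, ((p k : ℝ) / q k + (q k : ℝ) ^ (-(w0 + n))) with hζ
  have hζk : ∀ k, ζ ∈ Icc ((p k : ℝ) / q k + (q k : ℝ) ^ (-(w0 + n)))
      ((p k : ℝ) / q k + 2 * (q k : ℝ) ^ (-(w0 + n))) := fun k => mem_iInter.1 hmem k
  have hζ0 : 0 < ζ := by
    have h1 := (hζk 0).1
    have h2 := hYpos 0
    have h3 : (0 : ℝ) ≤ (p 0 : ℝ) / q 0 := by positivity
    linarith
  have hζ1 : ζ < 1 := lt_of_le_of_lt (hζk 0).2 (huP 0).2.2.2.2.2.2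
  have hclose : ∀ k, |ζ - (p k : ℝ) / q k| ≤ 3 * (q k : ℝ) ^ (-(w0 + n)) := by
    intro k
    have h1 := hζk k
    have h2 := hYpos k
    rw [abs_le]
    constructor
    · linarith [h1.1]
    · linarith [h1.2]
  refine ⟨ζ, hζ0, hζ1, ?_, ?_, ?_⟩
  · intro halg
    have h1 : ζ ∈ range β := by rw [← hβ]; exact halg
    obtain ⟨k, hk⟩ := h1
    apply (huR k).2.2.2.1
    rw [hk]
    exact hζk (k + 1)
  · intro ε hε
    obtain ⟨K, hK⟩ := exists_nat_gt (1 / ε)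
    filter_upwards [eventually_ge_atTop (1 : ℝ),
      eventually_ge_atTop ((q K : ℝ) ^ (1 / ((n : ℝ) + 1)))] with Z hZ1 hZK
    have hZ0 : 0 < Z := by linarith
    have hex : ∃ m, Z < (q m : ℝ) ^ (1 / ((n : ℝ) + 1)) := by
      obtain ⟨m, hm⟩ := exists_nat_gt (Z ^ (n + 1))
      refine ⟨m, ?_⟩
      have h1 : Z = (Z ^ (n + 1)) ^ (1 / ((n : ℝ) + 1)) := by
        rw [← Real.rpow_natCast, ← Real.rpow_mul hZ0.le]
        push_cast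
        rw [mul_one_div_cancel (by positivity), Real.rpow_one]
      have h2 := hq2 m
      have h3 : (m : ℝ) + 2 ≤ q m := by exact_mod_cast h2
      calc Z = (Z ^ (n + 1)) ^ (1 / ((n : ℝ) + 1)) := h1
        _ < (q m : ℝ) ^ (1 / ((n : ℝ) + 1)) := by
          apply Real.rpow_lt_rpow (by positivity) (by linarith) (by positivity)
    classical
    have hm1 := Nat.find_spec hex
    have hm2 : ∀ k < Nat.find hex, (q k : ℝ) ^ (1 / ((n : ℝ) + 1)) ≤ Z := fun k hk =>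
      not_lt.1 (Nat.find_min hex hk)
    have hKm : K < Nat.find hex := by
      by_contra hcon
      push Not at hcon
      have h1 : (q (Nat.find hex) : ℝ) ≤ q K := by exact_mod_cast hqmono.monotone hcon
      have h2 : (q (Nat.find hex) : ℝ) ^ (1 / ((n : ℝ) + 1)) ≤
          (q K : ℝ) ^ (1 / ((n : ℝ) + 1)) := Real.rpow_le_rpow (hqpos _).le h1 (by positivity)
      linarith
    obtain ⟨k, hk⟩ : ∃ k, Nat.find hex = k + 1 := ⟨Nat.find hex - 1, by omega⟩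
    rw [hk] at hm1 hm2 hKm
    have hKk : K ≤ k := by omega
    have hεk : 1 / ((k : ℝ) + 1) ≤ ε := by
      have h1 : (K : ℝ) ≤ k := by exact_mod_cast hKk
      rw [div_lt_iff₀ hε] at hK
      rw [div_le_iff₀ (by positivity)]
      nlinarith
    have hfree : Free n ζ (Z ^ ((n : ℝ) / w0 - (1 / ((k : ℝ) + 1)))) Z := by
      rcases le_total Z (((q k : ℝ) ^ w0) ^ (1 + (1 / ((k : ℝ) + 1)) / (2 * (n + 1)))) with h | h
      · exact hnear k (p k) (q k) (huP k).1 (huP k).2.2.2.1.le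
          (by have := hq2 k; omega) (huP k).2.2.2.2.2.1 ζ hζ0.le hζ1.le (hclose k) Z
          (hm2 k (by omega)) h
      · exact (huR k).2.2.2.2 ζ (hζk (k + 1)) Z h hm1.le
    refine free_mono ?_ hZ0 le_rfl hfree
    exact Real.rpow_le_rpow_of_exponent_le hZ1 (by linarith)
  · intro Q0
    refine ⟨p Q0, q Q0, by have := hq2 Q0; omega, by have := hq2 Q0; omega,
      (huP Q0).2.2.2.1.le, hclose Q0⟩

end Pool.Agent.Lib.H70X
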