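import Pool.Agent.Lib.H70X.MK2

/-! # Chunk T2: transference (medium)

Columns of `G` = coefficient vectors of polynomials `P_j = ∑_l G l j T^l`.

Proof. Let `M` be the matrix with row 0 equal to `U (1, x, ..., x^n)` and row `m ≥ 1` equal to `(1/Z) e_m`: upper
triangular, `det M = U Z^(-n)`. `mk (n+1)` (constant `C0`) gives a unimodular `G` with `∏ ‖M G_j‖ ≤ C0 U Z^(-n)`. Put
`N j = ‖M G_j‖ > 0`; the last two claims are the coordinates of `M G_j`.
Claim: `N j ≤ C0 n! ` for every `j`. Let `u` be the `j`-th row of `G⁻¹` (an integer vector, nonzero). Let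
`t = u M⁻¹` (row vector) `= (u_0 / U, Z (u_m - u_0 x^m))`: indeed `t M = u`: `t_0 U = u_0` and
`t_0 U x^m + t_m / Z = u_m`. But `t` is the `j`-th row of `(M G)⁻¹ = adjugate (M G) / det (M G)`, whose entries
are, up to sign, the minors of the other `n` columns divided by `det`: `|t_l| ≤ n! ∏_{i ≠ j} N i / |det M|`
(`|det (M G)| = |det M|`). As `u ≠ 0`, `Free` gives `|u_0| > U` or `|u_m - u_0 x^m| > 1/Z` for some `m`
(necessarily `m ≥ 1`), i.e. `|t_l| > 1` for some `l`. So `|det M| ≤ n! ∏_{i ≠ j} N i`, and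
`N j = ∏_i N i / ∏_{i ≠ j} N i ≤ C0 |det M| n! / |det M|`. -/

open Polynomial MeasureTheory Set Filter

namespace Pool.Agent.Lib.H70X

/-- the matrix -/
noncomputable def T2_M (n : ℕ) (x U Z : ℝ) : Matrix (Fin (n + 1)) (Fin (n + 1)) ℝ :=
  Matrix.of fun i l => if i = 0 then U * x ^ (l : ℕ) else if l = i then 1 / Z else 0

theorem T2_det (n : ℕ) (x U Z : ℝ) : (T2_M n x U Z).det = U / Z ^ n := by
  have h1 : (T2_M n x U Z).BlockTriangular id := by
    intro i j hij
    have hij' : j < i := hij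
    have h0 : i ≠ 0 := by
      rintro rfl
      exact absurd hij' (Fin.not_lt_zero j)
    rw [T2_M, Matrix.of_apply, if_neg h0, if_neg hij'.ne]
  rw [Matrix.det_of_upperTriangular h1, Fin.prod_univ_succ]
  have h2 : T2_M n x U Z 0 0 = U := by
    rw [T2_M, Matrix.of_apply, if_pos rfl]
    simp
  have h3 : ∀ i : Fin n, T2_M n x U Z i.succ i.succ = 1 / Z := by
    intro i
    rw [T2_M, Matrix.of_apply, if_neg (Fin.succ_ne_zero i), if_pos rfl]
  rw [h2, Finset.prod_congr rfl fun i _ => h3 i, Finset.prod_const, Finset.card_univ,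
    Fintype.card_fin, one_div, inv_pow, div_eq_mul_inv]

theorem T2_mulVec_zero (n : ℕ) (x U Z : ℝ) (w : Fin (n + 1) → ℝ) :
    (T2_M n x U Z).mulVec w 0 = U * ∑ l : Fin (n + 1), w l * x ^ (l : ℕ) := by
  rw [Matrix.mulVec, dotProduct, Finset.mul_sum]
  refine Finset.sum_congr rfl fun l _ => ?_
  rw [T2_M, Matrix.of_apply, if_pos rfl]
  ring

theorem T2_mulVec (n : ℕ) (x U Z : ℝ) (w : Fin (n + 1) → ℝ) {m : Fin (n + 1)} (hm : m ≠ 0) :
    (T2_M n x U Z).mulVec w m = 1 / Z * w m := by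
  rw [Matrix.mulVec, dotProduct, Finset.sum_eq_single m]
  · rw [T2_M, Matrix.of_apply, if_neg hm, if_pos rfl]
  · intro l _ hl
    rw [T2_M, Matrix.of_apply, if_neg hm, if_neg hl, zero_mul]
  · intro h
    exact absurd (Finset.mem_univ _) h

theorem T2_vecMul (n : ℕ) (x U Z : ℝ) (hU : U ≠ 0) (hZ : Z ≠ 0) (u : Fin (n + 1) → ℝ) :
    Matrix.vecMul (fun m : Fin (n + 1) => if m = 0 then u 0 / U else
      Z * (u m - u 0 * x ^ (m : ℕ))) (T2_M n x U Z) = u := by
  funext l
  rw [Matrix.vecMul, dotProduct, Fin.sum_univ_succ]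
  have h1 : T2_M n x U Z 0 l = U * x ^ (l : ℕ) := by
    rw [T2_M, Matrix.of_apply, if_pos rfl]
  rw [h1, if_pos rfl]
  rcases Fin.eq_zero_or_eq_succ l with rfl | ⟨l', rfl⟩
  · rw [Finset.sum_eq_zero]
    · simp only [Fin.val_zero, pow_zero, mul_one, add_zero]
      exact div_mul_cancel₀ _ hU
    · intro i _
      rw [T2_M, Matrix.of_apply, if_neg (Fin.succ_ne_zero i), if_neg (Fin.succ_ne_zero i),
        if_neg (Fin.succ_ne_zero i).symm, mul_zero]
  · rw [Finset.sum_eq_single l']
    · rw [T2_M, Matrix.of_apply, if_neg (Fin.succ_ne_zero l'), if_pos rfl,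
        if_neg (Fin.succ_ne_zero l')]
      field_simp
      ring
    · intro i _ hi
      rw [T2_M, Matrix.of_apply, if_neg (Fin.succ_ne_zero i), if_neg (Fin.succ_ne_zero i),
        if_neg (fun h => hi (Fin.succ_injective _ h).symm), mul_zero]
    · intro h
      exact absurd (Finset.mem_univ _) h

theorem T2_adj {k : ℕ} (A : Matrix (Fin k) (Fin k) ℝ) (N : Fin k → ℝ) (hN : ∀ j, 0 < N j)
    (hA : ∀ i j, |A i j| ≤ N j) (j l : Fin k) :
    |A.adjugate j l| ≤ (k.factorial : ℝ) * ∏ i ∈ Finset.univ.erase j, N i := by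
  rw [Matrix.adjugate_apply, Matrix.det_apply]
  refine (Finset.abs_sum_le_sum_abs _ _).trans ?_
  have hP : 0 ≤ ∏ i ∈ Finset.univ.erase j, N i := Finset.prod_nonneg fun i _ => (hN i).le
  have h1 : ∀ σ ∈ (Finset.univ : Finset (Equiv.Perm (Fin k))),
      |Equiv.Perm.sign σ • ∏ i, (A.updateRow l (Pi.single j 1)) (σ i) i| ≤
        ∏ i ∈ Finset.univ.erase j, N i := by
    intro σ _
    have h2 : |Equiv.Perm.sign σ • ∏ i, (A.updateRow l (Pi.single j 1)) (σ i) i| =
        |∏ i, (A.updateRow l (Pi.single j 1)) (σ i) i| := by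
      rcases Int.units_eq_one_or (Equiv.Perm.sign σ) with h | h <;> rw [h] <;> simp
    rw [h2]
    by_cases hσ : σ j = l
    · rw [← Finset.mul_prod_erase _ _ (Finset.mem_univ j), hσ, Matrix.updateRow_self,
        Pi.single_eq_same, one_mul, Finset.abs_prod]
      refine Finset.prod_le_prod (fun i _ => abs_nonneg _) fun i hi => ?_
      have h3 : σ i ≠ l := by
        intro h
        rw [← hσ] at h
        exact (Finset.mem_erase.1 hi).1 (σ.injective h)
      rw [Matrix.updateRow_ne h3]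
      exact hA _ _
    · have h3 : ∏ i, (A.updateRow l (Pi.single j 1)) (σ i) i = 0 := by
        refine Finset.prod_eq_zero (Finset.mem_univ (σ.symm l)) ?_
        rw [Equiv.apply_symm_apply, Matrix.updateRow_self]
        have h4 : σ.symm l ≠ j := by
          rintro rfl
          exact hσ (σ.apply_symm_apply l)
        exact Pi.single_eq_of_ne h4 _
      rw [h3, abs_zero]
      exact hP
  refine (Finset.sum_le_sum h1).trans ?_
  rw [Finset.sum_const, Finset.card_univ, Fintype.card_perm, Fintype.card_fin, nsmul_eq_mul]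

theorem dual_basis (n : ℕ) : ∃ C : ℝ, 1 ≤ C ∧ ∀ x U Z : ℝ, 0 ≤ x → x ≤ 1 → 1 ≤ U → 1 ≤ Z →
    Free n x U Z → ∃ (G : Matrix (Fin (n + 1)) (Fin (n + 1)) ℤ) (N : Fin (n + 1) → ℝ),
      IsUnit G.det ∧ (∀ j, 0 < N j ∧ N j ≤ C) ∧ ∏ j, N j ≤ C * (U / Z ^ n) ∧
      (∀ j, U * |∑ l : Fin (n + 1), (G l j : ℝ) * x ^ (l : ℕ)| ≤ N j) ∧
      ∀ j l, l ≠ 0 → |(G l j : ℝ)| ≤ N j * Z := by
  obtain ⟨C0, hC0, hmk⟩ := mk (n + 1)
  have hfac : (1 : ℝ) ≤ ((n + 1).factorial : ℝ) := by
    exact_mod_cast Nat.one_le_iff_ne_zero.2 (Nat.factorial_ne_zero _)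
  refine ⟨C0 * ((n + 1).factorial : ℝ) + 1, by nlinarith, ?_⟩
  intro x U Z hx0 hx1 hU hZ hfree
  have hU0 : 0 < U := by linarith
  have hZ0 : 0 < Z := by linarith
  have hdet : (T2_M n x U Z).det ≠ 0 := by
    rw [T2_det]
    positivity
  obtain ⟨G, hG, hprod⟩ := hmk (T2_M n x U Z) hdet
  set N : Fin (n + 1) → ℝ := fun j => ‖(T2_M n x U Z).mulVec fun i => (G i j : ℝ)‖ with hN
  have hNpos : ∀ j, 0 < N j := by
    intro j
    rw [hN]
    simp only
    rw [norm_pos_iff]
    intro h
    apply MK2_col_ne G hG j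
    have h4 := MK2_inj _ hdet _ h
    ext i
    have h5 := congrFun h4 i
    simpa using h5
  have hdetval : |(T2_M n x U Z).det| = U / Z ^ n := by
    rw [T2_det, abs_of_pos (by positivity)]
  have hprod' : ∏ j, N j ≤ C0 * (U / Z ^ n) := by
    rw [← hdetval]
    exact hprod
  have hbound : ∀ j, N j ≤ C0 * ((n + 1).factorial : ℝ) := by
    intro j
    -- the inverse
    set Gi : Matrix (Fin (n + 1)) (Fin (n + 1)) ℤ := G⁻¹ with hGi
    have hGG : Gi * G = 1 := Matrix.nonsing_inv_mul G hG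
    set Gr : Matrix (Fin (n + 1)) (Fin (n + 1)) ℝ := G.map (Int.castRingHom ℝ) with hGr
    set A : Matrix (Fin (n + 1)) (Fin (n + 1)) ℝ := T2_M n x U Z * Gr with hA
    have hAcol : ∀ i l, A i l = (T2_M n x U Z).mulVec (fun i => (G i l : ℝ)) i := by
      intro i l
      rw [hA, Matrix.mul_apply, Matrix.mulVec, dotProduct]
      rfl
    have hAN : ∀ i l, |A i l| ≤ N l := by
      intro i l
      rw [hAcol, ← Real.norm_eq_abs]
      exact norm_le_pi_norm _ i
    set u : Fin (n + 1) → ℤ := fun l => Gi j l with hu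
    have hu0 : u ≠ 0 := by
      intro h
      have h1 := congrFun (congrFun hGG j) j
      rw [Matrix.mul_apply, Matrix.one_apply_eq] at h1
      have h2 : ∀ l, Gi j l = 0 := fun l => congrFun h l
      simp [h2] at h1
    set t : Fin (n + 1) → ℝ := fun m => if m = 0 then (u 0 : ℝ) / U else
      Z * ((u m : ℝ) - (u 0 : ℝ) * x ^ (m : ℕ)) with ht
    have htM : Matrix.vecMul t (T2_M n x U Z) = fun l => (u l : ℝ) :=
      T2_vecMul n x U Z hU0.ne' hZ0.ne' fun l => (u l : ℝ)
    have htA : Matrix.vecMul t A = Pi.single j 1 := by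
      rw [hA, ← Matrix.vecMul_vecMul, htM]
      funext l
      have h1 := congrFun (congrFun hGG j) l
      rw [Matrix.mul_apply] at h1
      have h2 : (((∑ i, Gi j i * G i l : ℤ)) : ℝ) = (((1 : Matrix (Fin (n + 1)) (Fin (n + 1)) ℤ)
        j l : ℤ) : ℝ) := by rw [h1]
      rw [Matrix.vecMul, dotProduct]
      have h3 : ∑ i, (u i : ℝ) * Gr i l = (((∑ i, Gi j i * G i l : ℤ)) : ℝ) := by
        push_cast
        rfl
      rw [h3, h2, Matrix.one_apply]
      by_cases hjl : j = l
      · subst hjl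
        simp
      · rw [if_neg hjl, Pi.single_eq_of_ne (Ne.symm hjl)]
        simp
    have hdetA : |A.det| = U / Z ^ n := by
      rw [hA, Matrix.det_mul, abs_mul, hdetval]
      have h1 : Gr.det = ((G.det : ℤ) : ℝ) := by
        rw [hGr, ← RingHom.mapMatrix_apply, ← RingHom.map_det]
        rfl
      rw [h1]
      rcases Int.isUnit_iff.mp hG with h2 | h2 <;> rw [h2] <;> simp
    obtain ⟨l, hl⟩ : ∃ l, 1 < |t l| := by
      by_contra hcon
      push Not at hcon
      apply hu0
      refine hfree u ?_ ?_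
      · have h1 := hcon 0
        rw [ht] at h1
        simp only [if_pos] at h1
        rw [abs_div, abs_of_pos hU0, div_le_one hU0] at h1
        exact h1
      · intro m
        by_cases hm : m = 0
        · subst hm
          have h2 : ((u 0 : ℤ) : ℝ) - u 0 * x ^ ((0 : Fin (n + 1)) : ℕ) = 0 := by simp
          rw [h2, abs_zero]
          positivity
        · have h1 := hcon m
          rw [ht] at h1
          simp only [if_neg hm] at h1
          rw [abs_mul, abs_of_pos hZ0] at h1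
          rw [le_div_iff₀ hZ0, mul_comm]
          exact h1
    have hcr : A.det * t l = A.adjugate j l := by
      have h1 : Matrix.vecMul (Matrix.vecMul t A) A.adjugate = A.det • t := by
        rw [Matrix.vecMul_vecMul, Matrix.mul_adjugate, Matrix.vecMul_smul, Matrix.vecMul_one]
      rw [htA, Matrix.single_one_vecMul] at h1
      have h2 := congrFun h1 l
      rw [Pi.smul_apply, smul_eq_mul] at h2
      exact h2.symm
    have hadj := T2_adj A N hNpos hAN j l
    rw [← hcr, abs_mul, hdetA] at hadj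
    set P : ℝ := ∏ i ∈ Finset.univ.erase j, N i with hP
    have hPpos : 0 < P := Finset.prod_pos fun i _ => hNpos i
    have hUZ : 0 < U / Z ^ n := by positivity
    have h1 : U / Z ^ n ≤ ((n + 1).factorial : ℝ) * P := by
      refine le_trans ?_ hadj
      nlinarith
    have h2 : N j * P ≤ C0 * (U / Z ^ n) := by
      rw [hP, Finset.mul_prod_erase _ _ (Finset.mem_univ j)]
      exact hprod'
    have h3 : N j * P ≤ C0 * ((n + 1).factorial : ℝ) * P := by
      calc N j * P ≤ C0 * (U / Z ^ n) := h2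
        _ ≤ C0 * (((n + 1).factorial : ℝ) * P) := mul_le_mul_of_nonneg_left h1 hC0.le
        _ = _ := by ring
    exact le_of_mul_le_mul_right h3 hPpos
  refine ⟨G, N, hG, fun j => ⟨hNpos j, (hbound j).trans (by linarith)⟩, ?_, ?_, ?_⟩
  · refine hprod'.trans ?_
    refine mul_le_mul_of_nonneg_right ?_ (by positivity)
    nlinarith
  · intro j
    have h1 : |(T2_M n x U Z).mulVec (fun i => (G i j : ℝ)) 0| ≤ N j := by
      rw [← Real.norm_eq_abs]
      exact norm_le_pi_norm _ 0
    rw [T2_mulVec_zero, abs_mul, abs_of_pos hU0] at h1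
    exact h1
  · intro j l hl
    have h1 : |(T2_M n x U Z).mulVec (fun i => (G i j : ℝ)) l| ≤ N j := by
      rw [← Real.norm_eq_abs]
      exact norm_le_pi_norm _ l
    rw [T2_mulVec n x U Z _ hl, abs_mul, abs_of_pos (by positivity), one_div_mul_eq_div,
      div_le_iff₀ hZ0] at h1
    exact h1

end Pool.Agent.Lib.H70X
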