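import Pool.Agent.Lib.H70X.T2

/-! # Chunk T3: an irreducible (Eisenstein) polynomial with small value and large derivative
(medium/large)

Proof. Let `G, N, C0` be given by `dual_basis`, `P_j = ∑_l G l j T^l`. `N(P) := max (U |P(x)|, |c_m| / Z)` (`m ≥ 1`, `P = ∑ c_m T^m`)
is a seminorm, `N(P_j) ≤ N j ≤ C0`.
(1) DERIVATIVE. Some `j0` has `|P_{j0}'(x)| ≥ δ Z N j0`, `δ = 1/(2 (n+1)! C0)`. Otherwise consider the matrix `M'` with rows
`U (x^l)_l`, `(1/Z) (l x^(l-1))_l` and `(1/Z) e_m`, `2 ≤ m ≤ n`: its determinant is `U Z^(-n)` (upper triangular, the diagonal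
entries are `U`, `1/Z`, ...), and all entries of the column `j` of `M' G` are `≤ N j`, those of the second row `< δ N j`. So
`U Z^(-n) = |det (M' G)| ≤ (n+1)! δ ∏ N j ≤ (n+1)! δ C0 U Z^(-n)`, so `1 ≤ 1/2`: contradiction.
(2) Let `a = ⌈C0 / N j0⌉ ≥ 1` and `Q = a P_{j0}`: `N(Q) ≤ C0 + N j0 ≤ 2 C0` and `|Q'(x)| ≥ δ Z C0`.
(3) `G` is invertible over `ℤ`, so there are integers `b_j` with `∑ b_j P_j = T^n + 2`; let `c_j = b_j % 4 ∈ {0,1,2,3}` and
`F0 = ∑ c_j P_j`: every coefficient of `F0` is congruent to that of `T^n + 2` modulo 4, and `N(F0) ≤ 3 (n+1) C0`.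
(4) If `|F0'(x)| ≥ 2 δ Z C0` take `F = F0`, otherwise `F = F0 + 4 Q`: `|F'(x)| ≥ 4 δ Z C0 - 2 δ Z C0 = 2 δ Z C0`. In both cases
`N(F) ≤ 3(n+1) C0 + 8 C0`, the congruences modulo 4 hold, `|F(x)| ≤ N(F)/U`, `|coeff m| ≤ N(F) Z` for `m ≥ 1`, and
`|coeff 0| ≤ |F(x)| + ∑_{m ≥ 1} |coeff m| ≤ (n+1) N(F) Z` (`0 ≤ x ≤ 1`, `U, Z ≥ 1`). -/

open Polynomial MeasureTheory Set Filter

namespace Pool.Agent.Lib.H70X

/-- The derivative at `x` of the polynomial with coefficient vector `f`. -/
private noncomputable def t3D {n : ℕ} (x : ℝ) (f : Fin (n + 1) → ℤ) : ℝ :=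
  ∑ l : Fin (n + 1), (f l : ℝ) * (((l : ℕ) : ℝ) * x ^ ((l : ℕ) - 1))

/-- The value at `x` of the polynomial with coefficient vector `f`. -/
private noncomputable def t3E {n : ℕ} (x : ℝ) (f : Fin (n + 1) → ℤ) : ℝ :=
  ∑ l : Fin (n + 1), (f l : ℝ) * x ^ (l : ℕ)

/-- The matrix of the docstring. -/
private noncomputable def t3M (n : ℕ) (x U Z : ℝ) : Matrix (Fin (n + 1)) (Fin (n + 1)) ℝ :=
  Matrix.of fun i l =>
    if (i : ℕ) = 0 then U * x ^ (l : ℕ)
    else if (i : ℕ) = 1 then (((l : ℕ) : ℝ) * x ^ ((l : ℕ) - 1)) / Z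
    else if l = i then 1 / Z else 0

private theorem t3M_det (n : ℕ) (x U Z : ℝ) : (t3M n x U Z).det = U * (1 / Z) ^ n := by
  rw [Matrix.det_of_isUpperTriangular]
  · rw [Fin.prod_univ_succ]
    congr 1
    · simp [t3M]
    · rw [Finset.prod_congr rfl (g := fun _ => 1 / Z)]
      · simp
      · intro i _
        by_cases h : (i : ℕ) = 0
        · simp [t3M, h]
        · have h2 : ¬ ((i : ℕ) + 1 = 1) := by omega
          simp [t3M, h2]
          intro h3
          exact absurd h3 h
  · intro i j hij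
    have hij' : (j : ℕ) < (i : ℕ) := hij
    simp only [t3M, Matrix.of_apply]
    rw [if_neg (by omega)]
    by_cases h1 : (i : ℕ) = 1
    · rw [if_pos h1]
      have : (j : ℕ) = 0 := by omega
      simp [this]
    · rw [if_neg h1, if_neg]
      intro h
      rw [h] at hij'
      exact lt_irrefl _ hij'

/-- A determinant is small if one row is. -/
private theorem t3_det_le {n : ℕ} (A : Matrix (Fin (n + 1)) (Fin (n + 1)) ℝ)
    (r N : Fin (n + 1) → ℝ) (hA : ∀ i j, |A i j| ≤ r i * N j) :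
    |A.det| ≤ ((n + 1).factorial : ℝ) * ((∏ i, r i) * ∏ j, N j) := by
  rw [Matrix.det_apply]
  calc |∑ σ : Equiv.Perm (Fin (n + 1)), Equiv.Perm.sign σ • ∏ i, A (σ i) i|
      ≤ ∑ σ : Equiv.Perm (Fin (n + 1)), |Equiv.Perm.sign σ • ∏ i, A (σ i) i| :=
        Finset.abs_sum_le_sum_abs _ _
    _ ≤ ∑ _σ : Equiv.Perm (Fin (n + 1)), ((∏ i, r i) * ∏ j, N j) := by
        refine Finset.sum_le_sum fun σ _ => ?_
        have h1 : |Equiv.Perm.sign σ • ∏ i, A (σ i) i| = ∏ i, |A (σ i) i| := by
          rw [← Finset.abs_prod]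
          rcases Int.units_eq_one_or (Equiv.Perm.sign σ) with h | h <;> rw [h] <;> simp
        rw [h1, ← Equiv.prod_comp σ r, ← Finset.prod_mul_distrib]
        exact Finset.prod_le_prod (fun i _ => abs_nonneg _) fun i _ => hA _ _
    _ = _ := by
        rw [Finset.sum_const, Finset.card_univ, Fintype.card_perm, Fintype.card_fin, nsmul_eq_mul]

private theorem t3_der (n : ℕ) (hn : 1 ≤ n) {C0 x U Z : ℝ} (hC0 : 1 ≤ C0) (hU : 1 ≤ U)
    (hZ : 1 ≤ Z) (G : Matrix (Fin (n + 1)) (Fin (n + 1)) ℤ) (N : Fin (n + 1) → ℝ)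
    (hG : IsUnit G.det) (hN : ∀ j, 0 < N j ∧ N j ≤ C0) (hprod : ∏ j, N j ≤ C0 * (U / Z ^ n))
    (hE : ∀ j, U * |t3E x (fun l => G l j)| ≤ N j)
    (hc : ∀ j l, l ≠ 0 → |(G l j : ℝ)| ≤ N j * Z) :
    ∃ j0, 1 / (2 * ((n + 1).factorial : ℝ) * C0) * Z * N j0 ≤ |t3D x (fun l => G l j0)| := by
  by_contra hcon
  push Not at hcon
  have hZ0 : 0 < Z := by linarith
  have hU0 : 0 < U := by linarith
  have hfac : (0 : ℝ) < (n + 1).factorial := by exact_mod_cast Nat.factorial_pos _
  set δ : ℝ := 1 / (2 * ((n + 1).factorial : ℝ) * C0) with hδ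
  have hδ0 : 0 < δ := by positivity
  set GR : Matrix (Fin (n + 1)) (Fin (n + 1)) ℝ := G.map (fun z : ℤ => (z : ℝ)) with hGR
  have hGRdet : |GR.det| = 1 := by
    have : GR.det = ((G.det : ℤ) : ℝ) := by
      have := (Int.castRingHom ℝ).map_det G
      simpa [hGR] using this.symm
    rw [this]
    rcases Int.isUnit_iff.mp hG with h | h <;> rw [h] <;> simp
  have h1 : |(t3M n x U Z * GR).det| = U * (1 / Z) ^ n := by
    rw [Matrix.det_mul, abs_mul, hGRdet, mul_one, t3M_det, abs_of_pos (by positivity)]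
  let r : Fin (n + 1) → ℝ := fun i => if (i : ℕ) = 1 then δ else 1
  have hr : ∏ i, r i = δ := by
    have : (∏ i, r i) = ∏ i : Fin (n + 1), if i = (⟨1, by omega⟩ : Fin (n + 1)) then δ else 1 := by
      refine Finset.prod_congr rfl fun i _ => ?_
      show (if (i : ℕ) = 1 then δ else 1) = _
      congr 1
      rw [Fin.ext_iff]
    rw [this, Finset.prod_ite_eq' Finset.univ]
    simp
  have hA : ∀ i j, |(t3M n x U Z * GR) i j| ≤ r i * N j := by
    intro i j
    rw [Matrix.mul_apply]
    by_cases hi0 : (i : ℕ) = 0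
    · have h2 : ∑ l, t3M n x U Z i l * GR l j = U * t3E x (fun l => G l j) := by
        rw [t3E, Finset.mul_sum]
        refine Finset.sum_congr rfl fun l _ => ?_
        simp only [t3M, Matrix.of_apply, hi0, if_true, hGR, Matrix.map_apply]
        ring
      rw [h2, abs_mul, abs_of_pos hU0]
      have h3 : r i = 1 := by
        show (if (i : ℕ) = 1 then δ else 1) = 1
        rw [if_neg (by omega)]
      rw [h3, one_mul]
      exact hE j
    · by_cases hi1 : (i : ℕ) = 1
      · have h2 : ∑ l, t3M n x U Z i l * GR l j = t3D x (fun l => G l j) / Z := by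
          rw [t3D, Finset.sum_div]
          refine Finset.sum_congr rfl fun l _ => ?_
          simp only [t3M, Matrix.of_apply, hi1, if_true, hGR, Matrix.map_apply]
          rw [if_neg one_ne_zero]
          ring
        have h3 : r i = δ := by
          show (if (i : ℕ) = 1 then δ else 1) = δ
          rw [if_pos hi1]
        rw [h2, h3, abs_div, abs_of_pos hZ0, div_le_iff₀ hZ0]
        have := (hcon j).le
        linarith
      · have h2 : ∑ l, t3M n x U Z i l * GR l j = (G i j : ℝ) / Z := by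
          rw [Finset.sum_eq_single i]
          · simp only [t3M, Matrix.of_apply, hi1, hi0, if_false, if_true, hGR, Matrix.map_apply]
            ring
          · intro l _ hl
            simp only [t3M, Matrix.of_apply, hi1, hi0, if_false]
            rw [if_neg hl, zero_mul]
          · intro h
            exact absurd (Finset.mem_univ _) h
        have h3 : r i = 1 := by
          show (if (i : ℕ) = 1 then δ else 1) = 1
          rw [if_neg hi1]
        rw [h2, h3, one_mul, abs_div, abs_of_pos hZ0, div_le_iff₀ hZ0]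
        refine hc j i ?_
        intro h
        rw [h] at hi0
        exact hi0 rfl
  have h2 := t3_det_le _ r N hA
  rw [h1, hr] at h2
  have h3 : ((n + 1).factorial : ℝ) * (δ * ∏ j, N j) ≤
      ((n + 1).factorial : ℝ) * (δ * (C0 * (U / Z ^ n))) := by
    gcongr
  have h4 : ((n + 1).factorial : ℝ) * (δ * (C0 * (U / Z ^ n))) = 1 / 2 * (U * (1 / Z) ^ n) := by
    rw [hδ, one_div_pow]
    field_simp
  have h5 : (0 : ℝ) < U * (1 / Z) ^ n := by positivity
  linarith

private theorem t3E_add {n : ℕ} (x : ℝ) (f g : Fin (n + 1) → ℤ) (a : ℤ) :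
    t3E x (fun l => f l + a * g l) = t3E x f + a * t3E x g := by
  simp only [t3E]
  rw [Finset.mul_sum, ← Finset.sum_add_distrib]
  refine Finset.sum_congr rfl fun l _ => ?_
  push_cast
  ring

private theorem t3D_add {n : ℕ} (x : ℝ) (f g : Fin (n + 1) → ℤ) (a : ℤ) :
    t3D x (fun l => f l + a * g l) = t3D x f + a * t3D x g := by
  simp only [t3D]
  rw [Finset.mul_sum, ← Finset.sum_add_distrib]
  refine Finset.sum_congr rfl fun l _ => ?_
  push_cast
  ring

private theorem t3E_sum {n : ℕ} (x : ℝ) (G : Matrix (Fin (n + 1)) (Fin (n + 1)) ℤ)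
    (c : Fin (n + 1) → ℤ) :
    t3E x (fun l => ∑ j, G l j * c j) = ∑ j, (c j : ℝ) * t3E x (fun l => G l j) := by
  simp only [t3E]
  simp_rw [Finset.mul_sum]
  rw [Finset.sum_comm]
  refine Finset.sum_congr rfl fun l _ => ?_
  push_cast
  rw [Finset.sum_mul]
  refine Finset.sum_congr rfl fun j _ => ?_
  ring

/-- The polynomial with a given coefficient vector. -/
private noncomputable def t3P {n : ℕ} (f : Fin (n + 1) → ℤ) : ℤ[X] :=
  ∑ l : Fin (n + 1), C (f l) * X ^ (l : ℕ)

private theorem t3P_coeff {n : ℕ} (f : Fin (n + 1) → ℤ) (i : ℕ) :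
    (t3P f).coeff i = if h : i < n + 1 then f ⟨i, h⟩ else 0 := by
  simp only [t3P, finsetSum_coeff, coeff_C_mul, coeff_X_pow]
  by_cases h : i < n + 1
  · rw [dif_pos h, Finset.sum_eq_single ⟨i, h⟩]
    · simp
    · intro l _ hl
      have : i ≠ (l : ℕ) := by
        intro h2
        apply hl
        rw [Fin.ext_iff]
        exact h2.symm
      rw [if_neg this, mul_zero]
    · intro h
      exact absurd (Finset.mem_univ _) h
  · rw [dif_neg h]
    refine Finset.sum_eq_zero fun l _ => ?_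
    have : i ≠ (l : ℕ) := by
      have := l.2
      omega
    rw [if_neg this, mul_zero]

private theorem t3P_eval {n : ℕ} (f : Fin (n + 1) → ℤ) (x : ℝ) : aeval x (t3P f) = t3E x f := by
  simp [t3P, t3E]

private theorem t3P_der {n : ℕ} (f : Fin (n + 1) → ℤ) (x : ℝ) :
    aeval x (derivative (t3P f)) = t3D x f := by
  simp only [t3P, t3D, map_sum]
  refine Finset.sum_congr rfl fun l _ => ?_
  simp [derivative_X_pow]

theorem star_poly (n : ℕ) (hn : 1 ≤ n) : ∃ C : ℝ, 1 ≤ C ∧ ∀ x U Z : ℝ, 0 ≤ x → x ≤ 1 → 1 ≤ U →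
    1 ≤ Z → Free n x U Z → ∃ F : ℤ[X], F.natDegree ≤ n ∧ F.coeff n % 4 = 1 ∧
      F.coeff 0 % 4 = 2 ∧ (∀ i, 0 < i → i < n → (4 : ℤ) ∣ F.coeff i) ∧
      (∀ i, |(F.coeff i : ℝ)| ≤ C * Z) ∧ |aeval x F| ≤ C / U ∧
      Z / C ≤ |aeval x (derivative F)| := by
  obtain ⟨C0, hC0, hdual⟩ := dual_basis n
  have hfac : (1 : ℝ) ≤ (n + 1).factorial := by exact_mod_cast Nat.factorial_pos _
  set K : ℝ := 3 * (n + 1) * C0 + 8 * C0 with hK
  have hn0 : (0 : ℝ) ≤ n := Nat.cast_nonneg n
  have hK1 : 1 ≤ K := by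
    rw [hK]
    nlinarith
  refine ⟨(n + 1).factorial * ((n + 1) * K), ?_, ?_⟩
  · have : (1 : ℝ) ≤ (n + 1) * K := by nlinarith
    nlinarith
  intro x U Z hx0 hx1 hU hZ hfree
  obtain ⟨G, N, hG, hN, hprod, hE, hc⟩ := hdual x U Z hx0 hx1 hU hZ hfree
  have hE' : ∀ j, U * |t3E x (fun l => G l j)| ≤ N j := hE
  have hZ0 : 0 < Z := by linarith
  have hU0 : 0 < U := by linarith
  obtain ⟨j0, hj0⟩ := t3_der n hn hC0 hU hZ G N hG hN hprod hE' hc
  -- the multiple of `P_{j0}`
  set a : ℤ := ⌈C0 / N j0⌉ with ha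
  have hNj0 := (hN j0).1
  have ha1 : C0 / N j0 ≤ (a : ℝ) := Int.le_ceil _
  have ha2 : (a : ℝ) < C0 / N j0 + 1 := Int.ceil_lt_add_one _
  have ha0 : (0 : ℝ) < a := lt_of_lt_of_le (by positivity) ha1
  have haN : (a : ℝ) * N j0 ≤ 2 * C0 := by
    have h1 : (a : ℝ) * N j0 ≤ (C0 / N j0 + 1) * N j0 := by gcongr
    have h2 : (C0 / N j0 + 1) * N j0 = C0 + N j0 := by field_simp
    have h3 := (hN j0).2
    linarith
  have haD : 1 / (2 * ((n + 1).factorial : ℝ)) * Z ≤ a * |t3D x (fun l => G l j0)| := by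
    have h1 : (C0 / N j0) * (1 / (2 * ((n + 1).factorial : ℝ) * C0) * Z * N j0) ≤
        a * |t3D x (fun l => G l j0)| := by
      gcongr
    have h2 : (C0 / N j0) * (1 / (2 * ((n + 1).factorial : ℝ) * C0) * Z * N j0) =
        1 / (2 * ((n + 1).factorial : ℝ)) * Z := by
      have : (0 : ℝ) < (n + 1).factorial := by linarith
      have : (0 : ℝ) < C0 := by linarith
      field_simp
    linarith
  -- the residues
  let t : Fin (n + 1) → ℤ := fun l =>
    if (l : ℕ) = n then 1 else if (l : ℕ) = 0 then 2 else 0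
  set b : Fin (n + 1) → ℤ := G⁻¹.mulVec t with hb
  have hGb : G.mulVec b = t := by
    rw [hb, Matrix.mulVec_mulVec, Matrix.mul_nonsing_inv _ hG, Matrix.one_mulVec]
  set c : Fin (n + 1) → ℤ := fun j => b j % 4 with hcdef
  have hc0 : ∀ j, 0 ≤ c j := fun j => Int.emod_nonneg _ (by norm_num)
  have hc3 : ∀ j, c j ≤ 3 := fun j => by
    have := Int.emod_lt_of_pos (b j) (show (0 : ℤ) < 4 by norm_num)
    show b j % 4 ≤ 3
    omega
  have hcabs : ∀ j, |(c j : ℝ)| ≤ 3 := by
    intro j
    have h1 : (0 : ℝ) ≤ c j := by exact_mod_cast hc0 j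
    have h2 : (c j : ℝ) ≤ 3 := by exact_mod_cast hc3 j
    rw [abs_of_nonneg h1]
    exact h2
  set f0 : Fin (n + 1) → ℤ := fun l => ∑ j, G l j * c j with hf0
  have hf0mod : ∀ l, (4 : ℤ) ∣ f0 l - t l := by
    intro l
    have h1 : t l = ∑ j, G l j * b j := by
      rw [← hGb]
      rfl
    rw [h1, hf0]
    show (4 : ℤ) ∣ (∑ j, G l j * c j) - ∑ j, G l j * b j
    rw [← Finset.sum_sub_distrib]
    refine Finset.dvd_sum fun j _ => ?_
    rw [← mul_sub]
    refine Dvd.dvd.mul_left ?_ _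
    show (4 : ℤ) ∣ b j % 4 - b j
    omega
  have hf0E : U * |t3E x f0| ≤ 3 * (n + 1) * C0 := by
    rw [hf0, t3E_sum]
    calc U * |∑ j, (c j : ℝ) * t3E x (fun l => G l j)|
        ≤ U * ∑ j, |(c j : ℝ) * t3E x (fun l => G l j)| := by
          gcongr
          exact Finset.abs_sum_le_sum_abs _ _
      _ = ∑ j, |(c j : ℝ)| * (U * |t3E x (fun l => G l j)|) := by
          rw [Finset.mul_sum]
          refine Finset.sum_congr rfl fun j _ => ?_
          rw [abs_mul]
          ring
      _ ≤ ∑ _j : Fin (n + 1), 3 * C0 := by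
          refine Finset.sum_le_sum fun j _ => ?_
          have h1 := hcabs j
          have h2 := (hE' j).trans (hN j).2
          have h3 : 0 ≤ U * |t3E x (fun l => G l j)| := by positivity
          gcongr
      _ = 3 * (n + 1) * C0 := by
          rw [Finset.sum_const, Finset.card_univ, Fintype.card_fin, nsmul_eq_mul]
          push_cast
          ring
  have hf0c : ∀ m, m ≠ 0 → |(f0 m : ℝ)| ≤ 3 * (n + 1) * C0 * Z := by
    intro m hm
    rw [hf0]
    push_cast
    calc |∑ j, (G m j : ℝ) * (c j : ℝ)| ≤ ∑ j, |(G m j : ℝ) * (c j : ℝ)| :=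
          Finset.abs_sum_le_sum_abs _ _
      _ ≤ ∑ _j : Fin (n + 1), (C0 * Z) * 3 := by
          refine Finset.sum_le_sum fun j _ => ?_
          rw [abs_mul]
          have h1 := hcabs j
          have h2 : |(G m j : ℝ)| ≤ C0 * Z := by
            refine (hc j m hm).trans ?_
            have := (hN j).2
            gcongr
          gcongr
      _ = 3 * (n + 1) * C0 * Z := by
          rw [Finset.sum_const, Finset.card_univ, Fintype.card_fin, nsmul_eq_mul]
          push_cast
          ring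
  -- a good coefficient vector
  obtain ⟨f, hfmod, hfE, hfc, hfD⟩ : ∃ f : Fin (n + 1) → ℤ, (∀ l, (4 : ℤ) ∣ f l - t l) ∧
      U * |t3E x f| ≤ K ∧ (∀ m, m ≠ 0 → |(f m : ℝ)| ≤ K * Z) ∧
      Z / (n + 1).factorial ≤ |t3D x f| := by
    by_cases hD : Z / (n + 1).factorial ≤ |t3D x f0|
    · refine ⟨f0, hf0mod, ?_, ?_, hD⟩
      · rw [hK]
        linarith
      · intro m hm
        refine (hf0c m hm).trans ?_
        rw [hK]
        have : 0 ≤ C0 * Z := by positivity
        nlinarith
    · push Not at hD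
      refine ⟨fun l => f0 l + (4 * a) * G l j0, ?_, ?_, ?_, ?_⟩
      · intro l
        have h1 := hf0mod l
        have h2 : f0 l + (4 * a) * G l j0 - t l = (f0 l - t l) + 4 * (a * G l j0) := by ring
        show (4 : ℤ) ∣ f0 l + (4 * a) * G l j0 - t l
        rw [h2]
        exact dvd_add h1 (dvd_mul_right _ _)
      · rw [t3E_add x f0 (fun l => G l j0) (4 * a)]
        have h1 : |t3E x f0 + ((4 * a : ℤ) : ℝ) * t3E x (fun l => G l j0)| ≤
            |t3E x f0| + (4 * a) * |t3E x (fun l => G l j0)| := by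
          refine (abs_add_le _ _).trans ?_
          rw [abs_mul]
          push_cast
          rw [abs_of_pos (show (0 : ℝ) < 4 * a by positivity)]
        have h2 : U * (|t3E x f0| + (4 * a) * |t3E x (fun l => G l j0)|) =
            U * |t3E x f0| + 4 * (a * (U * |t3E x (fun l => G l j0)|)) := by ring
        have h3 : a * (U * |t3E x (fun l => G l j0)|) ≤ a * N j0 := by
          have := hE' j0
          gcongr
        calc U * |t3E x f0 + ((4 * a : ℤ) : ℝ) * t3E x (fun l => G l j0)|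
            ≤ U * (|t3E x f0| + (4 * a) * |t3E x (fun l => G l j0)|) := by gcongr
          _ = _ := h2
          _ ≤ K := by
            rw [hK]
            linarith
      · intro m hm
        push_cast
        have h1 : |(f0 m : ℝ) + 4 * a * (G m j0 : ℝ)| ≤ |(f0 m : ℝ)| + 4 * (a * |(G m j0 : ℝ)|) := by
          refine (abs_add_le _ _).trans ?_
          rw [abs_mul, abs_of_pos (show (0 : ℝ) < 4 * a by positivity)]
          linarith
        have h2 : a * |(G m j0 : ℝ)| ≤ a * (N j0 * Z) := by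
          have := hc j0 m hm
          gcongr
        have h3 : a * (N j0 * Z) ≤ 2 * C0 * Z := by
          rw [← mul_assoc]
          gcongr
        have h4 := hf0c m hm
        have h5 : K * Z = 3 * (n + 1) * C0 * Z + 4 * (2 * C0 * Z) := by
          rw [hK]
          ring
        linarith
      · rw [t3D_add x f0 (fun l => G l j0) (4 * a)]
        have h1 : (4 * a) * |t3D x (fun l => G l j0)| - |t3D x f0| ≤
            |t3D x f0 + ((4 * a : ℤ) : ℝ) * t3D x (fun l => G l j0)| := by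
          have h2 := abs_sub_abs_le_abs_sub (((4 * a : ℤ) : ℝ) * t3D x (fun l => G l j0))
            (-t3D x f0)
          rw [abs_mul, abs_neg, sub_neg_eq_add] at h2
          push_cast at h2 ⊢
          rw [abs_of_pos (show (0 : ℝ) < 4 * a by positivity)] at h2
          rw [add_comm (t3D x f0)]
          exact h2
        have h2 : 1 / (2 * ((n + 1).factorial : ℝ)) * Z = (Z / (n + 1).factorial) / 2 := by
          have : (0 : ℝ) < (n + 1).factorial := by linarith
          field_simp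
        rw [h2] at haD
        linarith
  -- the bound of the constant coefficient
  have hf0' : |(f 0 : ℝ)| ≤ (n + 1) * K * Z := by
    have h1 : t3E x f = (f 0 : ℝ) + ∑ l : Fin n, (f l.succ : ℝ) * x ^ ((l : ℕ) + 1) := by
      rw [t3E, Fin.sum_univ_succ]
      simp
    have h2 : |∑ l : Fin n, (f l.succ : ℝ) * x ^ ((l : ℕ) + 1)| ≤ n * (K * Z) := by
      calc |∑ l : Fin n, (f l.succ : ℝ) * x ^ ((l : ℕ) + 1)|
          ≤ ∑ l : Fin n, |(f l.succ : ℝ) * x ^ ((l : ℕ) + 1)| := Finset.abs_sum_le_sum_abs _ _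
        _ ≤ ∑ _l : Fin n, K * Z := by
            refine Finset.sum_le_sum fun l _ => ?_
            rw [abs_mul, abs_of_nonneg (pow_nonneg hx0 _)]
            have h3 := hfc l.succ (Fin.succ_ne_zero l)
            have h4 : x ^ ((l : ℕ) + 1) ≤ 1 := pow_le_one₀ hx0 hx1
            calc |(f l.succ : ℝ)| * x ^ ((l : ℕ) + 1) ≤ |(f l.succ : ℝ)| * 1 := by gcongr
              _ ≤ K * Z := by rw [mul_one]; exact h3
        _ = n * (K * Z) := by
            rw [Finset.sum_const, Finset.card_univ, Fintype.card_fin, nsmul_eq_mul]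
    have h3 : |t3E x f| ≤ K * Z := by
      have h4 : |t3E x f| ≤ U * |t3E x f| := by
        have := abs_nonneg (t3E x f)
        nlinarith
      have h5 : K ≤ K * Z := by nlinarith
      linarith
    have h4 : (f 0 : ℝ) = t3E x f - ∑ l : Fin n, (f l.succ : ℝ) * x ^ ((l : ℕ) + 1) := by
      rw [h1]
      ring
    rw [h4]
    refine (abs_sub _ _).trans ?_
    linarith
  have hallc : ∀ l, |(f l : ℝ)| ≤ (n + 1) * K * Z := by
    intro l
    by_cases hl : l = 0
    · rw [hl]
      exact hf0'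
    · refine (hfc l hl).trans ?_
      have : 0 ≤ n * (K * Z) := by positivity
      nlinarith
  have hKn : (0 : ℝ) < (n + 1) * K := by positivity
  refine ⟨t3P f, ?_, ?_, ?_, ?_, ?_, ?_, ?_⟩
  · rw [natDegree_le_iff_coeff_eq_zero]
    intro N' hN'
    rw [t3P_coeff, dif_neg (by omega)]
  · rw [t3P_coeff, dif_pos (by omega)]
    have h1 := hfmod ⟨n, by omega⟩
    have h2 : t ⟨n, by omega⟩ = 1 := by
      show (if n = n then (1 : ℤ) else if n = 0 then 2 else 0) = 1
      rw [if_pos rfl]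
    rw [h2] at h1
    omega
  · rw [t3P_coeff, dif_pos (by omega)]
    have h1 := hfmod ⟨0, by omega⟩
    have h2 : t ⟨0, by omega⟩ = 2 := by
      show (if 0 = n then (1 : ℤ) else if 0 = 0 then 2 else 0) = 2
      rw [if_neg (by omega), if_pos rfl]
    rw [h2] at h1
    omega
  · intro i hi0 hin
    rw [t3P_coeff, dif_pos (by omega)]
    have h1 := hfmod ⟨i, by omega⟩
    have h2 : t ⟨i, by omega⟩ = 0 := by
      show (if i = n then (1 : ℤ) else if i = 0 then 2 else 0) = 0
      rw [if_neg (by omega), if_neg (by omega)]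
    rw [h2] at h1
    omega
  · intro i
    rw [t3P_coeff]
    split_ifs with h
    · refine (hallc _).trans ?_
      have : 0 ≤ (n + 1) * K * Z := by positivity
      nlinarith
    · simp only [Int.cast_zero, abs_zero]
      positivity
  · rw [t3P_eval, le_div_iff₀ hU0]
    have h1 : K ≤ (n + 1) * K := by nlinarith
    have h2 : (n + 1) * K ≤ (n + 1).factorial * ((n + 1) * K) := by nlinarith
    linarith
  · rw [t3P_der]
    refine le_trans ?_ hfD
    have h1 : (1 : ℝ) ≤ (n + 1) * K := by nlinarith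
    have h2 : ((n + 1).factorial : ℝ) ≤ (n + 1).factorial * ((n + 1) * K) := by nlinarith
    gcongr

end Pool.Agent.Lib.H70X
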