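import Pool.Agent.Lib.H70X.Defs

/-! # Chunk WR1: a sparse polynomial has small multiplicity at a nonzero point
(small/medium, pure Mathlib)

Proof by induction on `t`: for `e` in the support of `g` the coefficients of `X g' - e g` are
`(i - e) g_i`, so exactly one term disappears, and `(X - a)^(t-1)` divides it. -/

open Polynomial MeasureTheory Set Filter

namespace Pool.Agent.Lib.H70X

theorem sparse_mult (g : ℚ[X]) (hg : g ≠ 0) (a : ℚ) (ha : a ≠ 0) (t : ℕ)
    (h : (X - C a) ^ t ∣ g) : t < g.support.card := by
  induction t generalizing g with
  | zero =>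
    rw [Finset.card_pos, Polynomial.nonempty_support_iff]
    exact hg
  | succ t ih =>
    obtain ⟨e, he⟩ : g.support.Nonempty := by
      rw [Polynomial.nonempty_support_iff]
      exact hg
    set k : ℚ[X] := X * derivative g - C (e : ℚ) * g with hk
    have hcoef : ∀ i, k.coeff i = ((i : ℚ) - e) * g.coeff i := by
      intro i
      rw [hk, coeff_sub, coeff_C_mul]
      rcases i with _ | i
      · simp
      · rw [coeff_X_mul, coeff_derivative]
        push_cast
        ring
    have hsupp : k.support = g.support.erase e := by
      ext i
      rw [mem_support_iff, hcoef, Finset.mem_erase, mem_support_iff, mul_ne_zero_iff, sub_ne_zero,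
        Ne, Nat.cast_inj]
    have hcard : (g.support.erase e).card = g.support.card - 1 := Finset.card_erase_of_mem he
    have hpos : 0 < g.support.card := Finset.card_pos.2 ⟨e, he⟩
    have hk0 : k ≠ 0 := by
      intro h0
      have h1 : g.support.erase e = ∅ := by
        rw [← hsupp, h0, support_zero]
      have h2 : g = monomial e (g.coeff e) := by
        ext i
        rw [coeff_monomial]
        by_cases hi : e = i
        · rw [if_pos hi, hi]
        · rw [if_neg hi]
          by_contra h3
          have h4 : i ∈ g.support.erase e :=
            Finset.mem_erase.2 ⟨fun h => hi h.symm, mem_support_iff.2 h3⟩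
          rw [h1] at h4
          exact absurd h4 (Finset.notMem_empty _)
      have h5 : (X - C a) ∣ g := (dvd_pow_self _ (Nat.succ_ne_zero t)).trans h
      rw [dvd_iff_isRoot, IsRoot.def, h2, eval_monomial] at h5
      rcases mul_eq_zero.1 h5 with h6 | h6
      · exact mem_support_iff.1 he h6
      · exact pow_ne_zero e ha h6
    have hdvd : (X - C a) ^ t ∣ k := by
      rw [hk]
      apply dvd_sub
      · apply Dvd.dvd.mul_left
        exact pow_sub_one_dvd_derivative_of_pow_dvd h
      · exact Dvd.dvd.mul_left ((pow_dvd_pow _ (Nat.le_succ t)).trans h) _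
    have := ih k hk0 hdvd
    rw [hsupp, hcard] at this
    omega

end Pool.Agent.Lib.H70X
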